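import Pool.Agent.MP_ee8c61_ag.Q3IZ.SDefs
import Pool.Agent.MP_ee8c61_ag.Q3P.FK
import Pool.Agent.MP_ee8c61_ag.M3F.RF

/-! The ruling with two sections of exponent zero. -/

namespace Pool.Agent.MP_ee8c61_ag.Q3IZ

open M3 M3RESID M3F Pool.Agent.MP_cce4c9_lc.H87 Polynomial WithZero Finset
open scoped IntermediateField

noncomputable section

namespace RRul

variable {L : Type} [Field L] [Algebra ℂ L]

section Ada

open M3H47

variable {K0 : IntermediateField ℂ L} {y t : L} {X0 X1 : VF L}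

theorem laurent0 (A : Ada K0 y t X0 X1) (hy : y ≠ 0) (m : ℤ) (B : K0[X]) :
    ∃ c ∈ K0, ∃ g : L, y ^ m * aeval y B = c + X0 g := by
  induction B using Polynomial.induction_on' with
  | add p q hp hq =>
    obtain ⟨c, hc, p', hp⟩ := hp
    obtain ⟨c', hc', q', hq⟩ := hq
    exact ⟨c + c', add_mem hc hc', p' + q', by
      rw [map_add, map_add, mul_add, hp, hq]; ring⟩
  | monomial n c =>
    have e3 : y ^ m * ((c : L) * y ^ n) = c * y ^ (m + n) := by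
      rw [zpow_add₀ hy, zpow_natCast]; ring
    have e5 : aeval y (monomial n c : K0[X]) = (c : L) * y ^ n := by
      rw [aeval_monomial]; rfl
    rw [e5, e3]
    by_cases h0 : m + n = 0
    · exact ⟨c, c.2, 0, by rw [h0]; simp⟩
    have e1 := eig_zpow X0 hy (c := 1) (by simpa using A.y0) (m + n)
    have e2 : algebraMap ℂ L ((m + n : ℤ) : ℂ) ≠ 0 :=
      (_root_.map_ne_zero _).2 (Int.cast_ne_zero.2 h0)
    refine ⟨0, zero_mem _, c * (algebraMap ℂ L ((m + n : ℤ) : ℂ))⁻¹ * y ^ (m + n), ?_⟩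
    rw [Derivation.leibniz, e1, A.k0 _ (mul_mem c.2 (inv_mem (K0.algebraMap_mem _))), mul_one,
      Algebra.smul_def ((m + n : ℤ) : ℂ)]
    simp only [smul_eq_mul, mul_zero, add_zero, zero_add]
    field_simp

theorem eul0 (A : Ada K0 y t X0 X1) (h : Rl K0 y) {o : DV L} (ho : Hor K0 o) (hv : o.v y = 1) :
    M3F.Eul o X0 := fun m g hg => by
  have hy := h.y_ne
  have hp : y ∈ o.F 1 := Or.inr hv.ge
  have y0 := F_nu hp
  have hk := (A.pz hy).keep h (O := o.O) ho.2 (ValuationSubring.nonunits_subset y0) prime_X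
    (by simpa using y0)
  obtain ⟨e, he, h1⟩ := split hv X0 hg
  have h2 : (y⁻¹ • X0) e ∈ o.F 0 := hk e he
  have h3 := o.F_mul (F_zpow hv m) (o.F_mul hp h2)
  rw [Derivation.smul_apply, smul_eq_mul, mul_inv_cancel_left₀ hy, add_zero] at h3
  rw [h1, A.y0, div_self hy, mul_one, add_sub_cancel_left]
  exact h3

theorem eul_F1 {o : DV L} (ho : Hor K0 o) {θ : VF L} (hθ : M3F.Eul o θ) {g : L}
    (hg : θ g ∈ o.F 0) : θ g ∈ o.F 1 := by
  have := cz L
  by_cases h0 : g ∈ o.F 0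
  · simpa using hθ 0 g h0
  exfalso
  have hg0 : g ≠ 0 := fun e => h0 (Or.inl e)
  have hv : o.v g < 0 := not_le.1 fun e => h0 (Or.inr e)
  have h1 := hθ _ g (o.mem_F_self g)
  have h2 : (o.v g : L) * g ∈ o.F (o.v g + 1) := by
    have := sub_mem (o.F_anti (by omega : o.v g + 1 ≤ 0) hg) h1
    rwa [sub_sub_cancel] at this
  have h3 := o.F_mul (ho.2 _ (inv_mem (intCast_mem K0 (o.v g)))) h2
  rw [inv_mul_cancel_left₀ (Int.cast_ne_zero.2 hv.ne), zero_add] at h3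
  have := h3.resolve_left hg0
  omega

end Ada

theorem frame {d : Dv L} {v : VF L} {t : L} (ht : ∃ X : VF L, X t ≠ 0)
    {Y : Derivation (Kz t) L L} {N : Place (Kz t) L → ℕ}
    (hD : M3G.Deg Y 0 N) {P₀ P₁ : Place (Kz t) L} (h₀ : N P₀ = 1) (h₁ : N P₁ = 1) (hne : P₁ ≠ P₀)
    (hr : ∀ P, P ≠ P₀ → P ≠ P₁ → Exp d (dvOf P) 1 ∧ Good d v (dvOf P)) (C : Co L 2) :
    ∃ C' : Co L 2, Rul C' (Kz t) ∧ P₁.ord (C'.z 0) = 1 ∧ P₀.ord (C'.z 0) = -1 ∧
      ∀ p : (Kz t)[X], Irreducible p → p.coeff 0 ≠ 0 → Ord d v (Kz t) (C'.z 0) p := by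
  obtain ⟨y, h1, h2, h3, h4⟩ := hD.rat rfl P₀ h₀
  obtain ⟨c, hc1⟩ := h4 P₁ h₁ hne
  have hy0 : y ≠ 0 := fun e => by simp [e] at h1
  have g1 : P₀.ord (y - algebraMap _ L c) = -1 := P₀.ord_eq (by
    have e : P₀.val y = exp 1 := by rw [P₀.val_eq (P₀.val_ne hy0), h1, neg_neg]
    rw [P₀.val.map_sub_eq_of_lt_left, e, neg_neg]
    exact (P₀.const_le c).trans_lt (by rw [e, ← exp_zero, exp_lt_exp]; omega))
  have g2 : ∀ P, P ≠ P₀ → P.val (y - algebraMap _ L c) ≤ 1 := fun P hP =>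
    (P.val.map_sub _ _).trans (max_le (h2 P hP) (P.const_le c))
  have g3 : (Kz t)⟮y - algebraMap _ L c⟯ = ⊤ := by
    rw [eq_top_iff, ← h3, IntermediateField.adjoin_simple_le_iff]
    simpa using add_mem (IntermediateField.mem_adjoin_simple_self (Kz t) (y - algebraMap _ L c))
      (IntermediateField.algebraMap_mem _ c)
  have g4 := simple_zero hD h₀ g1 g2 hc1
  obtain ⟨C', e, hC⟩ := rul C ht g3
  rw [← e] at g1 g2 g4 hc1
  refine ⟨C', hC, g4, g1, fun p hp h0 => ?_⟩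
  obtain ⟨P, hP, h⟩ := ord_place hD g1 hp
  exact ⟨_, hor_dvOf P, (mem_F P).2 (g2 P hP), (lt_iff P).1 h,
    hr P hP fun e => h.ne (e ▸ val_coeff hc1 h0)⟩

theorem ada {C : Co L 2} {K0 : IntermediateField ℂ L} (h : Rul C K0) :
    M3H47.Ada K0 (C.z 0) (C.z 1) (C.th 0) (C.D 1) where
  k0 c hc := by simp [Co.th, h.kill c hc]
  y0 := by simp [Co.th, C.dual]
  y1 := by simp [C.dual]
  t1 := by simp [C.dual]
  t0 := h.mem
  span w h0 h1 := C.span w fun j => by fin_cases j <;> assumption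

end RRul

open RRul

theorem rowRul : SRul := by
  intro L ι _ _ _ Z hZ t G₁ G₂ ht hne h1 h2 e1 e2 hall ⟨Θ, _, hΘ⟩
  obtain ⟨Y, g, N, A, S, hD, hN⟩ := Q3P.num0 (d := Z.d) hZ.fin ⟨Z.q, Z.ψ, hZ.q0, hZ.ψ0, hZ.rat⟩ ht
    1 0 fun _ => 0
  obtain ⟨P₁, rfl⟩ := exists_place h1
  obtain ⟨P₀, rfl⟩ := exists_place h2
  have hne' : P₁ ≠ P₀ := fun e => hne (by rw [e])
  have hN' : ∀ P, (1 : ℚ) ≤ N P := fun P => by exact_mod_cast hD.pos P
  have z0 : ∀ P, Exp Z.d (dvOf P) 0 → A P = 0 := fun P h =>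
    (hN.uniq P 0 (by simpa using h)).symm
  have z1 : ∀ P, Exp Z.d (dvOf P) 1 → A P = 1 := fun P h =>
    (hN.uniq P 1 (by simpa using h)).symm
  have mS : ∀ P, A P = 0 → P ∈ S := fun P h => by_contra fun x => by
    linarith [(hN.off P x).1]
  have hc : ∀ P ∈ S, 0 ≤ 1 - A P := fun P _ => by
    rcases hall _ (hor_dvOf P) with h | h
    · rw [z0 P h]; norm_num
    · rw [z1 P h.1]; norm_num
  have hs : ∑ P ∈ S, (N P : ℚ) * (1 - A P) = 2 - 2 * g := by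
    rw [← neg_sub, ← hN.can, ← sum_neg_distrib]
    exact sum_congr rfl fun P _ => by ring
  have a1 := z0 P₁ e1
  have a0 := z0 P₀ e2
  have hg : (0 : ℚ) ≤ g := Nat.cast_nonneg _
  have s2 := le_two (N := N) (c := fun P => 1 - A P) hc (mS _ a1) (mS _ a0) hne'
  rw [hs, a1, a0] at s2
  have n1 : N P₁ = 1 := by
    have : (N P₁ : ℚ) = 1 := by linarith [hN' P₁, hN' P₀]
    exact_mod_cast this
  have n0 : N P₀ = 1 := by
    have : (N P₀ : ℚ) = 1 := by linarith [hN' P₁, hN' P₀]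
    exact_mod_cast this
  obtain rfl : g = 0 := by
    have : (g : ℚ) = 0 := by linarith [hN' P₁, hN' P₀]
    exact_mod_cast this
  have hr : ∀ P, P ≠ P₀ → P ≠ P₁ → Exp Z.d (dvOf P) 1 ∧ Good Z.d Z.v (dvOf P) := fun P x y =>
    (hall _ (hor_dvOf P)).resolve_left fun h => by
      have a2 := z0 P h
      have s3 := le_three (N := N) (c := fun P => 1 - A P) hc (mS _ a1) (mS _ a0) (mS _ a2) hne'
        y.symm x.symm
      rw [hs, a1, a0, a2] at s3
      linarith [hN' P₁, hN' P₀, hN' P]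
  obtain ⟨C', hC, v1, v2, hO⟩ := frame ht hD n0 n1 hne' hr Z.C
  have hA := ada hC
  have hR := M3H47.rl_of hC.tr hC.gen
  have hy := hR.y_ne
  obtain ⟨d0, d1⟩ := hA.flat hR (M3H47.rl_inv hC.tr hC.gen) (good_of hO) (O0 := (dvOf P₁).O)
    (O1 := (dvOf P₀).O) h1.2 (M3H47.F_nu (Or.inr v1.ge)) (M3H47.log_of_exp h1.cst v1 e1)
    (M3H47.logE_of_exp h1.cst v1 e1) h2.2 (not_mem_of hy v2)
    (M3H47.log_of_exp h2.cst (v_inv v2) e2)
  have hu := M3J.ex_mem Z.d Z.C Θ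
  obtain ⟨g, -, _, ⟨k, rfl⟩, B, e⟩ := hA.red hR d0 (good_of hO) hu
  obtain ⟨c, hc0, g', hB⟩ := laurent0 hA hy (-k) B
  have e3 : Z.X Θ (C'.z 1) = c + C'.th 0 (g + g') := by
    have e4 : Z.X Θ (C'.z 1) - C'.th 0 g = c + C'.th 0 g' := by
      rw [← hB, ← e, M3H47.nab_apply]
      simp only [map_pow, aeval_X, zpow_neg, zpow_natCast, map_zero, zero_mul, add_zero, QD.X]
      field_simp
    rw [map_add]
    linear_combination e4
  have m1 := hΘ _ (h1.2 _ hC.mem)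
  have m2 : C'.th 0 (g + g') ∈ (dvOf P₁).F 1 := eul_F1 h1 (eul0 hA hR h1 v1) (by
    have := sub_mem ((dvOf P₁).F_anti zero_le_one m1) (h1.2 _ hc0)
    rwa [e3, add_sub_cancel_left] at this)
  obtain rfl : c = 0 := M3H47.k0_nu (O := (dvOf P₁).O) h1.2 hc0 (M3H47.F_nu (by
    have := sub_mem m1 m2
    rwa [e3, add_sub_cancel_right] at this))
  obtain ⟨α, k1, k2, -⟩ := hA.vert hy d0 (b := 0) (v := Z.v) (by rw [hZ.dv, map_zero]) hu
    (g := g + g') (by rw [M3H47.nab_apply, map_zero, zero_mul, add_zero]; simpa [QD.X] using e3)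
  rw [M3H47.nab_apply, map_zero, zero_mul, add_zero] at k2
  exact ⟨C', α, hC, h1, h2, v1, v2, e1, e2, by rw [d0, map_zero], d1,
    M3H47.ker_le hR _ hA.k0 (by rw [hA.y0]; exact hy) k2, k1⟩

end

end Pool.Agent.MP_ee8c61_ag.Q3IZ
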