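import Pool.Agent.MP_ee8c61_ag.Q3IZ.SDefs
import Pool.Agent.MP_ee8c61_ag.M3RESID.CvAt

/-!
The class along a curve of exponent zero, read on the curve.
-/

namespace Pool.Agent.MP_ee8c61_ag.Q3IZ

open M3 M3RESID M3F Pool.Agent.MP_cce4c9_lc.H87
open M3J (ex br)
open M3Z (cmp F10 pi_congr pi_sub pi_F1 pi_div pi_one pi_neg pi_cst pi_ne pi_inv pi_pow pi_nat)

noncomputable section

namespace RDict

variable {L k : Type} [Field L] [Algebra ℂ L] [Field k] [Algebra ℂ k]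

section Nor

variable {G : Pl L k} {X X' : VF L} {n n' : k}

theorem dlog_F0 (h : X ∈ LV G.o 0) (y : L) : X y / y ∈ G.o.F 0 := LV_dlog h y

theorem nor_add (h : Nor G X n) (h' : Nor G X' n') : Nor G (X + X') (n + n') :=
  ⟨add_mem h.1 h'.1, fun g hg => add_mem (h.2.1 g hg) (h'.2.1 g hg), fun y hy => by
    rw [Derivation.add_apply, add_div, G.add _ (dlog_F0 h.1 y) _ (dlog_F0 h'.1 y), h.2.2 y hy,
      h'.2.2 y hy]⟩

theorem nor_sub (h : Nor G X n) (h' : Nor G X' n') : Nor G (X - X') (n - n') :=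
  ⟨sub_mem h.1 h'.1, fun g hg => sub_mem (h.2.1 g hg) (h'.2.1 g hg), fun y hy => by
    rw [Derivation.sub_apply, sub_div, pi_sub (dlog_F0 h.1 y) (dlog_F0 h'.1 y), h.2.2 y hy,
      h'.2.2 y hy]⟩

omit [Algebra ℂ L] in
theorem ne_of_v {o : DV L} {y : L} (hy : o.v y = 1) : y ≠ 0 := fun h => by
  simp [h, o.zero] at hy

theorem nor_of {x : L} (hx : G.o.v x = 1) (h0 : X ∈ LV G.o 0)
    (h1 : ∀ g ∈ G.o.F 0, X g ∈ G.o.F 1) (h2 : G.π (X x / x) = n) : Nor G X n := by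
  refine ⟨h0, h1, fun y hy => ?_⟩
  have x0 := ne_of_v hx
  have y0 := ne_of_v hy
  have hu : G.o.v (y / x) = 0 := by rw [G.o.div y0 x0, hx, hy, sub_self]
  rw [← h2]
  refine pi_congr (dlog_F0 h0 x) ?_
  have e : X y / y - X x / x = X (y / x) / (y / x) := by
    rw [Derivation.leibniz_div]
    simp only [smul_eq_mul]
    field_simp
  rw [e]
  simpa [hu] using F_div (h1 _ (Or.inr hu.ge)) (y / x)

theorem nor_of_eul {κ : ℂ} (h : EulK G.o X κ) : Nor G X (algebraMap ℂ k κ) := by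
  refine ⟨fun m g hg => ?_, fun g hg => by simpa using h 0 g hg, fun y hy => ?_⟩
  · rw [add_zero, ← sub_add_cancel (X g) (algebraMap ℂ L κ * m * g)]
    exact add_mem (G.o.F_anti (by omega) (h m g hg))
      (F_mul0 (F_mul0 (cst_F _ κ) (int_F m)) hg)
  · rw [← pi_cst G]
    refine pi_congr (cst_F _ κ) ?_
    have := F_div (h 1 y (Or.inr hy.ge)) y
    rw [hy, sub_div, Int.cast_one, mul_one, mul_div_cancel_right₀ _ (ne_of_v hy)] at this
    simpa using this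

theorem eul_of_nor {x : L} (hx : G.o.v x = 1) {κ : ℂ} (h : Nor G X (algebraMap ℂ k κ)) :
    EulK G.o X κ := fun m g hg => by
  have x0 := ne_of_v hx
  have hm : G.o.v (x ^ m) = m := by rw [v_zpow _ x0, hx, mul_one]
  have hh : g / x ^ m ∈ G.o.F 0 := by simpa [hm] using F_div hg (x ^ m)
  have hxm : x ^ m ∈ G.o.F m := Or.inr hm.ge
  have h1 : X x / x - algebraMap ℂ L κ ∈ G.o.F 1 :=
    (G.ker _ (sub_mem (dlog_F0 h.1 x) (cst_F _ κ))).1 (by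
      rw [pi_sub (dlog_F0 h.1 x) (cst_F _ κ), h.2.2 x hx, pi_cst, sub_self])
  obtain ⟨u, hu⟩ : ∃ u, u = g / x ^ m := ⟨_, rfl⟩
  have eg : g = x ^ m * u := by rw [hu, mul_div_cancel₀ _ (zpow_ne_zero m x0)]
  rw [← hu] at hh
  have e : X g - algebraMap ℂ L κ * m * g =
      x ^ m * X u + x ^ m * (m * u * (X x / x - algebraMap ℂ L κ)) := by
    rw [eg, Derivation.leibniz, Dv.zpow_der X x x0, smul_eq_mul, smul_eq_mul]
    ring
  rw [e]
  exact add_mem (G.o.F_mul hxm (h.2.1 u hh))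
    (G.o.F_mul hxm (F_mul0 (F_mul0 (int_F m) hh) h1))

end Nor

section Val

variable {G : Pl L k}

theorem sm_cmp {W : ValuationSubring k} {g : L} (hg : g ∈ G.o.F 0) :
    Sm (cmp G W) g ↔ Sm W (G.π g) := by
  refine ⟨fun h => ⟨h.1.2, fun hu => h.2 (M3Z.un_cmp.2 ⟨?_, hu⟩)⟩,
    fun h => ⟨⟨hg, h.1⟩, fun hu => h.2 (M3Z.un_cmp.1 hu).2⟩⟩
  have h1 : g ∉ G.o.F 1 := fun h1 => hu.1 (pi_F1 h1)
  exact ⟨(CVA.unit_inv hg h1).1, hg, (CVA.unit_inv hg h1).2⟩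

theorem exists_cmp {V : ValuationSubring L} (h : Fg G.o V) :
    ∃ W : ValuationSubring k, (∀ c : ℂ, algebraMap ℂ k c ∈ W) ∧ V = cmp G W := by
  have h0 : ∀ g ∈ V, g ∈ G.o.F 0 := fun g hg => h.1 hg
  have h1 : ∀ g ∈ G.o.F 1, g ∈ V := fun g hg => by
    refine (V.mem_or_inv_mem g).elim id fun hi => ?_
    by_cases g0 : g = 0
    · exact g0 ▸ zero_mem V
    have a := hg.resolve_left g0
    have b := (h0 _ hi).resolve_left (inv_ne_zero g0)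
    rw [G.o.inv] at b
    omega
  refine ⟨{ carrier := {y | ∃ g ∈ V, G.π g = y}
            mul_mem' := ?_
            one_mem' := ⟨1, one_mem V, pi_one G⟩
            add_mem' := ?_
            zero_mem' := ⟨0, zero_mem V, G.π_zero⟩
            neg_mem' := ?_
            mem_or_inv_mem' := fun y => ?_ }, fun c => ⟨_, h.2 c, pi_cst G c⟩, ?_⟩
  · rintro _ _ ⟨a, ha, rfl⟩ ⟨b, hb, rfl⟩
    exact ⟨a * b, mul_mem ha hb, G.mul _ (h0 a ha) _ (h0 b hb)⟩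
  · rintro _ _ ⟨a, ha, rfl⟩ ⟨b, hb, rfl⟩
    exact ⟨a + b, add_mem ha hb, G.add _ (h0 a ha) _ (h0 b hb)⟩
  · rintro _ ⟨a, ha, rfl⟩
    exact ⟨-a, neg_mem ha, pi_neg (h0 a ha)⟩
  · obtain ⟨g, hg, rfl⟩ := G.surj y
    by_cases hV : g ∈ V
    · exact Or.inl ⟨g, hV, rfl⟩
    have h2 : g ∉ G.o.F 1 := fun h2 => hV (h1 g h2)
    have h3 := G.o.un_O.1 ⟨(CVA.unit_inv hg h2).1, hg, (CVA.unit_inv hg h2).2⟩
    exact Or.inr ⟨g⁻¹, (V.mem_or_inv_mem g).resolve_left hV, pi_inv h3.1 h3.2⟩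
  · ext g
    refine ⟨fun hg => ⟨h0 g hg, g, hg, rfl⟩, fun hg => ?_⟩
    obtain ⟨hg0, a, ha, e⟩ := hg
    have := add_mem (h1 _ ((G.ker _ (sub_mem hg0 (h0 a ha))).1 (by
      rw [pi_sub hg0 (h0 a ha), e, sub_self]))) ha
    rwa [sub_add_cancel] at this

omit [Algebra ℂ L] in
theorem exists_gi {ι : Type} [Fintype ι] (o : DV L) {ρ : ι → L} (h : ∃ r, ρ r ≠ 0) :
    ∃ r, Gi ρ o.O r := by
  classical
  obtain ⟨r, hr, hm⟩ := Finset.exists_min_image (Finset.univ.filter fun r => ρ r ≠ 0)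
    (fun r => o.v (ρ r)) (h.imp fun r hr => by simpa using hr)
  have r0 : ρ r ≠ 0 := by simpa using hr
  refine ⟨r, r0, fun r' => ?_⟩
  by_cases h' : ρ r' = 0
  · rw [h', zero_div]
    exact zero_mem _
  have := hm r' (by simpa using h')
  exact Or.inr (by rw [o.div h' r0]; omega)

theorem sm_of_pos (hk : IsFF ℂ k) {e : Dv k} {W : ValuationSubring k}
    (hW : ∀ c : ℂ, algebraMap ℂ k c ∈ W) {w : VF k} (hw : w ≠ 0) (h : PosV e W w) {q : ℕ} {F : k}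
    (hq : 0 < q) (hF : w F = q * e.δ w * F) : Sm W F := by
  obtain ⟨q', F', hq', h0, hF', hs⟩ := h.resolve_left hw
  have hp : ∀ (n : ℕ) (y c : k), w y = c * y → w (y ^ n) = n * c * y ^ n := fun n y c hy => by
    induction n with
    | zero => simp
    | succ n ih =>
      rw [pow_succ, Derivation.leibniz, ih, hy, smul_eq_mul, smul_eq_mul]
      push_cast
      ring
  have h1 : w (F ^ q' / F' ^ q) = 0 := by
    rw [Derivation.leibniz_div, hp q' F _ hF, hp q F' _ hF']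
    simp only [smul_eq_mul]
    ring
  obtain ⟨c, hc⟩ : F ^ q' / F' ^ q ∈ Set.range (algebraMap ℂ k) := by
    by_contra hn
    exact M3C.RDer.ne_zero hk w hw _ hn h1
  rw [eq_div_iff (pow_ne_zero _ h0)] at hc
  have h2 : F' ^ q ∈ W := W.pow_mem hs.1 q
  refine ⟨M3.mem_of_pow hq' (hc ▸ mul_mem (hW c) h2), fun hu => ?_⟩
  exact M3.not_un_mul (hW c) h2 (fun h3 => hs.2 (h3.of_pow hq)) (hc ▸ hu.pow q')

end Val

/-- The coefficient of the potential `t` in the logarithmic frame of `C'`. -/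
def co (C C' : Co L 2) (t : L) : L := t * br C (C'.z 0) (C'.z 1) / C'.z 0

theorem co_add (C C' : Co L 2) (t s : L) : co C C' (t + s) = co C C' t + co C C' s := by
  rw [co, co, co, add_mul, add_div]

theorem co_sub (C C' : Co L 2) (t s : L) : co C C' (t - s) = co C C' t - co C C' s := by
  rw [co, co, co, sub_mul, sub_div]

theorem co_surj (C C' : Co L 2) (a : L) : ∃ t, co C C' t = a :=
  ⟨a * C'.z 0 / br C (C'.z 0) (C'.z 1), by
    rw [co, div_mul_cancel₀ _ (M3J.br_ne C C'), mul_div_cancel_right₀ _ (C'.ne 0)]⟩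

section Chart

variable {G : Pl L k} {d : Dv L} {e : Dv k} {C C' : Co L 2} {D : VF k} (hA : C'.At G.o 0)
  (hD : G.Rs (C'.D 1) D)
include hA hD

theorem D_z : D (G.π (C'.z 1)) = 1 := by
  rw [← hD.2 _ (M3J.z1_F hA), C'.dual, if_pos rfl, pi_one]

theorem lead_of {t : L} (ht : co C C' t ∈ G.o.F 0) : Lead C G t (G.π (co C C' t) • D) := by
  intro y hy z hz
  have y0 := ne_of_v hy
  have hyF : y ∈ G.o.F 1 := Or.inr hy.ge
  have h1 : (C'.z 0 * C'.D 0 y - ((1 : ℤ) : L) * y) / y ∈ G.o.F 1 := by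
    simpa [hy] using F_div (M3J.th_F hA hyF) y
  have h2 : C'.D 1 y / y ∈ G.o.F 0 := by simpa [hy] using F_div (M3J.D1_F hA hyF) y
  have h3 := F_mul0 ht (sub_mem (F_mul0' h1 (hA.D 1 z hz))
    (F_mul0' (M3J.z0_F hA) (F_mul0 h2 (hA.D 0 z hz))))
  have e : t * br C y z / y - co C C' t * C'.D 1 z = co C C' t *
      ((C'.z 0 * C'.D 0 y - ((1 : ℤ) : L) * y) / y * C'.D 1 z -
        C'.z 0 * (C'.D 1 y / y * C'.D 0 z)) := by
    have := C'.ne 0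
    rw [M3J.br_chain C C' y z, co, br.eq_1 C' y z, Int.cast_one]
    field_simp
    ring
  rw [← e] at h3
  have h4 := F_mul0 ht (hA.D 1 z hz)
  refine ⟨by simpa using add_mem (F10 h3) h4, ?_⟩
  rw [pi_congr h4 h3, G.mul _ ht _ (hA.D 1 z hz), hD.2 z hz, Derivation.smul_apply, smul_eq_mul]

theorem of_lead {t : L} {w : VF k} (h : Lead C G t w) :
    co C C' t ∈ G.o.F 0 ∧ w = G.π (co C C' t) • D := by
  have h0 : co C C' t ∈ G.o.F 0 := (h _ hA.vz _ (M3J.z1_F hA)).1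
  refine ⟨h0, ?_⟩
  ext y
  obtain ⟨g, hg, rfl⟩ := G.surj y
  rw [← (h _ hA.vz g hg).2, (lead_of hA hD h0 _ hA.vz g hg).2]

theorem mult (hk : IsFF ℂ k) (w : VF k) : w = w (G.π (C'.z 1)) • D := by
  by_contra hn
  refine M3C.RDer.ne_zero hk _ (sub_ne_zero.2 hn) (G.π (C'.z 1)) ?_ ?_
  · rintro ⟨c, hc⟩
    have := D_z hA hD
    rw [← hc, Derivation.map_algebraMap] at this
    exact zero_ne_one this
  · rw [Derivation.sub_apply, Derivation.smul_apply, D_z hA hD, smul_eq_mul, mul_one, sub_self]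

variable (hE : Exp d G.o 0)
include hE

omit hD in
theorem co_of_ex {t : L} (h : ex d C t ∈ LV G.o 0) : co C C' t ∈ G.o.F 0 := by
  rw [M3J.ex_br d C C'] at h
  have := M3J.F_of_ex hA hE (c := 0) (fun m hm => by rw [zero_add]; exact_mod_cast hm.ne) h
  simpa [hA.vz, co] using F_div this (C'.z 0)

variable (hR : G.RsD d e)
include hR

theorem nor_ex {t : L} (ht : co C C' t ∈ G.o.F 0) :
    Nor G (ex d C t) (-e.δ (G.π (co C C' t) • D)) := by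
  have z0 := C'.ne 0
  obtain ⟨a, ha⟩ : ∃ a, a = co C C' t := ⟨_, rfl⟩
  have e1 : t * br C (C'.z 0) (C'.z 1) = a * C'.z 0 := by rw [ha, co, div_mul_cancel₀ _ z0]
  rw [← ha] at ht ⊢
  rw [M3J.ex_br d C C', e1]
  have h0 : ex d C' (a * C'.z 0) ∈ LV G.o 0 :=
    M3J.ex_LV hA hE (F_mul0 ht (by simpa using M3J.z0_F hA))
  refine nor_of hA.vz h0 (fun g hg => M3Z.exact_F1 hA hE (M3J.ex_mem _ _ _) h0 hg) ?_
  have h1 := hD.smul ht
  rw [← hR _ _ h1, ← pi_neg (hE.reg _ h1.1), M3J.ex_z0, d.smul, Derivation.leibniz, C'.dual]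
  refine congrArg G.π ?_
  simp only [smul_eq_mul]
  simp
  field_simp
  ring

omit hD hR in
theorem psi {q : ℕ} {ψ : L} (hq : 0 < q) (hψ : ψ ≠ 0)
    (hd : ∀ X, d.δ X = C.dv.δ X + X ψ / (q * ψ)) : ∃ Ψ, Ψ ≠ 0 ∧ G.o.v Ψ = 0 ∧
      (q : L) * d.δ (C'.D 1) = C'.D 1 Ψ / Ψ ∧ ∀ t, t ^ q * ψ = co C C' t ^ q * Ψ := by
  have := M3F.cz L
  have hqL : (q : L) ≠ 0 := Nat.cast_ne_zero.2 hq.ne'
  have z0 := C'.ne 0
  obtain ⟨J, hJ⟩ : ∃ J, J = br C (C'.z 0) (C'.z 1) := ⟨_, rfl⟩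
  have J0 : J ≠ 0 := hJ ▸ M3J.br_ne C C'
  obtain ⟨Ψ, hΨ⟩ : ∃ Ψ, Ψ = ψ * (C'.z 0 / J) ^ q := ⟨_, rfl⟩
  have Ψ0 : Ψ ≠ 0 := hΨ ▸ mul_ne_zero hψ (pow_ne_zero _ (div_ne_zero z0 J0))
  have key : ∀ i, (q : L) * d.δ (C'.D i) =
      C'.D i Ψ / Ψ - q * (C'.D i (C'.z 0) / C'.z 0) := fun i => by
    have h1 := M3Z.jacobi C C' (C'.D i)
    have h2 : C'.dv.δ (C'.D i) = 0 := by
      rw [Co.dv_δ]
      refine Finset.sum_eq_zero fun j _ => ?_
      rw [C'.dual]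
      split_ifs <;> simp
    rw [h2, ← hJ] at h1
    obtain ⟨r, rfl⟩ : ∃ r, q = r + 1 := ⟨q - 1, by omega⟩
    rw [hd, eq_neg_of_add_eq_zero_left h1.symm, hΨ, Derivation.leibniz, Derivation.leibniz_pow,
      Derivation.leibniz_div]
    simp only [smul_eq_mul, nsmul_eq_mul, Nat.add_sub_cancel, div_pow]
    field_simp
    ring
  refine ⟨Ψ, Ψ0, ?_, by rw [key, C'.dual]; simp, fun t => ?_⟩
  · have h1 := F_mul0 (by simpa using int_F (o := G.o) q : (q : L) ∈ G.o.F 0) (M3J.dv_D0 hA hE)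
    have h2 := F_div (M3J.th_F hA (G.o.mem_F_self Ψ)) Ψ
    rw [add_sub_cancel_left] at h2
    have e : (q : L) * (C'.z 0 * d.δ (C'.D 0) + 1 - algebraMap ℂ L 0) -
        (C'.z 0 * C'.D 0 Ψ - (G.o.v Ψ : L) * Ψ) / Ψ = algebraMap ℂ L (G.o.v Ψ) := by
      have h3 := key 0
      rw [C'.dual, if_pos rfl] at h3
      rw [map_zero, sub_zero, mul_add, mul_left_comm, h3, map_intCast]
      field_simp
      ring
    have := sub_mem h1 h2
    rw [e] at this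
    exact_mod_cast cst_F1 this
  · rw [co, ← hJ, hΨ, mul_left_comm, ← mul_pow, mul_comm]
    refine congrArg (fun s => ψ * s ^ q) ?_
    field_simp

theorem pos_iff (hk : IsFF ℂ k) {q : ℕ} {ψ : L} (hq : 0 < q) (hψ : ψ ≠ 0)
    (hd : ∀ X, d.δ X = C.dv.δ X + X ψ / (q * ψ)) {W : ValuationSubring k}
    (hW : ∀ c : ℂ, algebraMap ℂ k c ∈ W) {t : L} (ht : co C C' t ∈ G.o.F 0) :
    Sm (cmp G W) (t ^ q * ψ) ↔ PosV e W (G.π (co C C' t) • D) := by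
  obtain ⟨Ψ, Ψ0, hv, hκ, hΦ⟩ := psi hA hE hq hψ hd
  have hΨ : Ψ ∈ G.o.F 0 := Or.inr hv.ge
  have hp := pi_ne Ψ0 hv
  have hκ' : (q : k) * e.δ D * G.π Ψ = D (G.π Ψ) := by
    rw [← eq_div_iff hp, ← hR _ _ hD, ← hD.2 _ hΨ, ← pi_div (hA.D 1 _ hΨ) Ψ0 hv, ← hκ,
      G.mul _ (by simpa using int_F (o := G.o) q) _ (M3J.dv_D1 hA hE), pi_nat]
  rw [hΦ, sm_cmp (F_mul0 (M3Z.pow_F0 ht q) hΨ), G.mul _ (M3Z.pow_F0 ht q) _ hΨ, pi_pow ht]
  obtain ⟨a, ha⟩ : ∃ a, a = G.π (co C C' t) := ⟨_, rfl⟩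
  rw [← ha]
  by_cases a0 : a = 0
  · rw [a0, zero_pow hq.ne', zero_mul, zero_smul]
    exact iff_of_true ⟨zero_mem _, M3.not_un_zero⟩ (Or.inl rfl)
  have hF : (a • D) (a ^ q * G.π Ψ) = q * e.δ (a • D) * (a ^ q * G.π Ψ) := by
    obtain ⟨r, rfl⟩ : ∃ r, q = r + 1 := ⟨q - 1, by omega⟩
    rw [e.smul, Derivation.smul_apply, Derivation.leibniz, Derivation.leibniz_pow, ← hκ']
    simp only [smul_eq_mul, nsmul_eq_mul, Nat.add_sub_cancel]
    ring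
  refine ⟨fun h => Or.inr ⟨q, _, hq, mul_ne_zero (pow_ne_zero _ a0) hp, hF, h⟩,
    fun h => sm_of_pos hk hW (fun h0 => a0 ?_) h hq hF⟩
  have := DFunLike.congr_fun h0 (G.π (C'.z 1))
  rwa [Derivation.smul_apply, D_z hA hD, smul_eq_mul, mul_one] at this

end Chart

end RDict

open RDict in
theorem rowDict : OfDict := by
  intro hFF L ι _ _ _ Z hZ k _ _ G e hC hR hX κ
  have hk := hFF L k Z.C G hZ.fin hC.crv
  obtain ⟨⟨x, hx⟩, g, hg⟩ := hC.crv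
  obtain ⟨C', -, hA⟩ := cv_at Z.C hZ.fin hx hg.1 hg.2
  obtain ⟨D, hD⟩ := M3Z.exists_Rs G (hA.D_LV (j := 1) (by decide))
  have hE := hC.exp
  have hs : ∀ s t, Z.X s = Z.X t - ex Z.d Z.C (s - t) := fun s t => by
    rw [QD.X, QD.X, M3J.ex_sub]
    abel
  have up : ∀ {W : ValuationSubring k} {r}, Gi Z.ρ (cmp G W) r → Gi Z.ρ G.o.O r := fun h =>
    ⟨h.1, fun r' => M3Z.cmp_le G _ (h.2 r')⟩
  constructor
  · rintro ⟨Θ, h1, h2⟩
    have h3 := nor_of_eul h1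
    have h4 : ∀ r, Gi Z.ρ G.o.O r → co Z.C C' (Z.θ r - Θ) ∈ G.o.F 0 := fun r hr => by
      refine co_of_ex hA hE ?_
      have := sub_mem h3.1 (hX r hr)
      rwa [hs (Z.θ r) Θ, sub_sub_cancel] at this
    refine ⟨fun r => G.π (co Z.C C' (Z.θ r - Θ)) • D, fun r hr => ?_, fun r r' hr hr' => ?_,
      fun W hW hP r hr => ?_⟩
    · have := nor_sub h3 (nor_ex hA hD hE hR (h4 r hr))
      rwa [← hs, sub_neg_eq_add] at this
    · have := lead_of hA hD (C := Z.C) (t := Z.θ r - Θ - (Z.θ r' - Θ))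
        (by rw [co_sub]; exact sub_mem (h4 r hr) (h4 r' hr'))
      rwa [co_sub, pi_sub (h4 r hr) (h4 r' hr'), sub_smul, sub_sub_sub_cancel_right] at this
    · exact (pos_iff hA hD hE hR hk hZ.q0 hZ.ψ0 hZ.rat hW (h4 r (up hr))).1
        (h2 _ ⟨M3Z.cmp_le G W, fun c => ⟨cst_F _ c, (pi_cst G c).symm ▸ hW c⟩⟩ hP r hr)
  · rintro ⟨w, h1, h2, h3⟩
    obtain ⟨r0, h0⟩ := exists_gi G.o hZ.ne
    obtain ⟨a, ha, ea⟩ := G.surj (w r0 (G.π (C'.z 1)))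
    obtain ⟨t, rfl⟩ := co_surj Z.C C' a
    have hw : w r0 = G.π (co Z.C C' t) • D := ea ▸ mult hA hD hk (w r0)
    refine ⟨Z.θ r0 - t, eul_of_nor hx ?_, fun V hV hP r hr => ?_⟩
    · have := nor_add (h1 r0 h0) (nor_ex hA hD hE hR ha)
      rw [← hw, add_neg_cancel_right] at this
      rwa [QD.X, M3J.ex_sub, ← sub_add]
    · obtain ⟨W, hW, rfl⟩ := exists_cmp hV
      obtain ⟨h4, h5⟩ := of_lead hA hD (h2 r r0 (up hr) h0)
      have e1 : Z.θ r - (Z.θ r0 - t) = Z.θ r - Z.θ r0 + t := by ring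
      refine (pos_iff hA hD hE hR hk hZ.q0 hZ.ψ0 hZ.rat hW
        (by rw [e1, co_add]; exact add_mem h4 ha)).2 ?_
      rw [e1, co_add, G.add _ h4 _ ha, add_smul, ← h5, ← hw, sub_add_cancel]
      exact h3 W hW hP r hr

end

end Pool.Agent.MP_ee8c61_ag.Q3IZ
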