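import Pool.Agent.MP_ee8c61_ag.M3RESID.CC1

/-!
Local primitives in the lattice of an ample divisor, and their correction along a divisor on
which the ample divisor is integral.
-/

namespace Pool.Agent.MP_ee8c61_ag.Q3IZ

open H59 Finset H59.Sys M3RESID M3RESID.CCX

namespace CC1P

section Gen

variable {k Ω ι J : Type} [CommRing k] [CommRing Ω] [Algebra k Ω] [Fintype J]
  {S : Sys k Ω ι J 3} [Fintype ι] [LinearOrder ι]

/-- The components of degree zero of a cochain, as an antisymmetric family. -/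
def tt (γ : Ch ι (Fm 3 Ω)) (a b : ι) : Ω :=
  if a < b then γ {a, b} ∅ else if b < a then -γ {b, a} ∅ else 0

theorem expl (θ : Fin 3 → Ω) (β : ι → Fin 3 → Ω) (kk c c' : J → ℤ)
    (hdet : ∀ a, ∃ U : Ωˣ, S.IsU a U ∧
      (Matrix.of fun l i => S.D a i (S.r l)).det = U * S.mon a kk)
    (η γ : Ch ι (Fm 3 Ω)) (η1 : ∀ a, η {a} = -co (β a) (top 3 1))
    (η2 : ∀ a b, a < b → η {a, b} = 0) (hγ : γ ∈ S.T {c'} 2)
    (h : η - cech (S.dd + we θ) γ ∈ S.T {c} 3) :
    (∀ a i, (β a - curl (nab S.R θ) fun l => γ {a} {l}) ⬝ᵥ S.e a i * S.mon a (kk + 1 - c) ∈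
      S.A a) ∧
      ∀ a b i, (S.v a i ⬝ᵥ fun l => γ {a} {l} - γ {b} {l} - nab S.R θ l (tt γ a b)) *
        S.mon a (-c) ∈ S.A a ⊔ S.A b := by
  have hC := car (Fin 3) Ω
  have hC' := car ι (Fm 3 Ω)
  have hF := fo Ω 3
  have hA := la Ω 3
  have hR := fr k Ω ι J 3 S
  have hL := lo k Ω ι J 3 S
  have hM := lm k Ω ι J 3 S
  rw [S.mem_T] at h hγ
  have h0 : γ ∅ = 0 := by simpa [hM.emp] using hγ ∅
  have h1 : ∀ a, pd 3 1 (γ {a}) = γ {a} := fun a => hM.pure _ _ _ _ (by simpa using hγ {a})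
  have key : ∀ a b, a < b → ∀ l, (η - cech (S.dd + we θ) γ) {a, b} {l} =
      γ {a} {l} - γ {b} {l} - nab S.R θ l (γ {a, b} ∅) := fun a b hab l => by
    have c2 : ({a, b} : Finset ι).card = 2 := card_pair hab.ne
    have s1 : sgn a {a, b} = 1 := by simp [sgn, filter_insert, filter_singleton, hab.not_gt]
    have s2 : sgn b {a, b} = -1 := by simp [sgn, filter_insert, filter_singleton, hab]
    have r1 : ({a, b} : Finset ι).erase a = {b} := erase_insert (by simp [hab.ne])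
    have r2 : ({a, b} : Finset ι).erase b = {a} := by
      rw [pair_comm]
      exact erase_insert (by simp [hab.ne'])
    rw [Pi.sub_apply, η2 a b hab, cech, hC'.kos_apply, univ_inter,
      sum_pair hab.ne, s1, s2, r1, r2, c2]
    have := d_apply hC S.R θ (γ {a, b}) {l}
    rw [sum_singleton, erase_singleton] at this
    simp only [Pi.sub_apply, Pi.add_apply, Pi.smul_apply, dd, this, op_one, Pi.zero_apply]
    simp [sgn, filter_singleton]
    ring
  have hp : ∀ a b, a < b → (η - cech (S.dd + we θ) γ) {a, b} ∈ S.lm {c} {a, b} 1 :=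
    fun a b hab => by simpa [card_pair hab.ne] using h {a, b}
  refine ⟨fun a i => ?_, fun a b i => ?_⟩
  · obtain ⟨U, hU, e⟩ := hdet a
    refine mem_two hF det hR hL hM hU e (p := 3 - ({a} : Finset ι).card) ?_ i
    have h2 := neg_mem (h {a})
    rw [Pi.sub_apply, η1, cech, hC'.kos_apply, univ_inter,
      sum_singleton, erase_singleton, h0, dd, d_one hC hF S.R θ (h1 a)] at h2
    rw [sub_eq_add_neg (β a), hF.co_add, ← neg_one_smul Ω (curl _ _), hF.co_smul]
    simpa [add_comm] using h2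
  · rw [tt]
    rcases lt_trichotomy a b with hab | rfl | hab
    · have := mem_one hF hA hR hL hM (hp a b hab) i
      simp only [key a b hab] at this
      simpa only [if_pos hab] using this
    · have e : (fun l => γ {a} {l} - γ {a} {l} - nab S.R θ l 0) = 0 := by
        funext l
        simp [nab]
      simp only [lt_irrefl, if_false, e, dotProduct_zero, zero_mul, zero_mem]
    · have h2 := neg_mem (hp b a hab)
      rw [pair_comm b a] at h2
      have := mem_one hF hA hR hL hM h2 i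
      rw [pair_comm a b] at this
      simp only [Pi.neg_apply, key b a hab] at this
      have e : (fun l => γ {a} {l} - γ {b} {l} - nab S.R θ l (-γ {b, a} ∅)) =
          fun l => -(γ {b} {l} - γ {a} {l} - nab S.R θ l (γ {b, a} ∅)) := by
        funext l
        simp only [nab, map_neg]
        ring
      simpa only [if_neg hab.not_gt, if_pos hab, e] using this

open EtaX in
theorem core [Inhabited ι] (θ β : Fin 3 → Ω) (F : Ωˣ) (av kk c0 : J → ℤ) (u u' : ℕ) (B Q : Ω)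
    (hr : ∀ c l, S.r l ∈ S.A c) (hf : ∀ c, S.IsU c (F * S.mon c (-av)))
    (hdet : ∀ c, ∃ U : Ωˣ, S.IsU c U ∧
      (Matrix.of fun l i => S.D c i (S.r l)).det = U * S.mon c kk)
    (hβ : ∀ c l, (F : Ω) ^ u * β l ∈ S.A c) (hQ : ∀ c, Q ∈ S.A c)
    (hB : B = F * Q + ∑ l, nab S.R θ l (β l)) (hB' : ∀ c, ∑ l, nab S.R θ l (β l) ∈ S.A c)
    (h1 : c0 ≤ kk + 1) (h2 : c0 - u' • av ≤ (u : ℤ) • -av) (h3 : 0 ≤ av)
    (hsq : (S.dd + we θ) * (S.dd + we θ) = 0)
    (hmp : ∀ C σ, Maps (S.dd + we θ) (S.lm C σ) (S.lm C σ) 1)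
    (hv : Van (cech (S.dd + we θ)) (S.T {c0 - u' • av}) (S.T {c0}) 3) :
    ∃ (g : ι → Fin 3 → Ω) (τ : ι → ι → Ω),
      (∀ a i, (β - curl (nab S.R θ) (g a)) ⬝ᵥ S.e a i * S.mon a (kk + 1 - c0) ∈ S.A a) ∧
      (∀ a b i, (S.v a i ⬝ᵥ fun l => g a l - g b l - nab S.R θ l (τ a b)) * S.mon a (-c0) ∈
        S.A a ⊔ S.A b) ∧
      ∀ (o : J) (U t : Ω), B = U * t → ind {o} ≤ av → (∀ a, U ∈ S.A a) →
        Commute (mu _ U) (cech (S.dd + we θ) : Op (Ch ι (Fm 3 Ω))) →
        (∀ q, ∀ γ ∈ S.T {c0} q, cech (S.dd + we θ) (S.hh o γ) + S.hh o (cech (S.dd + we θ) γ) -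
          t • γ ∈ S.T {c0 + ind {o}} q) →
        Van (cech (S.dd + we θ)) (S.T {c0}) (S.T {c0 + ind {o}}) 3 →
        ∃ (G : ι → Fin 3 → Ω) (τ' : ι → ι → Ω),
          (∀ a i, (S.v a i ⬝ᵥ fun l => G a l - g a l) * S.mon a (-c0) ∈ S.A a) ∧
          (∀ a i, (β - U • S.vv a o - curl (nab S.R θ) (G a)) ⬝ᵥ S.e a i *
            S.mon a (kk + 1 - (c0 + ind {o})) ∈ S.A a) ∧
          ∀ a b i, (S.v a i ⬝ᵥ fun l => G a l - G b l - nab S.R θ l (τ' a b)) *
            S.mon a (-(c0 + ind {o})) ∈ S.A a ⊔ S.A b := by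
  classical
  have hF := fo Ω 3
  have hd := fd k Ω 3 S.R S.R_comm
  have hA := la Ω 3
  have hR := fr k Ω ι J 3 S
  have hL := lo k Ω ι J 3 S
  have hM := lm k Ω ι J 3 S
  have Ho := rows.Ho car fo fd la fr lo lm k Ω ι J 3 S
  have ms : ∀ c : ι, c ∈ ({c} : Finset ι) := mem_singleton_self
  obtain ⟨g1, g2⟩ := CCX.gen θ β F av kk c0 u u' hr hf hdet hβ hB' h1 h2
  obtain ⟨o1, o2, -⟩ := EtaX.gen (car _ _) hF hd hA det hR hL hM θ β F av kk c0 u u' B Q hr hf
    (fun c => (hdet c).elim fun U hU => ⟨U, hU.1.1, hU.2⟩) hβ hQ hB h1 h2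
  obtain ⟨γ, hγ, h⟩ := hv _ g1 g2
  have s2 : ∀ a b : ι, a < b → sg ι (-co β (top 3 1)) {a, b} = 0 := fun a b hab => by
    rw [sg, if_neg (by rw [card_pair hab.ne]; omega)]
  obtain ⟨e1, e2⟩ := expl θ (fun _ => β) kk c0 _ hdet _ γ
    (fun a => by rw [sg, if_pos (card_singleton a)]) s2 hγ h
  refine ⟨_, _, e1, e2, fun o U t hU ho hUA hc hom hv2 => ?_⟩
  have l0 : Le {c0} {c0 - u' • av} := fun c hc =>
    ⟨_, mem_singleton_self _, mem_singleton.1 hc ▸ sub_le_self _ (nsmul_nonneg h3 u')⟩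
  have l1 : Le {c0 + av} {c0 + ind {o}} := fun c hc =>
    ⟨_, mem_singleton_self _, mem_singleton.1 hc ▸ add_le_add_right ho _⟩
  have e3 : B • om ι 3 Ω - cech (S.dd + we θ) (sg ι (-co β (top 3 1))) ∈ S.T {c0 + av} (3 + 1) := by
    have eo : om ι 3 Ω = sg ι (top 3 1) := rfl
    have e1 : we θ (co β (top 3 1)) = top 3 (β ⬝ᵥ θ) := by
      have := DFunLike.congr_fun (hF.we_co θ β) (top 3 1)
      rwa [op_add, op_mul, op_mul, hF.we_top, map_zero, add_zero, mu_apply, smul_top,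
        mul_one] at this
    have e2 : B • om ι 3 Ω - cech (S.dd + we θ) (sg ι (-co β (top 3 1)))
        = sg ι (top 3 (F * Q)) := by
      rw [eo, cech_sg (car _ _), map_neg, neg_neg, op_add, dd, hd.d_co_top, e1]
      funext σ
      rw [Pi.sub_apply, Pi.smul_apply, sg, sg, sg]
      split_ifs
      · rw [smul_top, top, top, top, top, ← Pi.single_add, ← Pi.single_sub, hB, dotProduct_comm,
          mul_one]
        simp only [nab, sum_add_distrib]
        congr 1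
        exact add_sub_cancel_right _ _
      · simp
    rw [e2]
    refine sg_mem fun c => ?_
    obtain ⟨U, hU, e⟩ := hdet c
    have z : (S.mon c (-av) : Ω) * S.mon c av = 1 := by
      rw [← Units.val_mul, ← hR.mon_add, neg_add_cancel]
      simp [mon]
    have := mem_NN hR hL (add_le_add_left h1 av) (mul_mem (mul_mem hU.1 (hf c).1) (hQ c))
    rw [hM.mem _ _ c (ms c), crd_top det hR e, add_sub_cancel_right]
    refine top_mem hF ?_
    convert this using 1
    rw [hR.mon_add c (kk + 1), Units.val_mul, Units.val_mul]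
    linear_combination (-U * F * Q * S.mon c (kk + 1)) * z
  have m1 : mu _ U (S.hh o (om ι 3 Ω)) ∈ S.T {c0} 3 := by
    simpa using hM.mu_T _ U hUA _ _ (Ho.maps _ o _ _ o1)
  have m2 := hM.mu_T _ U hUA _ _ (hom _ _ o1)
  rw [o2, map_zero, add_zero, map_sub, ← op_mul, hc.eq, op_mul, mu_apply _ (t • _), smul_smul,
    ← hU] at m2
  obtain ⟨γ', hγ', h'⟩ := hv2 _ (sub_mem h m1) (by
    have := sub_mem (neg_mem (hM.T_le _ _ l1 _ e3)) m2
    rw [map_sub, map_sub, (hM.pair _ _ _ hsq l0 hmp).dd', sub_zero]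
    convert this using 1
    abel)
  have h'' : sg ι (-co β (top 3 1)) - mu _ U (S.hh o (om ι 3 Ω)) - cech (S.dd + we θ) (γ + γ') ∈
      S.T {c0 + ind {o}} 3 := by
    convert h' using 1
    rw [map_add]
    abel
  obtain ⟨f1, f2⟩ := expl θ (fun a => β - U • S.vv a o) kk _ _ hdet _ (γ + γ') (fun a => by
    have e : pick ({a} : Finset ι) = a := mem_singleton.1 (pick_mem (singleton_nonempty a))
    rw [Pi.sub_apply, sg, if_pos (card_singleton a), mu_apply, Pi.smul_apply, hh, ods, evs_apply,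
      e, om, if_pos (card_singleton a), card_singleton, sub_eq_add_neg β, hF.co_add, ← neg_smul,
      hF.co_smul]
    simp
    abel) (fun a b hab => by
    rw [Pi.sub_apply, s2 a b hab, mu_apply, Pi.smul_apply, hh, ods, evs_apply, om,
      if_neg (by rw [card_pair hab.ne]; omega)]
    simp) (add_mem hγ (hM.T_le _ _ l0 _ hγ')) h''
  refine ⟨_, _, fun a i => ?_, f1, f2⟩
  have h4 : γ' {a, a} ∈ S.lm {c0} {a, a} 1 := by simpa using (S.mem_T _ _ _).1 hγ' {a}
  simpa using mem_one hF hA hR hL hM h4 i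

end Gen

section Van

variable {Ω ι J : Type} {n m : ℕ} [CommRing Ω] [IsDomain Ω] [Algebra ℂ Ω] [Fintype ι]
  [LinearOrder ι] [Inhabited ι] [Fintype J]

theorem van2 (S : Sys ℂ Ω ι J n) (x : Fin m → Ω) (f : Ωˣ) (a : J → ℕ) (w : J → ℤ) (ρ : ι → Ωˣ)
    (μ : ℕ) (hg : S.Good) (hf : ∀ c, S.IsU c (f * S.mon c fun j => -(a j : ℤ)))
    (hpol : S.Pol x w ρ) (hμ : 0 < μ) (o : J) (ho : (μ : ℤ) ∣ w o) (ha : a o ≠ 0) :
    Van (cech ((S.px m).dd + we (S.th x f))) ((S.px m).T {cl w μ})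
      ((S.px m).T {cl w μ + ind {o}}) n := by
  obtain ⟨hA1, hA2⟩ := rows.Adm fr lo rows.Val Ω ι J n m S x w ρ μ f (fun j => (a j : ℤ)) hpol hμ hf
  have hnv : ∀ x0 c, S.Adm x c → S.NV x x0 c := fun x0 c => nv_vy.1 Ω ι J n m S x x0 c hg
  have hle : cl w μ ≤ cl w μ + ind {o} := le_add_of_nonneg_right (MainX.ind_nonneg _)
  have hL : Le {cl w μ + ind {o}} {cl w μ} :=
    fun d hd => ⟨_, mem_singleton_self _, by rwa [mem_singleton.1 hd]⟩
  have G := gr Ω ι J n m S x f a hpol.x_mem hf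
  rw [← G.sum]
  refine (rows.Wt _).van _ _ _ _ _ n (1 - n) (G.wok _ _ hL) (fun y hy w hw => ?_) ?_
  · rw [G.low _ _ y hy w hw]
    exact zero_mem _
  refine nv_vy.2 Ω ι J n m S x f a hpol.x_mem hf hg _ _ (n - 1) 1 hL
    (fun d hd => ⟨_, mem_singleton_self _, ?_⟩)
    (fun x0 => MainX.nvp rows.Cx cone lm S x x0 hpol.x_mem _ _ hle (hnv x0 _ ?_) (hnv x0 _ ?_)) n
    (by omega)
  · rw [mem_singleton.1 hd, one_smul]
    exact add_le_add_right (MainX.ind_le a o ha) _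
  · have := hA1 0
    rwa [zero_smul, add_zero] at this
  · exact hA2 {o} fun i hi => mem_singleton.1 hi ▸ ho

end Van

end CC1P

open CC1P MvPolynomial in
/-- Local primitives with all parameters kept, and their corrections. -/
theorem cc1p {Ω ι J : Type} {m : ℕ} [CommRing Ω] [IsDomain Ω] [Algebra ℂ Ω] [Fintype ι]
    [Nonempty ι] [Fintype J] (S : Sys ℂ Ω ι J 3) (x : Fin m → Ω) (f : Ωˣ) (a kk : J → ℕ)
    (w : J → ℤ) (ρ : ι → Ωˣ) (μ u : ℕ) (β : Fin 3 → PX m Ω) (B Q : PX m Ω) (hg : S.Good)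
    (hr : ∀ c l, S.r l ∈ S.A c) (hf : ∀ c, S.IsU c (f * S.mon c fun j => -(a j : ℤ)))
    (hdet : ∀ c, ∃ U : Ωˣ, S.IsU c U ∧ (Matrix.of fun l i => S.D c i (S.r l)).det =
      ((U * S.mon c fun j => (kk j : ℤ) : Ωˣ) : Ω))
    (hβ : ∀ c l e, (f : Ω) ^ u * coeff e (β l) ∈ S.A c) (hQ : ∀ c, Q ∈ (S.px m).A c)
    (hB : B = C (f : Ω) * Q + ∑ l, nab (S.px m).R (S.th x f) l (β l))
    (hB' : ∀ c, ∑ l, nab (S.px m).R (S.th x f) l (β l) ∈ (S.px m).A c)
    (hpol : S.Pol x w ρ) (hμ : 0 < μ) (h1 : ∀ j, cl w μ j ≤ kk j + 1) (h2 : ∀ j, 0 < a j) :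
    ∃ (g : ι → Fin 3 → PX m Ω) (τ : ι → ι → PX m Ω),
      (∀ c i, (β - curl (nab (S.px m).R (S.th x f)) (g c)) ⬝ᵥ (S.px m).e c i *
        (S.px m).mon c ((fun j => (kk j : ℤ)) + 1 - cl w μ) ∈ (S.px m).A c) ∧
      (∀ c d i, ((S.px m).v c i ⬝ᵥ fun l => g c l - g d l - nab (S.px m).R (S.th x f) l (τ c d)) *
        (S.px m).mon c (-cl w μ) ∈ (S.px m).A c ⊔ (S.px m).A d) ∧
      ∀ (o : J) (U : PX m Ω), (μ : ℤ) ∣ w o →
        B = U * ((cl w μ o : PX m Ω) + (a o : PX m Ω) * X none) →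
        U ∈ Algebra.adjoin ℂ (Set.range (X : Option (Fin m) → PX m Ω)) →
        ∃ (G : ι → Fin 3 → PX m Ω) (τ' : ι → ι → PX m Ω),
          (∀ c i, ((S.px m).v c i ⬝ᵥ fun l => G c l - g c l) * (S.px m).mon c (-cl w μ) ∈
            (S.px m).A c) ∧
          (∀ c i, (β - U • (S.px m).vv c o - curl (nab (S.px m).R (S.th x f)) (G c)) ⬝ᵥ
            (S.px m).e c i * (S.px m).mon c ((fun j => (kk j : ℤ)) + 1 - (cl w μ + ind {o})) ∈
            (S.px m).A c) ∧
          ∀ c d i, ((S.px m).v c i ⬝ᵥ fun l =>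
            G c l - G d l - nab (S.px m).R (S.th x f) l (τ' c d)) *
            (S.px m).mon c (-(cl w μ + ind {o})) ∈ (S.px m).A c ⊔ (S.px m).A d := by
  let _ : LinearOrder ι := IsWellOrder.linearOrder WellOrderingRel
  let _ : Inhabited ι := Classical.inhabited_of_nonempty inferInstance
  have P := pt _ _ _ _ _ S (Option (Fin m))
  have T := th Ω ι J 3 m S x f a hpol.x_mem hf
  have hd : ∀ c, ∃ U : (PX m Ω)ˣ, (S.px m).IsU c U ∧ (Matrix.of fun l i => (S.px m).D c i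
      ((S.px m).r l)).det = U * (S.px m).mon c fun j => (kk j : ℤ) := fun c => by
    obtain ⟨U, hU, e⟩ := hdet c
    refine ⟨Units.map (C : Ω →+* PX m Ω).toMonoidHom U, ⟨C_mem_spol hU.1, ?_⟩, ?_⟩
    · rw [← map_inv]
      exact C_mem_spol hU.2
    · change _ = C (U : Ω) * _
      rw [P.mon, ← map_mul, ← Units.val_mul, ← e, RingHom.map_det]
      congr 1
      exact Matrix.ext fun l i => dpol_C _ _
  have G := core (S := S.px m) (S.th x f) β (Units.map (C : Ω →+* PX m Ω).toMonoidHom f)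
    (fun j => a j) (fun j => kk j) (cl w μ) u (u + ∑ j, (kk j + 1)) B Q
    (fun c l => C_mem_spol (hr c l))
  refine (G (fun c => ?_) hd (fun c l e => ?_) hQ hB hB' h1 (fun j => ?_)
    (fun j => Int.natCast_nonneg _) T.sq T.maps (van S x f a w ρ μ hg hf hpol hμ _)).imp
    fun g => Exists.imp fun τ ⟨e1, e2, e3⟩ =>
      ⟨e1, e2, fun o U ho hU hU' => e3 o U _ hU (MainX.ind_le a o (h2 o).ne')
      (fun c => (Algebra.adjoin_le (S := (S.px m).A c)
        (Set.range_subset_iff.2 fun i => Main0X.X_mem _ _) hU')) (T.comm U hU') (T.hom _ o)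
      (van2 S x f a w ρ μ hg hf hpol hμ o ho (h2 o).ne')⟩
  · constructor
    · rw [Units.val_mul, P.mon]
      have := C_mem_spol (κ := Option (Fin m)) (hf c).1
      rwa [Units.val_mul, map_mul] at this
    · rw [mul_inv, Units.val_mul, P.mon_inv, ← map_inv]
      have := C_mem_spol (κ := Option (Fin m)) (hf c).2
      rwa [mul_inv, Units.val_mul, map_mul] at this
  · change coeff e (C (f : Ω) ^ u * β l) ∈ _
    rw [← map_pow, coeff_C_mul]
    exact hβ c l e
  · have s : kk j + 1 ≤ ∑ j, (kk j + 1) :=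
      single_le_sum (f := fun j => kk j + 1) (fun _ _ => Nat.zero_le _) (mem_univ j)
    generalize ∑ j, (kk j + 1) = t at s
    rw [Pi.sub_apply, Pi.smul_apply, Pi.smul_apply, Pi.neg_apply, smul_eq_mul, nsmul_eq_mul]
    push_cast
    have := h1 j
    have : (t : ℤ) ≤ t * a j := le_mul_of_one_le_right (by positivity) (by exact_mod_cast h2 j)
    have : (kk j : ℤ) + 1 ≤ t := by exact_mod_cast s
    linarith

end Pool.Agent.MP_ee8c61_ag.Q3IZ
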