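import Pool.Agent.MP_ee8c61_ag.Q3IZ.SDefs
import Pool.Agent.MP_ee8c61_ag.M3C.RDer

/-! Twisted functions on a curve that vanish at a point form a vector space. -/

namespace Pool.Agent.MP_ee8c61_ag.Q3IZ

open M3 M3RESID Pool.Agent.MP_cce4c9_lc.H87

namespace RPV

variable {k : Type} [Field k]

theorem sm_iff (W : ValuationSubring k) (F : k) : Sm W F ↔ W.valuation F < 1 := by
  constructor
  · rintro ⟨h1, h2⟩
    refine lt_of_le_of_ne ((W.valuation_le_one_iff F).2 h1) fun h => h2 ⟨?_, h1, ?_⟩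
    · rintro rfl
      rw [map_zero] at h
      exact zero_ne_one h
    · rw [← W.valuation_le_one_iff, map_inv₀, h, inv_one]
  · intro h
    refine ⟨(W.valuation_le_one_iff F).1 h.le, fun ⟨h0, _, h2⟩ => ?_⟩
    have h3 := (W.valuation_le_one_iff _).2 h2
    have h4 : W.valuation F * W.valuation F⁻¹ = 1 := by
      rw [← map_mul, mul_inv_cancel₀ h0, map_one]
    have h5 : W.valuation F * W.valuation F⁻¹ ≤ W.valuation F := mul_le_of_le_one_right' h3
    rw [h4] at h5
    exact absurd h (not_lt.2 h5)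

variable [Algebra ℂ k]

theorem prop (hk : IsFF ℂ k) {D : VF k} (D0 : D ≠ 0) (w : VF k) : ∃ g : k, w = g • D := by
  obtain ⟨s, hs, hf⟩ := hk
  have hs' : s ∉ Set.range (algebraMap ℂ k) := by
    rintro ⟨c, rfl⟩
    exact hs (isAlgebraic_algebraMap c)
  have h1 : D s ≠ 0 := M3C.RDer.ne_zero ⟨s, hs, hf⟩ D D0 s hs'
  refine ⟨w s / D s, sub_eq_zero.1 (by_contra fun h => ?_)⟩
  refine M3C.RDer.ne_zero ⟨s, hs, hf⟩ _ h s hs' ?_
  rw [Derivation.sub_apply, Derivation.smul_apply, smul_eq_mul, div_mul_cancel₀ _ h1, sub_self]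

theorem scale (e : Dv k) {w : VF k} {q : ℕ} {F : k} (hq : 0 < q) (hw : w F = q * e.δ w * F)
    (h : k) : (h • w) (h ^ q * F) = q * e.δ (h • w) * (h ^ q * F) := by
  obtain ⟨n, rfl⟩ : ∃ n, q = n + 1 := ⟨q - 1, by omega⟩
  rw [e.smul, Derivation.smul_apply, Derivation.leibniz, Derivation.leibniz_pow, hw]
  simp only [smul_eq_mul, nsmul_eq_mul, Nat.add_sub_cancel]
  ring

theorem pos_smul (e : Dv k) {W : ValuationSubring k} {w : VF k} {q : ℕ} {F : k} (hq : 0 < q)
    (hF : F ≠ 0) (hw : w F = q * e.δ w * F) {h g : k} (hg : W.valuation h ≤ W.valuation g)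
    (hs : W.valuation (g ^ q * F) < 1) : PosV e W (h • w) := by
  by_cases h0 : h = 0
  · left
    rw [h0, zero_smul]
  refine Or.inr ⟨q, h ^ q * F, hq, mul_ne_zero (pow_ne_zero _ h0) hF, scale e hq hw h,
    (sm_iff _ _).2 (lt_of_le_of_lt ?_ hs)⟩
  rw [map_mul, map_mul, map_pow, map_pow]
  exact mul_le_mul_left (pow_le_pow_left' hg q) _

theorem pos_mem (e : Dv k) {W : ValuationSubring k} {w : VF k} (hw : PosV e W w) {h : k}
    (hh : h ∈ W) : PosV e W (h • w) := by
  rcases hw with rfl | ⟨q, F, hq, hF, hw, hs⟩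
  · left
    rw [smul_zero]
  refine pos_smul e hq hF hw (g := 1) ?_ ?_
  · rw [map_one]
    exact (W.valuation_le_one_iff h).2 hh
  · rw [one_pow, one_mul]
    exact (sm_iff _ _).1 hs

theorem cmp_small (hk : IsFF ℂ k) {W : ValuationSubring k} (hW : ∀ c : ℂ, algebraMap ℂ k c ∈ W)
    {w : VF k} (w0 : w ≠ 0) {t : k} {q q' : ℕ} {G F : k} (hq : 0 < q) (hF : F ≠ 0)
    (hG : w G = q * t * G) (hw : w F = q' * t * F) (hs : W.valuation F < 1) :
    W.valuation G ^ q' < 1 := by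
  have hp : ∀ (n : ℕ) (x c : k), w x = c * x → w (x ^ n) = n * c * x ^ n := by
    intro n x c hx
    induction n with
    | zero => simp
    | succ n ih =>
      rw [pow_succ, Derivation.leibniz, ih, hx]
      simp only [smul_eq_mul]
      push_cast
      ring
  have hF' : F ^ q ≠ 0 := pow_ne_zero _ hF
  have h0 : w (G ^ q' / F ^ q) = 0 := by
    rw [Derivation.leibniz_div, hp _ _ _ hG, hp _ _ _ hw]
    simp only [smul_eq_mul]
    ring
  obtain ⟨c, hc⟩ : G ^ q' / F ^ q ∈ Set.range (algebraMap ℂ k) :=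
    by_contra fun h => M3C.RDer.ne_zero hk w w0 _ h h0
  have h1 : G ^ q' = algebraMap ℂ k c * F ^ q := by rw [hc, div_mul_cancel₀ _ hF']
  rw [← map_pow, h1, map_mul, map_pow]
  exact lt_of_le_of_lt (mul_le_of_le_one_left' ((W.valuation_le_one_iff _).2 (hW c)))
    (pow_lt_one' hs hq.ne')

end RPV

open RPV in
theorem rowPV : SPV := by
  intro k _ _ e W hk hW w w' hw hw' a a'
  have hc : ∀ (c : ℂ) (v : VF k), c • v = algebraMap ℂ k c • v := fun c v =>
    (algebraMap_smul k c v).symm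
  by_cases w0 : w = 0
  · rw [w0, smul_zero, zero_add, hc]
    exact pos_mem e hw' (hW a')
  by_cases w0' : w' = 0
  · rw [w0', smul_zero, add_zero, hc]
    exact pos_mem e hw (hW a)
  obtain ⟨g, rfl⟩ := prop hk w0 w'
  rw [hc a, hc a', smul_smul, ← add_smul]
  rcases W.mem_or_inv_mem g with hg | hg
  · exact pos_mem e hw (add_mem (hW a) (mul_mem (hW a') hg))
  have g0 : g ≠ 0 := by
    rintro rfl
    exact w0' (zero_smul _ _)
  obtain ⟨q, F, hq, hF, h1, -⟩ := hw.resolve_left w0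
  obtain ⟨q', F', hq', hF', h1', hs'⟩ := hw'.resolve_left w0'
  refine pos_smul e hq hF h1 (g := g) ?_ ?_
  · have h2 : algebraMap ℂ k a + algebraMap ℂ k a' * g =
        (algebraMap ℂ k a * g⁻¹ + algebraMap ℂ k a') * g := by
      rw [add_mul, mul_assoc, inv_mul_cancel₀ g0, mul_one]
    rw [h2, map_mul]
    exact mul_le_of_le_one_left' ((W.valuation_le_one_iff _).2
      (add_mem (mul_mem (hW a) hg) (hW a')))
  · have h3 := cmp_small hk hW w0' hq hF' (scale e hq h1 g) h1' ((sm_iff _ _).1 hs')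
    exact lt_of_not_ge fun h => absurd h3 (not_lt.2 (one_le_pow_of_one_le' h q'))

end Pool.Agent.MP_ee8c61_ag.Q3IZ
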