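import Pool.Agent.MP_ee8c61_ag.Q3IZ.SDefs
import Pool.Agent.MP_ee8c61_ag.M3RESID.CvAt

/-!
The pull-back of a datum to a finite extension exists.
-/

namespace Pool.Agent.MP_ee8c61_ag.Q3IZ

open M3 M3RESID

noncomputable section

namespace RBx0

variable {L L₁ : Type} [Field L] [Algebra ℂ L] [Field L₁] [Algebra ℂ L₁] [Algebra L L₁]
  [IsScalarTower ℂ L L₁] [FiniteDimensional L L₁]

/-- Vector fields extend to finite extensions. -/
theorem ext (d : VF L) :
    ∃ D : VF L₁, ∀ x : L, D (algebraMap L L₁ x) = algebraMap L L₁ (d x) := by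
  have : CharZero L := charZero_of_injective_algebraMap (algebraMap ℂ L).injective
  have : Algebra.FormallyEtale L L₁ := Algebra.FormallyEtale.of_isSeparable L L₁
  let d' : Derivation ℂ L L₁ := (Algebra.linearMap L L₁).compDer d
  let φ : Ω[L⁄ℂ] →ₗ[L] L₁ := d'.liftKaehlerDifferential
  let e := KaehlerDifferential.tensorKaehlerEquivOfFormallyEtale ℂ L L₁
  refine ⟨((φ.liftBaseChange L₁) ∘ₗ e.symm.toLinearMap).compDer
    (KaehlerDifferential.D ℂ L₁), fun x => ?_⟩
  have h := KaehlerDifferential.tensorKaehlerEquivOfFormallyEtale_symm_D_algebraMap ℂ L L₁ x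
  change φ.liftBaseChange L₁ (e.symm (KaehlerDifferential.D ℂ L₁ (algebraMap L L₁ x))) = _
  rw [h, LinearMap.liftBaseChange_tmul, one_smul]
  exact d'.liftKaehlerDifferential_comp_D x

theorem fin {n : ℕ} (z : Fin n → L)
    (h : FiniteDimensional (IntermediateField.adjoin ℂ (Set.range z)) L) :
    FiniteDimensional
      (IntermediateField.adjoin ℂ (Set.range fun i => algebraMap L L₁ (z i))) L₁ := by
  set F := IntermediateField.adjoin ℂ (Set.range z)
  set E := IntermediateField.adjoin ℂ (Set.range fun i => algebraMap L L₁ (z i))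
  have hle : F ≤ E.comap (IsScalarTower.toAlgHom ℂ L L₁) := by
    rw [IntermediateField.adjoin_le_iff]
    rintro _ ⟨i, rfl⟩
    exact IntermediateField.subset_adjoin ℂ _ ⟨i, rfl⟩
  let f : F →+* E :=
    ((algebraMap L L₁).comp (algebraMap F L)).codRestrict E fun x => hle x.2
  let _ : Algebra F E := f.toAlgebra
  have : IsScalarTower F E L₁ := IsScalarTower.of_algebraMap_eq fun _ => rfl
  have : Module.Finite F L₁ := Module.Finite.trans L L₁
  exact Module.Finite.of_restrictScalars_finite F E L₁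

theorem span {K : Type} [Field K] [Algebra ℂ K] {n : ℕ} (z : Fin n → K)
    (h : FiniteDimensional (IntermediateField.adjoin ℂ (Set.range z)) K) (v : VF K)
    (hv : ∀ i, v (z i) = 0) : v = 0 := by
  refine CVA.kill (IntermediateField.adjoin ℂ (Set.range z)) v fun a ha => ?_
  induction ha using IntermediateField.adjoin_induction with
  | mem x hx =>
    obtain ⟨i, rfl⟩ := hx
    exact hv i
  | algebraMap c => exact v.map_algebraMap c
  | add x y _ _ hx hy => rw [map_add, hx, hy, add_zero]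
  | inv x _ hx => rw [Derivation.leibniz_inv, hx, smul_zero]
  | mul x y _ _ hx hy => rw [Derivation.leibniz, hx, hy, smul_zero, smul_zero, add_zero]

theorem tw_rat {K : Type} [Field K] [Algebra ℂ K] (d : Dv K) (ψ : K) (q : ℕ) (X : VF K) :
    (d.tw ψ (1 / q)).δ X = d.δ X + X ψ / (q * ψ) := by
  simp only [Dv.tw, AddMonoidHom.add_apply, AddMonoidHom.mk'_apply, Algebra.smul_def, map_div₀,
    map_one, map_natCast]
  rw [div_mul_div_comm, one_mul]

end RBx0

open RBx0 in
theorem rowBx0 : SBx0 := by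
  classical
  intro L ι _ _ _ Z h L₁ _ _ _ _ _
  choose D hD using fun i => ext (L₁ := L₁) (Z.C.D i)
  obtain ⟨v, hv⟩ := ext (L₁ := L₁) Z.v
  have hf := fin (L₁ := L₁) Z.C.z h.fin
  let C : Co L₁ 2 :=
    { z := fun i => algebraMap L L₁ (Z.C.z i)
      D := D
      ne := fun i => (map_ne_zero _).2 (Z.C.ne i)
      dual := fun i j => by
        rw [hD, Z.C.dual]
        split_ifs <;> simp
      span := span _ hf }
  refine ⟨⟨C, Z.q, algebraMap L L₁ Z.ψ, C.dv.tw (algebraMap L L₁ Z.ψ) (1 / Z.q), v,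
    fun r => algebraMap L L₁ (Z.ρ r), fun r => algebraMap L L₁ (Z.θ r),
    Z.S.image (algebraMap L L₁), Z.m⟩, fun _ => rfl, hD, rfl, rfl, hv, fun _ => rfl,
    fun _ => rfl, rfl, rfl, hf, h.q0, (map_ne_zero _).2 h.ψ0, fun X => tw_rat _ _ _ X, h.m0,
    ?_, ?_⟩
  · have h0 := congrArg (algebraMap L L₁) ((h.rat Z.v).symm.trans h.dv)
    change (C.dv.tw (algebraMap L L₁ Z.ψ) (1 / Z.q)).δ v = 0
    rw [tw_rat, hv]
    simp only [Co.dv, AddMonoidHom.mk'_apply, map_add, map_sum, map_div₀, map_mul, map_natCast,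
      map_zero] at h0 ⊢
    rw [← h0]
    refine congrArg (· + _) (Finset.sum_congr rfl fun i _ => ?_)
    change D i (v (algebraMap L L₁ (Z.C.z i))) = _
    rw [hv, hD]
  · obtain ⟨r, hr⟩ := h.ne
    exact ⟨r, (map_ne_zero _).2 hr⟩

end

end Pool.Agent.MP_ee8c61_ag.Q3IZ
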