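import Pool.Agent.MP_ee8c61_ag.Q3IZ.SDefs
import Pool.Agent.MP_ee8c61_ag.Q3P.FK
import Pool.Agent.MP_ee8c61_ag.M3G.RDn

/-!
One horizontal curve of exponent zero and an orbifold curve: the double cover of the conic.
-/

namespace Pool.Agent.MP_ee8c61_ag.Q3IZ

open M3 M3RESID M3F Pool.Agent.MP_cce4c9_lc.H87 Polynomial WithZero Finset
open scoped IntermediateField

noncomputable section

namespace RExA

section Poly

variable {k L : Type} [Field k] [Field L] [Algebra k L] {y : L}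

theorem aeval_le (P : Place k L) (hP : P.val y ≤ 1) (r : k[X]) : P.val (aeval y r) ≤ 1 := by
  rw [aeval_eq_sum_range]
  refine P.val.map_sum_le fun i _ => ?_
  rw [Algebra.smul_def, map_mul, map_pow]
  exact mul_le_one' (P.const_le _) (pow_le_one' hP _)

theorem exists_irr (P : Place k L) (a : k[X]) : a ≠ 0 → P.val (aeval y a) < 1 →
    ∃ f : k[X], f.Monic ∧ Irreducible f ∧ P.val (aeval y f) < 1 := by
  induction a using WfDvdMonoid.induction_on_irreducible with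
  | zero => exact fun h => absurd rfl h
  | unit u hu =>
    obtain ⟨c, hc, rfl⟩ := Polynomial.isUnit_iff.1 hu
    intro _ h
    rw [aeval_C, P.triv c hc.ne_zero] at h
    exact absurd h (lt_irrefl _)
  | mul a i ha hi ih =>
    intro _ h
    by_cases h1 : P.val (aeval y a) < 1
    · exact ih ha h1
    refine ⟨i * C i.leadingCoeff⁻¹, monic_mul_leadingCoeff_inv hi.ne_zero,
      irreducible_mul_leadingCoeff_inv.2 hi, ?_⟩
    rw [map_mul, map_mul, aeval_C,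
      P.triv _ (inv_ne_zero (leadingCoeff_ne_zero.2 hi.ne_zero)), mul_one]
    rw [map_mul, map_mul] at h
    exact (le_mul_of_one_le_right' (not_lt.1 h1)).trans_lt h

theorem ord_poly (htr : ∀ a : k[X], a ≠ 0 → aeval y a ≠ 0) {f : k[X]} (hf : Irreducible f)
    {a : k[X]} (ha : a ≠ 0) : ∃ n : ℤ, ∀ Q : Place k L, Q.val y ≤ 1 → Q.val (aeval y f) < 1 →
      Q.ord (aeval y a) = n * Q.ord (aeval y f) := by
  obtain ⟨n, b, hb, rfl⟩ := WfDvdMonoid.max_power_factor ha hf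
  refine ⟨n, fun Q h1 h2 => ?_⟩
  obtain ⟨u, v, huv⟩ := hf.coprime_iff_not_dvd.2 hb
  have h3 : Q.val (aeval y b) = 1 := by
    refine le_antisymm (aeval_le Q h1 b) (not_lt.1 fun h => ?_)
    have h4 := congrArg (fun r => Q.val (aeval y r)) huv
    simp only [map_add, map_mul, map_one] at h4
    refine absurd h4 (ne_of_lt (Q.val.map_add_lt ?_ ?_)) <;> rw [map_mul]
    · exact (mul_le_of_le_one_left' (aeval_le Q h1 u)).trans_lt h2
    · exact (mul_le_of_le_one_left' (aeval_le Q h1 v)).trans_lt h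
  rw [map_mul, map_pow, Q.ord_mul (Q.val_ne (pow_ne_zero _ (htr f hf.ne_zero)))
    (by rw [h3]; exact one_ne_zero), Q.ord_pow, Q.ord_of_val_one h3, add_zero]

/-- The polynomial of a place of the rational function field. -/
theorem poly_place (hy : k⟮y⟯ = ⊤) (htr : ∀ a : k[X], a ≠ 0 → aeval y a ≠ 0) (P : Place k L)
    (hP : P.val y ≤ 1) : ∃ f : k[X], f.Monic ∧ P.ord (aeval y f) = 1 ∧
      ∀ Q : Place k L, Q.val y ≤ 1 → Q ≠ P → Q.ord (aeval y f) = 0 := by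
  have hz : ∀ z : L, z ≠ 0 → ∃ a b : k[X], a ≠ 0 ∧ b ≠ 0 ∧ z = aeval y a / aeval y b :=
    fun z h0 => by
      obtain ⟨a, b, h⟩ := (IntermediateField.mem_adjoin_simple_iff k z).1
        (hy ▸ IntermediateField.mem_top : z ∈ k⟮y⟯)
      exact ⟨a, b, fun e => h0 (by simp [h, e]), fun e => h0 (by simp [h, e]), h⟩
  have hu : ∀ Q : Place k L, ∃ π : L, π ≠ 0 ∧ Q.ord π = 1 := fun Q => by
    obtain ⟨π, hπ⟩ := Q.exists_unif
    have h := Q.ord_eq (n := 1) hπ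
    exact ⟨π, fun e => by simp [e] at h, h⟩
  obtain ⟨π, π0, hπ⟩ := hu P
  obtain ⟨a, b, ha, hb, e⟩ := hz π π0
  obtain ⟨f, hm, hf, h1⟩ := exists_irr (y := y) P a ha (by
    rw [← (eq_div_iff (htr b hb)).1 e, map_mul]
    exact (mul_le_of_le_one_right' (aeval_le P hP b)).trans_lt
      ((P.val_lt_one (P.val_ne π0)).2 (by omega)))
  have h2 : ∀ z : L, z ≠ 0 → ∃ n : ℤ, ∀ Q : Place k L, Q.val y ≤ 1 → Q.val (aeval y f) < 1 →
      Q.ord z = n * Q.ord (aeval y f) := fun z h0 => by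
    obtain ⟨a, b, ha, hb, rfl⟩ := hz z h0
    obtain ⟨n, hn⟩ := ord_poly htr hf ha
    obtain ⟨m, hm⟩ := ord_poly htr hf hb
    refine ⟨n - m, fun Q h1 h2 => ?_⟩
    rw [div_eq_mul_inv, Q.ord_mul (Q.val_ne (htr a ha)) (Q.val_ne (inv_ne_zero (htr b hb))),
      Q.ord_inv, hn Q h1 h2, hm Q h1 h2]
    ring
  have h3 : ∀ Q : Place k L, Q.val y ≤ 1 → Q.val (aeval y f) < 1 → Q.ord (aeval y f) = 1 :=
    fun Q h4 h5 => by
      obtain ⟨π, π0, hπ⟩ := hu Q
      obtain ⟨n, hn⟩ := h2 π π0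
      have h6 := hn Q h4 h5
      rw [hπ] at h6
      exact Int.eq_one_of_mul_eq_one_left
        ((Q.val_lt_one (Q.val_ne (htr f hf.ne_zero))).1 h5).le h6.symm
  refine ⟨f, hm, h3 P hP h1, fun Q hQ hne => Q.ord_of_val_one ?_⟩
  refine le_antisymm (aeval_le Q hQ f) (not_lt.1 fun h => hne ?_)
  refine Place.eq_of_le Q P fun x hx => ?_
  by_cases h0 : x = 0
  · simp [h0]
  obtain ⟨n, hn⟩ := h2 x h0
  rw [Place.val_le_one _ (Place.val_ne _ h0)] at hx ⊢
  rw [hn Q hQ h, h3 Q hQ h] at hx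
  rwa [hn P hP h1, h3 P hP h1]

open Classical in
/-- The function whose square root defines the double cover. -/
theorem exists_p {Y : Derivation k L L} {N : Place k L → ℕ} (hD : M3G.Deg Y 0 N) {P₀ : Place k L}
    (h₀ : N P₀ = 1) (O : Finset (Place k L)) (hO : P₀ ∉ O) (h2 : ∑ P ∈ O, N P = 2) :
    ∃ p y : L, p ≠ 0 ∧ y ≠ 0 ∧ P₀.ord p = -2 ∧ P₀.val (p / y ^ 2 - 1) < 1 ∧
      ∀ Q, Q ≠ P₀ → Q.ord p = if Q ∈ O then 1 else 0 := by
  obtain ⟨y, h1, hr, hy, -⟩ := hD.rat rfl P₀ h₀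
  have hy0 : y ≠ 0 := fun e => by simp [e] at h1
  have : P₀.val.IsTrivialOn k := ⟨P₀.triv⟩
  have e1 : P₀.val y = exp 1 := by rw [P₀.val_eq (P₀.val_ne hy0), h1, neg_neg]
  have hv : ∀ a : k[X], a ≠ 0 → P₀.val (aeval y a) = exp (a.natDegree : ℤ) := fun a ha => by
    rw [valuation_aeval_eq_valuation_X_pow_natDegree_of_one_lt_valuation_X (v := P₀.val) y
      (by rw [e1, ← exp_zero, exp_lt_exp]; omega) ha, e1, ← exp_nsmul]
    simp
  have htr : ∀ a : k[X], a ≠ 0 → aeval y a ≠ 0 := fun a ha e => by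
    have := hv a ha
    rw [e, map_zero] at this
    exact exp_ne_zero this.symm
  have hf : ∀ P : Place k L, ∃ f : k[X], f.Monic ∧ (P ≠ P₀ → ∀ Q : Place k L, Q ≠ P₀ →
      Q.ord (aeval y f) = if Q = P then 1 else 0) := fun P => by
    by_cases hP : P = P₀
    · exact ⟨1, monic_one, fun h => absurd hP h⟩
    obtain ⟨f, a1, a2, a3⟩ := poly_place hy htr P (hr P hP)
    refine ⟨f, a1, fun _ Q hQ => ?_⟩
    split_ifs with h
    · rw [h, a2]
    · exact a3 Q (hr Q hQ) h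
  choose f f1 f2 using hf
  have hF : (∏ P ∈ O, f P).Monic := monic_prod_of_monic _ _ fun P _ => f1 P
  have hQ : ∀ Q, Q ≠ P₀ → Q.ord (aeval y (∏ P ∈ O, f P)) = if Q ∈ O then 1 else 0 :=
    fun Q hQ => by
      rw [map_prod, Q.ord_prod _ _ fun P _ => htr _ (f1 P).ne_zero,
        sum_congr rfl fun P hP => f2 P (fun e => hO (e ▸ hP)) Q hQ, sum_ite_eq]
  generalize ∏ P ∈ O, f P = F at hF hQ
  have hd := hD.deg (aeval y F) (insert P₀ O) fun P hP => by
    rw [mem_insert, not_or] at hP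
    rw [hQ P hP.1, if_neg hP.2]
  rw [sum_insert hO, h₀, sum_congr rfl fun P hP =>
    show (N P : ℤ) * P.ord (aeval y F) = N P by
      rw [hQ P fun e => hO (e ▸ hP), if_pos hP, mul_one]] at hd
  have h3 : ∑ P ∈ O, (N P : ℤ) = 2 := by exact_mod_cast h2
  have h4 : P₀.ord (aeval y F) = -2 := by
    rw [h3] at hd
    omega
  have h5 : F.natDegree = 2 := by
    have := P₀.ord_eq (h := aeval y F) (n := -F.natDegree) (by rw [neg_neg, hv F hF.ne_zero])
    omega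
  refine ⟨aeval y F, y, htr F hF.ne_zero, hy0, h4, ?_, hQ⟩
  have e2 : aeval y F / y ^ 2 - 1 = aeval y (F - X ^ 2) / y ^ 2 := by
    rw [map_sub, map_pow, aeval_X]
    field_simp
  rw [e2]
  by_cases h6 : F - X ^ 2 = 0
  · simp [h6]
  have h7 : (F - X ^ 2).natDegree < 2 := by
    rw [natDegree_lt_iff_degree_lt h6, ← h5, ← degree_eq_natDegree hF.ne_zero]
    refine degree_sub_lt_left ?_ hF.ne_zero ?_
    · rw [degree_eq_natDegree hF.ne_zero, degree_X_pow]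
    · rw [hF.leadingCoeff, leadingCoeff_X_pow]
  rw [map_div₀, hv _ h6, map_pow, e1, ← exp_nsmul, ← exp_sub, ← exp_zero, exp_lt_exp]
  simp only [nsmul_eq_mul]
  omega

end Poly

section Quad

variable {L L₁ : Type} [Field L] [Field L₁] [Algebra L L₁] {w : L₁} {p : L}

theorem val_cases {Γ : Type} [LinearOrderedCommGroupWithZero Γ] (V : Valuation L₁ Γ)
    (h2 : V 2 = 1) (hw : w * w = algebraMap L L₁ p)
    (hz : ∀ z : L₁, ∃ a b : L, z = algebraMap L L₁ a + algebraMap L L₁ b * w) (z : L₁) :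
    ∃ c : L, V z = V (algebraMap L L₁ c) ∨ V z = V (algebraMap L L₁ c) * V w := by
  obtain ⟨a, b, rfl⟩ := hz z
  set A := algebraMap L L₁ a with hA
  set B := algebraMap L L₁ b with hB
  have e1 : V A = V ((A + B * w) + (A - B * w)) := by
    rw [show (A + B * w) + (A - B * w) = 2 * A by ring, map_mul, h2, one_mul]
  have e2 : V (B * w) = V ((A + B * w) - (A - B * w)) := by
    rw [show (A + B * w) - (A - B * w) = 2 * (B * w) by ring, map_mul V 2, h2, one_mul]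
  rcases le_or_gt (V (A - B * w)) (V (A + B * w)) with h | h
  · have a1 : V A ≤ V (A + B * w) := e1 ▸ (V.map_add _ _).trans (max_le le_rfl h)
    have a2 : V (B * w) ≤ V (A + B * w) := e2 ▸ (V.map_sub _ _).trans (max_le le_rfl h)
    rcases le_max_iff.1 (V.map_add A (B * w)) with h3 | h3
    · exact ⟨a, Or.inl (le_antisymm h3 a1)⟩
    · exact ⟨b, Or.inr ((le_antisymm h3 a2).trans (map_mul V _ _))⟩
  · rw [V.map_add_eq_of_lt_right h] at e1
    have a0 : V A ≠ 0 := e1 ▸ (zero_le.trans_lt h).ne'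
    refine ⟨(a * a - b * b * p) / a, Or.inl ?_⟩
    rw [map_div₀, map_div₀, eq_div_iff a0, e1, ← map_mul]
    refine congrArg V ?_
    rw [map_sub, map_mul, map_mul, map_mul, ← hw, ← hA, ← hB]
    ring

variable {k : Type} [Field k] [Algebra k L]

theorem equiv_of {Γ : Type} [LinearOrderedCommGroupWithZero Γ] (V : Valuation L₁ Γ)
    (P : Place k L) (h : ∀ g, P.val g ≤ 1 ↔ V (algebraMap L L₁ g) ≤ 1) (g g' : L) :
    V (algebraMap L L₁ g) ≤ V (algebraMap L L₁ g') ↔ P.val g ≤ P.val g' :=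
  (Valuation.isEquiv_iff_val_le_one (v := V.comap (algebraMap L L₁)) (v' := P.val)).2
    (fun {x} => (h x).symm) g g'

/-- An unramified extension of a place. -/
theorem exists_up {Γ : Type} [LinearOrderedCommGroupWithZero Γ] (V : Valuation L₁ Γ)
    (P : Place k L) (h : ∀ g, P.val g ≤ 1 ↔ V (algebraMap L L₁ g) ≤ 1)
    (hz : ∀ z, ∃ c : L, V z = V (algebraMap L L₁ c)) :
    ∃ G₁ : DV L₁, ∀ g, G₁.v (algebraMap L L₁ g) = P.ord g := by
  choose c hc using hz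
  have key : ∀ z c', V z = V (algebraMap L L₁ c') → P.ord (c z) = P.ord c' := fun z c' e => by
    rw [hc z] at e
    rw [Place.ord, Place.ord,
      le_antisymm ((equiv_of V P h _ _).1 e.le) ((equiv_of V P h _ _).1 e.ge)]
  have c0 : ∀ z, z ≠ 0 → P.val (c z) ≠ 0 := fun z h0 => P.val_ne fun e => by
    have := hc z
    rw [e, map_zero, map_zero] at this
    exact h0 ((Valuation.zero_iff V).1 this)
  refine ⟨⟨fun z => P.ord (c z), ?_, fun g g' hg hg' => ?_, fun g g' hg hg' hs => ?_⟩,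
    fun g => key _ g rfl⟩
  · rw [key 0 0 (by rw [map_zero (algebraMap L L₁)]), P.ord_zero]
  · rw [key (g * g') (c g * c g') (by rw [map_mul, map_mul, map_mul, ← hc, ← hc]),
      P.ord_mul (c0 g hg) (c0 g' hg')]
  · have := V.map_add g g'
    rw [hc g, hc g', hc (g + g'), le_max_iff, equiv_of V P h, equiv_of V P h,
      P.val_eq (c0 g hg), P.val_eq (c0 g' hg'), P.val_eq (c0 _ hs), exp_le_exp, exp_le_exp]
      at this
    omega

/-- Two extensions of a place where `p` is a square to first order. -/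
theorem exists_two (P : Place k L) (h2 : P.val 2 = 1) (hw : w * w = algebraMap L L₁ p)
    (hz : ∀ z : L₁, ∃ a b : L, z = algebraMap L L₁ a + algebraMap L L₁ b * w)
    (σ : L₁ →+* L₁) (hσ : ∀ g, σ (algebraMap L L₁ g) = algebraMap L L₁ g) (hσw : σ w = -w)
    {y : L} (hy : y ≠ 0) (hp : y ^ 2 ≠ p) (hs : P.val (p / y ^ 2 - 1) < 1) :
    ∃ G₁ G₂ : DV L₁, G₁ ≠ G₂ ∧ (∀ g, G₁.v (algebraMap L L₁ g) = P.ord g) ∧
      ∀ g, G₂.v (algebraMap L L₁ g) = P.ord g := by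
  obtain ⟨A, hA⟩ := M3G.RDn.exists_over (M := L₁) P.val.valuationSubring
  have h : ∀ g, P.val g ≤ 1 ↔ A.valuation (algebraMap L L₁ g) ≤ 1 := fun g =>
    (hA g).trans (A.valuation_le_one_iff _).symm
  have one : ∀ g, P.val g = 1 → A.valuation (algebraMap L L₁ g) = 1 := fun g e => by
    rw [← map_one P.val] at e
    have := le_antisymm ((equiv_of _ P h _ _).2 e.le) ((equiv_of _ P h _ _).2 e.ge)
    rwa [map_one, map_one] at this
  have hy1 : algebraMap L L₁ y ≠ 0 := (_root_.map_ne_zero _).2 hy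
  have e1 : w / algebraMap L L₁ y * (w / algebraMap L L₁ y) = algebraMap L L₁ (p / y ^ 2) := by
    rw [div_mul_div_comm, hw, map_div₀, map_pow, sq]
  have e2 : A.valuation w = A.valuation (algebraMap L L₁ y) := by
    have a1 := one (p / y ^ 2) (by
      rw [← sub_add_cancel (p / y ^ 2) 1, add_comm]
      exact P.val.map_one_add_of_lt hs)
    rw [← e1, map_mul, ← sq, pow_eq_one_iff_of_nonneg zero_le two_ne_zero, map_div₀] at a1
    exact (div_eq_one_iff_eq ((Valuation.ne_zero_iff _).2 hy1)).1 a1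
  obtain ⟨G₁, hG⟩ := exists_up A.valuation P h fun z => by
    obtain ⟨c, hc | hc⟩ := val_cases A.valuation
      (by rw [← map_ofNat (algebraMap L L₁) 2]; exact one 2 h2) hw hz z
    · exact ⟨c, hc⟩
    · exact ⟨c * y, by rw [hc, e2, map_mul, map_mul]⟩
  refine ⟨G₁, ⟨fun z => G₁.v (σ z), by rw [map_zero, G₁.zero], fun g g' hg hg' => ?_,
    fun g g' hg hg' hs => ?_⟩, fun e => ?_, hG, fun g => ?_⟩
  · rw [map_mul, G₁.mul _ _ ((map_ne_zero σ).2 hg) ((map_ne_zero σ).2 hg')]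
  · rw [map_add]
    exact G₁.add _ _ ((map_ne_zero σ).2 hg) ((map_ne_zero σ).2 hg')
      (by rw [← map_add]; exact (map_ne_zero σ).2 hs)
  · set u := w / algebraMap L L₁ y with hu
    have a1 : G₁.v (u - 1) = G₁.v (σ (u - 1)) := congrArg (fun G : DV L₁ => G.v (u - 1)) e
    rw [map_sub, map_one, hu, map_div₀, hσ, hσw, neg_div, ← hu,
      show -u - 1 = -(u + 1) by ring, G₁.neg] at a1
    have d0 : p / y ^ 2 - 1 ≠ 0 := fun x =>
      hp ((div_eq_one_iff_eq (pow_ne_zero 2 hy)).1 (sub_eq_zero.1 x)).symm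
    have a2 : (u - 1) * (u + 1) = algebraMap L L₁ (p / y ^ 2 - 1) := by
      rw [map_sub, ← e1, map_one]
      ring
    have a3 : (u - 1) * (u + 1) ≠ 0 := a2 ▸ (_root_.map_ne_zero _).2 d0
    have a4 := G₁.mul _ _ (left_ne_zero_of_mul a3) (right_ne_zero_of_mul a3)
    rw [a2, hG] at a4
    have a5 := (P.val_lt_one (P.val_ne d0)).1 hs
    have a6 : (u + 1) - (u - 1) ∈ G₁.F 1 :=
      sub_mem (Or.inr (by omega)) (Or.inr (by omega))
    rw [show (u + 1) - (u - 1) = 2 by ring, ← map_ofNat (algebraMap L L₁) 2] at a6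
    rcases a6 with a6 | a6
    · rw [(map_eq_zero _).1 a6, map_zero] at h2
      exact zero_ne_one h2
    · rw [hG, P.ord_of_val_one h2] at a6
      omega
  · show G₁.v (σ _) = _
    rw [hσ, hG]

/-- The restriction of a place and its index. -/
theorem exists_dn {Y : Derivation k L L} {g : ℕ} {N : Place k L → ℕ} (hD : M3G.Deg Y g N)
    {k₁ : Type} [Field k₁] [Algebra k₁ L₁] (Q : Place k₁ L₁) (h2 : Q.val 2 = 1) (hp : p ≠ 0)
    (hw : w * w = algebraMap L L₁ p)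
    (hz : ∀ z : L₁, ∃ a b : L, z = algebraMap L L₁ a + algebraMap L L₁ b * w)
    (hk : ∀ c : k, Q.val (algebraMap L L₁ (algebraMap k L c)) ≤ 1) :
    ∃ (P : Place k L) (e : ℕ), 0 < e ∧ (∀ g, Q.ord (algebraMap L L₁ g) = e * P.ord g) ∧
      (P.ord p = 0 ∨ P.ord p = -2 → e = 1) ∧ (P.ord p = 1 → e = 2) := by
  have hw0 : w ≠ 0 := fun e => hp ((map_eq_zero (algebraMap L L₁)).1 (by rw [← hw, e, mul_zero]))
  obtain ⟨P, hP⟩ := hD.pl (Q.val.valuationSubring.comap (algebraMap L L₁)) hk fun e => by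
    have a1 : ∀ c, Q.val (algebraMap L L₁ c) ≤ 1 := fun c =>
      show c ∈ Q.val.valuationSubring.comap (algebraMap L L₁) from e ▸ trivial
    have a2 : Q.val w ≤ 1 := by
      have := a1 p
      rwa [← hw, map_mul, ← sq, pow_le_one_iff_of_nonneg zero_le two_ne_zero] at this
    obtain ⟨z, hz'⟩ := Q.surj (exp 1)
    have a3 : Q.val z ≤ 1 := by
      obtain ⟨c, hc | hc⟩ := val_cases Q.val h2 hw hz z <;> rw [hc]
      exacts [a1 c, mul_le_one' (a1 c) a2]
    rw [hz', ← exp_zero, exp_le_exp] at a3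
    omega
  have h : ∀ g, P.val g ≤ 1 ↔ Q.val (algebraMap L L₁ g) ≤ 1 := fun g => (hP g).symm
  obtain ⟨π, hπ⟩ := P.exists_unif
  have π1 := P.ord_eq (n := 1) hπ
  have π0 : π ≠ 0 := fun e => by simp [e] at π1
  have π2 : Q.val (algebraMap L L₁ π) ≠ 0 := Q.val_ne ((_root_.map_ne_zero _).2 π0)
  have hpos : 0 < Q.ord (algebraMap L L₁ π) := (Q.val_lt_one π2).1 (not_le.1 fun x => by
    have := (equiv_of Q.val P h 1 π).1 (by rwa [map_one, map_one])
    rw [map_one, hπ, ← exp_zero, exp_le_exp] at this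
    omega)
  obtain ⟨e, he⟩ := Int.eq_ofNat_of_zero_le hpos.le
  have hv : ∀ g, Q.ord (algebraMap L L₁ g) = e * P.ord g := fun g => by
    by_cases h0 : g = 0
    · simp [h0]
    have a1 : P.val g = P.val (π ^ P.ord g) := by
      rw [map_zpow₀, hπ, ← exp_zsmul, P.val_eq (P.val_ne h0)]
      simp
    rw [← he, mul_comm, ← Q.ord_zpow, ← map_zpow₀, Place.ord, Place.ord,
      le_antisymm ((equiv_of Q.val P h _ _).2 a1.le) ((equiv_of Q.val P h _ _).2 a1.ge)]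
  have a2 : Q.ord w + Q.ord w = e * P.ord p := by
    rw [← hv, ← hw, Q.ord_mul (Q.val_ne hw0) (Q.val_ne hw0)]
  obtain ⟨z, hz'⟩ := Q.exists_unif
  have a3 : ∃ n : ℤ, 1 = e * n ∨ 1 = e * n + Q.ord w := by
    have z1 := Q.ord_eq (n := 1) hz'
    obtain ⟨c, hc | hc⟩ := val_cases Q.val h2 hw hz z
    · exact ⟨P.ord c, Or.inl (by rw [← hv, ← z1, Place.ord, Place.ord, hc])⟩
    · have c0 : Q.val (algebraMap L L₁ c) ≠ 0 := fun x => by
        rw [x, zero_mul, hz'] at hc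
        exact exp_ne_zero hc
      exact ⟨P.ord c, Or.inr (by
        rw [← hv, ← z1, ← Q.ord_mul c0 (Q.val_ne hw0), Place.ord, Place.ord, hc, map_mul])⟩
  obtain ⟨n, a3⟩ := a3
  have e0 : (0 : ℤ) ≤ e := Int.natCast_nonneg e
  refine ⟨P, e, by omega, hv, fun x => ?_, fun x => ?_⟩
  · have : ∃ m : ℤ, e * m = 1 := by
      rcases x with x | x <;> rw [x] at a2 <;> rcases a3 with a3 | a3
      exacts [⟨n, a3.symm⟩, ⟨n, by omega⟩, ⟨n, a3.symm⟩, ⟨n - 1, by rw [mul_sub]; omega⟩]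
    obtain ⟨m, hm⟩ := this
    exact_mod_cast Int.eq_one_of_mul_eq_one_right e0 hm
  · rw [x, mul_one] at a2
    rw [← a2] at a3
    have : ∃ m : ℤ, Q.ord w * m = 1 := by
      rcases a3 with a3 | a3
      exacts [⟨2 * n, by linear_combination -a3⟩, ⟨2 * n + 1, by linear_combination -a3⟩]
    obtain ⟨m, hm⟩ := this
    have := Int.eq_one_of_mul_eq_one_right (by omega) hm
    omega

end Quad

theorem count {ι : Type} [DecidableEq ι] {N : ι → ℕ} {A : ι → ℚ} {S : Finset ι} {g : ℕ}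
    (hN : ∀ P, 0 < N P) (off : ∀ P, P ∉ S → A P = 1)
    (can : ∑ P ∈ S, (N P : ℚ) * (A P - 1) = 2 * g - 2) {P₀ P₁ : ι} (h₀ : A P₀ = 0)
    (h₁ : 0 < A P₁ ∧ A P₁ ≤ 1 / 2) (hr : ∀ P, P ≠ P₀ → A P = 1 ∨ (0 < A P ∧ A P ≤ 1 / 2)) :
    g = 0 ∧ N P₀ = 1 ∧ ∃ O : Finset ι, P₀ ∉ O ∧ ∑ P ∈ O, N P = 2 ∧ P₁ ∈ O ∧
      (∀ P ∈ O, A P = 1 / 2) ∧ ∀ P, P ∉ O → P ≠ P₀ → A P = 1 := by
  have m0 : P₀ ∈ S := by_contra fun x => by linarith [off P₀ x]
  obtain ⟨O, hO⟩ : ∃ O : Finset ι, O = (S.erase P₀).filter fun P => A P ≠ 1 := ⟨_, rfl⟩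
  have mem : ∀ P, P ∈ O ↔ P ≠ P₀ ∧ A P ≠ 1 := fun P => by
    rw [hO, mem_filter, mem_erase]
    exact ⟨fun h => ⟨h.1.1, h.2⟩, fun h => ⟨⟨h.1, by_contra fun x => h.2 (off P x)⟩, h.2⟩⟩
  have m1 : P₁ ∈ O := (mem P₁).2 ⟨fun e => by rw [e] at h₁; linarith [h₁.1], by linarith [h₁.2]⟩
  have hA : ∀ P ∈ O, 0 < A P ∧ A P ≤ 1 / 2 := fun P hP =>
    (hr P ((mem P).1 hP).1).resolve_left ((mem P).1 hP).2
  have hN' : ∀ P, (1 : ℚ) ≤ N P := fun P => by exact_mod_cast hN P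
  rw [← add_sum_erase _ _ m0, h₀, ← sum_filter_of_ne (p := fun P => A P ≠ 1)
    (fun P _ h e => h (by rw [e, sub_self, mul_zero])), ← hO] at can
  have e1 : ∑ P ∈ O, (N P : ℚ) * (A P - 1) =
      -(∑ P ∈ O, (N P : ℚ) * (1 / 2 - A P)) - (∑ P ∈ O, (N P : ℚ)) / 2 := by
    rw [sum_div, ← sum_neg_distrib, ← sum_sub_distrib]
    exact sum_congr rfl fun P _ => by ring
  have e2 : ∑ P ∈ O, (N P : ℚ) * (A P - 1) =
      ∑ P ∈ O, (N P : ℚ) * A P - ∑ P ∈ O, (N P : ℚ) := by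
    rw [← sum_sub_distrib]
    exact sum_congr rfl fun P _ => by ring
  have n1 : ∀ P ∈ O, 0 ≤ (N P : ℚ) * (1 / 2 - A P) := fun P hP =>
    mul_nonneg (Nat.cast_nonneg _) (sub_nonneg.2 (hA P hP).2)
  have s1 := sum_nonneg n1
  have s2 : 0 < ∑ P ∈ O, (N P : ℚ) * A P :=
    sum_pos (fun P hP => mul_pos (by linarith [hN' P]) (hA P hP).1) ⟨P₁, m1⟩
  have s3 : (N P₁ : ℚ) ≤ ∑ P ∈ O, (N P : ℚ) :=
    single_le_sum (f := fun P => (N P : ℚ)) (fun P _ => Nat.cast_nonneg _) m1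
  have hg : g = 0 := by
    have : (g : ℚ) < 1 := by linarith [hN' P₀, hN' P₁]
    exact Nat.lt_one_iff.1 (by exact_mod_cast this)
  subst hg
  have n0 : N P₀ = 1 := by
    have : (N P₀ : ℚ) < 2 := by push_cast at can; linarith [hN' P₁]
    have h1 : N P₀ < 2 := by exact_mod_cast this
    have := hN P₀
    omega
  rw [n0] at can
  push_cast at can
  have n2 : ∑ P ∈ O, N P = 2 := by
    have a1 : (1 : ℚ) < (∑ P ∈ O, N P : ℕ) := by push_cast; linarith
    have a2 : ((∑ P ∈ O, N P : ℕ) : ℚ) ≤ 2 := by push_cast; linarith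
    have b1 : 1 < ∑ P ∈ O, N P := by exact_mod_cast a1
    have b2 : ∑ P ∈ O, N P ≤ 2 := by exact_mod_cast a2
    omega
  have n3 : ∑ P ∈ O, (N P : ℚ) = 2 := by exact_mod_cast n2
  refine ⟨rfl, n0, O, fun h => ((mem P₀).1 h).1 rfl, n2, m1, fun P hP => ?_,
    fun P hP h => by_contra fun x => hP ((mem P).2 ⟨h, x⟩)⟩
  have := (sum_eq_zero_iff_of_nonneg n1).1 (by linarith) P hP
  have := (mul_eq_zero.1 this).resolve_left (by linarith [hN' P])
  linarith

theorem kz_up {L L₁ : Type} [Field L] [Field L₁] [Algebra ℂ L] [Algebra ℂ L₁] [Algebra L L₁]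
    [IsScalarTower ℂ L L₁] {t x : L} (hx : x ∈ Kz t) :
    algebraMap L L₁ x ∈ Kz (algebraMap L L₁ t) := fun X hX =>
  (Module.forall_dual_apply_eq_zero_iff L _).1 fun φ =>
    hx (φ.compDer (X.compAlgebraMap L)) (show φ (X (algebraMap L L₁ t)) = 0 by
      rw [show X (algebraMap L L₁ t) = 0 from hX, map_zero])

theorem val_two {L : Type} [Field L] [Algebra ℂ L] {K : IntermediateField ℂ L} (P : Place K L) :
    P.val 2 = 1 := by
  have := cz K
  rw [← map_ofNat (algebraMap K L) 2]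
  exact P.triv 2 two_ne_zero

end RExA

open RExA in
theorem rowExA : SExA := by
  classical
  intro L ι _ _ _ Z hZ t G ht hG hE hR hO
  obtain ⟨Y, g, N, A, S, hD, hN⟩ := Q3P.num0 hZ.fin ⟨Z.q, Z.ψ, hZ.q0, hZ.ψ0, hZ.rat⟩ ht 1 1
    fun _ => 0
  obtain ⟨P₀, rfl⟩ := exists_place hG
  obtain ⟨Γ, r, hΓ, hr, hΓr⟩ := hO
  obtain ⟨P₁, rfl⟩ := exists_place hΓ
  have hP : ∀ P, P ≠ P₀ → Exp Z.d (dvOf P) (A P) ∧
      ((A P = 1 ∧ Good Z.d Z.v (dvOf P)) ∨ (0 < A P ∧ A P ≤ 1 / 2)) := fun P h => by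
    obtain ⟨a, h1, h2⟩ := hR _ (hor_dvOf P) fun e => h (Place.eq_of_le P P₀ fun x hx => by
      have := (mem_F P (m := 0)).2 hx
      rw [e] at this
      exact (mem_F P₀ (m := 0)).1 this)
    obtain rfl := hN.uniq P a h1
    exact ⟨h1, hon_c h2⟩
  have hr' : (2 : ℚ) ≤ r := by exact_mod_cast hr
  obtain ⟨rfl, n0, O, o0, o2, o1, oA, oB⟩ := count hD.pos (fun P h => (hN.off P h).1) hN.can
    (P₀ := P₀) (P₁ := P₁) (hN.uniq P₀ 0 (by simpa using hE)).symm
    (hN.uniq P₁ _ hΓr ▸ ⟨by positivity, one_div_le_one_div_of_le (by norm_num) hr'⟩)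
    fun P h => (hP P h).2.imp_left And.left
  obtain ⟨p, y, p0, y0, p2, ps, pQ⟩ := exists_p hD n0 O o0 o2
  have hsq : ∀ x : L, x ^ 2 ≠ p := fun x e => by
    have := pQ P₁ fun e => o0 (e ▸ o1)
    rw [if_pos o1, ← e, P₁.ord_pow] at this
    omega
  have : Fact (∀ x : L, x ^ 2 ≠ p + 0 * x) := ⟨fun x => by simpa using hsq x⟩
  have hw : (QuadraticAlgebra.omega : QuadraticAlgebra L p 0) * QuadraticAlgebra.omega =
      algebraMap L _ p := by ext <;> simp
  have hz : ∀ z : QuadraticAlgebra L p 0, ∃ a b : L,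
      z = algebraMap L _ a + algebraMap L _ b * QuadraticAlgebra.omega := fun z =>
    ⟨z.re, z.im, by ext <;> simp⟩
  refine ⟨QuadraticAlgebra L p 0, inferInstance, inferInstance, inferInstance, inferInstance,
    inferInstance, ?_, fun Γ₁ h₁ => ?_⟩
  · obtain ⟨G₁, G₂, a1, a2, a3⟩ := exists_two P₀ (val_two P₀) hw hz (starRingEnd _)
      (fun g => by ext <;> simp [starRingEnd_apply]) (by ext <;> simp [starRingEnd_apply])
      y0 (hsq y) ps
    exact ⟨G₁, G₂, a1, ⟨one_pos, fun g => (a2 g).trans (one_mul _).symm⟩,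
      ⟨one_pos, fun g => (a3 g).trans (one_mul _).symm⟩⟩
  · obtain ⟨Q, rfl⟩ := exists_place h₁
    obtain ⟨P, e, e0, hv, e1, e2⟩ := exists_dn hD Q (val_two Q) p0 hw hz fun c =>
      Q.const_le ⟨_, kz_up c.2⟩
    refine ⟨dvOf P, e, hor_dvOf P, ⟨e0, hv⟩, ?_⟩
    by_cases h : P = P₀
    · exact Or.inl ⟨e1 (Or.inr (h ▸ p2)), Or.inl (h ▸ rfl)⟩
    have a1 := pQ P h
    obtain ⟨b1, b2⟩ := hP P h
    by_cases hm : P ∈ O
    · rw [if_pos hm] at a1
      exact Or.inr ⟨e2 a1, oA P hm ▸ b1⟩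
    · rw [if_neg hm] at a1
      have a2 := oB P hm h
      refine Or.inl ⟨e1 (Or.inl a1), Or.inr ⟨by simpa [a2] using b1, ?_⟩⟩
      exact (b2.resolve_right fun x => by linarith [x.2]).2

end

end Pool.Agent.MP_ee8c61_ag.Q3IZ
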