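import Pool.Agent.MP_ee8c61_ag.Q3IZ.SDefs
import Pool.Agent.MP_ee8c61_ag.M3F.LF

/-!
One horizontal curve of exponent zero splits in an extension of the constants of the fibre.
-/

namespace Pool.Agent.MP_ee8c61_ag.Q3IZ

open M3 M3RESID M3F M3G M3C Pool.Agent.MP_cce4c9_lc.H87 Pool.Agent.MP_cce4c9_lc WithZero
open scoped IntermediateField

noncomputable section

namespace RExB

/-- Adjoining finitely many algebraic constants does not change the value group. -/
theorem unr {k₀ F M : Type} [Field k₀] [CharZero k₀] [Field F] [Field M] [Algebra k₀ F]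
    [Algebra k₀ M] [Algebra F M] [IsScalarTower k₀ F M] (w : Valuation M ℤᵐ⁰)
    (h₀ : ∀ c : k₀, w (algebraMap k₀ M c) ≤ 1) (T : Finset M) (hT : ∀ b ∈ T, IsAlgebraic k₀ b)
    (z : M) (hz : z ∈ IntermediateField.adjoin F (T : Set M)) :
    ∃ c : F, w (algebraMap F M c) = w z := by
  refine IntermediateField.induction_on_adjoin_finset T
    (fun K => ∀ x ∈ K, ∃ c : F, w (algebraMap F M c) = w x) ?_ ?_ z hz
  · intro x hx
    obtain ⟨c, rfl⟩ := IntermediateField.mem_bot.1 hx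
    exact ⟨c, rfl⟩
  · intro K b hb ih x hx
    have : IsScalarTower k₀ K M := IsScalarTower.of_algebraMap_eq fun _ => rfl
    obtain ⟨c, hc⟩ := RUnr.simple (k₀ := k₀) (F := K) w b h₀
      (RDn.alg_mem w.valuationSubring h₀ (hT b hb)) (hT b hb).isIntegral x hx
    obtain ⟨c', hc'⟩ := ih c c.2
    exact ⟨c', hc'.trans hc⟩

/-- A finite level at which two places differ. -/
theorem level {k₀ L : Type} [Field k₀] [CharZero k₀] [Field L] [Algebra k₀ L] (B : BC k₀ L)
    {w₁ w₂ : Place B.k B.M} (hne : w₁ ≠ w₂) : ∃ L₁ : IntermediateField L B.M,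
      FiniteDimensional L L₁ ∧ (∃ a : L₁, w₁.val a ≠ w₂.val a) ∧
      ∀ w : Valuation L₁ ℤᵐ⁰, (∀ c : k₀, w (algebraMap L L₁ (algebraMap k₀ L c)) ≤ 1) →
        ∀ z, ∃ c : L, w (algebraMap L L₁ c) = w z := by
  classical
  obtain ⟨a, ha⟩ : ∃ a, w₁.val a ≠ w₂.val a := by
    by_contra h
    push Not at h
    exact hne (Place.ext (Valuation.ext h))
  have hz : a ∈ IntermediateField.adjoin L (Set.range (algebraMap B.k B.M)) := by
    rw [B.gen]
    exact IntermediateField.mem_top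
  obtain ⟨T, hT, hzT⟩ := IntermediateField.exists_finset_of_mem_adjoin hz
  have hi : ∀ b ∈ T, IsAlgebraic k₀ b := fun b hb => by
    obtain ⟨c, rfl⟩ := hT hb
    exact (Algebra.IsAlgebraic.isAlgebraic (R := k₀) c).algebraMap
  refine ⟨IntermediateField.adjoin L (T : Set B.M), IntermediateField.finiteDimensional_adjoin
    fun b hb => (hi b hb).isIntegral.tower_top, ⟨⟨a, hzT⟩, ha⟩, fun w h z => ?_⟩
  generalize hK : IntermediateField.adjoin L (T : Set B.M) = K at w h z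
  have hm : ∀ b ∈ T, b ∈ K := fun b hb => hK ▸ IntermediateField.subset_adjoin _ _ hb
  have : IsScalarTower k₀ K B.M := IsScalarTower.of_algebraMap_eq fun _ => rfl
  have h1 : IntermediateField.adjoin L ((T.subtype (· ∈ K) : Finset K) : Set K) = ⊤ := by
    refine K.lift_injective ?_
    rw [IntermediateField.lift_adjoin, IntermediateField.lift_top, ← hK]
    refine congrArg _ (Set.ext fun b => ⟨?_, fun hb => ⟨⟨b, hK ▸ hm b hb⟩, ?_, rfl⟩⟩)
    · rintro ⟨c, hc, rfl⟩
      exact Finset.mem_subtype.1 hc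
    · exact Finset.mem_subtype.2 hb
  refine unr (k₀ := k₀) w (fun c => ?_) (T.subtype (· ∈ K)) (fun b hb => ?_) z
    (h1 ▸ IntermediateField.mem_top)
  · rw [IsScalarTower.algebraMap_apply k₀ L K]
    exact h c
  · exact (isAlgebraic_algebraMap_iff (algebraMap K B.M).injective).1
      (hi b (Finset.mem_subtype.1 hb))

/-- A function on the places that is supported at one place and has the degree of a multiple of
the canonical class: the place splits. -/
theorem two {k₀ L : Type} [Field k₀] [CharZero k₀] [Field L] [Algebra k₀ L] (hL : IsFF k₀ L)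
    {d : Derivation k₀ L L} (hd : d ≠ 0) {q : ℕ} (hq : 0 < q) (ψ : L) (P : Place k₀ L)
    (h1 : P.ord ψ + q * cw d P = -q) (h2 : ∀ P', P' ≠ P → P'.ord ψ + q * cw d P' = 0) :
    ∃ (B : BC k₀ L) (w₁ w₂ : Place B.k B.M), w₁ ≠ w₂ ∧
      (∀ x, w₁.val (algebraMap L B.M x) = P.val x) ∧
      ∀ x, w₂.val (algebraMap L B.M x) = P.val x := by
  obtain ⟨B⟩ := rowEx k₀ L
  have : CharZero B.k := charZero_of_injective_algebraMap (algebraMap k₀ B.k).injective
  obtain ⟨hM, hD⟩ := rowFF k₀ L B hL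
  obtain ⟨D, hD⟩ := hD d
  have hD0 : D ≠ 0 := by
    rintro rfl
    refine hd (Derivation.ext fun x => (algebraMap L B.M).injective ?_)
    rw [← hD x]
    simp
  obtain ⟨g, hg⟩ := H7.genus hM
  obtain ⟨dn, hv, hs, hf, -⟩ := rowDn rowUnr k₀ L B hM
  have hloc := locC B.k B.M hM D hD0
  obtain ⟨hc1, hc2, -⟩ := dualC B.k B.M hM D hD0 g hg
  have ho : ∀ w x, (dn w).ord x = w.ord (algebraMap L B.M x) := fun w x => by
    simp only [Place.ord, hv]
  have hcw : ∀ w, cw D w = cw d (dn w) := fun w => by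
    have h1 := (hloc w).uni (algebraMap L B.M (unif (dn w))) (by rw [← hv, val_unif])
    rw [hD, ← hv] at h1
    have h2 : (dn w).ord (d (unif (dn w))) = -cw D w := (dn w).ord_eq (by rw [h1, neg_neg])
    show cw D w = -(dn w).ord (d (unif (dn w)))
    rw [h2, neg_neg]
  have hdv : ∀ w, dv B.k (algebraMap L B.M ψ) w = (dn w).ord ψ := fun w => by
    rw [dv_apply (H7.degF hM _).1, ho]
  have h3 := RGF.sum_of hf (F := fun P' => P'.ord ψ + q * cw d P')
    (dv B.k (algebraMap L B.M ψ) + (q : ℤ) • can D)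
    (fun w => by rw [Finsupp.add_apply, Finsupp.smul_apply, hdv, hc1, hcw, smul_eq_mul]) {P}
    fun P' hP => h2 P' (by simpa using hP)
  rw [Finset.sum_singleton, h1, map_add, map_zsmul, hc2, (H7.degF hM _).2.1, zero_add,
    smul_eq_mul, mul_neg, mul_comm, ← mul_neg] at h3
  have h4 := mul_left_cancel₀ (by exact_mod_cast hq.ne') h3
  obtain ⟨w, hw⟩ := hs P
  have h5 := (Set.ncard_pos (hf P)).2 ⟨w, hw⟩
  obtain ⟨w₁, e₁, w₂, e₂, hne⟩ := (Set.one_lt_ncard (hf P)).1 (by omega)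
  exact ⟨B, w₁, w₂, hne, fun x => by rw [← hv, show dn w₁ = P from e₁],
    fun x => by rw [← hv, show dn w₂ = P from e₂]⟩

/-- The additive valuation induced by a place. -/
def dvP {k M F : Type} [Field k] [Field M] [Algebra k M] [Field F] (P : Place k M)
    (φ : F →+* M) : DV F where
  v g := P.ord (φ g)
  zero := by rw [map_zero, P.ord_zero]
  mul g h hg hh := by
    rw [map_mul]
    exact P.ord_mul (P.val_ne ((map_ne_zero φ).2 hg)) (P.val_ne ((map_ne_zero φ).2 hh))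
  add g h hg hh hs := by
    have := P.val.map_add (φ g) (φ h)
    rw [← map_add, P.val_eq (P.val_ne ((map_ne_zero φ).2 hg)),
      P.val_eq (P.val_ne ((map_ne_zero φ).2 hh)), P.val_eq (P.val_ne ((map_ne_zero φ).2 hs)),
      le_max_iff, exp_le_exp, exp_le_exp] at this
    omega

variable {L L₁ : Type} [Field L] [Algebra ℂ L] [Field L₁] [Algebra ℂ L₁] [Algebra L L₁]
  [IsScalarTower ℂ L L₁]

theorem map_Kz (C : Co L 2)
    (hf : FiniteDimensional (IntermediateField.adjoin ℂ (Set.range C.z)) L) {t : L}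
    (ht : ∃ X : VF L, X t ≠ 0) {x : L} (hx : x ∈ Kz t) :
    algebraMap L L₁ x ∈ Kz (algebraMap L L₁ t) := fun X hX => by
  have h1 : ℂ⟮t⟯ ≤ (cst {X}).comap (IsScalarTower.toAlgHom ℂ L L₁) :=
    IntermediateField.adjoin_simple_le_iff.2 fun Y hY => by
      rw [Set.mem_singleton_iff.1 hY]; exact hX
  let f : ℂ⟮t⟯ →+* cst {X} :=
    ((algebraMap L L₁).comp (algebraMap ℂ⟮t⟯ L)).codRestrict _ fun y => h1 y.2
  exact kill_le X le_rfl ((alg_Kz C hf (tr_of_nc (ne_of_der ht)) hx).ringHom_of_comp_eq f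
    (algebraMap L L₁) f.injective rfl)

end RExB

open RExB in
theorem rowExB : SExB := by
  intro L ι _ _ _ Z hZ t G ht hG h0 hr
  have := cz (Kz t)
  let Y := rel (Kz t) (fib Z.C t) fun _ hy => hy _ (fib_self Z.C)
  have hY : Y ≠ 0 := fun h => by
    obtain ⟨i, hi⟩ := fib_ne Z.C ht
    exact hi (congrArg (fun W : Derivation (Kz t) L L => W (Z.C.z i)) h)
  have hFF := isFF_Kz Z.C hZ.fin ht
  obtain ⟨g, N, hD⟩ := gf (Kz t) L hFF (cl_Kz t) Y hY
  have hq : (Z.q : ℚ) ≠ 0 := Nat.cast_ne_zero.2 hZ.q0.ne'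
  have hA : ∀ (P : Place (Kz t) L) (a : ℤ), Exp Z.d (dvOf P) a →
      P.ord Z.ψ + Z.q * cw Y P = Z.q * (a - 1) := fun P a ha => by
    have h1 := exp_eq (a := a) (by simpa using ha) hZ.q0 hZ.ψ0
      (by rw [hZ.rat, fib_dv, zero_add]) (val_unif P) (hD.uni P _ (val_unif P)) (hD.reg P)
    have h2 : (P.ord Z.ψ + Z.q * cw Y P : ℚ) = Z.q * (a - 1) := by
      rw [h1]; field_simp; ring
    exact_mod_cast h2
  obtain ⟨P, rfl⟩ := exists_place hG
  obtain ⟨B, w₁, w₂, hne, e₁, e₂⟩ := two hFF hY hZ.q0 Z.ψ P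
    (by rw [hA P 0 (by simpa using h0)]; ring) fun P' hP => by
      rw [hA P' 1 (by
        simpa using (hr _ (hor_dvOf P') fun e => hP (Place.eq_of_le _ _ fun x hx => by
          have := (mem_F P' (m := 0)).2 (by simpa using hx)
          rw [e] at this
          simpa using (mem_F P).1 this)).1)]
      ring
  obtain ⟨L₁, hfin, ⟨a, ha⟩, hu⟩ := level B hne
  let _ : Algebra ℂ L₁ := ((algebraMap L L₁).comp (algebraMap ℂ L)).toAlgebra
  have tw : IsScalarTower ℂ L L₁ := IsScalarTower.of_algebraMap_eq fun _ => rfl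
  have ov : ∀ w : Place B.k B.M, (∀ x, w.val (algebraMap L B.M x) = P.val x) →
      Ovr (dvP w (algebraMap L₁ B.M)) (dvOf P) 1 := fun w e => ⟨one_pos, fun x => by
    rw [Nat.cast_one, one_mul]
    exact congrArg (fun y => -log y) (e x)⟩
  refine ⟨L₁, inferInstance, inferInstance, inferInstance, tw, hfin,
    ⟨_, _, fun e => ha ?_, ov w₁ e₁, ov w₂ e₂⟩, fun Γ₁ h₁ => ?_⟩
  · by_cases a0 : (a : B.M) = 0
    · rw [a0, map_zero, map_zero]
    · rw [w₁.val_eq (w₁.val_ne a0), w₂.val_eq (w₂.val_ne a0)]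
      exact congrArg (fun y => exp (-y)) (congrArg (fun o : DV L₁ => o.v a) e)
  · obtain ⟨Q, rfl⟩ := exists_place h₁
    have hK : ∀ x ∈ Kz t, algebraMap L L₁ x ∈ (dvOf Q).F 0 := fun x hx =>
      h₁.2 _ (map_Kz Z.C hZ.fin ht hx)
    have hΓ : Hor (Kz t) (dvP Q (algebraMap L L₁)) := by
      refine ⟨?_, fun x hx => (hK x hx).imp (map_eq_zero _).1 id⟩
      obtain ⟨c, hc⟩ := hu Q.val (fun c => by simpa using (mem_F Q).1 (hK c c.2)) (unif Q)
      exact ⟨c, Q.ord_eq (hc.trans (val_unif Q))⟩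
    refine ⟨_, 1, hΓ, ⟨one_pos, fun x => by rw [Nat.cast_one, one_mul]; rfl⟩, Or.inl ⟨rfl, ?_⟩⟩
    exact (em _).imp id (hr _ hΓ)

end

end Pool.Agent.MP_ee8c61_ag.Q3IZ
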