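import Pool.Agent.MP_ee8c61_ag.Q3IZ.SDefs
import Pool.Agent.MP_ee8c61_ag.M3RESID.CvAt

/-!
Curves, exponents and lattices in a finite extension.
-/

namespace Pool.Agent.MP_ee8c61_ag.Q3IZ

open M3 M3RESID M3F Polynomial
open M3J (ex br)

noncomputable section

namespace RRes

variable {L L₁ : Type} [Field L] [Field L₁] [Algebra L L₁] {Γ₁ : DV L₁} {Γ : DV L} {e : ℕ}

theorem up (h : Ovr Γ₁ Γ e) {m : ℤ} {g : L} (hg : g ∈ Γ.F m) :
    algebraMap L L₁ g ∈ Γ₁.F (e * m) := by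
  rcases hg with rfl | hg
  · exact Or.inl (map_zero _)
  · refine Or.inr ?_
    rw [h.2]
    exact mul_le_mul_of_nonneg_left hg (Nat.cast_nonneg e)

theorem dn0 (h : Ovr Γ₁ Γ e) {g : L} (hg : algebraMap L L₁ g ∈ Γ₁.F 0) : g ∈ Γ.F 0 := by
  rcases hg with hg | hg
  · exact Or.inl ((map_eq_zero _).1 hg)
  · refine Or.inr ?_
    rw [h.2] at hg
    have : (0 : ℤ) < e := by exact_mod_cast h.1
    exact nonneg_of_mul_nonneg_right hg this

theorem dn1 (h : Ovr Γ₁ Γ e) {g : L} (hg : algebraMap L L₁ g ∈ Γ₁.F 1) : g ∈ Γ.F 1 := by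
  rcases hg with hg | hg
  · exact Or.inl ((map_eq_zero _).1 hg)
  · refine Or.inr ?_
    rw [h.2] at hg
    have : (0 : ℤ) < e := by exact_mod_cast h.1
    by_contra h1
    have h2 : Γ.v g ≤ 0 := by omega
    have := mul_nonpos_of_nonneg_of_nonpos this.le h2
    omega

theorem up1 (h : Ovr Γ₁ Γ e) {g : L} (hg : g ∈ Γ.F 1) : algebraMap L L₁ g ∈ Γ₁.F 1 := by
  have h1 : (0 : ℤ) < e := by exact_mod_cast h.1
  exact Γ₁.F_anti (by omega) (up h hg)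

theorem aeval_F [FiniteDimensional L L₁] {P : L[X]} {m : ℤ}
    (h : ∀ i, algebraMap L L₁ (P.coeff i) ∈ Γ₁.F m) {y : L₁} (hy : y ∈ Γ₁.F 0) :
    aeval y P ∈ Γ₁.F m := by
  rw [← eval_map_algebraMap]
  exact CVA.eval_F (fun i => by rw [coeff_map]; exact h i) hy

/-- The restriction is not trivial. -/
theorem nontriv [FiniteDimensional L L₁] {π : L₁} (hπ : Γ₁.v π = 1) :
    ∃ n : ℕ, 0 < n ∧ ∃ g : L, Γ₁.v (algebraMap L L₁ g) = n := by
  by_contra hn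
  have h0 : ∀ g : L, Γ₁.v (algebraMap L L₁ g) = 0 := fun g => by
    by_contra h
    rcases lt_or_gt_of_ne h with h | h
    · exact hn ⟨(-Γ₁.v (algebraMap L L₁ g)).toNat, by omega, g⁻¹, by
        rw [map_inv₀, Γ₁.inv]; omega⟩
    · exact hn ⟨(Γ₁.v (algebraMap L L₁ g)).toNat, by omega, g, by omega⟩
  have hπ0 : π ≠ 0 := fun h => by simp [h, Γ₁.zero] at hπ
  have hi : IsIntegral L π := Algebra.IsIntegral.isIntegral π
  have h1 := congrArg (aeval π) (X_mul_divX_add (minpoly L π))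
  rw [minpoly.aeval, map_add, map_mul, aeval_X, aeval_C] at h1
  have h2 : π * aeval π (minpoly L π).divX ∈ Γ₁.F 1 :=
    F_mul0' (Or.inr hπ.ge) (aeval_F (fun i => Or.inr (h0 _).ge) (Or.inr (by omega)))
  rw [eq_neg_of_add_eq_zero_left h1, neg_mem_iff] at h2
  have h3 := h2.resolve_left ((_root_.map_ne_zero _).2 (minpoly.coeff_zero_ne_zero hi hπ0))
  rw [h0] at h3
  omega

theorem restr [FiniteDimensional L L₁] {π : L₁} (hπ : Γ₁.v π = 1) :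
    ∃ (Γ : DV L) (e : ℕ), (∃ y, Γ.v y = 1) ∧ Ovr Γ₁ Γ e := by
  classical
  have hn := nontriv (L := L) hπ
  obtain ⟨e, he⟩ : ∃ e, e = Nat.find hn := ⟨_, rfl⟩
  obtain ⟨e0, y, hy⟩ := he ▸ Nat.find_spec hn
  have e1 : (0 : ℤ) < e := by exact_mod_cast e0
  have y0 : y ≠ 0 := fun h => by
    rw [h, map_zero, Γ₁.zero] at hy
    omega
  have hd : ∀ g : L, (e : ℤ) ∣ Γ₁.v (algebraMap L L₁ g) := fun g => by
    by_cases g0 : g = 0
    · rw [g0, map_zero, Γ₁.zero]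
      exact dvd_zero _
    obtain ⟨a, ha⟩ : ∃ a, a = Γ₁.v (algebraMap L L₁ g) := ⟨_, rfl⟩
    have h1 : Γ₁.v (algebraMap L L₁ (g * y ^ (-(a / e)))) = a % e := by
      rw [map_mul, map_zpow₀, Γ₁.mul _ _ ((_root_.map_ne_zero _).2 g0)
        (zpow_ne_zero _ ((_root_.map_ne_zero _).2 y0)), v_zpow Γ₁ ((_root_.map_ne_zero _).2 y0), hy, ← ha,
        Int.emod_def]
      ring
    have h2 := Int.emod_nonneg a e1.ne'
    have h3 := Int.emod_lt_of_pos a e1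
    rw [← ha]
    by_contra h4
    have h5 : a % e ≠ 0 := fun h => h4 (Int.dvd_of_emod_eq_zero h)
    exact Nat.find_min hn (m := (a % e).toNat) (by omega) ⟨by omega, _, by rw [h1]; omega⟩
  refine ⟨⟨fun g => Γ₁.v (algebraMap L L₁ g) / e, by simp [Γ₁.zero], fun g h g0 h0 => ?_,
    fun g h g0 h0 s0 => ?_⟩, e, ⟨y, ?_⟩, e0, fun g => (Int.mul_ediv_cancel' (hd g)).symm⟩
  · rw [map_mul, Γ₁.mul _ _ ((_root_.map_ne_zero _).2 g0) ((_root_.map_ne_zero _).2 h0),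
      Int.add_ediv_of_dvd_left (hd g)]
  · have h1 := Γ₁.add _ _ ((_root_.map_ne_zero (algebraMap L L₁)).2 g0) ((_root_.map_ne_zero _).2 h0)
      (by rw [← map_add]; exact (_root_.map_ne_zero _).2 s0)
    rw [← map_add] at h1
    rcases min_le_iff.1 h1 with h2 | h2
    · exact min_le_of_left_le (Int.ediv_le_ediv e1 h2)
    · exact min_le_of_right_le (Int.ediv_le_ediv e1 h2)
  · change Γ₁.v (algebraMap L L₁ y) / e = 1
    rw [hy, Int.ediv_self e1.ne']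

/-- A relation with regular coefficients, one of them equal to one. -/
theorem prim1 [FiniteDimensional L L₁] (Γ : DV L) (y : L₁) :
    ∃ P : L[X], (∀ i, P.coeff i ∈ Γ.F 0) ∧ (∃ i, P.coeff i = 1) ∧ aeval y P = 0 := by
  have hy : IsIntegral L y := Algebra.IsIntegral.isIntegral y
  obtain ⟨j, hj, hm⟩ := Finset.exists_min_image (minpoly L y).support
    (fun i => Γ.v ((minpoly L y).coeff i)) (support_nonempty.2 (minpoly.ne_zero hy))
  have c0 := mem_support_iff.1 hj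
  refine ⟨C ((minpoly L y).coeff j)⁻¹ * minpoly L y, fun i => ?_, ⟨j, ?_⟩, ?_⟩
  · rw [coeff_C_mul]
    by_cases h : (minpoly L y).coeff i = 0
    · exact Or.inl (by rw [h, mul_zero])
    · have := hm i (mem_support_iff.2 h)
      exact Or.inr (by rw [Γ.mul _ _ (inv_ne_zero c0) h, Γ.inv]; omega)
  · rw [coeff_C_mul, inv_mul_cancel₀ c0]
  · rw [map_mul, minpoly.aeval, mul_zero]

variable [Algebra ℂ L] [Algebra ℂ L₁] [IsScalarTower ℂ L L₁]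

theorem cc (c : ℂ) : algebraMap L L₁ (algebraMap ℂ L c) = algebraMap ℂ L₁ c :=
  (IsScalarTower.algebraMap_apply ℂ L L₁ c).symm

theorem nc_up (h : Ovr Γ₁ Γ e) {z : L} (hz : NC Γ z) : NC Γ₁ (algebraMap L L₁ z) :=
  ⟨by simpa using up h hz.1, fun c hc => hz.2 c (dn1 h (by rwa [map_sub, cc]))⟩

theorem nc_dn [FiniteDimensional L L₁] (h : Ovr Γ₁ Γ e) {g : L₁} (hg : NC Γ₁ g) :
    ∃ z, NC Γ z := by
  by_contra hn
  obtain ⟨P, p1, ⟨j, p2⟩, p3⟩ := prim1 Γ g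
  have h1 : ∀ i, ∃ c : ℂ, P.coeff i - algebraMap ℂ L c ∈ Γ.F 1 := fun i => by
    by_contra h2
    exact hn ⟨_, p1 i, fun c hc => h2 ⟨c, hc⟩⟩
  choose c hc using h1
  obtain ⟨r, hr⟩ : ∃ r : ℂ[X], r = ∑ i ∈ P.support, monomial i (c i) := ⟨_, rfl⟩
  have r1 : ∀ i, r.coeff i = if i ∈ P.support then c i else 0 := fun i => by
    rw [hr, finsetSum_coeff]
    simp only [coeff_monomial]
    rw [Finset.sum_ite_eq']
  have r2 : ∀ i, (P - r.map (algebraMap ℂ L)).coeff i ∈ Γ.F 1 := fun i => by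
    rw [coeff_sub, coeff_map, r1]
    split_ifs with hi
    · exact hc i
    · rw [notMem_support_iff.1 hi, map_zero, sub_zero]
      exact zero_mem _
  have r0 : r ≠ 0 := fun h0 => by
    have := r2 j
    rw [h0, Polynomial.map_zero, sub_zero, p2, ← map_one (algebraMap ℂ L)] at this
    exact one_ne_zero (cst_F1 this)
  have h2 := aeval_F (Γ₁ := Γ₁) (fun i => up1 h (r2 i)) hg.1
  rw [map_sub, p3, zero_sub, neg_mem_iff, aeval_map_algebraMap] at h2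
  have h3 := Γ₁.un_O.1 (CVA.poly_un hg.1 hg.2 _ r rfl r0)
  have := h2.resolve_left h3.1
  omega

omit [IsScalarTower ℂ L L₁] in
theorem dvD {K : Type} [Field K] [Algebra ℂ K] (C : Co K 2) (i : Fin 2) : C.dv.δ (C.D i) = 0 := by
  rw [Co.dv_δ]
  refine Finset.sum_eq_zero fun j _ => ?_
  rw [C.dual]
  split_ifs <;> simp

theorem jac_br {K : Type} [Field K] [Algebra ℂ K] (C C' : Co K 2) :
    C.jac C' = (br C (C'.z 0) (C'.z 1))⁻¹ := by
  have h1 := M3J.br_chain C C' (C.z 0) (C.z 1)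
  rw [M3J.br_self] at h1
  have h2 : C.jac C' = br C' (C.z 0) (C.z 1) := by
    rw [Co.jac, Matrix.det_fin_two]
    rfl
  rw [h2]
  exact eq_inv_of_mul_eq_one_right h1.symm

section At

variable {C : Co L₁ 2} (hA : C.At Γ₁ 0) (h : Ovr Γ₁ Γ e) {y : L} (hy : Γ.v y = 1)
include hA h hy

omit [Algebra ℂ L] [IsScalarTower ℂ L L₁] in
theorem d0_val : C.D 0 (algebraMap L L₁ y) ≠ 0 ∧ Γ₁.v (C.D 0 (algebraMap L L₁ y)) = e - 1 := by
  have y0 : y ≠ 0 := fun h => by simp [h, Γ.zero] at hy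
  have y1 : algebraMap L L₁ y ≠ 0 := (_root_.map_ne_zero _).2 y0
  have hv : Γ₁.v (algebraMap L L₁ y) = e := by rw [h.2, hy, mul_one]
  have h1 := M3J.th_F hA (m := e) (g := algebraMap L L₁ y) (Or.inr hv.ge)
  have e0 : ((e : ℤ) : L₁) = algebraMap ℂ L₁ (e : ℂ) := by simp
  have e1 : ((e : ℤ) : L₁) ≠ 0 := by
    rw [e0]
    exact (_root_.map_ne_zero _).2 (Nat.cast_ne_zero.2 h.1.ne')
  have h2 : Γ₁.v (((e : ℤ) : L₁) * algebraMap L L₁ y) = e := by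
    rw [Γ₁.mul _ _ e1 y1, hv, e0, v_cst, zero_add]
  have h3 : C.z 0 * C.D 0 (algebraMap L L₁ y) ∉ Γ₁.F (e + 1) := fun h3 => by
    have := sub_mem h3 h1
    rw [sub_sub_cancel] at this
    have := this.resolve_left (mul_ne_zero e1 y1)
    omega
  have h4 : C.D 0 (algebraMap L L₁ y) ≠ 0 := fun h4 => h3 (Or.inl (by rw [h4, mul_zero]))
  have h5 := (M3J.D0_F hA (m := e) (g := algebraMap L L₁ y) (Or.inr hv.ge)).resolve_left h4
  have h6 : ¬(e : ℤ) + 1 ≤ Γ₁.v (C.z 0 * C.D 0 (algebraMap L L₁ y)) := fun h6 => h3 (Or.inr h6)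
  rw [Γ₁.mul _ _ (C.ne 0) h4, hA.v, if_pos rfl] at h6
  exact ⟨h4, by omega⟩

omit [IsScalarTower ℂ L L₁] in
theorem fld {z : L} (hz : C.z 1 = algebraMap L L₁ z) {X : VF L} {X₁ : VF L₁}
    (hX : ∀ g, X₁ (algebraMap L L₁ g) = algebraMap L L₁ (X g)) {a b c : ℤ} (ha : X y ∈ Γ.F a)
    (hb : X z ∈ Γ.F b) (h1 : c + (e - 1) ≤ e * a) (h2 : c + (e - 1) ≤ e * b + e) :
    X₁ (C.z 0) ∈ Γ₁.F c ∧ X₁ (C.z 1) ∈ Γ₁.F (e * b) := by
  obtain ⟨d0, d1⟩ := d0_val hA h hy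
  have h3 : X₁ (C.z 1) ∈ Γ₁.F (e * b) := by
    rw [hz, hX]
    exact up h hb
  refine ⟨M3J.F_cancel d0 ?_, h3⟩
  have hv : algebraMap L L₁ y ∈ Γ₁.F e := Or.inr (by rw [h.2, hy, mul_one])
  have h4 := sub_mem (Γ₁.F_anti h1 (up h ha)) (M3J.F_mul' h3 (M3J.D1_F hA hv) h2)
  rw [← hX, M3J.ap2 C X₁, add_sub_cancel_right, mul_comm] at h4
  rwa [d1]

end At

end RRes

open RRes in
theorem rowRes : SRes := by
  intro L L₁ ι _ _ _ _ _ _ _ _ Z Z₁ hZ hE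
  have hδ : ∀ i, Z₁.d.δ (Z₁.C.D i) = algebraMap L L₁ (Z.d.δ (Z.C.D i)) := fun i => by
    rw [hE.ok.rat, hZ.rat, dvD, dvD, zero_add, zero_add, hE.ψ, hE.D, hE.q, map_div₀, map_mul,
      map_natCast]
  refine ⟨fun t g => ?_, fun Γ₁ h1 => ?_, fun Γ₁ Γ e ⟨π, hπ⟩ ⟨⟨y, hy⟩, z, hz⟩ h => ?_⟩
  · rw [M3J.ap2 Z₁.C (ex _ _ _), M3J.ap2 Z.C (ex _ _ _), M3J.ex_z0, M3J.ex_z0, M3J.ex_z1,
      M3J.ex_z1, hδ, hδ, hE.D, hE.D, hE.D, hE.D]
    simp only [map_add, map_mul, map_neg]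
  · obtain ⟨⟨π, hπ⟩, g, hg⟩ := h1
    obtain ⟨Γ, e, h2, h3⟩ := restr (L := L) hπ
    exact ⟨Γ, e, ⟨h2, nc_dn h3 hg⟩, h3⟩
  have hz1 := nc_up h hz
  obtain ⟨C', c1, hA⟩ := cv_at Z.C hZ.fin hy hz.1 hz.2
  obtain ⟨C₁, c2, hB⟩ := cv_at Z₁.C hE.ok.fin hπ hz1.1 hz1.2
  have y0 : C'.z 0 = y := by rw [c1]; rfl
  have y1 : C'.z 1 = z := by rw [c1]; rfl
  have z1 : C₁.z 1 = algebraMap L L₁ z := by rw [c2]; rfl
  refine ⟨⟨⟨π, hπ⟩, _, hz1⟩, fun a ha => ?_, fun X X₁ hX => ⟨fun n hn => ?_, fun e1 h0 => ?_,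
    fun e1 h0 h1 g hg => ?_⟩⟩
  · have h1 := ha.uniq (exp_cv hA hZ.ψ0 hZ.rat) hy
    have h2 := exp_cv hB hE.ok.ψ0 hE.ok.rat
    obtain ⟨d0, d1⟩ := d0_val hB h hy
    have h3 : algebraMap L L₁ (br Z.C (C'.z 0) (C'.z 1)) =
        br Z₁.C (C₁.z 0) (C₁.z 1) * C₁.D 0 (algebraMap L L₁ y) := by
      have h4 := M3J.br_chain Z₁.C C₁ (algebraMap L L₁ y) (C₁.z 1)
      have h5 : br C₁ (algebraMap L L₁ y) (C₁.z 1) = C₁.D 0 (algebraMap L L₁ y) := by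
        simp [br, C₁.dual]
      rw [← h5, ← h4, z1, y0, y1, br, br, hE.D, hE.D, hE.D, hE.D, map_sub, map_mul, map_mul]
    have h4 := congrArg Γ₁.v h3
    rw [h.2, Γ₁.mul _ _ (M3J.br_ne _ _) d0, d1] at h4
    have h5 : Γ₁.v (Z₁.C.jac C₁) = e * Γ.v (Z.C.jac C') + e - 1 := by
      rw [jac_br, jac_br, Γ₁.inv, Γ.inv]
      linarith
    have h6 : (e * a : ℚ) = 1 + Γ₁.v (Z₁.C.jac C₁) + Γ₁.v Z₁.ψ / Z₁.q := by
      rw [Rat.cast_injective h1, h5, hE.ψ, h.2, hE.q]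
      push_cast
      ring
    rwa [h6]
  · have h1 := (M3J.mem_LV hA).1 hn
    rw [y0, y1] at h1
    exact (M3J.mem_LV hB).2 (fld hB h hy z1 hX h1.1 h1.2 (by linarith) (by linarith))
  · have h1 := (M3J.reg_iff hA).1 h0
    rw [y0, y1] at h1
    have h2 := fld hB h hy z1 hX (c := 0) h1.1 h1.2 (by simp [e1]) (by simp [e1])
    rw [mul_zero] at h2
    exact (M3J.reg_iff hB).2 h2
  · have h2 := ((M3J.mem_LV hA).1 h0).1
    rw [y0] at h2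
    have h3 := fld hB h hy z1 hX (c := 1) h2 (h1 z hz.1) (by simp [e1]) (by simp [e1])
    rw [M3J.ap2 C₁ X₁ g]
    exact add_mem (F_mul0' h3.1 (hB.D 0 g hg))
      (F_mul0' (Γ₁.F_anti (by simp [e1]) h3.2) (hB.D 1 g hg))

end

end Pool.Agent.MP_ee8c61_ag.Q3IZ
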