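import Pool.Agent.MP_ee8c61_ag.Q3IZ.SDefs
import Pool.Agent.MP_ee8c61_ag.M3RESID.CvAt

/-!
Positivity, curves of exponent zero and classes go up in a finite extension.
-/

namespace Pool.Agent.MP_ee8c61_ag.Q3IZ

open M3 M3RESID M3F
open M3J (ex br)

noncomputable section

namespace RBx1

section One

variable {L : Type} [Field L] {G : DV L} {V : ValuationSubring L}

theorem small (h : V ≤ G.O) {g : L} (hg : g ∈ G.F 1) : Sm V g := by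
  by_cases h0 : g = 0
  · exact h0 ▸ ⟨zero_mem _, not_un_zero⟩
  have h1 := hg.resolve_left h0
  have h2 : g⁻¹ ∉ V := fun e => by
    have := (h e).resolve_left (inv_ne_zero h0)
    rw [G.inv] at this
    omega
  exact ⟨(V.mem_or_inv_mem g).resolve_right h2, fun e => h2 e.2.2⟩

/-- A relation for a small element that is a unit of the curve is trivial on the curve. -/
theorem coef (h : V ≤ G.O) {y : L} (hy : Sm V y) (hu : Un G.O y) (i : ℕ) :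
    ∀ P : Polynomial L, (∀ j, P.coeff j ∈ G.F 1 ∨ Un V (P.coeff j)) → P.eval y ∈ G.F 1 →
      P.coeff i ∈ G.F 1 := by
  have h0 : ∀ P : Polynomial L, (∀ j, P.coeff j ∈ G.F 1 ∨ Un V (P.coeff j)) → P.eval y ∈ G.F 1 →
      P.coeff 0 ∈ G.F 1 := fun P hP h1 => (hP 0).resolve_right fun h2 => by
    have h3 : P.divX.eval y ∈ V := by
      rw [Polynomial.eval_eq_sum_range]
      refine sum_mem fun j _ => mul_mem ?_ (pow_mem hy.1 j)
      rw [Polynomial.coeff_divX]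
      exact (hP _).elim (fun e => (small h e).1) fun e => e.2.1
    have h4 := h2.add (mul_mem h3 hy.1) (not_un_mul h3 hy.1 hy.2)
    rw [mul_comm, CVA.eval_divX, add_sub_cancel] at h4
    exact (small h h1).2 h4
  induction i with
  | zero => exact h0
  | succ i ih =>
    intro P hP h1
    rw [← Polynomial.coeff_divX]
    refine ih _ (fun j => by rw [Polynomial.coeff_divX]; exact hP _) ?_
    have h2 := F_mul0 hu.2.2 (sub_mem h1 (h0 P hP h1))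
    rwa [← CVA.eval_divX, inv_mul_cancel_left₀ hu.1] at h2

variable [Algebra ℂ L] {X : VF L} {κ : ℂ}

theorem eul_lv (h : EulK G X κ) : X ∈ LV G 0 := fun m g hg => by
  have := add_mem (G.F_anti (by omega : m + 0 ≤ m + 1) (h m g hg))
    (G.F_anti (by omega : m + 0 ≤ m) (F_mul0 (F_mul0 (cst_F G κ) (int_F m)) hg))
  rwa [sub_add_cancel] at this

theorem eul_of {x : L} (hx : G.v x = 1) (h0 : ∀ g ∈ G.F 0, X g ∈ G.F 1)
    (h1 : X x - algebraMap ℂ L κ * x ∈ G.F 2) : EulK G X κ := fun m g hg => by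
  have hx0 : x ≠ 0 := fun h => by simp [h, G.zero] at hx
  have hm : G.v (x ^ m) = m := by rw [v_zpow G hx0, hx, mul_one]
  have hh : g / x ^ m ∈ G.F 0 := by simpa [hm] using F_div hg (x ^ m)
  have hxm : x ^ m ∈ G.F m := Or.inr hm.ge
  have h2 : (X x - algebraMap ℂ L κ * x) / x ∈ G.F 1 := by simpa [hx] using F_div h1 x
  obtain ⟨u, hu⟩ : ∃ u, u = g / x ^ m := ⟨_, rfl⟩
  have e : g = x ^ m * u := by rw [hu, mul_div_cancel₀ g (zpow_ne_zero m hx0)]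
  rw [← hu] at hh
  refine F_of_eq (add_mem (G.F_mul hxm (h0 u hh))
    (F_mul0 hh (G.F_mul (F_mul0 (int_F m) hxm) h2))) ?_
  rw [e, Derivation.leibniz, Dv.zpow_der X x hx0, smul_eq_mul, smul_eq_mul]
  field_simp
  ring

end One

variable {L L₁ ι : Type} [Field L] [Field L₁] [Algebra L L₁]

section Ov

variable {Γ₁ : DV L₁} {Γ : DV L} {e : ℕ} (h : Ovr Γ₁ Γ e) {g : L}
include h

theorem F0 : algebraMap L L₁ g ∈ Γ₁.F 0 ↔ g ∈ Γ.F 0 := by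
  have : (0 : ℤ) < e := by exact_mod_cast h.1
  rw [DV.mem_F, DV.mem_F, map_eq_zero, h.2, mul_nonneg_iff_of_pos_left this]

theorem F1 : algebraMap L L₁ g ∈ Γ₁.F 1 ↔ g ∈ Γ.F 1 := by
  have : (0 : ℤ) < e := by exact_mod_cast h.1
  rw [DV.mem_F, DV.mem_F, map_eq_zero, h.2]
  exact or_congr_right (mul_pos_iff_of_pos_left this)

theorem cm : Γ₁.O.comap (algebraMap L L₁) = Γ.O := SetLike.ext fun _ => F0 h

end Ov

theorem un_iff' {V : ValuationSubring L₁} {g : L} :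
    Un V (algebraMap L L₁ g) ↔ Un (V.comap (algebraMap L L₁)) g := by
  simp only [Un, ValuationSubring.mem_comap, map_inv₀, ne_eq, map_eq_zero]

theorem sm_iff {V : ValuationSubring L₁} {g : L} :
    Sm V (algebraMap L L₁ g) ↔ Sm (V.comap (algebraMap L L₁)) g := by
  simp only [Sm, ValuationSubring.mem_comap, un_iff']

variable [Algebra ℂ L] [Algebra ℂ L₁] [IsScalarTower ℂ L L₁]

theorem cst' (c : ℂ) : algebraMap ℂ L₁ c = algebraMap L L₁ (algebraMap ℂ L c) :=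
  IsScalarTower.algebraMap_apply ℂ L L₁ c

theorem fg {G₁ : DV L₁} {G : DV L} {e : ℕ} (h : Ovr G₁ G e) {V : ValuationSubring L₁}
    (hV : Fg G₁ V) : Fg G (V.comap (algebraMap L L₁)) :=
  ⟨fun _ hg => (F0 h).1 (hV.1 hg), fun c => by
    rw [ValuationSubring.mem_comap, ← cst']
    exact hV.2 c⟩

/-- A proper refinement restricts to a proper refinement. -/
theorem ne_cm [FiniteDimensional L L₁] {G₁ : DV L₁} {G : DV L} {e : ℕ} (h : Ovr G₁ G e)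
    {V : ValuationSubring L₁} (hV : V ≤ G₁.O) (hn : V ≠ G₁.O) :
    V.comap (algebraMap L L₁) ≠ G.O := fun he => hn <| le_antisymm hV fun g hg => by
  by_contra h1
  have h2 : g⁻¹ ∈ V := (V.mem_or_inv_mem g).resolve_left h1
  have h0 : g ≠ 0 := fun e => h1 (e ▸ zero_mem _)
  have : FiniteDimensional ((⊥ : IntermediateField L L₁).restrictScalars ℂ) L₁ :=
    inferInstanceAs (FiniteDimensional (⊥ : IntermediateField L L₁) L₁)
  obtain ⟨P, p1, ⟨i, p2⟩, p3⟩ := CVA.prim ((⊥ : IntermediateField L L₁).restrictScalars ℂ) G₁ g⁻¹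
  refine p2 (coef hV ⟨h2, fun e => h1 (by simpa using e.2.2)⟩
    ⟨inv_ne_zero h0, hV h2, by simpa using hg⟩ i P (fun j => ?_) (Or.inl p3))
  obtain ⟨b, hb⟩ : P.coeff j ∈ Set.range (algebraMap L L₁) := IntermediateField.mem_bot.1 (p1 j).1
  have h3 : P.coeff j ∈ G₁.F 0 := (p1 j).2
  rw [← hb] at h3 ⊢
  rw [un_iff', he, F1 h]
  by_cases h4 : b ∈ G.F 1
  · exact Or.inl h4
  · have := CVA.unit_inv ((F0 h).1 h3) h4
    exact Or.inr ⟨this.1, (F0 h).1 h3, this.2⟩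

omit [IsScalarTower ℂ L L₁]

theorem exp_ex {Z : QD L ι} (hZ : Z.OK) {Γ : DV L} (h : Crv Γ) : ∃ a : ℚ, Exp Z.d Γ a := by
  obtain ⟨⟨x, hx⟩, g, hg⟩ := h
  obtain ⟨C', -, hA⟩ := cv_at Z.C hZ.fin hx hg.1 hg.2
  exact ⟨_, exp_cv hA hZ.ψ0 hZ.rat⟩

variable {Z : QD L ι} {Z₁ : QD L₁ ι} (hE : Z.Ext Z₁)
include hE

theorem mem_S {s : L₁} : s ∈ Z₁.S ↔ ∃ s' ∈ Z.S, algebraMap L L₁ s' = s := by
  classical
  rw [hE.S]
  simp only [Finset.mem_image]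

theorem ps {V : ValuationSubring L₁} (h : Z₁.Ps V) : Z.Ps (V.comap (algebraMap L L₁)) := by
  obtain ⟨s, h1, h2⟩ := h
  obtain ⟨s, h3, rfl⟩ := (mem_S hE).1 h1
  exact ⟨s, h3, h2⟩

theorem gi {V : ValuationSubring L₁} {r : ι} (h : Gi Z₁.ρ V r) :
    Gi Z.ρ (V.comap (algebraMap L L₁)) r :=
  ⟨fun e => h.1 (by rw [hE.ρ, e, map_zero]), fun r' => by
    rw [ValuationSubring.mem_comap, map_div₀, ← hE.ρ, ← hE.ρ]
    exact h.2 r'⟩

theorem phi (t : L) : Z₁.Φ (algebraMap L L₁ t) = algebraMap L L₁ (Z.Φ t) := by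
  simp only [QD.Φ, hE.q, hE.ψ, map_mul, map_pow]

theorem br' (y z : L) :
    br Z₁.C (algebraMap L L₁ y) (algebraMap L L₁ z) = algebraMap L L₁ (br Z.C y z) := by
  simp only [br, hE.D, map_sub, map_mul]

end RBx1

open RBx1 in
theorem rowBx1 : OfBx1 := by
  intro hR L L₁ ι _ _ _ _ _ _ _ _ Z Z₁ hZ hE
  obtain ⟨r1, r2, r3⟩ := hR L L₁ ι Z Z₁ hZ hE
  have hX : ∀ t g, Z₁.X (algebraMap L L₁ t) (algebraMap L L₁ g) = algebraMap L L₁ (Z.X t g) :=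
    fun t g => by simp only [QD.X, Derivation.sub_apply, hE.v, r1, map_sub]
  have hD : ∀ (Γ₁ : DV L₁) (a₁ : ℚ), Crv Γ₁ → Exp Z₁.d Γ₁ a₁ → ∃ (Γ : DV L) (e : ℕ) (a : ℚ),
      Crv Γ ∧ Ovr Γ₁ Γ e ∧ Exp Z.d Γ a ∧ a₁ = e * a := fun Γ₁ a₁ h1 h2 => by
    obtain ⟨Γ, e, h3, h4⟩ := r2 Γ₁ h1
    obtain ⟨a, h5⟩ := exp_ex hZ h3
    obtain ⟨x, hx⟩ := h1.1
    exact ⟨Γ, e, a, h3, h4, h5, Rat.cast_injective (α := ℂ)
      (h2.uniq ((r3 Γ₁ Γ e h1.1 h3 h4).2.1 a h5) hx)⟩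
  refine ⟨fun hP Γ₁ a₁ h1 h2 h3 => ?_, fun hC Γ₁ a₁ h1 h2 h3 r hr => ?_, fun G G₁ hO hC => ?_⟩
  · obtain ⟨Γ, e, a, k1, k2, k3, rfl⟩ := hD Γ₁ a₁ h1 h2
    exact mul_pos (Nat.cast_pos.2 k2.1) (hP Γ a k1 k3 (cm k2 ▸ ps hE h3))
  · obtain ⟨Γ, e, a, k1, k2, k3, rfl⟩ := hD Γ₁ a₁ h1 h2
    obtain ⟨⟨n, k4, k5⟩, k6⟩ := hC Γ a k1 k3 (cm k2 ▸ ps hE h3) r (cm k2 ▸ gi hE hr)
    refine ⟨⟨e * n, ?_, ?_⟩, fun r' hr' => ?_⟩
    · have := mul_pos (Nat.cast_pos.2 k2.1 : (0 : ℚ) < e) k4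
      push_cast
      rwa [mul_add] at this
    · rw [hE.θ]
      exact ((r3 Γ₁ Γ e h1.1 k1 k2).2.2 _ _ (hX _)).1 n k5
    · rw [hE.θ, hE.θ, ← map_sub, phi hE, F1 k2]
      exact k6 r' (cm k2 ▸ gi hE hr')
  have hv : ∀ g, G₁.v (algebraMap L L₁ g) = G.v g := fun g => by simp [hO.2]
  obtain ⟨x, hx⟩ := hC.crv.1
  obtain ⟨k1, k2, k3⟩ := r3 G₁ G 1 ⟨_, (hv x).trans hx⟩ hC.crv hO
  refine ⟨⟨k1, ?_, fun s hs => ?_, ?_, fun V h1 h2 => ?_, ?_⟩, fun κ ⟨Θ, h1, h2⟩ =>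
    ⟨algebraMap L L₁ Θ, ?_, fun V h3 h4 r hr => ?_⟩⟩
  · simpa using k2 0 (by simpa using hC.exp)
  · obtain ⟨s, h3, rfl⟩ := (mem_S hE).1 hs
    exact (F0 hO).2 (hC.reg s h3)
  · obtain ⟨s, h1, s', h2, h3, h4⟩ := hC.nc
    refine ⟨_, (mem_S hE).2 ⟨s, h1, rfl⟩, _, (mem_S hE).2 ⟨s', h2, rfl⟩,
      fun e => h3 ((F1 hO).1 e), ?_, fun c => ?_⟩
    · rw [← map_div₀, F0 hO]
      exact h4.1
    · rw [← map_div₀, cst' (L := L), ← map_sub, F1 hO]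
      exact h4.2 c
  · obtain ⟨y, z, h3, h4, h5, h6⟩ := hC.lea _ (fg hO h1) (ne_cm hO h1.1 h2)
    refine ⟨_, _, (hv y).trans h3, fun e => h4 ((F1 hO).1 e), sm_iff.2 h5, fun s hs => ?_⟩
    obtain ⟨s, h7, rfl⟩ := (mem_S hE).1 hs
    have := ValuationSubring.mem_comap.1 (h6 s h7)
    rw [br' hE, hE.ψ, hE.q, hE.m]
    simpa only [map_mul, map_pow, map_div₀] using this
  · obtain ⟨Θ, h1, h2⟩ := hC.a0
    exact ⟨_, by simpa using (k3 _ _ (hX Θ)).1 0 h1, (k3 _ _ (hX Θ)).2.2 rfl h1 h2⟩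
  · refine eul_of ((hv x).trans hx) ((k3 _ _ (hX Θ)).2.2 rfl (eul_lv h1) fun g hg => by
      simpa using h1 0 g hg) ?_
    have h3 := h1 1 x (Or.inr hx.ge)
    rw [Int.cast_one, mul_one] at h3
    rw [hX, cst' (L := L), ← map_mul, ← map_sub, DV.mem_F, map_eq_zero, hv]
    exact h3
  · rw [hE.θ, ← map_sub, phi hE, sm_iff]
    exact h2 _ (fg hO h3) (ps hE h4) r (gi hE hr)

end

end Pool.Agent.MP_ee8c61_ag.Q3IZ
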