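import Pool.Agent.MP_ee8c61_ag.Q3IZ.SDefs
import Pool.Agent.MP_ee8c61_ag.Q3P.FK

/-! The vertex of a divisor that is contracted at time zero. -/

namespace Pool.Agent.MP_ee8c61_ag.Q3IZ

open M3 M3RESID M3F Q3 Q3P Finset Pool.Agent.MP_cce4c9_lc.H87

noncomputable section

namespace RVx

variable {L : Type} [Field L] [Algebra ℂ L] {D : SD L} {t : L}

/-- The horizontal curves when the class `α` vanishes on them. -/
theorem hor_cases (h : OK1 D) (p : Pc D t) (hm : t ∈ RF D.x D.S0)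
    (z : ∀ Γ, Hor (Kz t) Γ → D.α Γ = 0) {Γ : DV L} (hΓ : Hor (Kz t) Γ) :
    (D.ex Γ = 0 ∧ ∃ k, D.Core k Γ) ∨ ((∀ j, D.β j Γ = 0) ∧ Hon D.d D.v Γ (D.ex Γ)) :=
  (h.kvl Γ (p.cv hΓ) fun e => p.nn1 h.ok2 hm hΓ (h.nul Γ (p.cv hΓ) e).1).imp_left
    fun ⟨k, x⟩ => ⟨x.1.trans (z Γ hΓ), k, x⟩

theorem th_core {j : D.A} {Γ : DV L} (x : D.Core j Γ) (z : D.α Γ = 0) :
    D.th D.t1 Γ = D.t1 * D.h j := by
  rw [th_eq, z, zero_add, core_sum x]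

/-- Two horizontal core curves. -/
theorem two (h : OK1 D) (p : Pc D t) (hm : t ∈ RF D.x D.S0) (h0 : D.t0 = 0)
    (z : ∀ Γ, Hor (Kz t) Γ → D.α Γ = 0) {G₁ G₂ : DV L} {j₁ j₂ : D.A} (hne : G₁ ≠ G₂)
    (h1 : Hor (Kz t) G₁) (h2 : Hor (Kz t) G₂) (c1 : D.Core j₁ G₁) (c2 : D.Core j₂ G₂) :
    (∀ Γ, Hor (Kz t) Γ → Exp D.d Γ 0 ∨ (Exp D.d Γ 1 ∧ Good D.d D.v Γ)) ∧
      0 < D.h j₁ + D.h j₂ := by
  classical
  obtain ⟨s, ⟨b1, b0, -⟩, -⟩ := h.sem.dg1 _ (p.cv h1)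
  obtain ⟨Y, g, N, A, S, hD, hN⟩ := num0 h.vol.srf.fin h.vol.srf.rat p.der s 1 D.α
  have hN' : ∀ P, (1 : ℚ) ≤ N P := fun P => by exact_mod_cast hD.pos P
  have hg : (0 : ℚ) ≤ g := Nat.cast_nonneg _
  have ex : ∀ P : Place (Kz t) L, Exp D.d (dvOf P) (D.ex (dvOf P)) := fun P =>
    h.vol.exp _ (p.cv (hor_dvOf P))
  have eA : ∀ P, D.ex (dvOf P) = A P := fun P => hN.uniq P _ (ex P)
  have cs := fun P : Place (Kz t) L => hor_cases h p hm z (hor_dvOf P)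
  have nn : ∀ P ∈ S, 0 ≤ 1 - A P := fun P _ => by
    rw [← eA]
    rcases cs P with ⟨e, -⟩ | ⟨-, e⟩
    · linarith
    · rcases hon_c e with ⟨e, -⟩ | ⟨-, e⟩ <;> linarith
  have sm : ∑ P ∈ S, (N P : ℚ) * (1 - A P) = 2 - 2 * g := by
    rw [← neg_sub, ← hN.can, ← sum_neg_distrib]
    exact sum_congr rfl fun P _ => by ring
  obtain ⟨P₁, rfl⟩ := exists_place h1
  obtain ⟨P₂, rfl⟩ := exists_place h2
  have ne : P₁ ≠ P₂ := fun e => hne (by rw [e])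
  have a1 : A P₁ = 0 := (eA P₁).symm.trans (c1.1.trans (z _ h1))
  have a2 : A P₂ = 0 := (eA P₂).symm.trans (c2.1.trans (z _ h2))
  have m1 : P₁ ∈ S := by_contra fun x => by linarith [(hN.off P₁ x).1]
  have m2 : P₂ ∈ S := by_contra fun x => by linarith [(hN.off P₂ x).1]
  have s2 := le_two (N := N) nn m1 m2 ne
  rw [sm, a1, a2] at s2
  have n1 : (N P₁ : ℚ) = 1 := by linarith [hN' P₁, hN' P₂]
  have n2 : (N P₂ : ℚ) = 1 := by linarith [hN' P₁, hN' P₂]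
  have key : ∀ P, P ≠ P₁ → P ≠ P₂ →
      D.th D.t1 (dvOf P) = 0 ∧ Exp D.d (dvOf P) 1 ∧ Good D.d D.v (dvOf P) := fun P x y => by
    have a : 1 ≤ A P := by
      by_cases m : P ∈ S
      · have s3 := le_three (N := N) nn m1 m2 m ne x.symm y.symm
        rw [sm, a1, a2, n1, n2] at s3
        nlinarith [hN' P, nn P m]
      · exact (hN.off P m).1.ge
    rw [← eA] at a
    rcases cs P with ⟨e, -⟩ | ⟨b, e⟩
    · linarith
    rcases hon_c e with ⟨e, e'⟩ | ⟨-, e⟩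
    · exact ⟨by simp [SD.th, b], by simpa [e] using ex P, e'⟩
    · linarith
  refine ⟨fun Γ hΓ => ?_, ?_⟩
  · obtain ⟨P, rfl⟩ := exists_place hΓ
    by_cases x : P = P₁
    · exact Or.inl (by simpa [eA, x, a1] using ex P)
    by_cases y : P = P₂
    · exact Or.inl (by simpa [eA, y, a2] using ex P)
    exact Or.inr (key P x y).2
  obtain ⟨Γ, hΓ, lt⟩ := p.mov1 h.ok2 b0
  obtain ⟨P, rfl⟩ := exists_place hΓ
  have m : P ∈ S := by_contra fun x => by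
    rw [(key P (fun e => x (e ▸ m1)) fun e => x (e ▸ m2)).1,
      show (dvOf P).v s = 0 from (hN.off P x).2] at lt
    simp at lt
  have s1 := le_one (N := N) (c := fun Q => (Q.ord s : ℚ) + D.m * D.th D.t1 (dvOf Q))
    (fun Q _ => by
      have := dg_le (h.sem.dg1 _ (p.cv (hor_dvOf Q))) b1 b0
      exact neg_le_iff_add_nonneg.1 this) m
  have e : ∑ Q ∈ S, (N Q : ℚ) * ((Q.ord s : ℚ) + D.m * D.th D.t1 (dvOf Q)) =
      D.m * D.t1 * (D.h j₁ + D.h j₂) := by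
    simp only [mul_add, sum_add_distrib]
    rw [hN.deg, sum_eq_add_of_mem P₁ P₂ m1 m2 ne fun Q _ x => by simp [(key Q x.1 x.2).1],
      n1, n2, th_core c1 (z _ h1), th_core c2 (z _ h2)]
    ring
  have hp : 0 < (N P : ℚ) * ((P.ord s : ℚ) + D.m * D.th D.t1 (dvOf P)) :=
    mul_pos (by linarith [hN' P]) (neg_lt_iff_pos_add.1 lt)
  have hm' : (0 : ℚ) < D.m := by exact_mod_cast h.sem.m
  exact (mul_pos_iff_of_pos_left (mul_pos hm' (h0 ▸ h.sem.t1))).1 (e ▸ hp.trans_le s1)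

end RVx

open RVx in
theorem rowVx : OfVx := by
  intro hRul hVxc hVx1 L ι _ _ _ Z hZ D h hs h0 lk hC G j c cu
  have fin := h.vol.srf.fin
  obtain ⟨s, s', a1, a2, n⟩ : ∃ s s', s ∈ D.S0 ∧ s' ∈ D.S0 ∧ NC G (s' / s) := by
    by_contra x
    exact c.nn ⟨c.cpl, fun s a s' a' e => x ⟨s, s', a.1, a', e⟩⟩
  have hm := rat_mem D.x a1 a2
  generalize s' / s = t at n hm
  have p : Pc D t := pc_of1 hs (exists_der D.C fin (tr_of_nc (nc_ne n))) hm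
  have hG := hor_of_nc D.C fin c.cv.sur n
  have hx : ∀ l, D.x l ∈ Set.range (algebraMap ℂ L) := fun l => by
    by_contra x
    exact c.cpl l (hG.nc (p.le (x_mem _ _ l)) fun a e => x ⟨a, e.symm⟩)
  obtain ⟨φ, -, b1⟩ := p.zero1 h.ok2 h0
  have z : ∀ Γ, Hor (Kz t) Γ → D.α Γ = 0 := fib00 h.vol.srf p.der
    (fun Γ hΓ => ⟨_, h.vol.exp _ (p.cv hΓ), cls_of1 h.kvl (p.cv hΓ)
      fun e => p.nn1 h.ok2 hm hΓ (h.nul Γ (p.cv hΓ) e).1⟩) h.sem.m b1 ⟨G, hG, lk.d ▸ cu.exp⟩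
  have hS : ∀ r ∈ Z.S, r ∈ Kz t := fun r hr => by
    by_contra x
    obtain ⟨Γ, g1, g2⟩ := exists_pole D.C fin p.der x
    have := lk.S r hr (fun e => x (e ▸ zero_mem _)) Γ (p.cv g1)
    rw [z Γ g1, mul_zero, neg_zero] at this
    exact g2.not_ge (by exact_mod_cast this)
  have pos : Z.Pos := fun Γ a cr ea ⟨r, r1, r2⟩ => by
    have cv : Cv D.x Γ := ⟨cr.1, fun l => by
      obtain ⟨a, e⟩ := hx l
      exact e ▸ Γ.cst_mem a, cr.2⟩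
    have r0 : r ≠ 0 := fun e => r2 (e ▸ zero_mem _)
    have r3 : (Γ.v r : ℚ) < 0 := by
      exact_mod_cast not_le.1 fun e => r2 (Γ.mem_O.2 (Or.inr e))
    have r4 := (lk.S r r1 r0 Γ cv).trans_lt r3
    have hm' : (0 : ℚ) < Z.m := by exact_mod_cast hZ.m0
    obtain ⟨π, hπ⟩ := cr.1
    have e : a = D.ex Γ := by exact_mod_cast (lk.d ▸ ea).uniq (h.vol.exp Γ cv) hπ
    rw [e]
    exact ((mul_pos_iff_of_pos_left hm').1 (neg_lt_zero.1 r4)).trans_le (h.sgn Γ cv).2.1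
  by_cases k : ∃ G₂ j₂, Hor (Kz t) G₂ ∧ G ≠ G₂ ∧ D.Core j₂ G₂
  · obtain ⟨G₂, j₂, h2, ne, c2⟩ := k
    obtain ⟨t1, t2⟩ := two h p hm h0 z ne hG h2 c.core c2
    have e2 : Exp D.d G₂ 0 := by simpa [c2.1, z _ h2] using h.vol.exp _ (p.cv h2)
    obtain ⟨C', α, ru⟩ := hRul L ι Z hZ t G G₂ p.der ne hG h2 cu.exp (lk.d ▸ e2)
      (by rw [lk.d, lk.v]; exact t1) cu.a0
    refine Or.inr ⟨G₂, j₂, ⟨p.cv h2, c2, (core_sum c2 D.al).symm.trans (z _ h2), fun l e => ?_,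
      p.nn1 h.ok2 hm h2⟩, t2, hVxc L ι Z hZ pos (hC hx) t G G₂ C' α ru hS⟩
    obtain ⟨a, e'⟩ := hx l
    exact nc_ne e a e'.symm
  · have o : ∀ Γ, Hor (Kz t) Γ → Γ ≠ G → (∀ j, D.β j Γ = 0) ∧ Hon D.d D.v Γ (D.ex Γ) :=
      fun Γ hΓ x => (hor_cases h p hm z hΓ).resolve_left fun ⟨_, i, y⟩ => k ⟨Γ, i, hΓ, x.symm, y⟩
    refine Or.inl ⟨?_, hVx1 L ι Z hZ pos (hC hx) t G p.der hS hG cu fun Γ hΓ x => ?_⟩
    · obtain ⟨Γ, hΓ, x⟩ := p.pos1 h.ok2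
      by_cases e : Γ = G
      · rw [e, th_core c.core (z _ hG)] at x
        exact (mul_pos_iff_of_pos_left (h0 ▸ h.sem.t1)).1 x
      · simp [SD.th, (o Γ hΓ e).1] at x
    · rw [lk.d, lk.v]
      exact ⟨_, h.vol.exp _ (p.cv hΓ), (o Γ hΓ x).2⟩

end

end Pool.Agent.MP_ee8c61_ag.Q3IZ
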