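import Pool.Agent.MP_ee8c61_ag.Q3IZ.SDefs
import Pool.Agent.MP_ee8c61_ag.M3F.LF

/-!
One horizontal curve of exponent zero: the class vanishes.
-/

namespace Pool.Agent.MP_ee8c61_ag.Q3IZ

open M3 M3RESID M3F
open M3J (ex br)

noncomputable section

namespace RVx1

variable {L L₁ ι : Type} [Field L] [Algebra ℂ L] [Field L₁] [Algebra ℂ L₁] [Algebra L L₁]

omit [Algebra ℂ L] [Algebra ℂ L₁] in
theorem F_up {G₁ : DV L₁} {G : DV L} (h : Ovr G₁ G 1) {m : ℤ} {g : L} :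
    algebraMap L L₁ g ∈ G₁.F m ↔ g ∈ G.F m := by
  have e := h.2 g
  rw [Nat.cast_one, one_mul] at e
  show _ = 0 ∨ m ≤ _ ↔ _ = 0 ∨ m ≤ _
  rw [e, map_eq_zero]

theorem nc_up [IsScalarTower ℂ L L₁] {G₁ : DV L₁} {G : DV L} (h : Ovr G₁ G 1) {t : L}
    (ht : NC G t) : NC G₁ (algebraMap L L₁ t) :=
  ⟨(F_up h).2 ht.1, fun c e => ht.2 c ((F_up h).1 (by
    rwa [map_sub, ← IsScalarTower.algebraMap_apply]))⟩

variable {Z : QD L ι} {Z₁ : QD L₁ ι}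

theorem der_up (h : Z.Ext Z₁) {t : L} (ht : ∃ X : VF L, X t ≠ 0) :
    ∃ X : VF L₁, X (algebraMap L L₁ t) ≠ 0 := by
  by_contra hn
  push Not at hn
  obtain ⟨X, hX⟩ := ht
  refine hX ?_
  rw [Z.C.exp_apply X t]
  refine Finset.sum_eq_zero fun i _ => ?_
  have := hn (Z₁.C.D i)
  rw [h.D, map_eq_zero] at this
  rw [this, mul_zero]

theorem kz_up (h : Z.Ext Z₁) {t s : L} (ht : ∃ X : VF L, X t ≠ 0) (hs : s ∈ Kz t) :
    algebraMap L L₁ s ∈ Kz (algebraMap L L₁ t) := by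
  have := (mem_Kz Z.C ht).1 hs
  rw [fib_ap] at this
  rw [mem_Kz Z₁.C (der_up h ht), fib_ap, h.D, h.D, h.D, h.D, ← map_mul, ← map_mul, ← map_sub,
    this, map_zero]

theorem half (j : ℤ) : (j : ℂ) + ((1 / 2 : ℚ) : ℂ) ≠ 0 := fun h => by
  have h1 : ((2 * j + 1 : ℤ) : ℂ) = 0 := by
    push_cast at h ⊢
    linear_combination 2 * h
  have h2 : 2 * j + 1 = 0 := by exact_mod_cast h1
  omega

end RVx1

open RVx1 in
theorem rowVx1 : OfVx1 := by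
  intro hU hR hV hB0 hRes hB1 hA hB L ι _ _ _ Z hZ hP hC t G ht hS hH hG ho κ hκ
  have hs : Spl Z t G := by
    by_cases h : ∃ Γ, ∃ r : ℕ, Hor (Kz t) Γ ∧ 2 ≤ r ∧ Exp Z.d Γ ((1 / r : ℚ) : ℂ)
    · exact hA L ι Z hZ t G ht hH hG.exp ho h
    · refine hB L ι Z hZ t G ht hH hG.exp fun Γ h1 h2 => ?_
      obtain ⟨a, h3, ⟨r, h4, rfl⟩ | ⟨rfl, h4⟩⟩ := ho Γ h1 h2
      · exact absurd ⟨Γ, r, h1, h4, h3⟩ h
      · exact ⟨by simpa using h3, h4⟩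
  obtain ⟨L₁, _, _, _, _, _, ⟨G₁, G₂, hne, o1, o2⟩, hall⟩ := hs
  obtain ⟨Z₁, hE⟩ := hB0 L ι Z hZ L₁
  obtain ⟨r1, -, r3⟩ := hRes L L₁ ι Z Z₁ hZ hE
  obtain ⟨b1, b2, b3⟩ := hB1 L L₁ ι Z Z₁ hZ hE
  have nc : ∀ Γ, Hor (Kz t) Γ → NC Γ t := fun Γ h => h.nc (self_mem_Kz t) (ne_of_der ht)
  obtain ⟨c1, k1⟩ := b3 G G₁ o1 hG
  obtain ⟨c2, k2⟩ := b3 G G₂ o2 hG
  have h1 := hor_of_nc Z₁.C hE.ok.fin c1.crv.1 (nc_up o1 (nc G hH))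
  have h2 := hor_of_nc Z₁.C hE.ok.fin c2.crv.1 (nc_up o2 (nc G hH))
  have cp : ∀ s g, (Z₁.v - ex Z₁.d Z₁.C (algebraMap L L₁ s)) (algebraMap L L₁ g) =
      algebraMap L L₁ ((Z.v - ex Z.d Z.C s) g) := fun s g => by
    rw [Derivation.sub_apply, Derivation.sub_apply, hE.v, r1, map_sub]
  obtain ⟨C', α, hru⟩ := hR L₁ ι Z₁ hE.ok _ G₁ G₂ (der_up hE ht) hne h1 h2 c1.exp c2.exp
    (fun Γ₁ h => by
      obtain ⟨Γ, e, h3, h4, h5⟩ := hall Γ₁ h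
      obtain ⟨-, x1, x2⟩ := r3 Γ₁ Γ e h.1 ⟨h3.1, t, nc Γ h3⟩ h4
      rcases h5 with ⟨rfl, rfl | ⟨h6, u, hu, h7⟩⟩ | ⟨rfl, h6⟩
      · exact Or.inl (by simpa using x1 0 (by simpa using hG.exp))
      · obtain ⟨s, rfl⟩ := M3J.exists_ex Z.d Z.C hu
        exact Or.inr ⟨by simpa using x1 1 (by simpa using h6), _, M3J.ex_mem _ _ _,
          (x2 _ _ (cp s)).2.1 rfl h7⟩
      · obtain ⟨u, hu, h7⟩ := h6.red0 (c' := 0) (v := Z.v) (by rw [hZ.dv]; exact zero_mem _)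
          fun j _ => half j
        obtain ⟨s, rfl⟩ := M3J.exists_ex Z.d Z.C hu
        refine Or.inr ⟨?_, _, M3J.ex_mem _ Z₁.C (algebraMap L L₁ s), fun g hg => ?_⟩
        · have := x1 _ h6
          rwa [show ((2 : ℕ) : ℚ) * (1 / 2) = 1 by norm_num, Rat.cast_one] at this
        · simpa using (x2 _ _ (cp s)).1 0 h7 0 g hg) c1.a0
  have hk := hV L₁ ι Z₁ hE.ok (b1 hP) (b2 hC) _ G₁ G₂ C' α hru (fun s hs => by
    classical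
    rw [hE.S] at hs
    obtain ⟨s', h3, rfl⟩ := Finset.mem_image.1 hs
    exact kz_up hE ht (hS s' h3)) κ (k2 κ hκ)
  have := hU L₁ ι Z₁ hE.ok G₁ c1 _ _ (k1 κ hκ) hk
  linear_combination (1 / 2) * this

end

end Pool.Agent.MP_ee8c61_ag.Q3IZ
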