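import Pool.Agent.MP_ee8c61_ag.Q3IZ.Asm0
import Pool.Agent.MP_ee8c61_ag.Q3IZ.RRul
import Pool.Agent.MP_ee8c61_ag.Q3IZ.RDat
import Pool.Agent.MP_ee8c61_ag.Q3FT.Asm

/-! The order of the poles in three variables. -/

namespace Pool.Agent.MP_ee8c61_ag.Q3IZ

theorem siz : Q3.SIZ := siz_of' M3E.eout Q3P.pout rowRul rowDat

theorem main2 : Q3.Main2 := Q3FT.main_of siz

end Pool.Agent.MP_ee8c61_ag.Q3IZ
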