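import Pool.Agent.MP_ee8c61_ag.Q3IZ.TDefs
import Pool.Agent.MP_ee8c61_ag.M3RESID.U3
import Pool.Agent.MP_ee8c61_ag.M3L.Loc

/-! The tangential part of a closed primitive along a complete double curve vanishes. -/

namespace Pool.Agent.MP_ee8c61_ag.Q3IZ

open M3 M3E M3RESID M3Z WithZero Pool.Agent.MP_cce4c9_lc Pool.Agent.MP_cce4c9_lc.H87

noncomputable section

namespace RA0

variable {L k : Type} [Field L] [Algebra ℂ L] [Field k] [Algebra ℂ k]

/-- A closed field has no tangential part, or no exponent is positive. -/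
theorem zl0 {G : Pl L k} (hk : IsFF ℂ k) {d : Dv L} {v : VF L} (hv : d.δ v = 0)
    (hE : Exp d G.o 0) (β : Place ℂ k → ℚ) (hβ : ∀ x, Flag G d v x (β x)) :
    (∃ u ∈ d.Ex, v - u ∈ LV G.o 0 ∧ ∀ g ∈ G.o.F 0, (v - u) g ∈ G.o.F 1) ∨ ∀ x, β x ≤ 0 := by
  have := M3F.cz k
  refine or_iff_not_imp_left.2 fun hn x => ?_
  obtain ⟨C, a, n, u, hA, hz, hu, hX, hn', ha, hβ'⟩ := hβ x
  obtain ⟨D, hD⟩ := M3Z.exists_Rs G (hA.D_LV (j := 1) (by decide))
  obtain ⟨w, hw⟩ := M3Z.exists_Rs G hX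
  have hD1 : D (G.π (C.z 1)) = 1 := by
    rw [← hD.2 _ (M3J.z1_F hA), C.dual, if_pos rfl, pi_one]
  have hs := dv_res hA hE hX hD
  rw [map_sub, hv, d.δ_Ex hu, sub_zero, pi_zero] at hs
  obtain ⟨g, hge⟩ : ∃ g, g = G.π ((v - u) (C.z 1)) := ⟨_, rfl⟩
  have hwD := rs_eq hA hw hD
  rw [← hge] at hs hn' hwD
  have hg : g ≠ 0 := fun e => hn ⟨u, hu, Pl.Rs_zero_iff.1 (by
    rwa [show w = 0 from Derivation.ext fun y => by rw [hwD, e, zero_mul]; rfl] at hw)⟩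
  have hth : G.π (d.δ (C.th 1)) = G.π (C.z 1) * G.π (d.δ (C.D 1)) + 1 := by
    rw [Co.th, d.smul, C.dual, if_pos rfl, G.add _ (F_mul0 (M3J.z1_F hA) (M3J.dv_D1 hA hE)) _
      one_F, G.mul _ (M3J.z1_F hA) _ (M3J.dv_D1 hA hE), pi_one]
  have e2 := eul hk x hz hD1 hg
  have e3 : (0 : k) - algebraMap ℂ k (a - 1 + x.ord g) = (G.π (d.δ (C.th 1)) - algebraMap ℂ k a) +
      (G.π (C.z 1) * D g / g - algebraMap ℂ k (x.ord g)) := by
    rw [hth, show D g = -(g * G.π (d.δ (C.D 1))) by linear_combination -hs]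
    simp only [map_add, map_sub, map_one]
    field_simp
    ring
  have e4 : x.val ((0 : k) - algebraMap ℂ k (a - 1 + x.ord g)) < 1 :=
    e3 ▸ x.val.map_add_lt ha e2
  have e5 : (0 : ℚ) = a - 1 + x.ord g := by
    have := x.const_eq (h := 0) (a := 0) (by simp) e4
    exact_mod_cast this
  have e6 : ((n + 1 : ℤ) : ℚ) ≤ x.ord g := by
    have := (x.val_le_exp (x.val_ne hg) _).1 hn'
    rw [neg_neg] at this
    exact_mod_cast this
  push_cast at e6
  linarith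

end RA0

theorem rowA0 : OfA0 := by
  intro hK f la b β Q M U D L _ _ S o H hS k _ _ G j Z
  have := M3F.cz k
  have h := Z.fl
  obtain ⟨b0, hb0⟩ := h.ok.cov _ h.isc.2.1
  obtain ⟨l0, l1, l2, hl⟩ := h.labels hb0
  have hk := h.isFF hb0 hl
  obtain ⟨p, hp⟩ := h.nrm
  have hE : Exp S.d G.o 0 := by
    simpa [Z.t2.1] using exp_isCv h.ok h.po Z.t1.1 hS.rd hp h.isc
  have h3 : Exp (dvf f la) S.P.o 0 := h.po ▸ exp_v0 h.ok Z.t1.1
  have top : ∀ i, U.Top la i → U.c0 i = M.k i + 1 ∧ U.c i = 0 := fun i hi => by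
    constructor
    · rw [Cov.c0, H.cov.cl, Mod.up, hi.2]
      exact_mod_cast Int.ceil_natCast (R := ℚ) (M.k i + 1)
    · have e1 := congrFun H.cov.c i
      have e2 := hi.1
      simp only [Mod.q, Mod.aa, Mod.ex, Pi.smul_apply, Pi.sub_apply, hi.2, smul_eq_mul,
        Int.cast_natCast] at e1 e2
      rw [e2, smul_zero] at e1
      exact_mod_cast e1
  choose r hr using fun x => H.cov.ac.cov _ (h.ov Z.cpl x)
  have hA := fun x => (M3L.LS_val h.ok H.cov.ac (r x) _).2 ⟨h.ov Z.cpl x, hr x⟩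
  have hbx := fun x => M3L.LS_in H.cov.ac (hA x)
  have hb : ∀ x, M.In (U.bb (r x)) (cmp S.P G.o.O) := fun x g hg => Vx_le x (hbx x g hg)
  rcases RA0.zl0 hk (hK f la b β Q M U D L S o H hS).1.dv hE _ fun x =>
    h.flag h3 hS.rd hS.rv (top o Z.t1).1 (top j Z.t2).1 (hbx x) (hb x)
      (crl_mem _ _ (D.g0 (r x))) (fun l => hA x _ (H.dt.x0 (r x) l)) with ⟨u, hu, h1⟩ | hβ
  · obtain ⟨t, rfl⟩ := M3J.exists_ex S.d S.C hu
    exact ⟨t, h1⟩
  exfalso
  have hfl : fl o j U.c = U.c := fl_eq (top o Z.t1).2 (top j Z.t2).2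
  have hun := h.un_fl hb0 U.c
  rw [hfl] at hun
  have hle : la.den • U.c ≤ (U.m * la.den) • U.c0 - (U.m * la.num) • M.aa := fun i => by
    have e1 := congrFun H.cov.c i
    have e2 : U.P i ≤ U.c0 i := by
      rw [Cov.c0, H.cov.cl]
      exact Int.le_ceil _
    have e3 := mul_le_mul_of_nonneg_left e2 (Nat.cast_nonneg (α := ℚ) (U.m * la.den))
    refine Int.cast_le (R := ℚ).1 ?_
    rw [Pi.smul_apply, Pi.sub_apply, Pi.smul_apply, Pi.smul_apply]
    simp only [Mod.q, Pi.smul_apply, Pi.sub_apply, nsmul_eq_mul, smul_eq_mul] at e1 ⊢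
    push_cast at e3 ⊢
    rw [e1, ← Rat.mul_den_eq_num]
    nlinarith
  have od0 : ∀ x, h.od (hb x) x U.c ≤ 0 := fun x => by
    have e1 := h.od_mono (hb x) (hbx x) hle
    rw [map_sub, map_nsmul, map_nsmul, map_zsmul] at e1
    simp only [nsmul_eq_mul, smul_eq_mul] at e1
    have e2 : (la.den : ℚ) * h.od (hb x) x U.c ≤
        U.m * la.den * h.od (hb x) x U.c0 - U.m * la.num * h.od (hb x) x M.aa := by
      exact_mod_cast e1
    have e3 := mul_le_mul_of_nonneg_left (hβ x) (Nat.cast_nonneg (α := ℚ) (U.m * la.den))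
    have e4 : (0 : ℚ) < la.den := Nat.cast_pos.2 la.den_pos
    rw [← Rat.mul_den_eq_num] at e2
    push_cast at e3
    have e5 : (la.den : ℚ) * h.od (hb x) x U.c ≤ la.den * 0 := by nlinarith
    exact_mod_cast le_of_mul_le_mul_left e5 e4
  have key : ∀ s ∈ U.T, Un (cmp S.P G.o.O) s →
      G.π (S.P.π s) ∈ Set.range (algebraMap ℂ k) := fun s hs us => by
    have s0 := p2_ne us
    refine (H7.ll ℂ k hk).2.2.1 _ fun x => ?_
    have h1 := h.ord_ge (hb x) us.2.1 s0 (c := U.c)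
      (hfl.symm ▸ H.cov.gens.1 s hs _ (h.ov Z.cpl x) _ (hbx x))
    have h2 := od0 x
    rw [x.val_le_exp (x.val_ne s0)]
    simp only [Finsupp.coe_zero, Pi.zero_apply, neg_zero]
    omega
  obtain ⟨s, hs, s', hs', hg, ht⟩ := Z.nt
  have us : Un (cmp S.P G.o.O) s := Un.cancel (hg b0 hb0) hun
  have u0 := ht 0
  rw [map_zero, sub_zero] at u0
  have e1 : s' = s' / s * s := (div_mul_cancel₀ _ us.1).symm
  obtain ⟨a, ha⟩ := key s hs us
  obtain ⟨a', ha'⟩ := key s' hs' (e1 ▸ u0.mul us)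
  refine p2_ne (ht (a' / a)) ?_
  rw [e1, p2_mul u0.2.1 us.2.1] at ha'
  rw [p2_sub u0.2.1 (cst_cmp _), p2_cst, map_div₀, ha, ha', mul_div_cancel_right₀ _ (p2_ne us),
    sub_self]

end

end Pool.Agent.MP_ee8c61_ag.Q3IZ
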