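import Pool.Agent.MP_ee8c61_ag.Q3IZ.TDefs

/-!
The class vanishes on a divisor that is not contracted.
-/

namespace Pool.Agent.MP_ee8c61_ag.Q3IZ

open H59 hiding pd
open M3 M3E M3RESID M3F
open M3J (ex br)
open M3Z (cmp Fl)

noncomputable section

namespace RBig

variable {L k : Type} [Field L] [Algebra ℂ L] [Field k] [Algebra ℂ k] {f : Po 3} {la : ℚ}
  {M : Mod 3} {U : Cov M}

theorem ov_fg {P : Pl (KK 3) L} {G : Pl L k} {o j : M.J} (h : Fz f la U P G o j)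
    {V : ValuationSubring L} (hV : Fg G.o V) : Ov (cmp P V) := by
  have hc : ∀ c : ℂ, algebraMap ℂ (KK 3) c ∈ cmp P V := fun c =>
    ⟨cst_F _ c, P.π_cst c ▸ hV.2 c⟩
  refine M3L.ov_of_X hc fun l => ?_
  obtain ⟨c, h1⟩ := h.cpl l
  have h2 : xx 3 l - algebraMap ℂ _ c ∈ cmp P G.o.O :=
    sub_mem (h.fl.isc.2.1 _) (M3Z.cmp_mono P hV.1 (hc c))
  have h3 : xx 3 l - algebraMap ℂ _ c ∈ cmp P V := by
    by_cases h0 : xx 3 l - algebraMap ℂ _ c = 0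
    · rw [h0]
      exact zero_mem _
    exact ((cmp P V).mem_or_inv_mem _).resolve_right fun h4 =>
      h1 ⟨h0, h2, M3Z.cmp_mono P hV.1 h4⟩
  have := add_mem h3 (hc c)
  rwa [sub_add_cancel] at this

theorem gen_mono (h : M.OK f) (hB : Bas1 M) {V V' : Vl 3} (hV : Ov V) (hl : V ≤ V')
    {c : M.J → ℤ} {g : KK 3} (hg : M.Gen V c g) : M.Gen V' c g := by
  obtain ⟨b, hb⟩ := h.cov V hV
  exact (hB.gen_iff b V' c g fun x hx => hl (hb x hx)).2 ((hg b hb).mono hl)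

theorem grd_zero : grd f la 0 = 0 := funext fun l => by simp [grd, M3RESID.Nb]

theorem pr_smul (R : Co L 3) (x : L) (γ : Fin 3 → L) (X : VF L) :
    pr R (x • γ) X = x * pr R γ X := by
  simp only [pr, Pi.smul_apply, smul_eq_mul, Fin.sum_univ_three]
  ring

theorem Lam_smul (e : Fin 3 → VF L) (x : L) (γ : Fin 3 → L) (u u' : L) :
    Lam e (x • γ) u u' = x * Lam e γ u u' := by
  simp only [Lam, Pi.smul_apply, smul_eq_mul]
  ring

theorem mon_succ (hB : Bas1 M) (a : M.ι) (c : M.J → ℤ) (o : M.J) :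
    M.mon a c = M.η a o * M.mon a (c - M.e o) := by
  have h1 := hB.mon_e a o 1
  rw [one_smul, zpow_one] at h1
  rw [← h1, ← hB.mon_add, add_sub_cancel]

theorem l1_div (hB : Bas1 M) {c : M.J → ℤ} {o : M.J} {i j : U.κ} {γ : Fin 3 → KK 3}
    (h : U.L1 (c + M.e o) i j γ) : U.L1 c i j ((M.η (U.bb i) o)⁻¹ • γ) := fun l => by
  refine mem_of_eq (h l) ?_
  rw [pr_smul, mon_succ hB _ (-c) o, neg_add', mul_mul_mul_comm,
    inv_mul_cancel₀ (Units.ne_zero _), one_mul]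

theorem l1_anti (hB : Bas1 M) {c : M.J → ℤ} {o : M.J} {i j : U.κ} {γ : Fin 3 → KK 3}
    (h : U.L1 (c + M.e o) i j γ) : U.L1 c i j γ := fun l => by
  have h1 : M.η (U.bb i) o ∈ U.A i ⊔ U.A j :=
    (le_sup_left : U.A i ≤ _) (M3L.le_aw (hB.η_mem _ o))
  refine mem_of_eq (mul_mem h1 (h l)) ?_
  rw [mon_succ hB _ (-c) o, neg_add', mul_left_comm]

theorem c0_top (hU : U.OK la) {o : M.J} (h : U.Top la o) : U.c0 o = M.k o + 1 := by
  rw [Cov.c0, hU.cl, Mod.up, h.2]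
  exact_mod_cast Int.ceil_natCast (R := ℚ) (M.k o + 1)

/-- A logarithmic field whose tangential components vanish restricts to zero. -/
theorem rs_zero (h : M.OK f) (hB : Bas1 M) (hU : U.OK la) {o : M.J} (ht : U.Top la o)
    {P : Pl (KK 3) L} (hP : P.o = M.v o) {i : U.κ} (hi : M.Gen P.o.O U.w (U.ρ i))
    {X : VF (KK 3)} {w : VF L} (hw : P.Rs X w)
    (hX : ∀ l, M.S.lab (U.bb i) o ≠ some l → U.L2 (U.c0 + M.e o) i X l) : w = 0 := by
  have hov : Ov P.o.O := hP ▸ hB.ov_v o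
  have hA : ∀ g ∈ U.A i, g ∈ P.o.O := (M3L.LS_val h hU.ac i _).2 ⟨hov, hi⟩
  have hin : M.In (U.bb i) P.o.O := M3L.LS_in hU.ac hA
  obtain ⟨hin', hη, ⟨l, hl⟩, -⟩ := hB.in_v _ _ o hin (hP ▸ (hB.thru_v o o).2 rfl)
  obtain ⟨C', hC'⟩ := exists_rch h hl hη hP
  have hat : (cht h (U.bb i)).At P.o l := hP ▸ (cht_dat h hl hη).adp
  refine C'.span _ fun j => ?_
  have hne := l.succAbove_ne j
  rw [hC' j, ← hw.2 _ (hat.z_F _)]
  refine P.π_F1 ?_
  have h1 : _ ∈ P.o.F 0 := hA _ (hX (l.succAbove j) fun e => hne (Option.some.inj (e.symm.trans hl)))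
  have h2 : P.o.v (M.mon (U.bb i) (M.kk + 1 - (U.c0 + M.e o))) = -1 := by
    rw [hP, hB.v_mon _ _ _ hin']
    simp [Mod.kk, c0_top hU ht, Mod.e_apply]
  have h3 : (M.S.un (U.bb i) (l.succAbove j) : KK 3) ∈ P.o.F 0 := by
    rw [un_eq]
    split_ifs
    exacts [hat.z_F _, one_F]
  have h4 := F_mul0' (F_div h1 (M.mon (U.bb i) (M.kk + 1 - (U.c0 + M.e o)))) h3
  rw [h2, mul_div_cancel_right₀ _ (Units.ne_zero _), div_mul_cancel₀ _ (Units.ne_zero _)] at h4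
  exact h4

end RBig

open RBig in
theorem rowBig : OfBig := by
  intro hK hL f la b β Q M U D L _ _ S o H hS k _ _ G j hF hb
  obtain ⟨-, k2, k3, k4⟩ := hK f la b β Q M U D L S o H hS
  have hB := hF.fl.bas.toBas1
  obtain ⟨g, τ, b1, b2, b3⟩ := H.dt.big o hS.top.1 hb
  have hov : Ov S.P.o.O := hS.po ▸ hB.ov_v o
  have key : ∀ r, M.Gen S.P.o.O U.w (U.ρ r) → S.p (g r) = S.p (g S.i0) := fun r hr => by
    obtain ⟨u, hu, e⟩ := S.P.surj (S.C.z 0)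
    obtain ⟨u', hu', e'⟩ := S.P.surj (S.C.z 1)
    have h1 := hS.p2 _ _ _ (k3 r _ _ hr hS.i0 (l1_anti hB (b3 r S.i0))) u hu u' hu'
    have h2 := k3 r _ _ hr hS.i0 (l1_div hB (b3 r S.i0)) 0 0 u hu u' hu'
    have hin : M.In (U.bb r) (M.v o).O := hS.po ▸ ((H.cov.ac.gen r _ hov).1 hr).1
    have h3 : M.η (U.bb r) o ∈ S.P.o.F 1 := by
      have := hB.v_mon _ o ((1 : ℤ) • M.e o) hin
      rw [hB.mon_e, zpow_one, ← hS.po] at this
      exact Or.inr (by simp [this, Mod.e_apply])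
    have h4 := F_mul0' h3 h2
    rw [Lam_smul, mul_inv_cancel_left₀ (Units.ne_zero _)] at h4
    rw [e, e', M3J.br_self, mul_one, S.P.π_F1 h4] at h1
    exact sub_eq_zero.1 h1
  have h0 : (S.qd D).X (S.p (g S.i0)) = 0 :=
    rs_zero H.ok hB H.cov hS.top hS.po hS.i0 (hS.p1 _ (k4 _ _ hS.i0 fun l => (b2 _ l).1))
      fun l => (b2 _ l).2
  refine ⟨S.p (g S.i0), fun m u _ => by simp [h0], fun V hV hp r hr => ?_⟩
  have ov := ov_fg hF hV
  have h1 := ((k2 V ov).1 r).1 hr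
  have h2 := gen_mono H.ok hB ov (M3Z.cmp_le _ _) h1
  have e : D.g0 r - g r - grd f la 0 = D.g0 r - g r := by rw [grd_zero, sub_zero]
  have h3 := hS.p2 (D.g0 r) (g r) 0 (e.symm ▸ k3 r r _ h2 h2 (b1 r))
  rw [e, key r h2] at h3
  exact hL f la b β Q M U D L S o H hS V r r _ _ ov h1 h1 (b1 r) h3 hp

end

end Pool.Agent.MP_ee8c61_ag.Q3IZ
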