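import Pool.Agent.MP_ee8c61_ag.Q3IZ.TDefs

/-!
The lattice conditions on a complete divisor.
-/

namespace Pool.Agent.MP_ee8c61_ag.Q3IZ

open H59 hiding pd
open M3 M3E M3RESID M3F Finset
open M3J (ex br)
open M3Z (cmp)

noncomputable section

namespace RCC

variable {k : Type} [Field k] [Algebra ℂ k]

omit [Algebra ℂ k] in
theorem sm_F {Γ : DV k} {g : k} (h : Sm Γ.O g) : g ∈ Γ.F 1 := by
  by_cases h0 : g = 0
  · exact Or.inl h0
  have h1 : 0 ≤ Γ.v g := h.1.resolve_left h0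
  have h2 : Γ.v g ≠ 0 := fun e => h.2 (Γ.un_O.2 ⟨h0, e⟩)
  exact Or.inr (by omega)

/-- Fields of the lattice of a chart restrict to the lattices of a curve. -/
theorem lat {f : Po 3} {W : M3.Mod 3} (h : W.OK f) {la : ℚ} {o : W.J} (h0 : W.ex la o = 0)
    {P : Pl (KK 3) k} {e : Dv k} (he : P.RsD (dvf f la) e) {c : W.J → ℤ} (h2 : c o = W.k o + 1)
    {Γ : DV k} {C : Co k 2} {a : ℚ} (hC : C.At Γ 0) (hE : Exp e Γ a) (hL : Lv W o P Γ)
    {b : W.ι} (hin : W.In b (lift P Γ)) : ∃ m : ℤ,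
      a + m = ∑ j, ((c j : ℚ) - la * W.a j) * W.tr P Γ j ∧ ∀ X w, P.Rs X w →
        (∀ l, X (W.S.z b l) / W.S.un b l * W.mon b (W.kk + 1 - c) ∈ lift P Γ) → w ∈ LV Γ m := by
  have hP := hL.eq
  have hd : Exp (dvf f la) P.o 0 := hP ▸ exp_v0 h h0
  obtain ⟨-, hη, ⟨l, hl⟩, -⟩ := hL.bas.in_v _ _ o hin hL.thru
  obtain ⟨S', hS'⟩ := exists_rch h hl hη hP
  have hat : (cht h b).At P.o l := hP ▸ (cht_dat h hl hη).adp
  have hc : lf W b (W.kk + 1 - c) l = 0 := by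
    rw [lf_some hl]
    simp [Mod.kk, h2]
  obtain ⟨m, e1, e2, -⟩ := Pl.pb_chart hS' hat hd he hc hC hE (A := VA (lift P Γ) cst_lift)
    (fun _ hg => hg.1) (fun _ hg => hg.2) (fun l => hin _ (W.S.z_mem _ l))
    ((cht_ad h b la).mono hin) (s := ls W b) fun l hl => by simp [cex_none hl]
  refine ⟨m, ?_, fun X w hw d1 => ?_⟩
  · have e4 := lf_sum b (fun j => (c j : ℚ) - la * W.a j)
      (fun y => (Γ.v (P.π y) : ℚ)) (by rw [P.π_one, Γ.one, Int.cast_zero])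
    rw [Fin.sum_univ_succAbove _ l, P.π_F1 (g := W.S.z b l) (Or.inr hat.vz.ge), Γ.zero,
      Int.cast_zero, mul_zero, zero_add] at e4
    simp only [hL.tr_eq hin, ← e4]
    refine Rat.cast_injective (α := ℂ) ?_
    push_cast
    rw [e1]
    refine sum_congr rfl fun j _ => ?_
    rw [hS' j]
    refine congrArg₂ _ ?_ rfl
    split_ifs with hj
    · obtain ⟨j', hj'⟩ := mem_ls.1 hj
      rw [cex_some hj', lf_some hj', lf_some hj']
      simp [Mod.ex, Mod.kk]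
    · simp [lf_none hj]
  · simp only [un_eq, cht_mon h] at d1
    exact e2 _ _ hw d1

end RCC

open RCC in
theorem rowCC : OfCC := by
  intro hK hT f la b β Q M U D L _ _ S o H hS hx Γ a hΓ hE hp r hr
  obtain ⟨-, K1, K2, K3⟩ := hK f la b β Q M U D L S o H hS
  have hB := (H.E.bas 3 f M H.ok).toBas1
  have hL : Lv M o S.P Γ := lv_of H.ok hB hS.po fun l => by
    obtain ⟨c, hc⟩ := hx l
    exact hc ▸ cst_F Γ c
  have ov : Ov (cmp S.P Γ.O) := hL.ov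
  obtain ⟨K4, K5⟩ := K1 _ ov
  have up : ∀ r, M.Gen (lift S.P Γ) U.w (U.ρ r) → M.Gen S.P.o.O U.w (U.ρ r) := fun r h => by
    obtain ⟨a, ha⟩ := hL.cov
    exact (hB.gen_iff a _ _ _ fun g hg => lift_le (ha g hg)).2 ((h a ha).mono lift_le)
  have g1 := (K4 r).1 hr
  refine ⟨?_, fun r' hr' => ?_⟩
  · have hA : ∀ g ∈ U.A r, g ∈ lift S.P Γ := (M3L.LS_val H.ok H.cov.ac r _).2 ⟨hL.ov, g1⟩
    have hin : M.In (U.bb r) (lift S.P Γ) := M3L.LS_in H.cov.ac hA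
    obtain ⟨⟨x, hx⟩, u, hu⟩ := hΓ
    obtain ⟨C', -, hC'⟩ := cv_at S.C hS.fin hx hu.1 hu.2
    have c0 : ∀ j, U.c0 j = ⌈U.P j⌉ := congrFun H.cov.cl
    obtain ⟨m, m1, m2⟩ := lat H.ok hS.top.1 hS.rd (c := U.c0) (by
      rw [c0, hS.top.2]
      exact_mod_cast Int.ceil_natCast (R := ℚ) (M.k o + 1)) hC' hE hL hin
    refine ⟨m, ?_, m2 _ _ (hS.p1 _ (K3 r _ (up r g1) (H.dt.x0 r))) fun l => hA _ (H.dt.x0 r l)⟩
    have hm : (0 : ℚ) < U.m := Nat.cast_pos.2 H.cov.m0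
    have hc : ∀ j, (U.c j : ℚ) = U.m * (U.P j - la * M.a j) := fun j => by
      simpa [Mod.q, Mod.aa] using congrFun H.cov.c j
    have co : U.c o = 0 := by
      have h1 := hc o
      have h2 := hS.top.1
      rw [Mod.ex] at h2
      rw [hS.top.2, h2, mul_zero] at h1
      exact_mod_cast h1
    have s1 := K5.1 hp _ hin
    have u1 := hL.mon_un hin co
    have u2 := (pi_ne_iff u1.2.1).2 u1
    have v1 : 0 ≤ Γ.v (S.P.π (M.mon (U.bb r) U.c)) := s1.1.2.resolve_left u2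
    have v2 : Γ.v (S.P.π (M.mon (U.bb r) U.c)) ≠ 0 := fun e => s1.2 (un_lift.2 ⟨u1.2.1, u2, e⟩)
    have v3 : (0 : ℚ) < ((∑ i, U.c i * M.tr S.P Γ i : ℤ) : ℚ) := by
      rw [← hL.v_mon hin co]
      exact_mod_cast lt_of_le_of_ne v1 v2.symm
    push_cast at v3
    simp only [hc, mul_assoc, ← mul_sum] at v3
    rw [m1]
    refine ((mul_pos_iff_of_pos_left hm).1 v3).trans_le (sum_le_sum fun i _ =>
      mul_le_mul_of_nonneg_right ?_ (Int.cast_nonneg (hL.tr_nonneg i)))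
    rw [c0]
    exact sub_le_sub_right (Int.le_ceil _) _
  · have g2 := (K4 r').1 hr'
    exact sm_F (hT f la b β Q M U D L S o H hS Γ.O r r' _ _ ov g1 g2 (H.dt.l0 r r')
      (hS.p2 _ _ _ (K2 r r' _ (up r g1) (up r' g2) (H.dt.l0 r r'))) hp)

end

end Pool.Agent.MP_ee8c61_ag.Q3IZ
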