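import Pool.Agent.MP_ee8c61_ag.Q3IZ.RKit
import Pool.Agent.MP_ee8c61_ag.Q3IZ.RDict
import Pool.Agent.MP_ee8c61_ag.M3RESID.U3

/-!
A complete double curve of exponent zero, read on the surface.
-/

namespace Pool.Agent.MP_ee8c61_ag.Q3IZ

open H59 hiding pd
open M3 M3E M3RESID M3F M3Z Pool.Agent.MP_cce4c9_lc Pool.Agent.MP_cce4c9_lc.H87
open M3J (br)

noncomputable section

namespace RCu

variable {L k : Type} [Field L] [Algebra ℂ L] [Field k] [Algebra ℂ k] {f : Po 3} {la : ℚ}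
  {M : M3.Mod 3} {U : Cov M} {P : Pl (KK 3) L} {G : Pl L k} {o j : M.J}

/-- The third coordinate at a point of the curve. -/
theorem shift (h : Fl f M P G o j) {x : Place ℂ k} {a : M.ι} (hx : M.In a (Vx P G x))
    {l0 l1 l2 : Fin 3} (hl : Lb a o j l0 l1 l2) : ∃ (c : ℂ) (t : M.J → ℤ),
      ¬Un (Vx P G x) (M.S.z a l2 - algebraMap ℂ _ c) ∧
      (M.S.z a l2 - algebraMap ℂ _ c) / M.mon a t ∈ Vx P G x ∧
      ∀ i, M.Thru (Vx P G x) i → 1 ≤ (M.e o + M.e j + t) i := by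
  have hb : M.In a (cmp P G.o.O) := fun g hg => Vx_le x (hx g hg)
  have e0 : ∀ i i', 0 ≤ M.e i i' := fun i i' => by
    rw [M.e_apply]
    split_ifs <;> omega
  have e1 : ∀ i, M.e i i = 1 := fun i => by rw [M.e_apply, if_pos rfl]
  have lb : ∀ i, M.Thru (Vx P G x) i →
      i = o ∨ i = j ∨ (M.S.lab a i = some l2 ∧ ¬Un (Vx P G x) (M.S.z a l2)) := fun i hi => by
    obtain ⟨l, h1⟩ := (h.bas.in_v a _ i hx hi).2.2.1
    rcases hl.all l with rfl | rfl | rfl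
    · exact Or.inl (M.S.lab_inj a _ _ _ h1 hl.h0)
    · exact Or.inr (Or.inl (M.S.lab_inj a _ _ _ h1 hl.h1))
    · have := (h.bas.thru_iff a _ i hx).1 hi
      rw [Mod.η, M.S.η_some a i l h1] at this
      exact Or.inr (Or.inr ⟨h1, this⟩)
  by_cases H : ∃ i, M.S.lab a i = some l2 ∧ ¬Un (Vx P G x) (M.S.z a l2)
  · obtain ⟨i, h1, h2⟩ := H
    have e2 := h.bas.mon_e a i 1
    rw [one_smul, zpow_one, Mod.η, M.S.η_some a i l2 h1] at e2
    refine ⟨0, M.e i, by simpa using h2, ?_, fun i' hi => ?_⟩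
    · rw [map_zero, sub_zero, e2, div_self (a := M.S.z a l2) ((coB h.der a).ne l2)]
      exact one_mem _
    have := e0 o i'
    have := e0 j i'
    have := e0 i i'
    have := e1 i'
    simp only [Pi.add_apply]
    rcases lb i' hi with rfl | rfl | h3
    · omega
    · omega
    · obtain rfl := M.S.lab_inj a _ _ _ h1 h3.1
      omega
  obtain ⟨c, hc⟩ := H51.res (h.isFF hb hl) x _ (val_Vx (hx _ (M.S.z_mem a l2)))
  have hz := sub_mem (M.S.z_mem a l2) ((M.S.A a).algebraMap_mem c)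
  refine ⟨c, 0, fun u => ?_, ?_, fun i hi => ?_⟩
  · rw [un_Vx (hb _ hz), p2_sub (hb _ (M.S.z_mem a l2)) (cst_cmp c), p2_cst] at u
    exact hc.ne u
  · rw [h.bas.mon_zero, div_one]
    exact hx _ hz
  have := e0 o i
  have := e0 j i
  have := e1 i
  simp only [Pi.add_apply, Pi.zero_apply]
  rcases lb i hi with rfl | rfl | h3
  · omega
  · omega
  · exact absurd ⟨i, h3⟩ H

/-- The monomial of the class is a unit along the curve. -/
theorem un_c (hU : U.OK la) (h : Fz f la U P G o j) {a : M.ι} (hb : M.In a (cmp P G.o.O)) :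
    Un (cmp P G.o.O) (M.mon a U.c) :=
  h.fl.bas.un_of a _ _ hb fun i hi => by
    rcases h.fl.cv.thru _ _ _ i h.fl.isc hi with rfl | rfl
    exacts [RKit.c_top hU h.t1, RKit.c_top hU h.t2]

theorem T_mem (hU : U.OK la) (h : Fz f la U P G o j) {s : KK 3} (hs : s ∈ U.T) :
    s ∈ cmp P G.o.O := by
  obtain ⟨a, hb⟩ := h.fl.ok.cov _ h.fl.isc.2.1
  exact (un_c hU h hb).mem_iff.1 (hU.gens.1 s hs _ h.fl.isc.2.1 a hb)

end RCu

open RCu

theorem rowCu : OfCu := by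
  classical
  intro _ hN hA f la b β Q M U D L _ _ S o H hS k _ _ G j hF
  have h := hF.fl
  have hU := H.cov
  have B := h.bas.toBas1
  obtain ⟨p, hp⟩ := h.nrm
  have nc : ∃ s ∈ (S.qd D).S, ∃ s' ∈ (S.qd D).S, s ∉ G.o.F 1 ∧ NC G.o (s' / s) := by
    obtain ⟨s, hs, s', hs', h1, h2⟩ := hF.nt
    obtain ⟨a, hb⟩ := h.ok.cov _ h.isc.2.1
    obtain ⟨u1, u2⟩ := un_cmp.1 ((h1 a hb).cancel (un_c hU hF hb))
    rw [DV.un_O] at u1 u2
    have m := (T_mem hU hF hs').1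
    refine ⟨_, Finset.mem_image_of_mem _ hs, _, Finset.mem_image_of_mem _ hs',
      fun e => by have := e.resolve_left u2.1; omega, ?_⟩
    rw [← pi_div m u1.1 u1.2]
    exact (nc_iff (by simpa [u1.2] using F_div m s)).2 h2
  refine ⟨⟨h.nrm, ?_⟩, ?_, fun s hs => ?_, nc, fun V hV hne => ?_,
    hA f la b β Q M U D L S o H hS k G j hF⟩
  · obtain ⟨s, -, s', -, -, h1⟩ := nc
    exact ⟨_, h1⟩
  · have := exp_isCv h.ok h.po hF.t1.1 hS.rd hp h.isc
    rwa [hF.t2.1, Rat.cast_zero] at this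
  · obtain ⟨s, h1, rfl⟩ := Finset.mem_image.1 hs
    exact (T_mem hU hF h1).2
  obtain ⟨W, hW, rfl⟩ := RDict.exists_cmp hV
  obtain ⟨a₀, hb₀⟩ := h.ok.cov _ h.isc.2.1
  obtain ⟨_, _, _, hl₀⟩ := h.labels hb₀
  obtain ⟨x, hx⟩ := H7.dvr ℂ k (h.isFF hb₀ hl₀) W hW fun e => hne (le_antisymm
    (cmp_le _ _) fun g hg => ⟨hg, e ▸ ValuationSubring.mem_top _⟩)
  obtain rfl : W = x.val.valuationSubring := SetLike.ext hx
  have ov := h.ov hF.cpl x
  obtain ⟨a, ha⟩ := h.ok.cov _ ov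
  have hb : M.In a (cmp S.P G.o.O) := fun g hg => Vx_le x (ha g hg)
  obtain ⟨l0, l1, l2, hl⟩ := h.labels hb
  obtain ⟨c, t, s1, s2, s3⟩ := shift h ha hl
  obtain ⟨n, w, u, hn, hw, u1, u2, u0, -, e1⟩ := hN f la b β Q M U D L S o H hS a l0 l1 l2
    (h.po ▸ h.in_e hb) hl.h0 hl.n01 hl.n02 hl.n12
  have hz := sub_mem (M.S.z_mem a l2) ((M.S.A a).algebraMap_mem c)
  have uz := un_cmp.1 (h.un_y hb hl c)
  have vy := h.v_i hb
  have ey := B.mon_e a j 1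
  rw [Mod.η, M.S.η_some a j l1 hl.h1] at vy ey
  rw [one_smul, zpow_one] at ey
  refine ⟨_, S.P.π (M.S.z a l2 - algebraMap ℂ _ c), vy, fun e => ?_,
    ⟨(ha _ hz).2, fun e => s1 (un_cmp.2 ⟨uz.1, e⟩)⟩, fun s hs => ?_⟩
  · have h1 := G.o.un_O.1 uz.2
    have := e.resolve_left h1.1
    omega
  obtain ⟨s, hT, rfl⟩ := Finset.mem_image.1 hs
  have eb : br S.C (S.P.π (M.S.z a l1)) (S.P.π (M.S.z a l2 - algebraMap ℂ _ c)) =
      br S.C (S.P.π (M.S.z a l1)) (S.P.π (M.S.z a l2)) := by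
    rw [pi_sub (hb _ (M.S.z_mem a l2)).1 (cst_F _ c), pi_cst]
    simp [br]
  have hw' : ∀ i, (w i : ℚ) = n * S.q * (M.k i + M.e o i - la * M.a i) := fun i => by
    simpa [Mod.q, Mod.kk, Mod.aa] using congrFun hw i
  have hc' : ∀ i, (U.c i : ℚ) = U.m * (U.P i - la * M.a i) := fun i => by
    simpa [Mod.q, Mod.aa] using congrFun hU.c i
  have m1 : M.mon a (U.m • w + -((n * S.q) • U.c) + (U.m * (n * S.q)) • (M.e j + t)) ∈
      Vx S.P G x := B.mem_of a _ _ ha fun i hi => by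
    have h1 : (1 : ℚ) ≤ M.e o i + M.e j i + t i := by exact_mod_cast s3 i hi
    have h2 : U.P i ≤ M.k i + 1 := by simpa [Mod.nu] using hU.le i
    have h3 : (0 : ℚ) ≤ U.m * (n * S.q) * (M.k i + (M.e o i + M.e j i + t i) - U.P i) :=
      mul_nonneg (by positivity) (by linarith)
    rw [← Int.cast_nonneg_iff (R := ℚ)]
    simp only [Pi.add_apply, Pi.neg_apply, Pi.smul_apply]
    simp only [nsmul_eq_mul]
    push_cast
    rw [hw', hc']
    linarith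
  have m2 := mul_mem (mul_mem (mul_mem (pow_mem (ha u u1) U.m)
    (pow_mem (hU.gens.1 s hT _ ov a ha) (n * S.q))) m1) (pow_mem s2 (U.m * (n * S.q)))
  have e2 : u ^ U.m * (s * M.mon a U.c) ^ (n * S.q) *
      M.mon a (U.m • w + -((n * S.q) • U.c) + (U.m * (n * S.q)) • (M.e j + t)) *
      ((M.S.z a l2 - algebraMap ℂ _ c) / M.mon a t) ^ (U.m * (n * S.q)) =
      (u * M.mon a w) ^ U.m * ((M.S.z a l1 * (M.S.z a l2 - algebraMap ℂ _ c)) ^ (U.m * (n * S.q)) *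
        s ^ (n * S.q)) := by
    have n1 : M.mon a U.c ≠ 0 := Units.ne_zero _
    have n2 : M.mon a t ≠ 0 := Units.ne_zero _
    rw [B.mon_add, B.mon_add, B.mon_neg, B.mon_nsmul, B.mon_nsmul, B.mon_nsmul, B.mon_add, ey]
    simp only [mul_pow, div_pow]
    field_simp
  have f1 : u * M.mon a w ∈ S.P.o.F 0 := F_mul0 (hb u u1).1 (Or.inr (by
    have h1 := hw' o
    have h2 := hF.t1.1
    rw [M.e_apply, if_pos rfl, Int.cast_one] at h1
    rw [Mod.ex] at h2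
    rw [h2, mul_zero, Int.cast_eq_zero] at h1
    rw [h.po, B.v_mon a o w (h.in_e hb), h1]))
  have f2 := (hb _ (mul_mem (M.S.z_mem a l1) hz)).1
  have f3 := (T_mem hU hF hT).1
  have pw : ∀ g ∈ S.P.o.F 0, ∀ r : ℕ, g ^ r ∈ S.P.o.F 0 := fun g hg r =>
    pow_mem (S := S.P.o.O) hg r
  rw [e2] at m2
  have m3 := m2.2
  rw [S.P.mul _ (pw _ f1 _) _ (F_mul0 (pw _ f2 _) (pw _ f3 _)), S.P.mul _ (pw _ f2 _) _ (pw _ f3 _),
    M3Z.pi_pow f1, M3Z.pi_pow f2, M3Z.pi_pow f3,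
    S.P.mul _ (hb _ (M.S.z_mem a l1)).1 _ (hb _ hz).1, ← e1] at m3
  refine mem_of_pow hn ?_
  simp only [Sd.qd]
  rw [eb]
  refine (congrArg (· ∈ cmp G x.val.valuationSubring) ?_).mp m3
  simp only [mul_pow, div_pow, ← pow_mul]
  ring

end

end Pool.Agent.MP_ee8c61_ag.Q3IZ
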