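import Pool.Agent.MP_ee8c61_ag.Q3IZ.TDefs
import Pool.Agent.MP_ee8c61_ag.Q3IZ.RPV
import Pool.Agent.MP_ee8c61_ag.M3RESID.U3

/-! Twin flags: the volume form on the curve, generators and positivity. -/

namespace Pool.Agent.MP_ee8c61_ag.Q3IZ

open M3 M3E M3RESID M3Z Pool.Agent.MP_cce4c9_lc.H87

noncomputable section

namespace RE0

variable {L L' k : Type} [Field L] [Algebra ℂ L] [Field L'] [Algebra ℂ L'] [Field k]
  [Algebra ℂ k] {f : Po 3} {la : ℚ} {M : Mod 3} {P : Pl (KK 3) L} {G : Pl L k}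
  {P' : Pl (KK 3) L'} {G' : Pl L' k} {o j : M.J}

/-- The double residue in a chart. -/
theorem side (h : Fl f M P G o j) (ho : M.ex la o = 0) (hj : M.ex la j = 0) {d : Dv L}
    (hd : P.RsD (dvf f la) d) {b : M.ι} (hb : M.In b (cmp P G.o.O)) {l0 l1 l2 : Fin 3}
    (hl : Lb b o j l0 l1 l2) : ∃ (e : Dv k) (D : VF k), G.RsD d e ∧ D ≠ 0 ∧
      (∀ g ∈ M.S.A b, D (G.π (P.π g)) = G.π (P.π (M.S.D b l2 g))) ∧
      e.δ D = G.π (P.π ((dvf f la).δ (M.S.D b l2))) := by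
  obtain ⟨C, hC, hA⟩ := h.exists_co2 hb hl 0
  have hA3 := h.at3 hb hl 0
  have hk := h.isFF hb hl
  obtain ⟨p, hp⟩ := h.nrm
  have hE : Exp d G.o 0 := by simpa [hj] using exp_isCv h.ok h.po ho hd hp h.isc
  obtain ⟨D, hD⟩ := M3Z.exists_Rs G (hA.D_LV (j := 1) (by decide))
  have h1 : D (G.π (C.z 1)) = 1 := by rw [← hD.2 _ (M3J.z1_F hA), C.dual, if_pos rfl, pi_one]
  have D0 : D ≠ 0 := fun e => by simp [e] at h1
  have hall : ∀ w, ∃ v, G.Rs v w := fun w => by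
    obtain ⟨g, rfl⟩ := RPV.prop hk D0 w
    obtain ⟨t, ht, rfl⟩ := G.surj g
    exact ⟨_, hD.smul ht⟩
  obtain ⟨e, he⟩ := Pl.exists_RsD (P := G) hE hp hall
  have hR : P.Rs (M.S.D b l2) (C.D 1) := hC.D hA3 1
  refine ⟨e, D, he, D0, fun g hg => ?_, ?_⟩
  · rw [← hD.2 _ (hb g hg).2, ← hR.2 _ (hb g hg).1]
  · rw [← he _ _ hD, ← hd _ _ hR]

theorem lc_dv (h : Fl f M P G o j) {b : M.ι} (hb : M.In b (cmp P G.o.O)) {l0 l1 l2 : Fin 3}
    (hl : Lb b o j l0 l1 l2) : Lc (M.S.A b) (cmp P G.o.O) ((dvf f la).δ (M.S.D b l2)) := by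
  have hy := h.un_y hb hl 0
  rw [map_zero, sub_zero] at hy
  have h1 : ((dvf f la).δ (M.S.z b l2 • M.S.D b l2) - algebraMap ℂ _ (cex M b la l2)) /
      M.S.z b l2 ∈ M.S.A b := cht_ad h.ok b la l2
  rw [(dvf f la).smul, M.S.D_z, if_pos rfl] at h1
  refine ⟨_, M.S.z_mem b l2, hy, ?_⟩
  have h2 := sub_mem (add_mem (mul_mem h1 (M.S.z_mem b l2))
    ((M.S.A b).algebraMap_mem (cex M b la l2))) (one_mem _)
  rwa [div_mul_cancel₀ _ hy.1, sub_add_cancel, add_sub_cancel_right] at h2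

theorem vol (h : Fl f M P G o j) (h' : Fl f M P' G' j o) (hT : Tw M P G P' G')
    (ho : M.ex la o = 0) (hj : M.ex la j = 0) {d : Dv L} {d' : Dv L'}
    (hd : P.RsD (dvf f la) d) (hd' : P'.RsD (dvf f la) d') :
    ∃ e : Dv k, G.RsD d e ∧ G'.RsD d' e := by
  obtain ⟨b, hb⟩ := h.ok.cov _ h.isc.2.1
  have hb' := (hT.inn b).1 hb
  obtain ⟨l0, l1, l2, hl⟩ := h.labels hb
  have hl' : Lb b j o l1 l0 l2 :=
    ⟨hl.h1, hl.h0, hl.n01.symm, hl.n12, hl.n02, fun l => or_left_comm.1 (hl.all l)⟩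
  obtain ⟨e, D, h1, D0, h2, h3⟩ := side h ho hj hd hb hl
  obtain ⟨e', D', h1', -, h2', h3'⟩ := side h' hj ho hd' hb' hl'
  have hπ : ∀ g ∈ M.S.A b, G'.π (P'.π g) = G.π (P.π g) := fun g hg =>
    (hT.lc b hb g (Lc.of_mem hg)).2
  have hD : D = D' := sub_eq_zero.1 (Derivation.ext fun y =>
    der_zero_et (h.ok.et b) (Fl.phi hb) (h.phi_frac hb) (D - D') (fun l => by
      show D (G.π (P.π (M.S.z b l))) - D' (G.π (P.π (M.S.z b l))) = 0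
      have hz := M.S.z_mem b l
      rw [h2 _ hz, ← hπ _ hz, h2' _ hz, hπ _ (M.S.D_mem b l2 _ hz), sub_self]) y)
  subst hD
  have he : e = e' := Dv.ext' fun w => by
    obtain ⟨g, rfl⟩ := RPV.prop (h.isFF hb hl) D0 w
    rw [e.smul, e'.smul, h3, h3', (hT.lc b hb _ (lc_dv h hb hl)).2]
  exact ⟨e, h1, he ▸ h1'⟩

variable {W : ValuationSubring k}

theorem le2 : cmp P (cmp G W) ≤ cmp P G.o.O := cmp_mono P (cmp_le G W)

theorem un2 {g : KK 3} (hg : g ∈ cmp P G.o.O) :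
    Un (cmp P (cmp G W)) g ↔ Un W (G.π (P.π g)) := by
  refine ⟨fun h => (un_cmp.1 (un_cmp.1 h).2).2, fun h => ?_⟩
  have u := un_of_pi hg.2 h.1
  exact un_cmp.2 ⟨un_of_pi hg.1 u.1, un_cmp.2 ⟨u, h⟩⟩

theorem ov (h : Fl f M P G o j) (hW : ∀ c : ℂ, algebraMap ℂ k c ∈ W)
    (hx : ∀ l, ∃ κ : ℂ, ¬Un (cmp P G.o.O) (xx 3 l - algebraMap ℂ _ κ)) :
    Ov (cmp P (cmp G W)) := fun p => by
  have ho := h.isc.2.1
  have : ∃ κ : ℂ, G.π (P.π (ip 3 p)) = algebraMap ℂ k κ := by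
    induction p using MvPolynomial.induction_on with
    | C a => exact ⟨a, by rw [← p2_cst (P := P) (G := G)]; congr 2⟩
    | add p q hp hq =>
      obtain ⟨a, ha⟩ := hp
      obtain ⟨a', ha'⟩ := hq
      exact ⟨a + a', by rw [map_add, p2_add (ho p) (ho q), ha, ha', map_add]⟩
    | mul_X p l hp =>
      obtain ⟨a, ha⟩ := hp
      obtain ⟨κ, hκ⟩ := hx l
      have h1 : G.π (P.π (xx 3 l - algebraMap ℂ _ κ)) = 0 := by
        by_contra h1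
        exact hκ (un_p2 (sub_mem (ho _) (cst_cmp κ)) h1)
      rw [xx, p2_sub (ho _) (cst_cmp κ), p2_cst, sub_eq_zero] at h1
      exact ⟨a * κ, by rw [map_mul, p2_mul (ho p) (ho _), ha, h1, map_mul]⟩
  obtain ⟨κ, hκ⟩ := this
  exact ⟨(ho p).1, (ho p).2, by rw [hκ]; exact hW κ⟩

variable (hT : Tw M P G P' G')
include hT

theorem tr {a : M.ι} (ha : M.In a (cmp P G.o.O)) {g : KK 3}
    (hg : Lc (M.S.A a) (cmp P G.o.O) g) :
    (g ∈ cmp P (cmp G W) ↔ g ∈ cmp P' (cmp G' W)) ∧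
      (Un (cmp P (cmp G W)) g ↔ Un (cmp P' (cmp G' W)) g) := by
  obtain ⟨h1, h2⟩ := hT.lc a ha g hg
  have m := hg.mem' ha
  have m' := h1.mem' ((hT.inn a).1 ha)
  refine ⟨⟨fun h => ⟨m'.1, m'.2, ?_⟩, fun h => ⟨m.1, m.2, ?_⟩⟩, by rw [un2 m, un2 m', h2]⟩
  · rw [h2]
    exact h.2.2
  · rw [← h2]
    exact h.2.2

theorem inn {a : M.ι} : M.In a (cmp P (cmp G W)) ↔ M.In a (cmp P' (cmp G' W)) :=
  ⟨fun h g hg => (tr hT (fun g hg => le2 (h g hg)) (Lc.of_mem hg)).1.1 (h g hg),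
    fun h g hg => (tr hT ((hT.inn a).2 fun g hg => le2 (h g hg)) (Lc.of_mem hg)).1.2 (h g hg)⟩

omit hT in
theorem lc_mon (h : Fl f M P G o j) {a : M.ι} (ha : M.In a (cmp P G.o.O)) {c : M.J → ℤ}
    (h1 : c o = 0) (h2 : c j = 0) : Lc (M.S.A a) (cmp P G.o.O) (M.mon a c) := by
  have h3 := h.un_fl ha fun i => max (-c i) 0
  rw [fl_eq (by simp [h1]) (by simp [h2])] at h3
  refine ⟨_, h.bas.mon_mem a _ fun i => le_max_right _ _, h3, ?_⟩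
  rw [← h.bas.mon_add]
  refine h.bas.mon_mem a _ fun i => ?_
  have := le_max_left (-c i) 0
  simp only [Pi.zero_apply, Pi.add_apply]
  omega

omit hT in
theorem c_top {U : Cov M} (hU : U.OK la) (h : U.Top la o) : U.c o = 0 := by
  have h1 := congrFun hU.c o
  have h2 := h.1
  simp only [Mod.q, Mod.aa, Pi.smul_apply, Pi.sub_apply, smul_eq_mul, h.2, Int.cast_natCast] at h1
  rw [Mod.ex] at h2
  rw [h2, smul_zero] at h1
  exact_mod_cast h1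

end RE0

open RE0 in
theorem rowE0 : OfE0 := by
  intro hK f la b β Q M U D L L' k _ _ _ _ _ _ S G S' G' o j H hS hS' hF hF' hT
  refine ⟨vol hF.fl hF'.fl hT hF.t1.1 hF.t2.1 hS.rd hS'.rd, fun W hW => ?_⟩
  have v1 := ov hF.fl hW hF.cpl
  have v2 := ov hF'.fl hW hF'.cpl
  obtain ⟨g1, p1⟩ := (hK f la b β Q M U D L S o H hS).2.1 _ v1
  obtain ⟨g2, p2⟩ := (hK f la b β Q M U D L' S' j H hS').2.1 _ v2
  refine ⟨fun h => p1.2 fun a ha => ?_, fun r h => (g1 r).2 ?_⟩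
  · have h1 := p2.1 h a ((inn hT).1 ha)
    have ha' : M.In a (cmp S.P G.o.O) := fun g hg => le2 (ha g hg)
    obtain ⟨t1, t2⟩ := tr (W := W) hT ha'
      (lc_mon hF.fl ha' (c_top H.cov hF.t1) (c_top H.cov hF.t2))
    exact ⟨t1.2 h1.1, fun u => h1.2 (t2.1 u)⟩
  · obtain ⟨h1, h2⟩ := (H.cov.ac.gen r _ v2).1 ((g2 r).1 h)
    have h3 := (inn hT).2 h1
    have ht := H.cov.ac.mem r
    exact (H.cov.ac.gen r _ v1).2 ⟨h3, ((tr (W := W) hT (fun g hg => le2 (h3 g hg))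
      (Lc.of_mem ht)).2.2 ⟨H.cov.ac.ne r, h1 _ ht, h2⟩).2.2⟩

end

end Pool.Agent.MP_ee8c61_ag.Q3IZ
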