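import Pool.Agent.MP_ee8c61_ag.Q3IZ.TDefs

/-! The differences of the restrictions of the second terms to a double curve. -/

namespace Pool.Agent.MP_ee8c61_ag.Q3IZ

open H59 hiding pd
open M3 M3E M3RESID M3F
open M3J (ex br)
open M3Z (cmp Fl Lb un_cmp un_of_pi cmp_le)

noncomputable section

namespace RE3

section Abs

variable {K : Type} [Field K] {V : ValuationSubring K} {g h : K}

theorem sm_add (a : Sm V g) (b : Sm V h) : Sm V (g + h) :=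
  ⟨add_mem a.1 b.1, not_un_add a.1 b.1 a.2 b.2⟩

theorem sm_mul (a : g ∈ V) (b : Sm V h) : Sm V (g * h) := ⟨mul_mem a b.1, not_un_mul a b.1 b.2⟩

theorem sm_mul' (a : Sm V g) (b : h ∈ V) : Sm V (g * h) := mul_comm h g ▸ sm_mul b a

theorem sm_sub (a : Sm V g) (b : Sm V h) : Sm V (g - h) := by
  rw [sub_eq_add_neg, ← neg_one_mul]
  exact sm_add a (sm_mul (neg_mem (one_mem _)) b)

/-- A vector that is small away from the index `l`. -/
def Tn (V : ValuationSubring K) (l : Fin 3) (x : Fin 3 → K) : Prop :=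
  (∀ a, x a ∈ V) ∧ ∀ a, a ≠ l → Sm V (x a)

theorem Tn.wedge {l a a' : Fin 3} {x x' y : Fin 3 → K} (hx : Tn V l x) (hx' : Tn V l x')
    (hy : Tn V l y) (h : a ≠ a') : Sm V (x a * y a' - x' a' * y a) := by
  by_cases e : a = l
  · have e' : a' ≠ l := fun e' => h (e.trans e'.symm)
    exact sm_sub (sm_mul (hx.1 a) (hy.2 a' e')) (sm_mul' (hx'.2 a' e') (hy.1 a))
  · exact sm_sub (sm_mul' (hx.2 a e) (hy.1 a')) (sm_mul (hx'.1 a') (hy.2 a e))

variable [Algebra ℂ K] (C : Co K 3) (s : Finset (Fin 3))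

theorem lfr_z (a : Fin 3) {l : Fin 3} (hl : l ∈ s) :
    lfr C s a (C.z l) / C.z l = if a = l then 1 else 0 := by
  rw [lfr, Derivation.smul_apply, C.dual, smul_eq_mul]
  by_cases e : a = l
  · subst e
    simp [hl, C.ne]
  · simp [e]

theorem lfr_comm (a a' : Fin 3) (g : K) :
    lfr C s a (lfr C s a' g) = lfr C s a' (lfr C s a g) := by
  by_cases e : a = a'
  · rw [e]
  have k : ∀ a a' : Fin 3, a ≠ a' → C.D a (if a' ∈ s then C.z a' else 1) = 0 := fun a a' e => by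
    split_ifs
    · rw [C.dual, if_neg e]
    · simp
  simp only [lfr, Derivation.smul_apply, smul_eq_mul, Derivation.leibniz, k a a' e,
    k a' a (Ne.symm e), C.comm a a']
  ring

theorem crl_ap (d : Dv K) {e : Fin 3 → VF K} (hc : ∀ i j g, e i (e j g) = e j (e i g))
    (c : Fin 3 → K) (u : K) : crl d e c u =
      d.δ (c 0 • e 2) * e 1 u - d.δ (c 0 • e 1) * e 2 u +
      (d.δ (c 1 • e 0) * e 2 u - d.δ (c 1 • e 2) * e 0 u) +
      (d.δ (c 2 • e 1) * e 0 u - d.δ (c 2 • e 0) * e 1 u) := by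
  simp only [crl, d.B_frame _ _ _ (hc _ _), Derivation.add_apply, Derivation.sub_apply,
    Derivation.smul_apply, smul_eq_mul]

theorem crl_tn {V : ValuationSubring K} {l : Fin 3} (d : Dv K) {e : Fin 3 → VF K}
    (hc : ∀ i j g, e i (e j g) = e j (e i g)) {c : Fin 3 → K} {u : K}
    (t : ∀ i, Tn V l fun a => d.δ (c i • e a)) (y : Tn V l fun a => e a u) :
    Sm V (crl d e c u) := by
  rw [crl_ap d hc]
  exact sm_add (sm_add ((t 0).wedge (t 0) y (a := 2) (a' := 1) (by decide))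
    ((t 1).wedge (t 1) y (a := 0) (a' := 2) (by decide)))
    ((t 2).wedge (t 2) y (a := 1) (a' := 0) (by decide))

end Abs

variable {L k : Type} [Field L] [Algebra ℂ L] [Field k] [Algebra ℂ k]

section Phi

variable {P : Pl (KK 3) L} {G : Pl L k} {g h : KK 3}

theorem ph_add (a : g ∈ cmp P G.o.O) (b : h ∈ cmp P G.o.O) :
    G.π (P.π (g + h)) = G.π (P.π g) + G.π (P.π h) := by
  rw [P.add _ a.1 _ b.1, G.add _ a.2 _ b.2]

theorem ph_sub (a : g ∈ cmp P G.o.O) (b : h ∈ cmp P G.o.O) :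
    G.π (P.π (g - h)) = G.π (P.π g) - G.π (P.π h) := by
  rw [Pl.π_sub a.1 b.1, Pl.π_sub a.2 b.2]

theorem ph_nat (n : ℕ) (b : h ∈ cmp P G.o.O) : G.π (P.π (n * h)) = n * G.π (P.π h) := by
  have a : (n : KK 3) ∈ cmp P G.o.O := natCast_mem _ n
  rw [P.mul _ a.1 _ b.1, G.mul _ a.2 _ b.2, M3Z.pi_nat, M3Z.pi_nat]

theorem ph_sm (a : Sm (cmp P G.o.O) g) : G.π (P.π g) = 0 := by
  by_contra e
  have h1 := un_of_pi a.1.2 e
  exact a.2 (un_cmp.2 ⟨un_of_pi a.1.1 h1.1, h1⟩)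

theorem rr_ap {X : VF (KK 3)} {u : VF k} (hX : RR P G X u) (a : g ∈ cmp P G.o.O) :
    X g ∈ cmp P G.o.O ∧ G.π (P.π (X g)) = u (G.π (P.π g)) := by
  obtain ⟨X', h1, h2⟩ := hX
  have e := h1.2 g a.1
  exact ⟨⟨h1.ap a.1, e ▸ h2.ap a.2⟩, by rw [e, h2.2 _ a.2]⟩

end Phi

variable {f : Po 3} {la : ℚ} {M : Mod 3} {o j : M.J}

section Chart

variable {P : Pl (KK 3) L} {G : Pl L k} (h : Fl f M P G o j) {b : M.ι}
  (hb : M.In b (cmp P G.o.O)) {l0 l1 l2 : Fin 3} (hl : Lb b o j l0 l1 l2)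
include h

theorem e_A {g : KK 3} (hg : g ∈ lcA (M.S.A b) (cmp P G.o.O)) (a : Fin 3) :
    lfr (cht h.ok b) (ls M b) a g ∈ lcA (M.S.A b) (cmp P G.o.O) := by
  rw [lfr, Derivation.smul_apply, smul_eq_mul]
  refine mul_mem ?_ (h.der.lc b _ a g hg)
  split_ifs
  exacts [Lc.of_mem (M.S.z_mem b a), one_mem _]

include hb

theorem mon_A {c : M.J → ℤ} (h0 : c o = 0) (h1 : c j = 0) :
    M.mon b c ∈ lcA (M.S.A b) (cmp P G.o.O) := by
  refine ⟨M.mon b c⁻, h.bas.mon_mem b _ (negPart_nonneg c), h.bas.un_of b _ _ hb fun i hi => ?_, ?_⟩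
  · rcases h.cv.thru o j _ i h.isc hi with rfl | rfl
    · simp [h0]
    · simp [h1]
  · rw [← h.bas.mon_add, show c⁻ + c = c⁺ from
      (sub_eq_iff_eq_add'.1 (posPart_sub_negPart c)).symm]
    exact h.bas.mon_mem b _ (posPart_nonneg c)

include hl

theorem z_sm {a : Fin 3} (ha : a ≠ l2) : ∃ i, (i = o ∨ i = j) ∧ M.S.lab b i = some a ∧
    Sm (cmp P G.o.O) (M.S.z b a) := by
  rcases hl.all a with rfl | rfl | rfl
  · exact ⟨o, Or.inl rfl, hl.h0, hb _ (M.S.z_mem b a), M.S.η_some b o a hl.h0 ▸ h.nun_e hb⟩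
  · exact ⟨j, Or.inr rfl, hl.h1, hb _ (M.S.z_mem b a), M.S.η_some b j a hl.h1 ▸ h.nun_i hb⟩
  · exact absurd rfl ha

theorem tn_e {g : KK 3} (hg : g ∈ lcA (M.S.A b) (cmp P G.o.O)) :
    Tn (cmp P G.o.O) l2 fun a => lfr (cht h.ok b) (ls M b) a g := by
  refine ⟨fun a => lcA_le hb _ (e_A h hg a), fun a ha => ?_⟩
  obtain ⟨i, -, h1, h2⟩ := z_sm h hb hl ha
  show Sm _ (lfr _ _ a g)
  rw [lfr, if_pos (mem_ls.2 ⟨i, h1⟩), Derivation.smul_apply, smul_eq_mul]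
  exact sm_mul' h2 ((h.der.lc b _ a g hg).mem' hb)

theorem tn_dv (e0 : M.ex la o = 0) (e1 : M.ex la j = 0) {g : KK 3}
    (hg : g ∈ lcA (M.S.A b) (cmp P G.o.O)) :
    Tn (cmp P G.o.O) l2 fun a => (dvf f la).δ (g • lfr (cht h.ok b) (ls M b) a) := by
  have t := tn_e h hb hl hg
  have hg' := lcA_le hb _ hg
  have ad := fun a => hb _ (cht_ad h.ok b la a)
  beta_reduce at ad
  have z0 := (cht h.ok b).ne
  have key : ∀ a ∈ ls M b, (dvf f la).δ (lfr (cht h.ok b) (ls M b) a) =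
      (cht h.ok b).z a * (((dvf f la).δ ((cht h.ok b).th a) -
        algebraMap ℂ _ (cex M b la a : ℂ)) / (cht h.ok b).z a) +
        algebraMap ℂ _ (cex M b la a : ℂ) := fun a ha => by
    rw [mul_div_cancel₀ _ (z0 a), sub_add_cancel, lfr, if_pos ha]
    rfl
  refine ⟨fun a => ?_, fun a ha => ?_⟩
  · show (dvf f la).δ _ ∈ _
    rw [Dv.smul]
    refine add_mem (mul_mem hg' ?_) (t.1 a)
    by_cases ha : a ∈ ls M b
    · rw [key a ha]
      exact add_mem (mul_mem (hb _ (M.S.z_mem b a)) (ad a)) (hb _ (Subalgebra.algebraMap_mem _ _))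
    · have := ad a
      rw [cex_none ha, Co.th, Dv.smul, (cht h.ok b).dual, if_pos rfl, Rat.cast_one, map_one,
        add_sub_cancel_right, mul_div_cancel_left₀ _ (z0 a)] at this
      rwa [lfr, if_neg ha, one_smul]
  · obtain ⟨i, h0, h1, h2⟩ := z_sm h hb hl ha
    show Sm _ ((dvf f la).δ _)
    rw [Dv.smul, key a (mem_ls.2 ⟨i, h1⟩)]
    refine sm_add (sm_mul hg' ?_) (t.2 a ha)
    have : cex M b la a = 0 := by
      rw [cex_some h1]
      rcases h0 with rfl | rfl <;> assumption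
    have h3 := ad a
    rw [this, Rat.cast_zero, map_zero] at h3 ⊢
    rw [add_zero]
    exact sm_mul' h2 h3

theorem crl_sm (e0 : M.ex la o = 0) (e1 : M.ex la j = 0) {c : Fin 3 → KK 3}
    (hc : ∀ a, c a ∈ lcA (M.S.A b) (cmp P G.o.O)) {u : KK 3}
    (hu : u ∈ lcA (M.S.A b) (cmp P G.o.O)) :
    Sm (cmp P G.o.O) (crl (dvf f la) (lfr (cht h.ok b) (ls M b)) c u) := by
  exact crl_tn _ (lfr_comm _ _) (fun a => tn_dv h hb hl e0 e1 (hc a)) (tn_e h hb hl hu)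

theorem lam_sm {c : Fin 3 → KK 3} (hc : ∀ a, c a ∈ lcA (M.S.A b) (cmp P G.o.O)) {u : KK 3}
    (hu : u ∈ lcA (M.S.A b) (cmp P G.o.O)) :
    Sm (cmp P G.o.O) (Lam (lfr (cht h.ok b) (ls M b)) c (ip 3 f) u / ip 3 f -
      M.a o * (Lam (lfr (cht h.ok b) (ls M b)) c (M.S.z b l0) u / M.S.z b l0) -
      M.a j * (Lam (lfr (cht h.ok b) (ls M b)) c (M.S.z b l1) u / M.S.z b l1)) := by
  have y := tn_e h hb hl hu
  have d0 := fun a => lfr_z (cht h.ok b) (ls M b) a (mem_ls.2 ⟨o, hl.h0⟩)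
  have d1 := fun a => lfr_z (cht h.ok b) (ls M b) a (mem_ls.2 ⟨j, hl.h1⟩)
  have x : Tn (cmp P G.o.O) l2 fun a => lfr (cht h.ok b) (ls M b) a (ip 3 f) / ip 3 f -
      M.a o * (lfr (cht h.ok b) (ls M b) a ((cht h.ok b).z l0) / (cht h.ok b).z l0) -
      M.a j * (lfr (cht h.ok b) (ls M b) a ((cht h.ok b).z l1) / (cht h.ok b).z l1) := by
    simp only [d0, d1]
    refine ⟨fun a => sub_mem (sub_mem (hb _ (cht_dlog' h.ok b a)) (mul_mem (natCast_mem _ _) ?_))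
      (mul_mem (natCast_mem _ _) ?_), fun a ha => ?_⟩
    · split_ifs
      exacts [one_mem _, zero_mem _]
    · split_ifs
      exacts [one_mem _, zero_mem _]
    obtain ⟨i, -, h1, h2⟩ := z_sm h hb hl ha
    have h3 := sm_mul' h2 (hb _ (cht_dlog h.ok b a))
    rw [show M.S.z b a = (cht h.ok b).z a from rfl, mul_div_cancel₀ _ ((cht h.ok b).ne a)] at h3
    show Sm _ (lfr _ _ a _ / _ - _ - _)
    rw [lfr, if_pos (mem_ls.2 ⟨i, h1⟩)]
    rcases hl.all a with rfl | rfl | rfl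
    · rw [lf_some hl.h0] at h3
      simpa [hl.n01, Mod.aa, Co.th] using h3
    · rw [lf_some hl.h1] at h3
      simpa [hl.n01.symm, Mod.aa, Co.th] using h3
    · exact absurd rfl ha
  have := sm_add (sm_add (sm_mul (lcA_le hb _ (hc 0)) (x.wedge x y (a := 2) (a' := 1) (by decide)))
    (sm_mul (lcA_le hb _ (hc 1)) (x.wedge x y (a := 0) (a' := 2) (by decide))))
    (sm_mul (lcA_le hb _ (hc 2)) (x.wedge x y (a := 1) (a' := 0) (by decide)))
  refine (congrArg (Sm _) ?_).mp this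
  simp only [Lam, wg, show (cht h.ok b).z = M.S.z b from rfl]
  ring

omit hb hl in
theorem lam_A {c : Fin 3 → KK 3} (hc : ∀ a, c a ∈ lcA (M.S.A b) (cmp P G.o.O)) {u : KK 3}
    (hu : u ∈ lcA (M.S.A b) (cmp P G.o.O)) {l : Fin 3} (hs : l ∈ ls M b) :
    Lam (lfr (cht h.ok b) (ls M b)) c (M.S.z b l) u / M.S.z b l ∈
      lcA (M.S.A b) (cmp P G.o.O) := by
  have y := e_A h hu
  have d : ∀ a, lfr (cht h.ok b) (ls M b) a (M.S.z b l) / M.S.z b l ∈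
      lcA (M.S.A b) (cmp P G.o.O) := fun a => by
    rw [show M.S.z b l = (cht h.ok b).z l from rfl, lfr_z _ _ a hs]
    split_ifs
    exacts [one_mem _, zero_mem _]
  have w := fun a a' => sub_mem (mul_mem (d a) (y a')) (mul_mem (y a) (d a'))
  refine mem_of_eq (add_mem (add_mem (mul_mem (hc 0) (w 2 1)) (mul_mem (hc 1) (w 0 2)))
    (mul_mem (hc 2) (w 1 0))) ?_
  simp only [Lam, wg]
  ring

end Chart

variable {U : Cov M}

theorem t_lc (hU : U.OK la) {V : Vl 3} {r : U.κ} (h1 : M.In (U.bb r) V) (h2 : (U.t r)⁻¹ ∈ V) :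
    Un V (U.t r) := ⟨hU.ac.ne r, h1 _ (hU.ac.mem r), h2⟩

/-- The coefficients of a form of the lattice in the logarithmic frame. -/
theorem coef {P : Pl (KK 3) L} {G : Pl L k} (h : Fz f la U P G o j) (hU : U.OK la) {r r' : U.κ}
    (g1 : M.Gen (cmp P G.o.O) U.w (U.ρ r)) (g2 : M.Gen (cmp P G.o.O) U.w (U.ρ r'))
    {γ : Fin 3 → KK 3} (hγ : U.L1 U.c0 r r' γ) (a : Fin 3) :
    pr (M3.co 3) γ (lfr (cht h.fl.ok (U.bb r)) (ls M (U.bb r)) a) /
      J3 (M3.co 3) (lfr (cht h.fl.ok (U.bb r)) (ls M (U.bb r))) ∈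
      lcA (M.S.A (U.bb r)) (cmp P G.o.O) := by
  have ov := h.fl.isc.2.1
  have hb := ((hU.ac.gen r _ ov).1 g1).1
  have le : ∀ i, M.Gen (cmp P G.o.O) U.w (U.ρ i) →
      U.A i ≤ lcA (M.S.A (U.bb r)) (cmp P G.o.O) := fun i hi => by
    obtain ⟨h1, h2⟩ := (hU.ac.gen i _ ov).1 hi
    exact M3L.aw_le (fun g hg => h.fl.bas.lc _ _ _ h1 hb g hg)
      ((h.fl.bas.lc _ _ _ h1 hb _ (hU.ac.mem i)).inv (t_lc hU h1 h2))
  have c0 : ∀ i, U.Top la i → (U.c0 + -(M.kk + 1)) i = 0 := fun i hi => by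
    have : ⌈((M.k i : ℚ) + 1)⌉ = M.k i + 1 := by
      exact_mod_cast Int.ceil_natCast (R := ℚ) (M.k i + 1)
    simp [Cov.c0, hU.cl, Mod.up, hi.2, Mod.kk, this]
  obtain ⟨W, -, u1, u0, u2⟩ := cht_jac h.fl.ok (U.bb r)
  have := mul_mem (mul_mem (sup_le (le r g1) (le r' g2) (hγ a))
    (mon_A h.fl hb (c0 o h.t1) (c0 j h.t2)))
    (show W⁻¹ ∈ lcA (M.S.A (U.bb r)) (cmp P G.o.O) from Lc.of_mem u1)
  refine mem_of_eq this ?_
  rw [lfr_J3, u2, ← lf_one, ← cht_mon h.fl.ok, ← cht_mon h.fl.ok, h.fl.bas.mon_add,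
    h.fl.bas.mon_neg, h.fl.bas.mon_neg, h.fl.bas.mon_add, Sys.dv, un_eq]
  have := M.mon_ne (U.bb r) M.kk
  have := M.mon_ne (U.bb r) 1
  have := M.mon_ne (U.bb r) U.c0
  rw [lfr]
  field_simp
  rfl

theorem gen_le (hU : U.OK la) {V V' : Vl 3} (hV : Ov V) (le : V ≤ V') {r : U.κ}
    (g : M.Gen V U.w (U.ρ r)) : M.Gen V' U.w (U.ρ r) :=
  have a := (hU.ac.gen r _ hV).1 g
  (hU.ac.gen r _ fun p => le (hV p)).2 ⟨fun x hx => le (a.1 x hx), le a.2⟩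

/-- The leading term of the difference of two potentials. -/
theorem lead {S : Sd L U.κ} {β : Fin 3 → PX 3 (KK 3)} (hS : S.OK f la β o) {G : Pl L k}
    (h : Fl f M S.P G o j) {b : M.ι} (hb : M.In b (cmp S.P G.o.O)) {g g' : Fin 3 → KK 3}
    {τ : KK 3} (lg : LgB (M3.co 3) S.P.o (g - g' - grd f la τ)) {ω : VF k}
    (hω : Lead S.C G (S.p g - S.p g') ω) {u : KK 3} (hu : u ∈ cmp S.P G.o.O) :
    G.π (S.P.π (Lam (M3.co 3).D (g - g' - grd f la τ) (M.η b j) u / M.η b j)) =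
      ω (G.π (S.P.π u)) := by
  have m := (hb _ (h.bas.η_mem b j)).1
  have v0 : S.P.o.v (M.η b j) = 0 := by rw [h.v_η hb, if_neg h.isc.1.symm]
  rw [← (hω _ (h.v_i hb) _ hu.2).2, hS.p2 g g' τ lg _ m _ hu.1,
    Pl.π_div (by simpa using lg 0 0 _ m _ hu.1) (M.η_ne b j) v0]

end RE3

open RE3 in
theorem rowE3 : OfE3 := by
  intro kit f la b β Q M U D L L' k _ _ _ _ _ _ S G S' G' o j H hS hS' hF hF' tw r r' u u' ω ω'
    g1 g2 r1 r2 hω hω' y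
  have hU := H.cov
  have ov := hF.fl.isc.2.1
  have ov' := hF'.fl.isc.2.1
  obtain ⟨-, k1, k2, -⟩ := kit f la b β Q M U D L S o H hS
  obtain ⟨-, -, k2', -⟩ := kit f la b β Q M U D L' S' j H hS'
  rw [(k1 _ ov).1] at g1 g2
  have tg : ∀ i, M.Gen (cmp S.P G.o.O) U.w (U.ρ i) → M.Gen (cmp S'.P G'.o.O) U.w (U.ρ i) :=
    fun i hi => by
      obtain ⟨h1, h2⟩ := (hU.ac.gen i _ ov).1 hi
      have h3 := (tw.inn _).1 h1
      exact (hU.ac.gen i _ ov').2 ⟨h3,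
        (tw.lc _ h1 _ ((Lc.of_mem (hU.ac.mem i)).inv (t_lc hU h1 h2))).1.mem' h3⟩
  have hb := ((hU.ac.gen r _ ov).1 g1).1
  have hb' := (tw.inn _).1 hb
  obtain ⟨l0, l1, l2, hl⟩ := hF.fl.labels hb
  obtain ⟨y1, hy1, rfl⟩ := G.surj y
  obtain ⟨x0, hx0, rfl⟩ := S.P.surj y1
  obtain ⟨x, hx, e⟩ := hF.fl.lift hb ⟨hx0, hy1⟩
  rw [e]
  have xV := hx.mem' hb
  obtain ⟨hx', ex⟩ := tw.lc _ hb x hx
  have c0 := coef hF hU g1 g2 (H.dt.l0 r r')
  have c1 := coef hF hU g1 g2 (H.dt.l1 r r')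
  have hJ := lfr_ne (M3.co 3) (cht hF.fl.ok (U.bb r)) (ls M (U.bb r))
  have s1 := crl_sm hF.fl hb hl hF.t1.1 hF.t2.1 c1 hx
  have s2 := lam_sm hF.fl hb hl c0 hx
  have m0 := lam_A hF.fl c0 hx (mem_ls.2 ⟨o, hl.h0⟩)
  have m1 := lam_A hF.fl c0 hx (mem_ls.2 ⟨j, hl.h1⟩)
  rw [crl_frame _ _ _ hJ] at s1
  simp only [Lam_frame _ _ hJ] at s2 m0 m1
  have e1 := lead hS hF.fl hb (k2 r r' _ (gen_le hU ov (cmp_le _ _) g1)
    (gen_le hU ov (cmp_le _ _) g2) (H.dt.l0 r r')) hω xV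
  have e0 := lead hS' hF'.fl hb' (k2' r r' _ (gen_le hU ov' (cmp_le _ _) (tg r g1))
    (gen_le hU ov' (cmp_le _ _) (tg r' g2)) (H.dt.l0 r r')) hω' (hx'.mem' hb')
  rw [Mod.η, M.S.η_some _ j l1 hl.h1] at e1
  rw [Mod.η, M.S.η_some _ o l0 hl.h0, ex] at e0
  have e2 := (tw.lc _ hb _ m0).2
  obtain ⟨a1, a2⟩ := rr_ap r1 xV
  obtain ⟨b1, b2⟩ := rr_ap r2 xV
  have n0 := lcA_le hb _ m0
  have n1 := lcA_le hb _ m1
  have s3 := ph_sm (sm_add s1 s2)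
  rw [← add_sub_assoc, ← add_sub_assoc, ← neg_neg (crl _ _ _ x + _), ← H.dt.co r r' x,
    neg_sub, ph_sub (sub_mem (sub_mem b1 a1) (mul_mem (natCast_mem _ _) n0))
      (mul_mem (natCast_mem _ _) n1), ph_sub (sub_mem b1 a1) (mul_mem (natCast_mem _ _) n0),
    ph_sub b1 a1, ph_nat _ n0, ph_nat _ n1, a2, b2, ← e2] at s3
  rw [DT.γ0, e0, e1] at s3
  linear_combination -s3

end

end Pool.Agent.MP_ee8c61_ag.Q3IZ
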