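import Pool.Agent.MP_ee8c61_ag.Q3IZ.SDefs
import Pool.Agent.MP_ee8c61_ag.M3RESID.CvAt
import Pool.Agent.MP_ee8c61_ag.M3F.LF

/-!
The residue field of a curve on a surface is a function field.
-/

namespace Pool.Agent.MP_ee8c61_ag.Q3IZ

open M3 M3RESID Pool.Agent.MP_cce4c9_lc.H87
open scoped IntermediateField

namespace RFF

variable {L k : Type} [Field L] [Algebra ℂ L] [Field k] [Algebra ℂ k] (G : Pl L k) {x g : L}

/-- The residue map as a homomorphism. -/
noncomputable def hom : oA G.o →ₐ[ℂ] k where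
  toFun a := G.π a
  map_one' := M3Z.pi_one G
  map_zero' := M3Z.pi_zero G
  map_mul' a b := G.mul _ a.2 _ b.2
  map_add' a b := G.add _ a.2 _ b.2
  commutes' := M3Z.pi_cst G

theorem adj (hx : G.o.v x = 1) (hg : g ∈ G.o.F 0) {a : L}
    (ha : a ∈ Algebra.adjoin ℂ (Set.range ![x, g])) : G.π a ∈ ℂ⟮G.π g⟯ := by
  have h : Algebra.adjoin ℂ (Set.range ![x, g]) ≤
      ((ℂ⟮G.π g⟯.toSubalgebra.comap (hom G)).map (oA G.o).val) := Algebra.adjoin_le (by
    rintro _ ⟨i, rfl⟩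
    fin_cases i
    · refine ⟨⟨x, Or.inr (by omega)⟩, ?_, rfl⟩
      show G.π x ∈ ℂ⟮G.π g⟯
      rw [M3Z.pi_F1 (Or.inr hx.ge)]
      exact zero_mem _
    · exact ⟨⟨g, hg⟩, IntermediateField.mem_adjoin_simple_self ℂ (G.π g), rfl⟩)
  obtain ⟨b, hb, rfl⟩ := h ha
  exact hb

theorem res (hx : G.o.v x = 1) (hg : NC G.o g) {a : L}
    (ha : a ∈ IntermediateField.adjoin ℂ (Set.range ![x, g])) (h0 : a ∈ G.o.F 0) :
    G.π a ∈ ℂ⟮G.π g⟯ := by
  have hx0 : x ≠ 0 := fun h => by simp [h, G.o.zero] at hx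
  obtain ⟨r, hr, s, hs, rfl⟩ := IntermediateField.mem_adjoin_iff_div.1 ha
  by_cases s0 : s = 0
  · rw [s0, div_zero, M3Z.pi_zero]
    exact zero_mem _
  obtain ⟨m, hm⟩ := Int.eq_ofNat_of_zero_le ((CVA.adj_le hx hg.1 hs).resolve_left s0)
  have hs' : s ∈ G.o.F m := Or.inr hm.ge
  have hr' : r ∈ G.o.F m := by simpa [s0] using F_mul0 h0 hs'
  have p0 := pow_ne_zero m hx0
  have r1 := CVA.sat hx hg.1 hg.2 m r hr hr'
  rw [← div_div_div_cancel_right₀ p0, M3Z.pi_div (CVA.adj_le hx hg.1 r1) (div_ne_zero s0 p0) (by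
    rw [div_eq_mul_inv, G.o.mul _ _ s0 (inv_ne_zero p0), G.o.inv, v_pow _ hx0, hx, hm]
    simp)]
  exact div_mem (adj G hx hg.1 r1) (adj G hx hg.1 (CVA.sat hx hg.1 hg.2 m s hs hs'))

theorem ind {F : IntermediateField ℂ L} {E : IntermediateField ℂ k}
    (h : ∀ a ∈ F, a ∈ G.o.F 0 → G.π a ∈ E) {ι : Type} [Fintype ι] {e : ι → L}
    (he : ∀ i, e i ∈ G.o.F 0) (hi : LinearIndependent E fun i => G.π (e i)) :
    LinearIndependent F e := by
  classical
  rw [Fintype.linearIndependent_iff] at hi ⊢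
  intro c hc
  by_contra! hn
  obtain ⟨j, j1, j2⟩ := Finset.exists_min_image (Finset.univ.filter fun i => c i ≠ 0)
    (fun i => G.o.v (c i)) (hn.imp fun i q => by simpa using q)
  have j0 : (c j : L) ≠ 0 := fun q => (Finset.mem_filter.1 j1).2 (Subtype.ext q)
  have m : ∀ i, (c i : L) / c j ∈ G.o.F 0 := fun i => by
    by_cases q : c i = 0
    · simp [q]
    · simpa using F_div (Or.inr (j2 i (by simpa using q)) : (c i : L) ∈ G.o.F (G.o.v (c j))) (c j)
  have h1 : (∑ i, ⟨_, m i⟩ * ⟨_, he i⟩ : oA G.o) = 0 := Subtype.ext (by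
    have : ∑ i, (c i : L) * e i = 0 := hc
    simp [div_mul_eq_mul_div, ← Finset.sum_div, this])
  have h2 := congrArg (hom G) h1
  rw [map_sum, map_zero] at h2
  have h3 := congrArg Subtype.val (hi (fun i => ⟨_, h _ (div_mem (c i).2 (c j).2) (m i)⟩)
    ((Finset.sum_congr rfl fun i _ => (G.mul _ (m i) _ (he i)).symm).trans h2) j)
  simp [j0, M3Z.pi_one] at h3

end RFF

open RFF

theorem rowFF : SFF := by
  intro L k _ _ _ _ C G hf ⟨⟨x, hx⟩, g, hg⟩
  refine ⟨G.π g, M3F.tr_of_nc fun c e => hg.2 c ((G.ker _ (sub_mem hg.1 (G.cst c).1)).1 (by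
    rw [M3Z.pi_sub hg.1 (G.cst c).1, e, (G.cst c).2, sub_self])), ?_⟩
  obtain ⟨C', h1, -⟩ := cv_at C hf hx hg.1 hg.2
  have : Algebra.EssFiniteType ℂ (IntermediateField.adjoin ℂ (Set.range C.z)) :=
    IntermediateField.essFiniteType_iff.2
      (IntermediateField.fg_adjoin_of_finite (Set.finite_range _))
  have h2 := C'.fin (IntermediateField.fg_top_iff.2
    (Algebra.EssFiniteType.comp ℂ (IntermediateField.adjoin ℂ (Set.range C.z)) L))
  rw [h1] at h2
  choose e e1 e2 using G.surj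
  refine Module.rank_lt_aleph0_iff.1 ((rank_le (n := Module.finrank
    (IntermediateField.adjoin ℂ (Set.range ![x, g])) L) fun s hs => ?_).trans_lt
      Cardinal.natCast_lt_aleph0)
  rw [← Fintype.card_coe]
  exact (ind G (fun _ => res G hx hg) (e := fun i : s => e i) (fun i => e1 i)
    (by simpa only [e2] using hs)).fintype_card_le_finrank

end Pool.Agent.MP_ee8c61_ag.Q3IZ
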