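import Pool.Agent.MP_ee8c61_ag.Q3IZ.TDefs
import Pool.Agent.MP_ee8c61_ag.Q3IZ.RFF

/-! The class passes to the twin flag. -/

namespace Pool.Agent.MP_ee8c61_ag.Q3IZ

open M3 M3E M3RESID M3F
open M3Z (cmp Fl)

noncomputable section

namespace REdgeB

variable {L k ι : Type} [Field L] [Algebra ℂ L] [Field k] [Algebra ℂ k]

theorem cmp_top (G : Pl L k) : cmp G ⊤ = G.o.O :=
  le_antisymm (M3Z.cmp_le G ⊤) fun _ h => ⟨h, trivial⟩

omit [Algebra ℂ L] in
theorem gi_mono {ρ : ι → L} {V V' : ValuationSubring L} (h : V ≤ V') {r : ι} (hr : Gi ρ V r) :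
    Gi ρ V' r := ⟨hr.1, fun r' => h (hr.2 r')⟩

theorem del_smul (e : Dv k) (c : ℂ) (w : VF k) : e.δ (c • w) = algebraMap ℂ k c * e.δ w := by
  have h : c • w = algebraMap ℂ k c • w := by
    ext y
    simp [Algebra.smul_def]
  rw [h, e.smul, Derivation.map_algebraMap, add_zero]

end REdgeB

open REdgeB in
theorem rowEdgeB : OfEdge := by
  intro hPV hDi hLd hK hLv hCu h0 h1 h2 h3 f la b β Q M U D L L' k _ _ _ _ _ _ S G S' G' o j H hS
    hS' hF hF' hT κ κ' hc hκ
  classical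
  have ok := (hK f la b β Q M U D L S o H hS).1
  have ok' := (hK f la b β Q M U D L' S' j H hS').1
  have cu := hCu f la b β Q M U D L S o H hS k G j hF
  have cu' := hCu f la b β Q M U D L' S' j H hS' k G' o hF'
  have lv := hLv f la b β Q M U D L S o H hS k G j hF
  have lv' := hLv f la b β Q M U D L' S' j H hS' k G' o hF'
  obtain ⟨⟨e, he, he'⟩, hW⟩ := h0 f la b β Q M U D L L' k S G S' G' o j H hS hS' hF hF' hT
  have hk := rowFF L k (S.qd D).C G ok.fin cu.crv
  obtain ⟨w, w1, w2, w3⟩ := (hDi L U.κ (S.qd D) ok k G e cu he lv κ).1 hκ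
  have hu := h1 f la b β Q M U D L S o H hS k G j hF
  choose! u u1 u2 using hu
  have e2 := h2 f la b β Q M U D L L' k S G S' G' o j H hS hS' hF hF' hT e
  have e3 := h3 f la b β Q M U D L L' k S G S' G' o j H hS hS' hF hF' hT
  have ld := hLd L' U.κ (S'.qd D) ok' k G' cu'
  have gi : ∀ r, Gi (S'.qd D).ρ G'.o.O r → Gi (S.qd D).ρ G.o.O r := fun r hr => by
    have := (hW ⊤ fun _ => trivial).2 r (by rwa [cmp_top])
    rwa [cmp_top] at this
  have : CharZero k := charZero_of_injective_algebraMap (algebraMap ℂ k).injective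
  have a0 : (M.a o : k) ≠ 0 := Nat.cast_ne_zero.2 (H.ok.pos o).ne'
  refine (hDi L' U.κ (S'.qd D) ok' k G' e cu' he' lv' κ').2
    ⟨fun r => (-(M.a o : ℂ)⁻¹) • u r + (-(M.a o : ℂ)⁻¹ * M.a j) • w r, fun r hr => ?_,
      fun r r' hr hr' => ?_, fun W hc' hp r hr => ?_⟩
  · obtain ⟨n', hn⟩ := (ld _ (lv' r hr)).1
    have h4 := e2 r (u r) _ n' he (gi r hr) (u1 r (gi r hr)) (w1 r (gi r hr)) hn
    have h5 := congrArg (algebraMap ℂ k) hc
    simp only [map_add, map_mul, map_natCast] at h5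
    have h6 : n' = algebraMap ℂ k κ' + e.δ ((-(M.a o : ℂ)⁻¹) • u r +
        (-(M.a o : ℂ)⁻¹ * M.a j) • w r) := by
      rw [map_add, del_smul, del_smul]
      simp only [map_mul, map_neg, map_inv₀, map_natCast]
      field_simp
      linear_combination -h4 - h5
    exact h6 ▸ hn
  · obtain ⟨ω, hω⟩ := (ld _ (lv' r hr)).2 _ (lv' r' hr')
    have h4 := e3 r r' (u r) (u r') _ ω (gi r hr) (gi r' hr') (u1 r (gi r hr))
      (u1 r' (gi r' hr')) (w2 r r' (gi r hr) (gi r' hr')) hω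
    have h6 : ω = ((-(M.a o : ℂ)⁻¹) • u r + (-(M.a o : ℂ)⁻¹ * M.a j) • w r) -
        ((-(M.a o : ℂ)⁻¹) • u r' + (-(M.a o : ℂ)⁻¹ * M.a j) • w r') := by
      ext y
      have h7 := h4 y
      simp only [Derivation.sub_apply, Derivation.add_apply, Derivation.smul_apply,
        Algebra.smul_def, map_mul, map_neg, map_inv₀, map_natCast] at h7 ⊢
      field_simp
      linear_combination h7
    exact h6 ▸ hω
  · have h4 := (hW W hc').1 hp
    have h5 := (hW W hc').2 r hr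
    exact hPV k e W hk hc' _ _ (u2 r (gi_mono (M3Z.cmp_le G W) h5) e W he hc' h4 h5)
      (w3 W hc' h4 r h5) _ _

end

end Pool.Agent.MP_ee8c61_ag.Q3IZ
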