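import Pool.Agent.MP_ee8c61_ag.Q3IZ.SDefs

/-!
The end of the argument: a descending induction on the slopes.
-/

namespace Pool.Agent.MP_ee8c61_ag.Q3IZ

theorem rowEndB : SEnd := by
  intro J F _ θ N o j Cl c hc hN hu ht hv
  have wf : WellFounded fun a b : J => θ b < θ a :=
    @Finite.wellFounded_of_trans_of_irrefl J _ _ ⟨fun _ _ _ h h' => h'.trans h⟩
      ⟨fun _ => lt_irrefl _⟩
  have wf' : WellFounded fun a b : J => θ a < θ b :=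
    @Finite.wellFounded_of_trans_of_irrefl J _ _ ⟨fun _ _ _ h h' => h.trans h'⟩
      ⟨fun _ => lt_irrefl _⟩
  have flip : ∀ φ, (∀ φ', o φ' = j φ → j φ' = o φ → ∃ q : ℚ, 0 ≤ q ∧ Cl φ' (-(c * q))) →
      ∃ q : ℚ, 0 < q ∧ Cl φ (c * q) := fun φ h => by
    obtain ⟨φ', h1, h2, h3⟩ := ht φ
    obtain ⟨q, h4, h5⟩ := h φ' h1 h2
    refine ⟨(1 + N (o φ) * q) / N (j φ),
      div_pos (add_pos_of_pos_of_nonneg one_pos (mul_nonneg (hN _).le h4)) (hN _),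
      (h3 _ _ ?_).2 h5⟩
    have : (N (j φ) : ℂ) ≠ 0 := Rat.cast_ne_zero.2 (hN _).ne'
    push_cast
    field_simp
    ring
  have out : ∀ i φ, o φ = i → θ (j φ) ≤ θ (o φ) → ∃ q : ℚ, 0 ≤ q ∧ Cl φ (-(c * q)) := fun i => by
    induction i using wf.induction with
    | _ i ih =>
      intro φ hi h
      rcases hv φ with h1 | ⟨h1, -⟩ | ⟨φ₂, h1, h2, h3⟩
      · exact ⟨0, le_rfl, by simpa using h1⟩
      · exact absurd h1 h.not_gt
      have h4 : θ (o φ) < θ (j φ₂) := by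
        have := mul_nonpos_of_nonneg_of_nonpos (hN (j φ)).le (sub_nonpos.2 h)
        exact sub_pos.1 (pos_of_mul_pos_left (by rw [mul_comm]; linarith) (hN (j φ₂)).le)
      obtain ⟨q, h5, h6⟩ := flip φ₂ fun φ' e1 e2 =>
        ih (o φ') (by rw [e1, ← hi]; exact h4) φ' rfl (by rw [e1, e2, h1]; exact h4.le)
      exact ⟨q, h5.le, h3 _ h6⟩
  refine ⟨fun φ₀ => ?_⟩
  obtain ⟨_, ⟨φ, rfl⟩, hm⟩ := wf'.has_min (Set.range o) ⟨_, φ₀, rfl⟩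
  have hm' : ∀ φ', θ (o φ) ≤ θ (o φ') := fun φ' => not_lt.1 (hm _ ⟨φ', rfl⟩)
  obtain ⟨q, h1, h2⟩ := flip φ fun φ' _ e2 => out _ φ' rfl (e2 ▸ hm' φ')
  have h0 : c * q ≠ 0 := mul_ne_zero hc (Rat.cast_ne_zero.2 h1.ne')
  rcases hv φ with h3 | ⟨-, h3⟩ | ⟨φ₂, h3, -, h4⟩
  · exact h0 (hu φ _ _ h2 h3)
  · exact h0 (h3 _ h2)
  obtain ⟨q', h5, h6⟩ := flip φ₂ fun φ' _ e2 => out _ φ' rfl (by rw [e2, h3]; exact hm' φ')
  have h7 := hu φ _ _ h2 (h4 _ h6)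
  rw [← mul_neg, mul_right_inj' hc] at h7
  have h8 : q = -q' := by exact_mod_cast h7
  linarith

end Pool.Agent.MP_ee8c61_ag.Q3IZ
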