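import Pool.Agent.MP_ee8c61_ag.Q3IZ.TDefs

/-!
Simple roots: the local primitives restrict to fields that are logarithmic along a double curve.
-/

namespace Pool.Agent.MP_ee8c61_ag.Q3IZ

open H59 hiding pd
open M3 M3E M3RESID M3F
open M3Z (cmp Fl Lb fl fl_eq)

noncomputable section

namespace RLv

variable {L k : Type} [Field L] [Algebra ℂ L] [Field k] [Algebra ℂ k] {f : Po 3} {M : Mod 3}
  {P : Pl (KK 3) L} {G : Pl L k} {e i : M.J}

/-- The restriction of a field whose logarithmic components are regular along the curve. -/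
theorem res_LV (h : Fl f M P G e i) {b : M.ι} (hb : M.In b (cmp P G.o.O)) {X : VF (KK 3)}
    (hV : ∀ l, X (M.S.z b l) / M.S.un b l ∈ cmp P G.o.O) {w : VF L} (hw : P.Rs X w) :
    w ∈ LV G.o 0 := by
  obtain ⟨l0, l1, l2, hl⟩ := h.labels hb
  obtain ⟨C, hC, hA⟩ := h.exists_co2 hb hl 0
  have hA3 := h.at3 hb hl 0
  have hz : ∀ l, X (M.S.z b l) = X (M.S.z b l) / M.S.un b l * M.S.un b l := fun l =>
    (div_mul_cancel₀ _ (Units.ne_zero _)).symm
  have h2V : X (M.S.z b l2) ∈ cmp P G.o.O := by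
    rw [hz, hl.un2]
    exact mul_mem (hl.un2 ▸ hV l2) (h.un_fl hb 1).2.1
  have z1F : M.S.z b l1 ∈ P.o.F 0 := hA3.z_F 1
  have e0 : C.z 0 = P.π (M.S.z b l1) := hC 0
  have e1 : C.z 1 = P.π (M.S.z b l2 - algebraMap ℂ _ 0) := hC 1
  have hy := h.un_y hb hl 0
  have w1 : w (C.z 1) = P.π (X (M.S.z b l2)) := by
    rw [e1, ← hw.2 _ hy.2.1.1, map_sub, Derivation.map_algebraMap, sub_zero]
  exact (M3J.mem_LV hA).2 ⟨by
    rw [e0, ← hw.2 _ z1F, hz, Lb.un hl.h1, P.mul _ (Lb.un hl.h1 ▸ (hV l1).1) _ z1F, ← e0]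
    exact G.o.F_mul (Lb.un hl.h1 ▸ (hV l1).2) (M3J.z0_F hA), w1 ▸ h2V.2⟩

variable {la : ℚ} {U : Cov M}

theorem c0_top (hU : U.OK la) {o : M.J} (h : U.Top la o) : U.c0 o = M.k o + 1 := by
  rw [Cov.c0, hU.cl, Mod.up, h.2]
  exact_mod_cast Int.ceil_intCast (R := ℚ) ((M.k o : ℤ) + 1)

/-- A generator at `V` gives an open set of the cover that contains the centre. -/
theorem in_of_gen (hU : U.OK la) {V : Vl 3} (hV : Ov V) {r : U.κ} (hr : M.Gen V U.w (U.ρ r)) :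
    M.In (U.bb r) V ∧ ∀ g ∈ U.A r, g ∈ V :=
  have h := (hU.ac.gen r V hV).1 hr
  ⟨h.1, (M3L.aw_val (hU.ac.mem r) (hU.ac.ne r) V).2 h⟩

/-- The components of a field of the lattice are regular along the curve. -/
theorem reg_of_L2 (hU : U.OK la) (h : Fz f la U P G e i) {r : U.κ}
    (hr : M.Gen (cmp P G.o.O) U.w (U.ρ r)) {X : VF (KK 3)} (hX : ∀ l, U.L2 U.c0 r X l) (l : Fin 3) :
    X (M.S.z (U.bb r) l) / M.S.un (U.bb r) l ∈ cmp P G.o.O := by
  obtain ⟨hb, hA⟩ := in_of_gen hU h.fl.isc.2.1 hr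
  have hfl : fl e i (M.kk + 1 - U.c0) = M.kk + 1 - U.c0 :=
    fl_eq (by simp [Mod.kk, c0_top hU h.t1]) (by simp [Mod.kk, c0_top hU h.t2])
  have hun := h.fl.un_fl hb (M.kk + 1 - U.c0)
  rw [hfl] at hun
  exact hun.mem_iff.1 (hA _ (hX l))

end RLv

open RLv in
theorem rowLv : OfLv := by
  intro hK f la b β Q M U D L _ _ S o hs hS k _ _ G j hF r hr
  obtain ⟨-, h1, -, h2⟩ := hK f la b β Q M U D L S o hs hS
  have hV := hF.fl.isc.2.1
  have hg := ((h1 _ hV).1 r).1 hr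
  have hb := (in_of_gen hs.cov hV hg).1
  have hle := M3Z.cmp_le S.P G.o.O
  have hg' : M.Gen S.P.o.O U.w (U.ρ r) :=
    (hF.fl.bas.gen_iff _ _ _ _ fun g h => hle (hb g h)).2 ((hg _ hb).mono hle)
  exact res_LV hF.fl hb (reg_of_L2 hs.cov hF hg (hs.dt.x0 r))
    (hS.p1 (D.g0 r) (h2 r _ hg' (hs.dt.x0 r)))

end

end Pool.Agent.MP_ee8c61_ag.Q3IZ
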