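import Pool.Agent.MP_ee8c61_ag.Q3IZ.SDefs
import Pool.Agent.MP_ee8c61_ag.M3RESID.CvAt

/-!
A twisted function whose differential has positive exponent is constant on the curve.
-/

namespace Pool.Agent.MP_ee8c61_ag.Q3IZ

open M3 M3RESID M3F Pool.Agent.MP_cce4c9_lc.H87
open M3J (ex br)

namespace RPot

variable {L : Type} [Field L] {o : DV L}

theorem pow_F {m : ℤ} {t : L} (ht : t ∈ o.F m) (r : ℕ) : t ^ r ∈ o.F (r * m) := by
  induction r with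
  | zero => simpa using one_F
  | succ r ih =>
    rw [pow_succ]
    exact o.F_anti (by push_cast; linarith) (o.F_mul ih ht)

end RPot

theorem rowPot : OfPot := by
  intro hFF L ι _ _ _ Z hZ Γ a n u hC hE han hu
  have := M3F.cz L
  obtain ⟨⟨x, hx⟩, g, hg, hc⟩ := id hC
  obtain ⟨C, -, hA⟩ := cv_at Z.C hZ.fin hx hg hc
  obtain ⟨q, hq⟩ : ∃ q, Z.q = q + 1 := ⟨Z.q - 1, by have := hZ.q0; omega⟩
  have hqL : (q : L) + 1 ≠ 0 := Nat.cast_add_one_ne_zero q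
  obtain ⟨J, hJ⟩ : ∃ J, J = br C (Z.C.z 0) (Z.C.z 1) := ⟨_, rfl⟩
  have hJ0 : J ≠ 0 := hJ ▸ M3J.br_ne C Z.C
  have hB : br Z.C (C.z 0) (C.z 1) = J⁻¹ := by
    have := M3J.br_chain Z.C C (Z.C.z 0) (Z.C.z 1)
    rw [M3J.br_self, ← hJ] at this
    exact eq_inv_of_mul_eq_one_left this.symm
  have hψ := hZ.ψ0
  have hΨ : Z.ψ * J ^ (q + 1) ≠ 0 := mul_ne_zero hψ (pow_ne_zero _ hJ0)
  have hd : ∀ X, Z.d.δ X = C.dv.δ X + X (Z.ψ * J ^ (q + 1)) / ((q + 1) * (Z.ψ * J ^ (q + 1))) :=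
    fun X => by
      rw [hZ.rat, M3Z.jacobi C Z.C, ← hJ, hq, Derivation.leibniz, Derivation.leibniz_pow]
      simp only [smul_eq_mul, nsmul_eq_mul, Nat.add_sub_cancel]
      push_cast
      field_simp
      ring
  have hΦ : Z.Φ u = (u * J⁻¹) ^ (q + 1) * (Z.ψ * J ^ (q + 1)) := by
    rw [QD.Φ, hq, mul_left_comm, ← mul_pow, inv_mul_cancel_right₀ hJ0, mul_comm]
  rw [M3J.ex_br Z.d Z.C C, hB] at hu
  rw [hΦ]
  generalize u * J⁻¹ = t at hu ⊢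
  generalize Z.ψ * J ^ (q + 1) = Ψ at hΨ hd ⊢
  have ha : ((q : ℚ) + 1) * a = q + 1 + Γ.v Ψ := by
    have e : Z.d = C.dv.tw Ψ ((q : ℂ) + 1)⁻¹ := Dv.ext' fun X => by
      rw [hd, Dv.tw_δ, map_inv₀, map_add, map_natCast, map_one]
      field_simp
    have h1 := hA.exp_dv.tw hΨ ((q : ℂ) + 1)⁻¹
    rw [← e] at h1
    have h2 := hE.uniq h1 hx
    have h3 : (q : ℂ) + 1 ≠ 0 := Nat.cast_add_one_ne_zero q
    have h4 : ((q : ℂ) + 1) * a = q + 1 + Γ.v Ψ := by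
      rw [h2]
      field_simp
    exact_mod_cast h4
  have hΨF := Γ.mem_F_self Ψ
  by_cases h : ∀ m : ℤ, m < n → (a : ℂ) + m ≠ 0
  · refine ⟨0, ?_⟩
    rw [map_zero, sub_zero]
    refine Γ.F_anti ?_ (Γ.F_mul (RPot.pow_F (M3J.F_of_ex hA hE h hu) (q + 1)) hΨF)
    have h1 : (0 : ℚ) < (((q + 1 : ℕ) * (n + 1) + Γ.v Ψ : ℤ) : ℚ) := by
      push_cast
      have : (0 : ℚ) < (q + 1) * (a + n) := by positivity
      linarith
    exact_mod_cast h1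
  push Not at h
  obtain ⟨m, hm, h⟩ := h
  have ht := M3J.F_of_ex hA hE (c := m) (fun l hl e => by
    have : (l : ℂ) = m := by linear_combination e - h
    exact hl.ne (by exact_mod_cast this)) (LV_anti hm.le hu)
  have h0 : ((q : ℤ) + 1) * (m + 1) + Γ.v Ψ = 0 := by
    have h1 : a + m = 0 := by exact_mod_cast h
    have h2 : ((q : ℚ) + 1) * (m + 1) + Γ.v Ψ = 0 := by linear_combination (q + 1) * h1 - ha
    exact_mod_cast h2
  have hF : t ^ (q + 1) * Ψ ∈ Γ.F 0 :=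
    Γ.F_anti (by push_cast; omega) (Γ.F_mul (RPot.pow_F ht (q + 1)) hΨF)
  have hD : C.D 1 (t ^ (q + 1) * Ψ) ∈ Γ.F 1 := by
    have h1 := neg_mem ((M3J.mem_LV hA).1 hu).1
    rw [M3J.ex_z0, neg_neg] at h1
    have h2 := F_mul0 (int_F (q + 1 : ℕ)) (Γ.F_mul (Γ.F_mul (RPot.pow_F ht q) hΨF) h1)
    refine Γ.F_anti (by nlinarith) (F_of_eq h2 ?_)
    rw [hd, Co.dv_δ, Fin.sum_univ_two, C.dual, C.dual, Derivation.leibniz,
      Derivation.leibniz_pow]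
    simp only [smul_eq_mul, nsmul_eq_mul, Nat.add_sub_cancel]
    simp
    field_simp
    ring
  obtain ⟨D, hR⟩ := M3Z.exists_Rs Γ.pl (hA.D_LV (j := 1) (by decide))
  have h1 : D (Γ.pl.π (C.z 1)) = 1 := by
    rw [← hR.2 _ (M3J.z1_F hA), C.dual, if_pos rfl, M3Z.pi_one]
  have h2 : D (Γ.pl.π (t ^ (q + 1) * Ψ)) = 0 := by
    rw [← hR.2 _ hF]
    exact M3Z.pi_F1 (P := Γ.pl) hD
  have := M3F.cz Γ.kf
  obtain ⟨c, hc⟩ : Γ.pl.π (t ^ (q + 1) * Ψ) ∈ Set.range (algebraMap ℂ Γ.kf) := by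
    by_contra h3
    exact (M3C.rowDer ℂ _ (hFF L _ Z.C Γ.pl hZ.fin hC) D fun e => by simp [e] at h1).1 _ h3 h2
  refine ⟨c, (Γ.pl.ker _ (sub_mem hF (cst_F Γ c))).1 ?_⟩
  rw [M3Z.pi_sub (P := Γ.pl) hF (cst_F Γ c), M3Z.pi_cst, hc, sub_self]

end Pool.Agent.MP_ee8c61_ag.Q3IZ
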