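import Pool.Agent.MP_ee8c61_ag.Q3IZ.TDefs
import Pool.Agent.MP_ee8c61_ag.M3.RIT

/-!
The twin of a flag.
-/

namespace Pool.Agent.MP_ee8c61_ag.Q3IZ

open M3 M3E M3RESID M3F
open M3Z (cmp Fl)

noncomputable section

namespace RSwap

variable {f : Po 3} {M : Mod 3} {o j : M.J} {V V' : Vl 3} {b : M.ι}

/-- Units pass back along a generization of a double curve. -/
theorem back (B : Bas1 M) (h : M.IsCv o j V) (h' : M.IsCv j o V') (hb : M.In b V)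
    (hb' : M.In b V') (hu : ∀ s ∈ M.S.A b, Un V s → Un V' s) (s : KK 3) (hs : s ∈ M.S.A b) :
    Un V s ↔ Un V' s := by
  refine ⟨hu s hs, fun u => ?_⟩
  by_contra hn
  obtain ⟨t, ht, g, hg, g', hg', ut, e⟩ := h.2.2.2.2 b hb s hs hn
  have n1 := hb' _ (B.η_mem b o)
  have n2 := hb' _ (B.η_mem b j)
  exact not_un_add (mul_mem (hb' _ hg) n1) (mul_mem (hb' _ hg') n2)
    (not_un_mul (hb' _ hg) n1 (h'.2.2.2.1 b hb'))
    (not_un_mul (hb' _ hg') n2 (B.thru_le _ _ h'.2.1 h'.2.2.1 b hb')) (e ▸ (hu t ht ut).mul u)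

/-- The two valuation rings have the same centre. -/
def Same (M : Mod 3) (V V' : Vl 3) : Prop :=
  (∀ b, M.In b V ↔ M.In b V') ∧ ∀ b, M.In b V → ∀ s ∈ M.S.A b, Un V s ↔ Un V' s

theorem Same.symm (h : Same M V V') : Same M V' V :=
  ⟨fun b => (h.1 b).symm, fun b hb s hs => (h.2 b ((h.1 b).2 hb) s hs).symm⟩

theorem half (E : EOut) (hM : M.OK f) (h : M.IsCv o j V) : ∃ V', M.IsCv j o V' ∧
    ∀ b, M.In b V → M.In b V' ∧ ∀ s ∈ M.S.A b, Un V s ↔ Un V' s := by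
  have B := (E.bas 3 f M hM).toBas1
  obtain ⟨V', h1, h2⟩ := E.ce 3 f M hM j o V h.2.1 h.2.2.2.1 (B.thru_le _ _ h.2.1 h.2.2.1) h.1.symm
  exact ⟨V', h1, fun b hb => ⟨(h2 b hb).1, back B h h1 hb (h2 b hb).1 (h2 b hb).2⟩⟩

theorem twin (E : EOut) (hM : M.OK f) (h : M.IsCv o j V) :
    ∃ V', M.IsCv j o V' ∧ Same M V V' := by
  obtain ⟨V', h1, h2⟩ := half E hM h
  obtain ⟨V'', h3, h4⟩ := half E hM h1
  obtain ⟨b, hb⟩ := hM.cov V h.2.1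
  have e : V'' = V := (E.cv 3 f M hM).ext o j V V'' b h hb (h4 b (h2 b hb).1).1 h3.2.2.1
    fun s hs => ((h2 b hb).2 s hs).trans ((h4 b (h2 b hb).1).2 s hs)
  exact ⟨V', h1, fun b => ⟨fun hb => (h2 b hb).1, fun hb => e ▸ (h4 b hb).1⟩,
    fun b hb => (h2 b hb).2⟩

theorem Same.lc (h : Same M V V') (hb : M.In b V) {g : KK 3} (hg : Lc (M.S.A b) V g) :
    Lc (M.S.A b) V' g :=
  hg.imp fun s hs => ⟨hs.1, (h.2 b hb s hs.1).1 hs.2.1, hs.2.2⟩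

theorem Same.un (h : Same M V V') (hb : M.In b V) {g : KK 3} (hg : Lc (M.S.A b) V g)
    (u : Un V g) : Un V' g := by
  obtain ⟨s, hs, us, hsg⟩ := hg
  have := (h.2 b hb _ hsg).1 (us.mul u)
  rw [mul_comm] at this
  exact this.cancel ((h.2 b hb s hs).1 us)

theorem lc_ch (B : Bas1 M) {a : M.ι} (ha : M.In a V) (hb : M.In b V) {g : KK 3}
    (hg : Lc (M.S.A a) V g) : Lc (M.S.A b) V g := by
  obtain ⟨s, hs, us, hsg⟩ := hg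
  have := ((B.lc a b V ha hb s hs).inv us).mul (B.lc a b V ha hb _ hsg)
  rwa [inv_mul_cancel_left₀ us.1] at this

theorem lc_sub {A : Subalgebra ℂ (KK 3)} {g g' : KK 3} (h : Lc A V g) (h' : Lc A V g') :
    Lc A V (g - g') := mem_LA.1 (sub_mem (mem_LA.2 h) (mem_LA.2 h'))

variable {L L' k : Type} [Field L] [Algebra ℂ L] [Field L'] [Algebra ℂ L'] [Field k] [Algebra ℂ k]
  {P : Pl (KK 3) L} {G : Pl L k} {P' : Pl (KK 3) L'} {Γ : DV L'}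

/-- The residue map of the twin. -/
theorem place (h : Fl f M P G o j) (h' : Fl f M P' Γ.pl j o)
    (hs : Same M (cmp P G.o.O) (cmp P' Γ.O)) (hb : M.In b (cmp P G.o.O)) :
    ∃ G' : Pl L' k, G'.o = Γ ∧
      ∀ g, Lc (M.S.A b) (cmp P G.o.O) g → G'.π (P'.π g) = G.π (P.π g) := by
  classical
  have hb' : M.In b (cmp P' Γ.O) := (hs.1 b).1 hb
  have mem : ∀ g, Lc (M.S.A b) (cmp P G.o.O) g → g ∈ cmp P' Γ.O := fun g hg =>
    (hs.lc hb hg).mem' hb'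
  have rep : ∀ y ∈ Γ.F 0, ∃ g, Lc (M.S.A b) (cmp P G.o.O) g ∧ P'.π g = y := fun y hy => by
    obtain ⟨g, hg, rfl⟩ := P'.surj y
    obtain ⟨g', h1, h2⟩ := h'.lift hb' (y := g) ⟨hg, hy⟩
    exact ⟨g', hs.symm.lc hb' h1, h2.symm⟩
  have zero : ∀ g, Lc (M.S.A b) (cmp P G.o.O) g → (G.π (P.π g) = 0 ↔ P'.π g ∈ Γ.F 1) :=
    fun g hg => by
    refine Iff.trans ?_ (Γ.pl.ker _ (mem g hg).2)
    rw [← not_iff_not]
    exact ⟨fun e => M3Z.p2_ne (G := Γ.pl) (hs.un hb hg (M3Z.un_p2 (hg.mem' hb) e)),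
      fun e => M3Z.p2_ne (hs.symm.un hb' (hs.lc hb hg) (M3Z.un_p2 (G := Γ.pl) (mem g hg) e))⟩
  obtain ⟨π, hπ⟩ : ∃ π : L' → k, ∀ g, Lc (M.S.A b) (cmp P G.o.O) g →
      π (P'.π g) = G.π (P.π g) := by
    refine ⟨fun y => if e : ∃ g, Lc (M.S.A b) (cmp P G.o.O) g ∧ P'.π g = y then
      G.π (P.π e.choose) else 0, fun g hg => ?_⟩
    have e : ∃ g', Lc (M.S.A b) (cmp P G.o.O) g' ∧ P'.π g' = P'.π g := ⟨g, hg, rfl⟩
    obtain ⟨h1, h2⟩ := e.choose_spec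
    have h3 := (zero _ (lc_sub h1 hg)).2 (by
      rw [Pl.π_sub (mem _ h1).1 (mem _ hg).1, h2, sub_self]
      exact zero_mem _)
    rw [M3Z.p2_sub (h1.mem' hb) (hg.mem' hb), sub_eq_zero] at h3
    exact (dif_pos e).trans h3
  refine ⟨⟨Γ, π, fun y hy z hz => ?_, fun y hy z hz => ?_, fun c => ⟨Γ.cst_mem c, ?_⟩,
    fun y hy => ?_, fun y => ?_⟩, rfl, hπ⟩
  · obtain ⟨g, hg, rfl⟩ := rep y hy
    obtain ⟨g', hg', rfl⟩ := rep z hz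
    rw [← P'.add _ (mem g hg).1 _ (mem g' hg').1, hπ _ (hg.add hg'), hπ _ hg, hπ _ hg',
      M3Z.p2_add (hg.mem' hb) (hg'.mem' hb)]
  · obtain ⟨g, hg, rfl⟩ := rep y hy
    obtain ⟨g', hg', rfl⟩ := rep z hz
    rw [← P'.mul _ (mem g hg).1 _ (mem g' hg').1, hπ _ (hg.mul hg'), hπ _ hg, hπ _ hg',
      M3Z.p2_mul (hg.mem' hb) (hg'.mem' hb)]
  · rw [← P'.π_cst, hπ _ (Lc.of_mem ((M.S.A b).algebraMap_mem c)), M3Z.p2_cst]
  · obtain ⟨g, hg, rfl⟩ := rep y hy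
    rw [hπ _ hg]
    exact zero g hg
  · obtain ⟨y1, hy1, rfl⟩ := G.surj y
    obtain ⟨g, hg, rfl⟩ := P.surj y1
    obtain ⟨g', h1, h2⟩ := h.lift hb (y := g) ⟨hg, hy1⟩
    exact ⟨P'.π g', (mem g' h1).2, by rw [hπ _ h1, h2]⟩

end RSwap

open RSwap in
theorem rowSwap : OfSwap := by
  intro E f la M U L L' k _ _ _ _ _ _ P G P' o j hU hF ho
  have h := hF.fl
  have B := h.bas.toBas1
  obtain ⟨V', hV, hs⟩ := twin E h.ok h.isc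
  obtain ⟨Γ, rfl, hn⟩ := RIT.exists_dv (n := 2) h.ok B h.cv ho hV
  obtain ⟨b, hb⟩ := h.ok.cov _ h.isc.2.1
  obtain ⟨G', rfl, hπ⟩ := place (Γ := Γ) h ⟨h.ok, h.bas, h.der, h.cv, h.unr, ho, hn, hV⟩ hs hb
  replace hs : Same M (cmp P G.o.O) (cmp P' G'.o.O) := hs
  have hb' := (hs.1 b).1 hb
  refine ⟨G', ⟨⟨h.ok, h.bas, h.der, h.cv, h.unr, ho, hn, hV⟩, hF.t2, hF.t1, fun l => ?_, ?_⟩,
    ⟨hs.1, fun a ha g hg => ⟨hs.lc ha hg, hπ g (lc_ch B ha hb hg)⟩,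
      fun a ha g hg => hs.symm.lc ((hs.1 a).1 ha) hg⟩,
    ⟨hs.symm.1, fun a ha g hg => ⟨hs.symm.lc ha hg,
      (hπ g (lc_ch B ((hs.1 a).2 ha) hb (hs.symm.lc ha hg))).symm⟩,
      fun a ha g hg => hs.lc ((hs.1 a).2 ha) hg⟩⟩
  · obtain ⟨c, hc⟩ := hF.cpl l
    exact ⟨c, fun u => hc ((hs.2 b hb _
      (sub_mem (h.ok.pol b _) ((M.S.A b).algebraMap_mem c))).2 u)⟩
  · obtain ⟨s, hs1, s', hs2, hg, ht⟩ := hF.nt
    have m1 := ((E.nb 3 f M h.ok).H _ _).1 (hU.gens.1 s hs1) b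
    have m2 := ((E.nb 3 f M h.ok).H _ _).1 (hU.gens.1 s' hs2) b
    have u := hg b hb
    have s0 : s ≠ 0 := left_ne_zero_of_mul u.1
    refine ⟨s, hs1, s', hs2, (B.gen_iff b _ _ _ hb').2 ((hs.2 b hb _ m1).1 u), fun c =>
      hs.un hb (lc_sub ⟨_, m1, u, ?_⟩ (Lc.of_mem ((M.S.A b).algebraMap_mem c))) (ht c)⟩
    rwa [mul_right_comm, mul_div_cancel₀ _ s0]

end

end Pool.Agent.MP_ee8c61_ag.Q3IZ
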