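import Pool.Agent.MP_ee8c61_ag.Q3IZ.SDefs
import Pool.Agent.MP_ee8c61_ag.M3RESID.CvAt

/-!
The class of the primitive along a curve of exponent zero is unique.
-/

namespace Pool.Agent.MP_ee8c61_ag.Q3IZ

open M3 M3RESID WithZero Pool.Agent.MP_cce4c9_lc Pool.Agent.MP_cce4c9_lc.H87
open M3J (ex br)
open M3Z

noncomputable section

namespace RUni

variable {L k ι : Type} [Field L] [Field k]

theorem sm_iff {V : ValuationSubring L} {g : L} : Sm V g ↔ V.valuation g < 1 :=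
  ⟨fun h => (not_un_iff h.1).1 h.2, fun h =>
    have h1 := (V.valuation_le_one_iff g).1 h.le
    ⟨h1, (not_un_iff h1).2 h⟩⟩

theorem sm_sub {V : ValuationSubring L} {A B ψ : L} {q : ℕ} (hA : Sm V (A ^ q * ψ))
    (hB : Sm V (B ^ q * ψ)) : Sm V ((A - B) ^ q * ψ) := by
  rw [sm_iff, map_mul, map_pow] at hA hB ⊢
  rcases le_max_iff.1 (V.valuation.map_sub A B) with h | h
  · exact (mul_le_mul_left (pow_le_pow_left' h q) _).trans_lt hA
  · exact (mul_le_mul_left (pow_le_pow_left' h q) _).trans_lt hB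

theorem exists_Gi [Fintype ι] {ρ : ι → L} (h : ∃ r, ρ r ≠ 0) (V : ValuationSubring L) :
    ∃ r, Gi ρ V r := by
  obtain ⟨r0, h0⟩ := h
  obtain ⟨r, -, hr⟩ := Finset.exists_max_image Finset.univ (fun r => V.valuation (ρ r))
    ⟨r0, Finset.mem_univ _⟩
  have h1 : V.valuation (ρ r) ≠ 0 := fun e => h0 (by
    have := hr r0 (Finset.mem_univ _)
    rw [e, le_zero_iff] at this
    simpa using this)
  refine ⟨r, fun e => h1 (by rw [e, map_zero]), fun r' => (V.valuation_le_one_iff _).1 ?_⟩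
  rw [map_div₀, div_le_one₀ (zero_lt_iff.2 h1)]
  exact hr r' (Finset.mem_univ _)

variable [Algebra ℂ L] [Algebra ℂ k]

theorem val_eq (hk : IsFF ℂ k) (x : Place ℂ k) {D : VF k} {z a F : k} {c : ℂ} (hD : D z = 1)
    (hz : x.ord z ≠ 0) (hc : c ≠ 0) (hF : x.ord F ≠ 0) (ha : a ≠ 0)
    (e : a * D F = algebraMap ℂ k c * F) : x.val a = x.val z := by
  have z0 : z ≠ 0 := fun e => by simp [e] at hz
  have F0 : F ≠ 0 := fun e => by simp [e] at hF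
  have hD0 : D ≠ 0 := fun e => by simp [e] at hD
  obtain ⟨τ, τ0, -, hτ⟩ := x.exists_ord 1
  have h1 : D τ ≠ 0 := (M3C.rowDer ℂ k hk D hD0).1 τ (by
    rintro ⟨b, rfl⟩
    simp at hτ)
  have h2 : ((D τ)⁻¹ • D) τ = 1 := by
    rw [Derivation.smul_apply, smul_eq_mul, inv_mul_cancel₀ h1]
  have e1 := x.eq_one_of_sub (eul hk x hτ h2 F0) (Int.cast_ne_zero.2 hF)
  have e2 := x.eq_one_of_sub (eul hk x hτ h2 z0) (Int.cast_ne_zero.2 hz)
  have e3 : τ * ((D τ)⁻¹ • D) z / z * z * algebraMap ℂ k c = τ * ((D τ)⁻¹ • D) F / F * a := by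
    simp only [Derivation.smul_apply, smul_eq_mul, hD]
    field_simp
    linear_combination -e
  have e4 := congrArg x.val e3
  rw [map_mul, map_mul, map_mul, e1, e2, x.triv c hc, one_mul, one_mul, mul_one] at e4
  exact e4.symm

theorem chart {Z : QD L ι} (hZ : Z.OK) {G : Pl L k} (hE : Exp Z.d G.o 0) {C : Co L 2}
    (hA : C.At G.o 0) {U : L} {c : ℂ} (hc : c ≠ 0) (hU : EulK G.o (ex Z.d Z.C U) c) :
    ∃ (a Ψ : L) (D : VF k), Ψ = Z.ψ * (C.z 0 / br Z.C (C.z 0) (C.z 1)) ^ Z.q ∧ Ψ ∈ G.o.F 0 ∧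
      G.π Ψ ≠ 0 ∧ a ∈ G.o.F 0 ∧ G.π a ≠ 0 ∧ Z.Φ U = a ^ Z.q * Ψ ∧ D (G.π (C.z 1)) = 1 ∧
      G.π a * D (G.π (Z.Φ U)) = algebraMap ℂ k (-(Z.q * c)) * G.π (Z.Φ U) := by
  have := M3F.cz k
  have := M3F.cz L
  have hq : (Z.q : L) ≠ 0 := Nat.cast_ne_zero.2 hZ.q0.ne'
  have y0 := C.ne 0
  have ψ0 := hZ.ψ0
  obtain ⟨J, hJ⟩ : ∃ J, J = br Z.C (C.z 0) (C.z 1) := ⟨_, rfl⟩
  have J0 : J ≠ 0 := hJ ▸ M3J.br_ne Z.C C
  obtain ⟨Ψ, hΨ⟩ : ∃ Ψ, Ψ = Z.ψ * (C.z 0 / J) ^ Z.q := ⟨_, rfl⟩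
  have Ψ0 : Ψ ≠ 0 := hΨ ▸ mul_ne_zero ψ0 (pow_ne_zero _ (div_ne_zero y0 J0))
  have key : ∀ X : VF L, X Ψ / Ψ = Z.q * (Z.d.δ X - C.dv.δ X + X (C.z 0) / C.z 0) := fun X => by
    obtain ⟨r, hr⟩ : ∃ r, Z.q = r + 1 := ⟨Z.q - 1, by have := hZ.q0; omega⟩
    have w0 := div_ne_zero y0 J0
    have hw : X (C.z 0 / J) = (C.z 0 / J) * (X (C.z 0) / C.z 0 - X J / J) := by
      rw [Derivation.leibniz_div]
      simp only [smul_eq_mul]
      field_simp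
    rw [hZ.rat, jacobi Z.C C, ← hJ, hΨ, Derivation.leibniz, Derivation.leibniz_pow, hw]
    generalize C.z 0 / J = w at w0
    generalize X (C.z 0) / C.z 0 = s
    generalize X J / J = t
    rw [hr] at hq ⊢
    simp only [smul_eq_mul, nsmul_eq_mul, Nat.add_sub_cancel]
    field_simp
    ring
  have dv0 : ∀ i, C.dv.δ (C.D i) = 0 := fun i => by
    rw [Co.dv_δ]
    refine Finset.sum_eq_zero fun j _ => ?_
    rw [C.dual]
    split_ifs <;> simp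
  have hv : G.o.v Ψ = 0 := by
    have h1 := F_div (M3J.th_F hA (G.o.mem_F_self Ψ)) Ψ
    have h2 := M3J.dv_D0 hA hE
    rw [map_zero, sub_zero] at h2
    have h3 := sub_mem (F_mul0 (int_F (o := G.o) Z.q) h2) (M3J.F_of_eq h1 (by ring))
    have h4 := key (C.D 0)
    rw [dv0, C.dual, if_pos rfl] at h4
    have e : ((Z.q : ℤ) : L) * (C.z 0 * Z.d.δ (C.D 0) + 1) -
        (C.z 0 * C.D 0 Ψ - G.o.v Ψ * Ψ) / Ψ = algebraMap ℂ L (G.o.v Ψ : ℤ) := by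
      rw [sub_div, mul_div_assoc, h4, map_intCast]
      push_cast
      field_simp
      ring
    rw [e] at h3
    exact_mod_cast cst_F1 h3
  have ΨF : Ψ ∈ G.o.F 0 := Or.inr hv.ge
  have hp := pi_ne Ψ0 hv
  have hL : ex Z.d Z.C U ∈ LV G.o 0 := fun m g hg => by
    have := add_mem (G.o.F_anti (by omega : m ≤ m + 1) (hU m g hg))
      (F_mul0 (F_mul0 (cst_F G.o c) (int_F m)) hg)
    rwa [sub_add_cancel, ← add_zero m] at this
  have h1 := hU 1 _ (M3J.z0_F hA)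
  rw [M3J.ex_br Z.d Z.C C, ← hJ] at hL h1
  have ht := M3J.F_of_ex hA hE (c := 0) (fun m hm => by
    rw [zero_add]; exact_mod_cast hm.ne) hL
  obtain ⟨a, ha⟩ : ∃ a, a = U * J / C.z 0 := ⟨_, rfl⟩
  have aF : a ∈ G.o.F 0 := by simpa [hA.v, ← ha] using F_div ht (C.z 0)
  have e1 : U * J = C.z 0 * a := by rw [ha, mul_div_cancel₀ _ y0]
  have h2 : C.D 1 a + a * Z.d.δ (C.D 1) + algebraMap ℂ L c ∈ G.o.F 1 := by
    refine M3J.F_cancel y0 (M3J.F_of_eq (F_of_eq (neg_mem h1) ?_) (by simp [hA.v]))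
    rw [M3J.ex_z0, e1, Derivation.leibniz, C.dual]
    simp
    ring
  obtain ⟨D, hD⟩ := exists_Rs G (hA.D_LV (j := 1) (by decide))
  have d1 := M3J.dv_D1 hA hE
  have h3 := pi_F1 h2
  rw [G.add _ (add_mem (hA.D 1 _ aF) (F_mul0 aF d1)) _ (cst_F _ c),
    G.add _ (hA.D 1 _ aF) _ (F_mul0 aF d1), G.mul _ aF _ d1, hD.2 _ aF, pi_cst] at h3
  have h4 := congrArg G.π (key (C.D 1))
  rw [dv0, C.dual, if_neg (by decide), zero_div, sub_zero, add_zero,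
    pi_div (hA.D 1 _ ΨF) Ψ0 hv, hD.2 _ ΨF,
    G.mul _ (by simpa using int_F (o := G.o) Z.q) _ d1, pi_nat, div_eq_iff hp] at h4
  have e2 : Z.Φ U = a ^ Z.q * Ψ := by
    rw [QD.Φ, hΨ, mul_left_comm, ← mul_pow, mul_comm, ha]
    congr 2
    field_simp
  refine ⟨a, Ψ, D, hJ ▸ hΨ, ΨF, hp, aF, fun e => hc ?_, e2, ?_, ?_⟩
  · rw [e, map_zero, zero_mul, zero_add, zero_add] at h3
    exact (map_eq_zero _).1 h3
  · rw [← hD.2 _ (M3J.z1_F hA), C.dual, if_pos rfl, pi_one]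
  · obtain ⟨r, hr⟩ : ∃ r, Z.q = r + 1 := ⟨Z.q - 1, by have := hZ.q0; omega⟩
    rw [e2, G.mul _ (pow_F0 aF _) _ ΨF, pi_pow aF, Derivation.leibniz, Derivation.leibniz_pow, h4,
      map_neg, map_mul, map_natCast, hr]
    simp only [smul_eq_mul, nsmul_eq_mul, Nat.add_sub_cancel]
    linear_combination ((r + 1 : ℕ) : k) * G.π a ^ (r + 1) * G.π Ψ * h3

theorem fg (G : Pl L k) (x : Place ℂ k) :
    Fg G.o (cmp G x.val.valuationSubring) ∧ cmp G x.val.valuationSubring ≠ G.o.O := by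
  refine ⟨⟨cmp_le _ _, fun c => ⟨cst_F _ c, ?_⟩⟩, fun e => ?_⟩
  · rw [pi_cst]
    exact x.const_le c
  · obtain ⟨τ, τ0, -, hτ⟩ := x.exists_ord (-1)
    obtain ⟨g, hg, rfl⟩ := G.surj τ
    have h1 : g ∈ cmp G x.val.valuationSubring := e ▸ hg
    have h2 := (x.val_le_one (x.val_ne τ0)).1 h1.2
    omega

theorem sm_val {G : Pl L k} {x : Place ℂ k} {g : L} (h : Sm (cmp G x.val.valuationSubring) g) :
    x.val (G.π g) < 1 := by
  refine lt_of_le_of_ne h.1.2 fun e => h.2 ?_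
  have h0 : G.π g ≠ 0 := fun e' => by simp [e'] at e
  refine un_cmp.2 ⟨un_of_pi h.1.1 h0, h0, e.le, ?_⟩
  show x.val _ ≤ 1
  rw [map_inv₀, e, inv_one]

theorem main [Fintype ι] {Z : QD L ι} (hZ : Z.OK) (G : Pl L k) (hk : IsFF ℂ k) (h : Z.Cu G.o)
    {κ κ' : ℂ} (h1 : Z.Cl G.o κ) (h2 : Z.Cl G.o κ') : κ = κ' := by
  by_contra hne
  have hc := sub_ne_zero.2 hne
  obtain ⟨Θ, e1, p1⟩ := h1
  obtain ⟨Θ', e2, p2⟩ := h2
  have hU : EulK G.o (ex Z.d Z.C (Θ' - Θ)) (κ - κ') := fun m g hg => by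
    refine F_of_eq (sub_mem (e1 m g hg) (e2 m g hg)) ?_
    simp only [QD.X, M3J.ex_sub, Derivation.sub_apply, map_sub]
    ring
  have loc : ∀ x : Place ℂ k, G.π (Z.Φ (Θ' - Θ)) ≠ 0 ∧ ∀ s ∈ Z.S,
      x.val (G.π (Z.Φ (Θ' - Θ)) ^ Z.m * G.π s ^ Z.q) ≤ 1 := fun x => by
    obtain ⟨hV, hV'⟩ := fg G x
    obtain ⟨y, z, hy, z1, hz, hs⟩ := h.lea _ hV hV'
    have zF : z ∈ G.o.F 0 := hz.1.1
    have zv := sm_val hz
    have z0 : G.π z ≠ 0 := fun e => z1 ((G.ker z zF).1 e)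
    obtain ⟨C, hC, hA⟩ := cv_at Z.C hZ.fin hy zF fun c hc => by
      have e : G.π z = algebraMap ℂ k c := by rw [← pi_cst G]; exact pi_congr (cst_F _ c) hc
      by_cases c0 : c = 0
      · exact z0 (by rw [e, c0, map_zero])
      · rw [e, x.triv c c0] at zv
        exact lt_irrefl _ zv
    obtain ⟨a, Ψ, D, hΨ, ΨF, Ψ0, aF, a0, e, hD, hF⟩ := chart hZ h.exp hA hc hU
    have c0 : C.z 0 = y := by rw [hC]; rfl
    have c1 : C.z 1 = z := by rw [hC]; rfl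
    rw [c0, c1] at hΨ
    rw [c1] at hD
    have e' : G.π (Z.Φ (Θ' - Θ)) = G.π a ^ Z.q * G.π Ψ := by
      rw [e, G.mul _ (pow_F0 aF _) _ ΨF, pi_pow aF]
    have F0 : G.π (Z.Φ (Θ' - Θ)) ≠ 0 := e' ▸ mul_ne_zero (pow_ne_zero _ a0) Ψ0
    refine ⟨F0, fun s hS => ?_⟩
    have sF := h.reg s hS
    by_cases ho : x.ord (G.π (Z.Φ (Θ' - Θ))) = 0
    · have hv := (x.val_one_iff (x.val_ne F0)).2 ho
      have hs' : s ∈ cmp G x.val.valuationSubring := by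
        by_contra hn
        obtain ⟨r, hr⟩ := exists_Gi hZ.ne (cmp G x.val.valuationSubring)
        have h3 := sm_sub (p1 _ hV ⟨s, hS, hn⟩ r hr) (p2 _ hV ⟨s, hS, hn⟩ r hr)
        rw [sub_sub_sub_cancel_left] at h3
        exact (sm_val h3).ne hv
      rw [map_mul, map_pow, map_pow, hv, one_pow, one_mul]
      exact pow_le_one' hs'.2 _
    · have h3 := val_eq hk x hD ((x.val_lt_one (x.val_ne z0)).1 zv).ne' (neg_ne_zero.2
        (mul_ne_zero (Nat.cast_ne_zero.2 hZ.q0.ne') hc)) ho a0 hF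
      have h4 : x.val (G.π _) ≤ 1 := (hs s hS).2
      have e3 : Z.ψ * (y * z / br Z.C y z) ^ Z.q = z ^ Z.q * Ψ := by
        rw [hΨ, mul_left_comm, ← mul_pow, mul_comm y z, mul_div_assoc]
      have m1 := F_mul0 (pow_F0 zF Z.q) ΨF
      rw [e3, G.mul _ (pow_F0 m1 _) _ (pow_F0 sF _), pi_pow m1, pi_pow sF,
        G.mul _ (pow_F0 zF _) _ ΨF, pi_pow zF] at h4
      rw [e']
      simp only [map_mul, map_pow] at h4 ⊢
      rwa [h3]
  have hinf := (H7.ll ℂ k hk).2.2.2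
  have F0 := (loc (Classical.arbitrary _)).1
  have key : ∀ s ∈ Z.S, G.π (Z.Φ (Θ' - Θ)) ^ Z.m * G.π s ^ Z.q ∈ Set.range (algebraMap ℂ k) :=
    fun s hs => (H7.ll ℂ k hk).2.2.1 _ fun x => by simpa using (loc x).2 s hs
  obtain ⟨s, hs, s', hs', s1, hn⟩ := h.nc
  have s0 : G.π s ≠ 0 := fun e => s1 ((G.ker s (h.reg s hs)).1 e)
  have us := G.o.un_O.1 (un_of_pi (h.reg s hs) s0)
  obtain ⟨a, ha⟩ := key s hs
  obtain ⟨a', ha'⟩ := key s' hs'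
  have h3 : G.π (s' / s) ∈ Set.range (algebraMap ℂ k) := by
    by_contra hy
    refine (H14.transc hy).pow hZ.q0 ?_
    have e : G.π (s' / s) ^ Z.q = algebraMap ℂ k (a' / a) := by
      rw [map_div₀, ha, ha', pi_div (h.reg s' hs') us.1 us.2, div_pow,
        mul_div_mul_left _ _ (pow_ne_zero _ F0)]
    exact e ▸ isAlgebraic_algebraMap _
  obtain ⟨b, hb⟩ := h3
  refine hn.2 b ((G.ker _ (sub_mem hn.1 (cst_F _ b))).1 ?_)
  rw [pi_sub hn.1 (cst_F _ b), pi_cst, hb, sub_self]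

end RUni

theorem rowUni : OfUni := fun hF L _ _ _ _ Z hZ G h _ _ h1 h2 =>
  RUni.main hZ G.pl (hF L G.kf Z.C G.pl hZ.fin h.crv) h h1 h2

end

end Pool.Agent.MP_ee8c61_ag.Q3IZ
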