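import Pool.Agent.MP_ee8c61_ag.Q3IZ.SDefs
import Pool.Agent.MP_ee8c61_ag.Q3G.Path
import Pool.Agent.MP_ee8c61_ag.M3BK.M0D
import Pool.Agent.MP_ee8c61_ag.M3F.LF
import Pool.Agent.MP_ee8c61_ag.M3F.RF
import Pool.Agent.MP_ee8c61_ag.M3J.Mdl
import Pool.Agent.MP_ee8c61_ag.M3RESID.CvAt

/-! The class changes sign from one section of a ruling to the other. -/

namespace Pool.Agent.MP_ee8c61_ag.Q3IZ

open M3 M3RESID M3F Q3G Filter Polynomial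
open M3J (ex br)
open M3H47 (Rl Ada)

noncomputable section

namespace RVxc

section Val

variable {L : Type} [Field L] {V : ValuationSubring L}

theorem sm_iff {g : L} : Sm V g ↔ V.valuation g < 1 := by
  rw [← V.mem_nonunits_iff, V.mem_nonunits_iff_or, Sm, Un]
  by_cases h : g = 0
  · simp [h]
  have := V.mem_or_inv_mem g
  tauto

theorem sm_O {Γ : DV L} {g : L} : Sm Γ.O g ↔ g ∈ Γ.F 1 := by
  rw [Sm, Γ.un_O, Γ.mem_O, DV.mem_F, DV.mem_F]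
  by_cases h : g = 0
  · simp [h]
  simp only [h, false_or, ne_eq, not_false_eq_true, true_and]
  omega

theorem pow_sub {a e ψ : L} {q : ℕ} (ha : a ^ q * ψ ∈ V) (he : Sm V (e ^ q * ψ)) :
    Sm V ((a + e) ^ q * ψ - a ^ q * ψ) := by
  rw [sm_iff] at he ⊢
  rw [← V.valuation_le_one_iff] at ha
  rcases q with _ | q
  · simp
  have hM : max (V.valuation a) (V.valuation e) ^ (q + 1) * V.valuation ψ ≤ 1 := by
    rw [map_mul, map_pow] at ha he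
    rcases max_choice (V.valuation a) (V.valuation e) with h | h <;> rw [h]
    exacts [ha, he.le]
  have h1 : V.valuation (∑ i ∈ Finset.range (q + 1), (a + e) ^ i * a ^ (q + 1 - 1 - i)) ≤
      max (V.valuation a) (V.valuation e) ^ q := V.valuation.map_sum_le fun i hi => by
    rw [map_mul, map_pow, map_pow]
    refine (mul_le_mul' (pow_le_pow_left' (V.valuation.map_add a e) _)
      (pow_le_pow_left' (le_max_left _ (V.valuation e)) _)).trans_eq ?_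
    rw [← pow_add]
    congr 1
    have := Finset.mem_range.1 hi
    omega
  rw [← sub_mul, ← geom_sum₂_mul, add_sub_cancel_left, map_mul, map_mul]
  rw [map_mul, map_pow] at he
  refine (mul_le_mul_left (mul_le_mul_left h1 _) _).trans_lt (not_le.1 fun h => ?_)
  refine (one_le_pow_of_one_le' h (q + 1)).not_gt ?_
  rw [show ∀ M a b : V.ValueGroup, (M ^ q * a * b) ^ (q + 1) =
    (M ^ (q + 1) * b) ^ q * (a ^ (q + 1) * b) from fun M a b => by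
      rw [mul_pow, mul_pow, mul_pow, pow_right_comm, pow_succ b, mul_mul_mul_comm, mul_assoc]]
  exact (mul_le_of_le_one_left' (pow_le_one' hM q)).trans_lt he

theorem exists_gi {ι : Type} [Fintype ι] {ρ : ι → L} (h : ∃ r, ρ r ≠ 0) (V : ValuationSubring L) :
    ∃ r, Gi ρ V r := by
  obtain ⟨r₀, h₀⟩ := h
  obtain ⟨r, -, hr⟩ := Finset.univ.exists_max_image (fun r => V.valuation (ρ r)) ⟨r₀, by simp⟩
  have h1 : V.valuation (ρ r) ≠ 0 := fun e =>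
    h₀ (by simpa [e] using hr r₀ (Finset.mem_univ _))
  refine ⟨r, by simpa using h1, fun r' => ?_⟩
  rw [← V.valuation_le_one_iff, map_div₀, div_le_one₀ (zero_lt_iff.2 h1)]
  exact hr r' (Finset.mem_univ _)

end Val

variable {L : Type} [Field L] [Algebra ℂ L] {K : IntermediateField ℂ L} {G : DV L} {y τ : L}
  {E D : VF L} {x : DV K} {V : ValuationSubring L}

theorem k_zero (hG : Hor K G) {c : L} (hc : c ∈ K) (h : c ∈ G.F 1) : c = 0 :=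
  h.resolve_right (by rw [hG.unit hc]; omega)

theorem sec (C : Co L 2) (hf : FiniteDimensional (IntermediateField.adjoin ℂ (Set.range C.z)) L)
    (A : Ada K y τ E D) (hG : Hor K G) (h1 : G.v y = 1) {m : ℤ} {g : L} (hg : g ∈ G.F m) :
    E g - m * g ∈ G.F (m + 1) ∧ D g ∈ G.F m := by
  have nc := hG.nc A.t0 (ne_of_der ⟨D, by simp [A.t1]⟩)
  obtain ⟨C', e, hA⟩ := cv_at C hf h1 nc.1 nc.2
  have e0 : C'.z 0 = y := by rw [e]; rfl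
  have e1 : C'.z 1 = τ := by rw [e]; rfl
  have a0 : E = C'.z 0 • C'.D 0 := M3J.ext2 C' (by simp [C'.dual, e0 ▸ A.y0])
    (by simp [C'.dual]; rw [e1, A.k0 τ A.t0])
  have a1 : D = C'.D 1 := M3J.ext2 C' (by simp [C'.dual]; rw [e0, A.y1])
    (by simp [C'.dual]; rw [e1, A.t1])
  rw [a0, a1]
  exact ⟨M3J.th_F hA hg, M3J.D1_F hA hg⟩

theorem res (h : Rl K y) (hG : Hor K G) (h1 : G.v y = 1) {g : L} (hg : g ∈ G.F 0) :
    ∃ c : K, g - c ∈ G.F 1 := by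
  have y1 : y ∈ G.F 1 := Or.inr h1.ge
  have y0 : y ∈ G.O := M3Z.F10 y1
  obtain ⟨B, hB, A, e⟩ := (M3H47.val_iff h hG.2 y0 prime_X (by simpa using M3H47.F_nu y1) g).1 hg
  have k : ∀ p : K[X], aeval y p - (p.coeff 0 : L) ∈ G.F 1 := fun p => by
    have := congrArg (aeval y) (X_mul_divX_add p)
    rw [map_add, map_mul, aeval_X, aeval_C] at this
    exact F_of_eq (F_mul0' y1 (M3H47.ev_mem_val hG.2 y0 p.divX)) (eq_sub_of_add_eq this).symm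
  have b0 : (B.coeff 0 : L) ≠ 0 := fun e => hB (X_dvd_iff.2 (by simpa using e))
  refine ⟨A.coeff 0 / B.coeff 0, M3J.F_cancel b0 ?_⟩
  rw [hG.unit (B.coeff 0).2, add_zero]
  have := sub_mem (k A) (F_mul0 hg (k B))
  rw [← e] at this
  refine F_of_eq this ?_
  push_cast
  field_simp
  ring

/-- The point `x` of the base, on the section `G`. -/
def Tw (G : DV L) (x : DV K) (V : ValuationSubring L) : Prop :=
  ∀ g, g ∈ V ↔ ∃ c : K, c ∈ x.F 0 ∧ g - c ∈ G.F 1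

theorem inv_sub (hG : Hor K G) {g : L} {c : K} (c0 : c ≠ 0) (h : g - c ∈ G.F 1) :
    g ≠ 0 ∧ g⁻¹ - (c⁻¹ : K) ∈ G.F 1 := by
  have c1 : (c : L) ≠ 0 := by simpa using c0
  have g1 : g ∉ G.F 1 := fun e => c1 (k_zero hG c.2 (by simpa using sub_mem e h))
  have g0 : g ≠ 0 := fun e => g1 (Or.inl e)
  have g2 : g⁻¹ ∈ G.F 0 := Or.inr (by
    have : ¬1 ≤ G.v g := fun e => g1 (Or.inr e)
    rw [G.inv]; omega)
  refine ⟨g0, F_of_eq (F_mul0 (F_mul0 g2 (hG.2 _ (c⁻¹).2)) (neg_mem h)) ?_⟩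
  push_cast
  field_simp
  ring

theorem exists_tw (h : Rl K y) (hG : Hor K G) (h1 : G.v y = 1) (x : DV K) : ∃ V, Tw G x V := by
  refine ⟨⟨⟨⟨⟨⟨{g | ∃ c : K, c ∈ x.F 0 ∧ g - c ∈ G.F 1}, ?_⟩, ?_⟩, ?_, ?_⟩, ?_⟩, fun g => ?_⟩,
    fun _ => Iff.rfl⟩
  · rintro a b ⟨c, hc, ha⟩ ⟨c', hc', hb⟩
    have a0 := add_mem (M3Z.F10 ha) (hG.2 _ c.2)
    rw [sub_add_cancel] at a0
    refine ⟨c * c', F_mul0 hc hc', F_of_eq (add_mem (F_mul0 a0 hb) (F_mul0 (hG.2 _ c'.2) ha)) ?_⟩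
    push_cast
    ring
  · exact ⟨1, one_F, by simp⟩
  · rintro a b ⟨c, hc, ha⟩ ⟨c', hc', hb⟩
    exact ⟨c + c', add_mem hc hc', F_of_eq (add_mem ha hb) (by push_cast; ring)⟩
  · exact ⟨0, zero_mem _, by simp⟩
  · rintro a ⟨c, hc, ha⟩
    exact ⟨-c, neg_mem hc, F_of_eq (neg_mem ha) (by push_cast; ring)⟩
  by_cases g0 : g ∈ G.F 0
  · obtain ⟨c, hc⟩ := res h hG h1 g0
    by_cases c0 : c = 0
    · exact Or.inl ⟨c, Or.inl c0, hc⟩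
    exact (x.O.mem_or_inv_mem c).imp (fun e => ⟨c, e, hc⟩) fun e => ⟨_, e, (inv_sub hG c0 hc).2⟩
  · refine Or.inr ⟨0, zero_mem _, Or.inr ?_⟩
    have : ¬0 ≤ G.v g := fun e => g0 (Or.inr e)
    rw [ZeroMemClass.coe_zero, sub_zero, G.inv]
    omega

theorem Tw.base (T : Tw G x V) (hG : Hor K G) {c : K} : (c : L) ∈ V ↔ c ∈ x.F 0 := by
  refine (T c).trans ⟨fun ⟨c', h1, h2⟩ => ?_, fun h => ⟨c, h, by simp⟩⟩
  rwa [show c = c' from Subtype.ext (sub_eq_zero.1 (k_zero hG (sub_mem c.2 c'.2) h2))]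

theorem Tw.fg (T : Tw G x V) (hG : Hor K G) : Fg G V :=
  ⟨fun g hg => by
    obtain ⟨c, -, h⟩ := (T g).1 hg
    simpa [DV.mem_O] using add_mem (M3Z.F10 h) (hG.2 _ c.2),
  fun c => (T.base hG (c := algebraMap ℂ K c)).2 (cst_F x c)⟩

omit [Algebra ℂ L] in
theorem F1_mem (hV : V ≤ G.O) {g : L} (hg : g ∈ G.F 1) : Sm V g := by
  have := sm_O.2 hg
  refine ⟨?_, fun h => this.2 (h.mono hV)⟩
  by_cases g0 : g = 0
  · simp [g0]
  exact (V.mem_or_inv_mem g).resolve_right fun e => this.2 ⟨g0, this.1, hV e⟩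

theorem tw_of (h : Rl K y) (hG : Hor K G) (h1 : G.v y = 1) (hV : V ≤ G.O)
    (hx : ∀ c : K, (c : L) ∈ V ↔ c ∈ x.F 0) : Tw G x V := fun g =>
  ⟨fun hg => (res h hG h1 (hV hg)).imp fun c hc =>
    ⟨(hx c).1 (by simpa using sub_mem hg (F1_mem hV hc).1), hc⟩,
  fun ⟨c, h1, h2⟩ => by simpa using add_mem (F1_mem hV h2).1 ((hx c).2 h1)⟩

section End

variable {l : Filter ℚ} (h : Rat K y) (T : Tw G x V) (hG : Hor K G)
  (hl : ∀ g ∈ G.F 1, ∀ᶠ q : ℚ in l, ∀ Γ, Gs x y q Γ → g ∈ Γ.F 1)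
include h T hl

theorem Tw.ev0 {g : L} (hg : g ∈ V) : ∀ᶠ q : ℚ in l, ∀ Γ, Gs x y q Γ → g ∈ Γ.F 0 := by
  obtain ⟨c, h1, h2⟩ := (T g).1 hg
  refine (hl _ h2).mono fun q hq Γ e => ?_
  have : (c : L) ∈ Γ.F 0 := h1.imp (by simp) fun h3 =>
    (mul_nonneg (Int.natCast_nonneg _) h3).trans_eq (e.base h c).symm
  simpa using add_mem (M3Z.F10 (hq Γ e)) this

theorem Tw.gi {ι : Type} [Fintype ι] {ρ : ι → L} {r : ι} (hr : Gi ρ V r) :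
    ∀ᶠ q : ℚ in l, ∀ Γ, Gs x y q Γ → Gi ρ Γ.O r :=
  (eventually_all.2 fun r' => T.ev0 h hl (hr.2 r')).mono fun _ hq Γ e =>
    ⟨hr.1, fun r' => hq r' Γ e⟩

theorem Tw.ev2 {g : L} (hg : ¬Sm V g) : ∀ᶠ q : ℚ in l, ∀ Γ, Gs x y q Γ → g ∉ Γ.F 1 := by
  have g0 : g ≠ 0 := fun e => hg (by simp [e, sm_iff])
  have g1 : g⁻¹ ∈ V := by_contra fun e =>
    hg ⟨(V.mem_or_inv_mem g).resolve_right e, fun u => e u.2.2⟩
  refine (T.ev0 h hl g1).mono fun q hq Γ e h1 => ?_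
  have h2 := (hq Γ e).resolve_left (inv_ne_zero g0)
  have h3 := h1.resolve_left g0
  rw [Γ.inv] at h2
  omega

include hG in
theorem Tw.ev1 {g : L} (hg : Sm V g) : ∀ᶠ q : ℚ in l, ∀ Γ, Gs x y q Γ → g ∈ Γ.F 1 := by
  obtain ⟨c, h1, h2⟩ := (T g).1 hg.1
  have h3 : c ∈ x.F 1 := by_contra fun h3 => by
    rw [DV.mem_F, not_or] at h3
    obtain ⟨g0, h4⟩ := inv_sub hG h3.1 h2
    exact hg.2 ⟨g0, hg.1, (T _).2 ⟨_, Or.inr (by rw [x.inv]; omega), h4⟩⟩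
  refine (hl _ h2).mono fun q hq Γ e => ?_
  have : (c : L) ∈ Γ.F 1 := h3.imp (by simp) fun h3 =>
    (mul_pos (Int.natCast_pos.2 q.den_pos) h3).trans_eq (e.base h c).symm
  simpa using add_mem (hq Γ e) this

end End

theorem eul_gs (h : Rat K y) (A : Ada K y τ E D) {q : ℚ} {Γ : DV L} (e : Gs x y q Γ) :
    E ∈ LV Γ 0 := by
  have k : ∀ p : K[X], p ≠ 0 → E (aeval y p) ∈ Γ.F (Γ.v (aeval y p)) := fun p hp => by
    rw [M3H47.der_ev E A.k0, A.y0, show aeval y (derivative p) * y = aeval y (X * derivative p) by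
      rw [map_mul, aeval_X, mul_comm]]
    by_cases h0 : X * derivative p = 0
    · simp [h0]
    obtain ⟨i, hi, e1⟩ := wp_eq (x := x) (γ := q) h0
    rcases i with _ | i
    · simp at hi
    rw [coeff_X_mul, coeff_derivative] at hi e1
    have e2 := wp_le (x := x) (γ := q) (left_ne_zero_of_mul hi)
    have e3 : x.v ((i : K) + 1) = 0 := by simpa using v_cst x ((i : ℂ) + 1)
    rw [x.mul _ _ (left_ne_zero_of_mul hi) (right_ne_zero_of_mul hi), e3, add_zero] at e1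
    refine Or.inr (Int.cast_le (R := ℝ).1 ?_)
    rw [e, e, h.w_poly hp, h.w_poly h0, e1]
    exact mul_le_mul_of_nonneg_left e2 (Nat.cast_nonneg _)
  intro m g hg
  by_cases g0 : g = 0
  · simp [g0]
  obtain ⟨p, s, hp, hs, e1⟩ := h.frac g0
  have e2 := congrArg E e1
  rw [Derivation.leibniz, smul_eq_mul, smul_eq_mul] at e2
  have e3 := Γ.mul _ _ g0 (h.ne hs)
  have e4 := hg.resolve_left g0
  refine M3J.F_cancel (h.ne hs) ?_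
  rw [eq_sub_of_add_eq' e2]
  exact sub_mem (Γ.F_anti (by rw [← e1]; omega) (k p hp)) (M3J.F_mul' hg (k s hs) (by omega))

theorem pathI {ι : Type} [Fintype ι] {ρ u : ι → L} (h : Rat K y) (h0 : ∃ r, ρ r ≠ 0)
    (h1 : ∀ q Γ, Gs x y q Γ → ∀ r, Gi ρ Γ.O r → ∃ κ : ℂ, u r - algebraMap ℂ L κ ∈ Γ.F 1)
    (h2 : ∀ q Γ, Gs x y q Γ → ∀ r r', Gi ρ Γ.O r → Gi ρ Γ.O r' → u r - u r' ∈ Γ.F 1) :
    ∃ κ : ℂ, ∀ q Γ, Gs x y q Γ → ∀ r, Gi ρ Γ.O r → u r - algebraMap ℂ L κ ∈ Γ.F 1 := by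
  classical
  obtain ⟨r₀, h0⟩ := h0
  have : Nonempty ι := ⟨r₀⟩
  have k : ∀ (Γ : DV L) s, GnS (Finset.univ.image ρ) Γ s → Gi ρ Γ.O (Function.invFun ρ s) :=
    fun Γ s hs => by
      have := Function.invFun_eq (f := ρ) (b := s) (by simpa using hs.1)
      exact ⟨this.symm ▸ hs.2.1, fun r' => this.symm ▸ hs.2.2 _ (by simp)⟩
  obtain ⟨κ, hκ⟩ := h.path (x := x) (R := Finset.univ.image ρ)
    (u := fun s => u (Function.invFun ρ s)) (cst_F x) ⟨ρ r₀, by simp, h0⟩ isPreconnected_univ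
    isOpen_univ (fun q Γ _ e s hs => h1 q Γ e _ (k Γ s hs))
    fun q Γ _ e s s' hs hs' => h2 q Γ e _ _ (k Γ s hs) (k Γ s' hs')
  refine ⟨κ, fun q Γ e r hr => ?_⟩
  have h3 : GnS (Finset.univ.image ρ) Γ (ρ r) := ⟨by simp, hr.1, by simpa [DV.mem_O] using hr.2⟩
  simpa using add_mem (h2 q Γ e _ _ hr (k Γ _ h3)) (hκ q Γ trivial e _ h3)

variable {ι : Type} {Z : QD L ι} {t α : L} {G₁ G₂ : DV L} {C' : Co L 2}

theorem ada (R : Z.Ru t G₁ G₂ C' α) : Ada (Kz t) (C'.z 0) (C'.z 1) (C'.th 0) (C'.D 1) where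
  k0 c hc := by simp [Co.th, R.rul.kill c hc]
  y0 := by simp [Co.th, C'.dual]
  y1 := by simp [C'.dual]
  t1 := by simp [C'.dual]
  t0 := R.rul.mem
  span w h0 h1 := C'.span w (Fin.forall_fin_two.2 ⟨h0, h1⟩)

/-- The potential of the logarithmic frame. -/
def fr (Z : QD L ι) (C' : Co L 2) : L := C'.z 0 / br Z.C (C'.z 0) (C'.z 1)

theorem fr_ne : fr Z C' ≠ 0 := div_ne_zero (C'.ne 0) (M3J.br_ne _ _)

theorem ex_fr (R : Z.Ru t G₁ G₂ C' α) (w : L) : ex Z.d Z.C (w * fr Z C') =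
    C'.th 0 w • C'.D 1 - (C'.D 1 w + w * Z.d.δ (C'.D 1)) • C'.th 0 := by
  have h := R.d0
  rw [Co.th, Z.d.smul] at h
  rw [M3J.ex_br _ _ C', fr, mul_assoc, div_mul_cancel₀ _ (M3J.br_ne _ _)]
  refine M3J.ext2 C' ?_ ?_
  · simp [M3J.ex_z0, Co.th, C'.dual]
    ring
  · simp [M3J.ex_z1, Co.th, C'.dual] at h ⊢
    linear_combination w * h

theorem phi_fr (hZ : Z.OK) (R : Z.Ru t G₁ G₂ C' α) : Z.Φ (fr Z C') ∈ Kz t := by
  have := cz L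
  refine M3H47.ker_le (M3H47.rl_of R.rul.tr R.rul.gen) _ (ada R).k0
    (by rw [(ada R).y0]; exact C'.ne 0) ?_
  have h := R.d0
  have h1 := M3Z.jacobi Z.C C' (C'.th 0)
  have h2 : C'.dv.δ (C'.th 0) = 1 := by simp [Co.dv, Co.th, C'.dual]
  have h3 := M3J.br_ne Z.C C'
  have h4 := hZ.ψ0
  have h5 : (Z.q : L) ≠ 0 := Nat.cast_ne_zero.2 hZ.q0.ne'
  have h6 := C'.ne 0
  rw [hZ.rat] at h
  obtain ⟨n, hn⟩ : ∃ n, Z.q = n + 1 := ⟨Z.q - 1, by have := hZ.q0; omega⟩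
  rw [QD.Φ, Derivation.leibniz, Derivation.leibniz_pow, fr, Derivation.leibniz_div, (ada R).y0]
  rw [h2] at h1
  rw [eq_sub_of_add_eq h1.symm] at h
  rw [hn] at h h5 ⊢
  simp only [smul_eq_mul, Nat.add_sub_cancel, nsmul_eq_mul, pow_succ] at h ⊢
  field_simp at h ⊢
  linear_combination (C'.z 0 * (C'.z 0 / br Z.C (C'.z 0) (C'.z 1)) ^ n) * h

theorem pot (hZ : Z.OK) (R : Z.Ru t G₁ G₂ C' α) {κ : ℂ} {Θ₂ : L} (h : EulK G₂ (Z.X Θ₂) κ) :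
    ∃ Θ₁, Z.X Θ₁ = -algebraMap ℂ L κ • C'.th 0 ∧ Z.Φ (Θ₂ - Θ₁) ∈ G₂.F 1 := by
  obtain ⟨Θ, hΘ⟩ := M3J.exists_ex Z.d Z.C R.ex
  obtain ⟨w, hw⟩ : ∃ w, Θ - Θ₂ = w * fr Z C' := ⟨_, (div_mul_cancel₀ _ fr_ne).symm⟩
  have A := ada R
  have A' := M3BK.ada_inv (C'.ne 0) A
  have v2 := v_inv R.v2
  have e : ∀ w Θ', Θ - Θ' = w * fr Z C' → Z.X Θ' = C'.th 0 w • C'.D 1 +
      (α - (C'.D 1 w + w * Z.d.δ (C'.D 1))) • C'.th 0 := fun w Θ' e => by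
    rw [QD.X, sub_smul, add_sub_left_comm, ← ex_fr R, ← e, M3J.ex_sub, ← hΘ]
    abel
  have h0 := h 0 _ (R.h2.2 _ R.rul.mem)
  have h1 := F_mul0' (Or.inr v2.ge : _ ∈ G₂.F 1) (h (-1) _ (Or.inr R.v2.ge))
  rw [e w _ hw] at h0 h1
  simp only [Derivation.add_apply, Derivation.smul_apply, A.y0, A.y1, A.t1, A.k0 _ A.t0,
    smul_eq_mul, mul_zero, mul_one, add_zero, zero_add, Int.cast_zero, zero_mul, sub_zero] at h0 h1
  have w0 : w ∈ G₂.F 0 := by_contra fun n => by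
    rw [DV.mem_F, not_or] at n
    have h2 := add_mem (sec Z.C hZ.fin A' R.h2 v2 (G₂.mem_F_self w)).1
      (G₂.F_anti (by omega) h0)
    have h3 : ((G₂.v w : ℂ)) ≠ 0 := Int.cast_ne_zero.2 (by omega)
    have h4 : w ∈ G₂.F (G₂.v w + 1) := M3J.F_cancel ((map_ne_zero (algebraMap ℂ L)).2 h3)
      (by rw [v_cst, add_zero]; simpa using neg_mem h2)
    have := h4.resolve_left n.1
    omega
  obtain ⟨c, hc⟩ := res (M3H47.rl_inv R.rul.tr R.rul.gen) R.h2 v2 w0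
  have h2 : α - (C'.D 1 c + c * Z.d.δ (C'.D 1)) + algebraMap ℂ L κ = 0 := by
    refine k_zero R.h2 (add_mem (sub_mem R.α0 (add_mem (A.k1 (M3H47.rl_of R.rul.tr R.rul.gen) _ c.2)
      (mul_mem c.2 R.d1))) ((Kz t).algebraMap_mem κ)) (F_of_eq (add_mem h1 (add_mem
        (sec Z.C hZ.fin A' R.h2 v2 hc).2 (F_mul0' hc (R.h2.2 _ R.d1)))) ?_)
    have := C'.ne 0
    rw [map_sub]
    push_cast
    field_simp
    ring
  refine ⟨Θ - c * fr Z C', ?_, ?_⟩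
  · rw [e c _ (sub_sub_cancel _ _), A.k0 _ c.2, zero_smul, zero_add, eq_neg_of_add_eq_zero_left h2]
  · have h3 : Z.Φ (Θ₂ - (Θ - c * fr Z C')) = (-(w - c)) ^ Z.q * Z.Φ (fr Z C') := by
      rw [QD.Φ, QD.Φ, ← mul_assoc, ← mul_pow]
      congr 2
      linear_combination -hw
    obtain ⟨n, hn⟩ : ∃ n, Z.q = n + 1 := ⟨Z.q - 1, by have := hZ.q0; omega⟩
    rw [h3, hn, pow_succ]
    exact F_mul0' (F_mul0 (M3Z.pow_F0 (M3Z.F10 (neg_mem hc)) n) (neg_mem hc))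
      (R.h2.2 _ (phi_fr hZ R))

end RVxc

open RVxc in
theorem rowVxc : OfVxc := by
  intro hP L ι _ _ _ Z hZ hpos hcc t G₁ G₂ C' α R hS κ ⟨Θ₂, e₂, c₂⟩
  obtain ⟨Θ₁, h₁, h₂⟩ := pot hZ R e₂
  have A := ada R
  have h : Rat (Kz t) (C'.z 0) := ⟨R.rul.tr, R.rul.gen⟩
  refine ⟨Θ₁, fun m g hg => ?_, fun V₁ f₁ ⟨s, s1, s2⟩ r hr => ?_⟩
  · refine F_of_eq (F_mul0 (cst_F G₁ (-κ)) (sec Z.C hZ.fin A R.h1 R.v1 hg).1) ?_
    rw [h₁, Derivation.smul_apply, smul_eq_mul, map_neg]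
    ring
  have hK : Pool.Agent.MP_cce4c9_lc.H87.IsFF ℂ (Kz t) := M3BK.isFF_base Z.C hZ.fin h.tr
    (σ := ⟨_, A.t0⟩) (tr_of_nc fun c e => ne_of_der ⟨C'.D 1, by simp [A.t1]⟩ c
      (congrArg Subtype.val e))
  obtain ⟨P, hP'⟩ := Pool.Agent.MP_cce4c9_lc.H7.dvr ℂ _ hK (V₁.comap (algebraMap (Kz t) L)) f₁.2
    fun e => s2 (ValuationSubring.mem_comap.1 (e.ge (ValuationSubring.mem_top ⟨s, hS s s1⟩)))
  obtain ⟨x, hx, x1⟩ : ∃ x : DV (Kz t), (∀ c : Kz t, (c : L) ∈ V₁ ↔ c ∈ x.F 0) ∧ ∃ π, x.v π = 1 :=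
    ⟨M3J.dvP P, fun c => (hP' c).trans M3J.mem_dvP0.symm, _,
      P.ord_eq (M3C.val_unif P)⟩
  have T₁ := tw_of (M3H47.rl_of h.tr h.gen) R.h1 R.v1 f₁.1 hx
  obtain ⟨V₂, T₂⟩ := exists_tw (M3H47.rl_inv h.tr h.gen) R.h2 (v_inv R.v2) x
  have s3 : (⟨s, hS s s1⟩ : Kz t) ∉ x.F 0 := fun e => s2 ((hx _).2 e)
  have key : ∀ q Γ, Gs x (C'.z 0) q Γ → ∃ a : ℚ, Crv Γ ∧ Exp Z.d Γ a ∧ Z.Ps Γ.O := fun q Γ e => by
    obtain ⟨π, hπ⟩ := e.sur h x1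
    obtain ⟨g, hg⟩ := e.nc h x1
    obtain ⟨C'', -, hA⟩ := cv_at Z.C hZ.fin hπ hg.1 hg.2
    refine ⟨_, ⟨⟨π, hπ⟩, g, hg⟩, exp_cv hA hZ.ψ0 hZ.rat, s, s1, fun n => s3 (n.imp
      (fun n => Subtype.ext n) fun n => ?_)⟩
    exact nonneg_of_mul_nonneg_right (n.trans_eq (e.base h ⟨s, _⟩)) (Int.natCast_pos.2 q.den_pos)
  have p1 : ∀ q Γ, Gs x (C'.z 0) q Γ → ∀ r, Gi Z.ρ Γ.O r →
      ∃ c : ℂ, Z.Φ (Z.θ r - Θ₁) - algebraMap ℂ L c ∈ Γ.F 1 := fun q Γ e r hr => by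
    obtain ⟨a, a1, a2, a3⟩ := key q Γ e
    obtain ⟨n, n1, n2⟩ := (hcc Γ a a1 a2 a3 r hr).1
    refine hP L ι Z hZ Γ a (min n 0) _ a1 a2 ?_ ?_
    · rcases min_choice n 0 with e | e <;> rw [e]
      exacts [n1, by simpa using hpos Γ a a1 a2 a3]
    · have e1 : ex Z.d Z.C (Z.θ r - Θ₁) = Z.X Θ₁ - Z.X (Z.θ r) := by
        rw [M3J.ex_sub, QD.X, QD.X]
        abel
      rw [e1, h₁]
      exact sub_mem (M3J.LV_anti (min_le_right _ _) fun m g hg =>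
        F_mul0 (neg_mem (cst_F Γ κ)) (eul_gs h A e m g hg)) (M3J.LV_anti (min_le_left _ _) n2)
  obtain ⟨c, hc⟩ := pathI (u := fun r => Z.Φ (Z.θ r - Θ₁)) h hZ.ne p1 fun q Γ e r r' hr hr' => by
    obtain ⟨a, a1, a2, a3⟩ := key q Γ e
    obtain ⟨c, hc⟩ := p1 q Γ e r' hr'
    have h3 := add_mem (M3Z.F10 hc) (cst_F Γ c)
    rw [sub_add_cancel] at h3
    have := pow_sub (V := Γ.O) h3 (sm_O.2 ((hcc Γ a a1 a2 a3 r hr).2 r' hr'))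
    rw [add_comm, sub_add_sub_cancel] at this
    exact sm_O.1 this
  have l1 : ∀ g ∈ G₁.F 1, ∀ᶠ q : ℚ in atTop, ∀ Γ, Gs x (C'.z 0) q Γ → g ∈ Γ.F 1 := fun g hg =>
    ((tendsto_ratCast_atTop_iff.2 tendsto_id).eventually
      (h.pos_top x (fun c => R.h1.2 _ c.2) R.v1 hg 0)).mono fun _ hq _ e => e.pos.2 hq
  have l2 : ∀ g ∈ G₂.F 1, ∀ᶠ q : ℚ in atBot, ∀ Γ, Gs x (C'.z 0) q Γ → g ∈ Γ.F 1 := fun g hg =>
    ((tendsto_ratCast_atBot_iff.2 tendsto_id).eventually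
      (h.pos_bot x (fun c => R.h2.2 _ c.2) R.v2 hg 0)).mono fun _ hq _ e => e.pos.2 hq
  have c0 : c = 0 := by
    obtain ⟨r₂, h3⟩ := exists_gi hZ.ne V₂
    have f₂ := T₂.fg R.h2
    have h4 := c₂ V₂ f₂ ⟨s, s1, fun n => s3 ((T₂.base R.h2).1 n)⟩ r₂ h3
    have h5 := pow_sub h4.1 (F1_mem f₂.1 h₂)
    rw [sub_add_sub_cancel] at h5
    have h6 : Sm V₂ (Z.Φ (Z.θ r₂ - Θ₁)) := by
      rw [sm_iff] at h4 h5 ⊢
      simpa [QD.Φ] using V₂.valuation.map_add_lt h5 h4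
    obtain ⟨q, q1, q2⟩ := ((T₂.ev1 h R.h2 l2 h6).and (T₂.gi h l2 h3)).exists
    obtain ⟨Γ, e⟩ := h.exists_gs x q
    exact cst_F1 (by simpa using sub_mem (q1 Γ e) (hc q Γ e _ (q2 Γ e)))
  by_contra n
  obtain ⟨q, q1, q2⟩ := ((T₁.ev2 h l1 n).and (T₁.gi h l1 hr)).exists
  obtain ⟨Γ, e⟩ := h.exists_gs x q
  exact q1 Γ e (by simpa [c0] using hc q Γ e _ (q2 Γ e))

end

end Pool.Agent.MP_ee8c61_ag.Q3IZ
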