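import Pool.Agent.MP_ee8c61_ag.Q3IZ.Core
import Pool.Agent.MP_ee8c61_ag.Q3IZ.RA0
import Pool.Agent.MP_ee8c61_ag.Q3IZ.RBig
import Pool.Agent.MP_ee8c61_ag.Q3IZ.RBx0
import Pool.Agent.MP_ee8c61_ag.Q3IZ.RBx1
import Pool.Agent.MP_ee8c61_ag.Q3IZ.RCC
import Pool.Agent.MP_ee8c61_ag.Q3IZ.RCu
import Pool.Agent.MP_ee8c61_ag.Q3IZ.RDict
import Pool.Agent.MP_ee8c61_ag.Q3IZ.RE0
import Pool.Agent.MP_ee8c61_ag.Q3IZ.RE1
import Pool.Agent.MP_ee8c61_ag.Q3IZ.RE2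
import Pool.Agent.MP_ee8c61_ag.Q3IZ.RE3
import Pool.Agent.MP_ee8c61_ag.Q3IZ.REdgeB
import Pool.Agent.MP_ee8c61_ag.Q3IZ.REndB
import Pool.Agent.MP_ee8c61_ag.Q3IZ.RExA
import Pool.Agent.MP_ee8c61_ag.Q3IZ.RExB
import Pool.Agent.MP_ee8c61_ag.Q3IZ.RFF
import Pool.Agent.MP_ee8c61_ag.Q3IZ.RFlag
import Pool.Agent.MP_ee8c61_ag.Q3IZ.RKit
import Pool.Agent.MP_ee8c61_ag.Q3IZ.RLat
import Pool.Agent.MP_ee8c61_ag.Q3IZ.RLd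
import Pool.Agent.MP_ee8c61_ag.Q3IZ.RLv
import Pool.Agent.MP_ee8c61_ag.Q3IZ.RNf
import Pool.Agent.MP_ee8c61_ag.Q3IZ.RNice
import Pool.Agent.MP_ee8c61_ag.Q3IZ.RPV
import Pool.Agent.MP_ee8c61_ag.Q3IZ.RPot
import Pool.Agent.MP_ee8c61_ag.Q3IZ.RRes
import Pool.Agent.MP_ee8c61_ag.Q3IZ.RSd
import Pool.Agent.MP_ee8c61_ag.Q3IZ.RSwap
import Pool.Agent.MP_ee8c61_ag.Q3IZ.RUni
import Pool.Agent.MP_ee8c61_ag.Q3IZ.RVx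
import Pool.Agent.MP_ee8c61_ag.Q3IZ.RVx1
import Pool.Agent.MP_ee8c61_ag.Q3IZ.RVxc

/-! Simple roots: the rows are put together. -/

namespace Pool.Agent.MP_ee8c61_ag.Q3IZ

theorem vx_of (rul : SRul) : SVx :=
  have uni := rowUni rowFF
  have vxc := rowVxc (rowPot rowFF)
  rowVx rul vxc (rowVx1 uni rul vxc rowBx0 rowRes (rowBx1 rowRes) rowExA rowExB)

theorem siz_of' (E : M3E.EOut) (P : Q3.POut) (rul : SRul) (dat : OfDat) : Q3.SIZ :=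
  have lat := rowLat rowKit rowNf
  have cu := rowCu rowKit rowNf (rowA0 rowKit)
  siz_of ⟨E, P, rowNice E, dat E, rowSd E, rowKit, rowCC rowKit lat, cu, rowBig rowKit lat,
    rowSwap E, rowEdgeB rowPV (rowDict rowFF) rowLd rowKit (rowLv rowKit) cu (rowE0 rowKit)
      (rowE1 rowKit) (rowE2 rowKit) (rowE3 rowKit), rowFlag E, rowUni rowFF, vx_of rul, rowEndB⟩

end Pool.Agent.MP_ee8c61_ag.Q3IZ
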