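import Pool.Agent.MP_ee8c61_ag.Q3IZ.TDefs

/-!
Simple roots: the complete core curves of exponent zero are contracted; the assembly.
-/

namespace Pool.Agent.MP_ee8c61_ag.Q3IZ

open H59 hiding pd
open M3 M3E M3RESID M3F
open M3Z (cmp Fl)

noncomputable section

/-- The rows that enter the assembly. -/
structure Rows : Prop where
  E : EOut
  P : Q3.POut
  nice : TNice
  dat : TDat
  sd : TSd
  kit : TKit
  cc : TCC
  cu : TCu
  big : TBig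
  swap : TSwap
  edge : TEdge
  flag : TFlag
  uni : SUni
  vx : SVx
  fin : SEnd

theorem Fz.pl {L k : Type} [Field L] [Algebra ℂ L] [Field k] [Algebra ℂ k] {M : Mod 3} {f : Po 3}
    {la : ℚ} {U : Cov M} {P : Pl (KK 3) L} {G : Pl L k} {o j : M.J} (h : Fz f la U P G o j) :
    Fz f la U P G.o.pl o j :=
  ⟨⟨h.fl.ok, h.fl.bas, h.fl.der, h.fl.cv, h.fl.unr, h.fl.po, h.fl.nrm, h.fl.isc⟩, h.t1, h.t2,
    h.cpl, h.nt⟩

theorem no_flag (R : Rows) {f : Po 3} {la : ℚ} {b : Polynomial ℂ} {β : Fin 3 → PX 3 (KK 3)}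
    {Q : PX 3 (KK 3)} {M : Mod 3} {U : Cov M} {D : DT U.κ} (H : Hs f la b β Q M U D)
    (hb : b.derivative.eval (-(la : ℂ)) ≠ 0) (C : Ch f M) (ht : C.t = 0)
    (hP : C.P M.nu = C.D.pb U.P) (hB : ∀ o, ¬C.Dead o → U.Big o) :
    IsEmpty (Σ (o j : {o // U.Top la o}),
      {Γ : DV (M.v o.1).kf // Fz f la U (M.v o.1).pl Γ.pl o.1 j.1}) := by
  classical
  obtain ⟨hA, hF⟩ := R.flag f la b β Q M U C H.ok H.cov ht hP
  choose X hX using fun o : {o // U.Top la o} => R.P.av f la b β Q M o.1 H.hyp H.ok o.2.1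
  choose Y hY using fun o : {o // U.Top la o} => R.P.as f la M C o.1 H.ok o.2.1
  choose p i0 hS using fun o : {o // U.Top la o} =>
    R.sd f la β M U o.1 (X o) H.ok H.cov o.2 (hX o)
  let S : ∀ o : {o // U.Top la o}, Sd (M.v o.1).kf U.κ := fun o =>
    ⟨(M.v o.1).pl, (X o).Co, (X o).q, (X o).ψ, (X o).d, (X o).v, p o, i0 o⟩
  have hS' : ∀ o, (S o).OK f la β o.1 := hS
  have hZ : ∀ o, ((S o).qd D).OK := fun o => (R.kit f la b β Q M U D _ (S o) o.1 H (hS' o)).1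
  have ha : ∀ i : M.J, (0 : ℚ) < M.a i := fun i => Nat.cast_pos.2 (H.ok.pos i)
  have hh : ∀ o j : M.J, C.hp o j = M.a j * (C.h j / M.a j - C.h o / M.a o) := fun o j => by
    have := (ha j).ne'
    simp only [Ch.hp, Mod.q, Mod.aa, Pi.sub_apply, Pi.smul_apply, smul_eq_mul, Int.cast_natCast]
    field_simp
  refine R.fin {o // U.Top la o} _ (fun o => C.h o.1 / M.a o.1) (fun o => M.a o.1)
    (fun φ => φ.1) (fun φ => φ.2.1) (fun φ κ => ((S φ.1).qd D).Cl φ.2.2.1 κ) _ hb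
    (fun i => ha i.1) ?_ ?_ ?_
  · rintro ⟨o, j, Γ, h⟩ κ κ'
    exact R.uni _ _ _ (hZ o) Γ (R.cu f la b β Q M U D _ (S o) o.1 H (hS' o) _ Γ.pl j.1 h) κ κ'
  · rintro ⟨o, j, Γ, h⟩
    obtain ⟨G', h', t, t'⟩ := R.swap f la M U _ _ _ (M.v o.1).pl Γ.pl (M.v j.1).pl o.1 j.1 H.cov
      h rfl
    refine ⟨⟨j, o, G'.o, h'.pl⟩, rfl, rfl, fun κ κ' e => ⟨?_, ?_⟩⟩
    · exact R.edge f la b β Q M U D _ _ _ (S o) Γ.pl (S j) G' o.1 j.1 H (hS' o) (hS' j) h h' t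
        κ κ' (by simpa using e)
    · exact R.edge f la b β Q M U D _ _ _ (S j) G' (S o) Γ.pl j.1 o.1 H (hS' j) (hS' o) h' h t'
        κ' κ (by simpa [add_comm] using e)
  · rintro ⟨o, j, Γ, h⟩
    by_cases hg : U.Big o.1
    · exact Or.inl (R.big f la b β Q M U D _ (S o) o.1 H (hS' o) _ Γ.pl j.1 h hg)
    have s : Q3.Sit0 f la b β Q M C o.1 := ⟨H.hyp, H.ok, o.2.1, (hA _).2 o.2.2⟩
    have k := R.P.ok f la b β Q M C o.1 (X o) (Y o) s (hX o) (hY o)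
    obtain ⟨f1, f2, f3⟩ := hF o.1 (X o) (Y o) s (hX o) (hY o) k
    let j' : C.Nb o.1 := ⟨j.1, h.fl.isc.1, (hA _).2 j.2.2⟩
    have hL : Lk (C.sd la b o.1 (X o) (Y o)) ((S o).qd D) := ⟨rfl, rfl, fun s hs h0 G hG => by
      obtain ⟨s, hs', rfl⟩ := Finset.mem_image.1 hs
      exact f1 s hs' h0 G hG⟩
    rcases R.vx _ _ _ (hZ o) _ k
      (R.P.small f la b β Q M C o.1 (X o) (Y o) s (hX o) (hY o) (not_not.1 (mt (hB _) hg))) ht hL
      (R.cc f la b β Q M U D _ (S o) o.1 H (hS' o)) Γ j' (f3 Γ j' h)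
      (R.cu f la b β Q M U D _ (S o) o.1 H (hS' o) _ Γ.pl j.1 h) with
      ⟨g1, g2⟩ | ⟨G₂, j₂, g1, g2, g3⟩
    · refine Or.inr (Or.inl ⟨?_, g2⟩)
      have g3 : 0 < C.hp o.1 j.1 := g1
      rw [hh] at g3
      exact sub_pos.1 ((mul_pos_iff_of_pos_left (ha _)).1 g3)
    · have h₂ := f2 G₂ j₂ g1
      refine Or.inr (Or.inr ⟨⟨o, ⟨j₂.1, h₂.t2⟩, G₂, h₂⟩, rfl, ?_, g3⟩)
      have g4 : 0 < C.hp o.1 j.1 + C.hp o.1 j₂.1 := g2
      rwa [hh, hh] at g4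

theorem siz_of (R : Rows) : Q3.SIZ := by
  intro f la b β Q M' H hM' h0 h1
  obtain ⟨M, Dm, hM, hU⟩ := R.nice f la M' hM'
  refine ⟨M, Dm, hM, fun C o X Y s hX hY ht Γ j g1 g2 g3 g4 => ?_⟩
  obtain ⟨U, hU, hC⟩ := hU.resolve_left fun h => h C ht
  obtain ⟨D, hD⟩ := R.dat f la b β Q M U H h0 hM hU
  by_contra g5
  have h := ((R.flag f la b β Q M U C hM hU ht (hC C ht).1).2 o X Y s hX hY
    (R.P.ok f la b β Q M C o X Y s hX hY)).2.1 Γ j ⟨g1, g2, g3, g4, g5⟩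
  exact (no_flag R ⟨R.E, H, h0, hM, hU, hD⟩ h1 C ht (hC C ht).1 (hC C ht).2).false
    ⟨⟨o, h.t1⟩, ⟨j.1, h.t2⟩, Γ, h⟩

end

end Pool.Agent.MP_ee8c61_ag.Q3IZ
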