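import Pool.Agent.MP_ee8c61_ag.Q3IZ.TDefs

/-!
The equation of order one on a double curve.
-/

namespace Pool.Agent.MP_ee8c61_ag.Q3IZ

open H59 hiding pd
open M3 M3E M3RESID M3F
open M3J (ex br)
open M3Z (cmp Fl)

noncomputable section

namespace RE2

variable {L k : Type} [Field L] [Algebra ℂ L] [Field k] [Algebra ℂ k] {P : Pl (KK 3) L}
  {G : Pl L k} {X : VF (KK 3)} {X' : VF L} {n : k}

/-- The logarithmic derivative of a unit vanishes on the curve. -/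
theorem unit (hR : P.Rs X X') (hn : Nor G X' n) {W : KK 3} (hW : Un (cmp P G.o.O) W) :
    X W / W ∈ cmp P G.o.O ∧ G.π (P.π (X W / W)) = 0 := by
  obtain ⟨a1, a2⟩ := M3Z.un_cmp.1 hW
  rw [P.o.un_O] at a1
  rw [G.o.un_O] at a2
  have r1 := hR.dlog a1.1 a1.2
  have r2 : X' (P.π W) / P.π W ∈ G.o.F 1 := by
    have := F_div (hn.2.1 _ (Or.inr a2.2.ge)) (P.π W)
    rwa [a2.2, sub_zero] at this
  exact ⟨⟨LV_dlog hR.1 _, r1 ▸ M3Z.F10 r2⟩, r1 ▸ M3Z.pi_F1 r2⟩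

variable {f : Po 3} {M : Mod 3} {o j : M.J} {a : M.ι}

/-- The logarithmic derivative of the equation of the curve is the normal component. -/
theorem nor (h : Fl f M P G o j) (ha : M.In a (cmp P G.o.O)) (hR : P.Rs X X') (hn : Nor G X' n) :
    X (M.η a j) / M.η a j ∈ cmp P G.o.O ∧ G.π (P.π (X (M.η a j) / M.η a j)) = n := by
  have v0 : P.o.v (M.η a j) = 0 := by rw [h.v_η ha, if_neg h.isc.1.symm]
  have r1 := hR.dlog (M.η_ne a j) v0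
  exact ⟨⟨LV_dlog hR.1 _, r1 ▸ LV_dlog hn.1 _⟩, r1 ▸ hn.2.2 _ (h.v_i ha)⟩

theorem split (h : Fl f M P G o j) (ha : M.In a (cmp P G.o.O)) : ∃ W, Un (cmp P G.o.O) W ∧
    X (ip 3 f) / ip 3 f =
      X W / W + M.a o * (X (M.η a o) / M.η a o) + M.a j * (X (M.η a j) / M.η a j) := by
  obtain ⟨U, hU, eU⟩ := h.ok.ord a
  have uU : Un (cmp P G.o.O) U := ⟨U.ne_zero, ha _ hU.1, by simpa using ha _ hU.2⟩
  have u1 := uU.mul (h.un_fl ha M.aa)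
  have e1 : M.aa = M3Z.fl o j M.aa + (M.aa o • M.e o + M.aa j • M.e j) := funext fun i => by
    have := h.isc.1
    simp only [M3Z.fl, Pi.add_apply, Pi.smul_apply, M.e_apply, smul_eq_mul]
    by_cases h1 : i = o
    · subst h1; simp [this.symm]
    by_cases h2 : i = j
    · subst h2; simp [h1]
    · simp [h1, h2]
  refine ⟨_, u1, ?_⟩
  have z1 := zpow_ne_zero (M.aa o) (M.η_ne a o)
  have z2 := zpow_ne_zero (M.aa j) (M.η_ne a j)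
  have e2 : ip 3 f = U * M.mon a (M3Z.fl o j M.aa) * (M.η a o ^ M.aa o * M.η a j ^ M.aa j) := by
    rw [← h.bas.mon_e, ← h.bas.mon_e, ← h.bas.mon_add, mul_assoc, ← h.bas.mon_add, ← e1, eU]
  rw [e2, dlog_mul X u1.1 (mul_ne_zero z1 z2), dlog_mul X z1 z2, dlog_zpow X (M.η_ne a o),
    dlog_zpow X (M.η_ne a j), add_assoc]
  simp only [Mod.aa, Int.cast_natCast]

/-- The component along the first divisor lies in the local ring of the curve. -/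
theorem lc {la : ℚ} {U : Cov M} (hU : U.OK la) (hF : Fz f la U P G o j) {r : U.κ}
    (ha : M.In (U.bb r) (cmp P G.o.O)) (ht : (U.t r)⁻¹ ∈ cmp P G.o.O)
    (hX : ∀ l, U.L2 U.c0 r X l) :
    Lc (M.S.A (U.bb r)) (cmp P G.o.O) (X (M.η (U.bb r) o) / M.η (U.bb r) o) := by
  have h := hF.fl
  obtain ⟨l0, l1, l2, hl⟩ := h.labels ha
  have ut : Un (cmp P G.o.O) (U.t r) := ⟨hU.ac.ne r, ha _ (hU.ac.mem r), ht⟩
  obtain ⟨e, he⟩ := (M3L.mem_aw (hU.ac.mem r) (hU.ac.ne r)).1 (hX l0)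
  have c0 : ∀ i, U.c0 i = ⌈U.P i⌉ := fun i => congrFun hU.cl i
  have top : ∀ i, U.Top la i → (M.kk + 1 - U.c0) i = 0 := fun i hi => by
    have : ⌈U.P i⌉ = (M.k i : ℤ) + 1 := by
      rw [hi.2]
      exact_mod_cast Int.ceil_intCast (R := ℚ) ((M.k i : ℤ) + 1)
    simp [Mod.kk, c0, this]
  have hun := h.un_fl ha (M.kk + 1 - U.c0)
  rw [M3Z.fl_eq (top o hF.t1) (top j hF.t2)] at hun
  have hm : M.mon (U.bb r) (M.kk + 1 - U.c0) ∈ M.S.A (U.bb r) := h.bas.mon_mem _ _ fun i => by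
    have : ⌈U.P i⌉ ≤ (M.k i : ℤ) + 1 := Int.ceil_le.2 (by
      simpa [Mod.nu] using hU.le i)
    simp only [Pi.zero_apply, Pi.sub_apply, Pi.add_apply, Pi.one_apply, Mod.kk, c0]
    omega
  refine ⟨U.t r ^ e * M.mon (U.bb r) (M.kk + 1 - U.c0), mul_mem (pow_mem (hU.ac.mem r) e) hm,
    (ut.pow e).mul hun, ?_⟩
  rw [M3Z.Lb.un hl.h0] at he
  rw [Mod.η, M.S.η_some _ o l0 hl.h0, mul_assoc, mul_comm (M.mon _ _)]
  exact he

end RE2

theorem rowE2 : OfE2 := by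
  intro hK f la b β Q M U D L L' k _ _ _ _ _ _ S G S' G' o j hs hS hS' hF hF' hT e r u n n' he hr
    hu hn hn'
  have h := hF.fl
  have h' := hF'.fl
  obtain ⟨-, k2, -, k4⟩ := hK f la b β Q M U D L S o hs hS
  obtain ⟨-, -, -, k4'⟩ := hK f la b β Q M U D L' S' j hs hS'
  have ov := h.isc.2.1
  have ov' := h'.isc.2.1
  have ac := hs.cov.ac
  obtain ⟨ha, ht⟩ := (ac.gen r _ ov).1 (((k2 _ ov).1 r).1 hr)
  have ha' := (hT.inn _).1 ha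
  have ut : Un (cmp S.P G.o.O) (U.t r) := ⟨ac.ne r, ha _ (ac.mem r), ht⟩
  have ht' : (U.t r)⁻¹ ∈ cmp S'.P G'.o.O :=
    (hT.lc _ ha _ ((Lc.of_mem (ac.mem r)).inv ut)).1.mem' ha'
  have hR : S.P.Rs (D.X0 f la β r) ((S.qd D).X ((S.qd D).θ r)) := hS.p1 _ (k4 r _
    ((ac.gen r _ fun p => (ov p).1).2 ⟨fun g hg => (ha g hg).1, ht.1⟩) (hs.dt.x0 r))
  have hR' : S'.P.Rs (D.X0 f la β r) ((S'.qd D).X ((S'.qd D).θ r)) := hS'.p1 _ (k4' r _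
    ((ac.gen r _ fun p => (ov' p).1).2 ⟨fun g hg => (ha' g hg).1, ht'.1⟩) (hs.dt.x0 r))
  obtain ⟨W, hW, eW⟩ := RE2.split (X := D.X0 f la β r) h ha
  obtain ⟨m0, e0⟩ := RE2.unit hR hn hW
  obtain ⟨m1, e1⟩ := RE2.nor h ha hR hn
  have hc := RE2.lc hs.cov hF ha ht (hs.dt.x0 r)
  have m2 := hc.mem' ha
  have e2 := (hT.lc _ ha _ hc).2.symm.trans (RE2.nor h' ha' hR' hn').2
  obtain ⟨p, hp⟩ := hs.dt.eq r
  obtain ⟨X', h1, h2⟩ := hu
  have e3 : S.P.π (ip 3 f) = 0 := by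
    have := ((h.bas.gen_v o _ _).1 (h.bas.gen_f _)).2
    have h3 := h.ok.pos o
    rw [← h.po, Pi.neg_apply, neg_neg, Mod.aa] at this
    exact M3Z.pi_F1 (Or.inr (by omega))
  have nat : ∀ m : ℕ, (m : KK 3) ∈ cmp S.P G.o.O ∧ G.π (S.P.π m) = m := fun m =>
    ⟨natCast_mem _ m, by rw [M3Z.pi_nat, M3Z.pi_nat]⟩
  have m3 := mul_mem (nat (M.a o)).1 m2
  have m4 := mul_mem (nat (M.a j)).1 m1
  have m5 := mul_mem (ov f) (ov p)
  rw [← he _ _ h2, ← hS.rd _ _ h1, eq_sub_of_add_eq hp, eW,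
    M3Z.p2_sub (add_mem (M3Z.cst_cmp _) m5) (add_mem (add_mem m0 m3) m4),
    M3Z.p2_add (M3Z.cst_cmp _) m5, M3Z.p2_add (add_mem m0 m3) m4, M3Z.p2_add m0 m3,
    M3Z.p2_mul (nat _).1 m2, M3Z.p2_mul (nat _).1 m1, M3Z.p2_mul (ov f) (ov p), M3Z.p2_cst,
    (nat _).2, (nat _).2, e0, e1, e2, e3, G.π_zero]
  ring

end

end Pool.Agent.MP_ee8c61_ag.Q3IZ
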