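import Pool.Agent.MP_ee8c61_ag.Q3IZ.TDefs
import Pool.Agent.MP_ee8c61_ag.Q3IZ.RDict

/-!
Normal components and leading terms exist.
-/

namespace Pool.Agent.MP_ee8c61_ag.Q3IZ

open M3 M3RESID
open M3J (ex br)

open RDict in
theorem rowLd : SLd := by
  intro L ι _ _ _ Z hZ k _ _ G hC t ht
  obtain ⟨⟨x, hx⟩, g, hg⟩ := hC.crv
  obtain ⟨C', -, hA⟩ := cv_at Z.C hZ.fin hx hg.1 hg.2
  obtain ⟨D, hD⟩ := M3Z.exists_Rs G (hA.D_LV (j := 1) (by decide))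
  have hE := hC.exp
  have hs : ∀ s t, Z.X t - Z.X s = ex Z.d Z.C (s - t) := fun s t => by
    rw [QD.X, QD.X, M3J.ex_sub]
    abel
  obtain ⟨Θ, h0, h1⟩ := hC.a0
  refine ⟨⟨_, nor_of hx ht (fun u hu => ?_) rfl⟩, fun t' ht' => ⟨_, lead_of hA hD
    (co_of_ex hA hE (hs t t' ▸ sub_mem ht' ht))⟩⟩
  have h2 : Z.X t - Z.X Θ ∈ Z.d.Ex := hs Θ t ▸ M3J.ex_mem _ _ _
  have h3 := add_mem (M3Z.exact_F1 hA hE h2 (sub_mem ht h0) hu) (h1 u hu)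
  rwa [Derivation.sub_apply, sub_add_cancel] at h3

end Pool.Agent.MP_ee8c61_ag.Q3IZ
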