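import Pool.Agent.MP_ee8c61_ag.Q3.Defs
import Pool.Agent.MP_ee8c61_ag.M3Z.Zero

/-!
Simple roots: potentials on a surface, classes along a curve of exponent zero; the statements.
-/

namespace Pool.Agent.MP_ee8c61_ag.Q3IZ

open M3 M3RESID M3F Pool.Agent.MP_cce4c9_lc.H87
open M3J (ex br)
open M3Z (cmp)

noncomputable section

section Val

variable {L k : Type} [Field L] [Field k]

/-- `g` lies in the maximal ideal of `V`. -/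
def Sm (V : ValuationSubring L) (g : L) : Prop := g ∈ V ∧ ¬Un V g

/-- The element with index `r` generates the family at `V`. -/
def Gi {ι : Type} (ρ : ι → L) (V : ValuationSubring L) (r : ι) : Prop :=
  ρ r ≠ 0 ∧ ∀ r', ρ r' / ρ r ∈ V

variable [Algebra ℂ L] [Algebra ℂ k]

/-- A curve on a surface. -/
def Crv (Γ : DV L) : Prop := (∃ π, Γ.v π = 1) ∧ ∃ g, NC Γ g

/-- `V` refines the valuation ring of `G`. -/
def Fg (G : DV L) (V : ValuationSubring L) : Prop := V ≤ G.O ∧ ∀ c : ℂ, algebraMap ℂ L c ∈ V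

/-- Along `G` the field is `κ` times the Euler field. -/
def EulK (G : DV L) (X : VF L) (κ : ℂ) : Prop :=
  ∀ m : ℤ, ∀ g ∈ G.F m, X g - algebraMap ℂ L κ * m * g ∈ G.F (m + 1)

/-- The field is logarithmic, vanishes on the curve, and has normal component `n`. -/
def Nor (G : Pl L k) (X : VF L) (n : k) : Prop :=
  X ∈ LV G.o 0 ∧ (∀ g ∈ G.o.F 0, X g ∈ G.o.F 1) ∧ ∀ y, G.o.v y = 1 → G.π (X y / y) = n

/-- The field `w` on the curve is the leading term of the potential `t`. -/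
def Lead (C : Co L 2) (G : Pl L k) (t : L) (w : VF k) : Prop :=
  ∀ y, G.o.v y = 1 → ∀ z ∈ G.o.F 0,
    t * br C y z / y ∈ G.o.F 0 ∧ G.π (t * br C y z / y) = w (G.π z)

/-- The twisted function attached to the field `w` on a curve vanishes at `W`. -/
def PosV (e : Dv k) (W : ValuationSubring k) (w : VF k) : Prop :=
  w = 0 ∨ ∃ (q : ℕ) (F : k), 0 < q ∧ F ≠ 0 ∧ w F = q * e.δ w * F ∧ Sm W F

end Val

/-- A surface with a twisted volume form, a closed primitive, local potentials `θ` on the sets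
where the `ρ r` generate, and a family `S` that detects positivity. -/
structure QD (L : Type) [Field L] [Algebra ℂ L] (ι : Type) where
  C : Co L 2
  q : ℕ
  ψ : L
  d : Dv L
  v : VF L
  ρ : ι → L
  θ : ι → L
  S : Finset L
  m : ℕ

namespace QD

variable {L k ι : Type} [Field L] [Algebra ℂ L] [Field k] [Algebra ℂ k] (Z : QD L ι)

structure OK : Prop where
  fin : FiniteDimensional (IntermediateField.adjoin ℂ (Set.range Z.C.z)) L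
  q0 : 0 < Z.q
  ψ0 : Z.ψ ≠ 0
  rat : ∀ X, Z.d.δ X = Z.C.dv.δ X + X Z.ψ / (Z.q * Z.ψ)
  m0 : 0 < Z.m
  dv : Z.d.δ Z.v = 0
  ne : ∃ r, Z.ρ r ≠ 0

/-- The primitive corrected by a potential. -/
def X (t : L) : VF L := Z.v - ex Z.d Z.C t

/-- The power of the twisted function with potential `t`. -/
def Φ (t : L) : L := t ^ Z.q * Z.ψ

/-- The class is positive at `V`. -/
def Ps (V : ValuationSubring L) : Prop := ∃ s ∈ Z.S, s ∉ V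

/-- The exponent is positive where the class is positive. -/
def Pos : Prop := ∀ (Γ : DV L) (a : ℚ), Crv Γ → Exp Z.d Γ a → Z.Ps Γ.O → 0 < a

/-- The local primitives and the differences of the potentials have positive exponents. -/
def CC : Prop := ∀ (Γ : DV L) (a : ℚ), Crv Γ → Exp Z.d Γ a → Z.Ps Γ.O → ∀ r, Gi Z.ρ Γ.O r →
  (∃ n : ℤ, 0 < a + n ∧ Z.X (Z.θ r) ∈ LV Γ n) ∧
    ∀ r', Gi Z.ρ Γ.O r' → Z.Φ (Z.θ r - Z.θ r') ∈ Γ.F 1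

/-- A curve of exponent zero on which the class is not trivial. -/
structure Cu (G : DV L) : Prop where
  crv : Crv G
  exp : Exp Z.d G 0
  reg : ∀ s ∈ Z.S, s ∈ G.F 0
  nc : ∃ s ∈ Z.S, ∃ s' ∈ Z.S, s ∉ G.F 1 ∧ NC G (s' / s)
  lea : ∀ V, Fg G V → V ≠ G.O → ∃ y z, G.v y = 1 ∧ z ∉ G.F 1 ∧ Sm V z ∧
    ∀ s ∈ Z.S, (Z.ψ * (y * z / br Z.C y z) ^ Z.q) ^ Z.m * s ^ Z.q ∈ V
  a0 : ∃ Θ, Z.X Θ ∈ LV G 0 ∧ ∀ g ∈ G.F 0, Z.X Θ g ∈ G.F 1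

/-- The class of the primitive along `G` is `κ`. -/
def Cl (G : DV L) (κ : ℂ) : Prop := ∃ Θ, EulK G (Z.X Θ) κ ∧
  ∀ V, Fg G V → Z.Ps V → ∀ r, Gi Z.ρ V r → Sm V (Z.Φ (Z.θ r - Θ))

/-- The same, read on the curve. -/
def Ck (G : Pl L k) (e : Dv k) (κ : ℂ) : Prop := ∃ w : ι → VF k,
  (∀ r, Gi Z.ρ G.o.O r → Nor G (Z.X (Z.θ r)) (algebraMap ℂ k κ + e.δ (w r))) ∧
  (∀ r r', Gi Z.ρ G.o.O r → Gi Z.ρ G.o.O r' → Lead Z.C G (Z.θ r - Z.θ r') (w r - w r')) ∧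
  ∀ W : ValuationSubring k, (∀ c : ℂ, algebraMap ℂ k c ∈ W) → Z.Ps (cmp G W) →
    ∀ r, Gi Z.ρ (cmp G W) r → PosV e W (w r)

open Classical in
/-- The datum `Z₁` is the pull-back of `Z`. -/
structure Ext {L₁ : Type} [Field L₁] [Algebra ℂ L₁] [Algebra L L₁] (Z₁ : QD L₁ ι) : Prop where
  z : ∀ i, Z₁.C.z i = algebraMap L L₁ (Z.C.z i)
  D : ∀ i g, Z₁.C.D i (algebraMap L L₁ g) = algebraMap L L₁ (Z.C.D i g)
  q : Z₁.q = Z.q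
  ψ : Z₁.ψ = algebraMap L L₁ Z.ψ
  v : ∀ g, Z₁.v (algebraMap L L₁ g) = algebraMap L L₁ (Z.v g)
  ρ : ∀ r, Z₁.ρ r = algebraMap L L₁ (Z.ρ r)
  θ : ∀ r, Z₁.θ r = algebraMap L L₁ (Z.θ r)
  S : Z₁.S = Z.S.image (algebraMap L L₁)
  m : Z₁.m = Z.m
  ok : Z₁.OK

/-- The ruling with two sections of exponent zero. -/
structure Ru (t : L) (G₁ G₂ : DV L) (C' : Co L 2) (α : L) : Prop where
  rul : Rul C' (Kz t)
  h1 : Hor (Kz t) G₁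
  h2 : Hor (Kz t) G₂
  v1 : G₁.v (C'.z 0) = 1
  v2 : G₂.v (C'.z 0) = -1
  e1 : Exp Z.d G₁ 0
  e2 : Exp Z.d G₂ 0
  d0 : Z.d.δ (C'.th 0) = 0
  d1 : Z.d.δ (C'.D 1) ∈ Kz t
  α0 : α ∈ Kz t
  ex : Z.v - α • C'.th 0 ∈ Z.d.Ex

end QD

/-- The valuation `Γ₁` lies over `Γ` with index `e`. -/
def Ovr {L L₁ : Type} [Field L] [Field L₁] [Algebra L L₁] (Γ₁ : DV L₁) (Γ : DV L) (e : ℕ) : Prop :=
  0 < e ∧ ∀ g, Γ₁.v (algebraMap L L₁ g) = e * Γ.v g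

/-- A statement about all data. -/
def AllZ (p : ∀ {L ι : Type} [Field L] [Algebra ℂ L], QD L ι → Prop) : Prop :=
  ∀ (L ι : Type) [Field L] [Algebra ℂ L] [Fintype ι] (Z : QD L ι), Z.OK → p Z

/-- A statement about all finite extensions. -/
def AllE (p : ∀ {L L₁ ι : Type} [Field L] [Algebra ℂ L] [Field L₁] [Algebra ℂ L₁] [Algebra L L₁],
    QD L ι → QD L₁ ι → Prop) : Prop :=
  ∀ (L L₁ ι : Type) [Field L] [Algebra ℂ L] [Field L₁] [Algebra ℂ L₁] [Algebra L L₁]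
    [IsScalarTower ℂ L L₁] [FiniteDimensional L L₁] [Fintype ι] (Z : QD L ι) (Z₁ : QD L₁ ι),
    Z.OK → Z.Ext Z₁ → p Z Z₁

/-! ### Curves -/

/-- The residue field of a curve is a function field. -/
def SFF : Prop := ∀ (L k : Type) [Field L] [Algebra ℂ L] [Field k] [Algebra ℂ k] (C : Co L 2)
  (G : Pl L k), FiniteDimensional (IntermediateField.adjoin ℂ (Set.range C.z)) L → Crv G.o →
  IsFF ℂ k

/-- Twisted functions on a curve that vanish at a point form a vector space. -/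
def SPV : Prop := ∀ (k : Type) [Field k] [Algebra ℂ k] (e : Dv k) (W : ValuationSubring k),
  IsFF ℂ k → (∀ c : ℂ, algebraMap ℂ k c ∈ W) → ∀ w w', PosV e W w → PosV e W w' →
  ∀ a a' : ℂ, PosV e W (a • w + a' • w')

/-- The class is unique. -/
def SUni : Prop := AllZ fun Z => ∀ G, Z.Cu G → ∀ κ κ', Z.Cl G κ → Z.Cl G κ' → κ = κ'

def OfUni : Prop := SFF → SUni

/-- The class can be read on the curve. -/
def SDict : Prop := AllZ fun {L _} _ _ Z => ∀ (k : Type) [Field k] [Algebra ℂ k] (G : Pl L k)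
  (e : Dv k), Z.Cu G.o → G.RsD Z.d e → (∀ r, Gi Z.ρ G.o.O r → Z.X (Z.θ r) ∈ LV G.o 0) →
  ∀ κ, Z.Cl G.o κ ↔ Z.Ck G e κ

def OfDict : Prop := SFF → SDict

/-- A twisted function whose differential has positive exponent is constant on the curve. -/
def SPot : Prop := AllZ fun {L _} _ _ Z => ∀ (Γ : DV L) (a : ℚ) (n : ℤ) (u : L), Crv Γ →
  Exp Z.d Γ a → 0 < a + n → ex Z.d Z.C u ∈ LV Γ n →
  ∃ c : ℂ, Z.Φ u - algebraMap ℂ L c ∈ Γ.F 1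

def OfPot : Prop := SFF → SPot

/-! ### Ruled surfaces -/

/-- Two horizontal curves of exponent zero. -/
def SRul : Prop := AllZ fun {L _} _ _ Z => ∀ (t : L) (G₁ G₂ : DV L), (∃ X : VF L, X t ≠ 0) →
  G₁ ≠ G₂ → Hor (Kz t) G₁ → Hor (Kz t) G₂ → Exp Z.d G₁ 0 → Exp Z.d G₂ 0 →
  (∀ Γ, Hor (Kz t) Γ → Exp Z.d Γ 0 ∨ (Exp Z.d Γ 1 ∧ Good Z.d Z.v Γ)) →
  (∃ Θ, Z.X Θ ∈ LV G₁ 0 ∧ ∀ g ∈ G₁.F 0, Z.X Θ g ∈ G₁.F 1) → ∃ C' α, Z.Ru t G₁ G₂ C' α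

/-- The class changes sign from one section to the other. -/
def SVxc : Prop := AllZ fun Z => Z.Pos → Z.CC → ∀ t G₁ G₂ C' α, Z.Ru t G₁ G₂ C' α →
  (∀ s ∈ Z.S, s ∈ Kz t) → ∀ κ, Z.Cl G₂ κ → Z.Cl G₁ (-κ)

def OfVxc : Prop := SPot → SVxc

/-! ### Finite extensions -/

/-- The pull-back exists. -/
def SBx0 : Prop := AllZ fun {L ι} _ _ Z => ∀ (L₁ : Type) [Field L₁] [Algebra ℂ L₁] [Algebra L L₁]
  [IsScalarTower ℂ L L₁] [FiniteDimensional L L₁], ∃ Z₁ : QD L₁ ι, Z.Ext Z₁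

/-- Curves restrict to curves, exponents and lattices are multiplied by the index. -/
def SRes : Prop := AllE fun {L L₁ _} _ _ _ _ _ Z Z₁ =>
  (∀ t, ∀ g, ex Z₁.d Z₁.C (algebraMap L L₁ t) (algebraMap L L₁ g) =
    algebraMap L L₁ (ex Z.d Z.C t g)) ∧
  (∀ Γ₁ : DV L₁, Crv Γ₁ → ∃ (Γ : DV L) (e : ℕ), Crv Γ ∧ Ovr Γ₁ Γ e) ∧
  ∀ (Γ₁ : DV L₁) (Γ : DV L) (e : ℕ), (∃ π, Γ₁.v π = 1) → Crv Γ → Ovr Γ₁ Γ e → Crv Γ₁ ∧
    (∀ a : ℚ, Exp Z.d Γ a → Exp Z₁.d Γ₁ ((e * a : ℚ) : ℂ)) ∧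
    ∀ (X : VF L) (X₁ : VF L₁), (∀ g, X₁ (algebraMap L L₁ g) = algebraMap L L₁ (X g)) →
      (∀ n : ℤ, X ∈ LV Γ n → X₁ ∈ LV Γ₁ (e * n)) ∧
      (e = 1 → (∀ g ∈ Γ.F 0, X g ∈ Γ.F 0) → ∀ g ∈ Γ₁.F 0, X₁ g ∈ Γ₁.F 0) ∧
      (e = 1 → X ∈ LV Γ 0 → (∀ g ∈ Γ.F 0, X g ∈ Γ.F 1) → ∀ g ∈ Γ₁.F 0, X₁ g ∈ Γ₁.F 1)

/-- Positivity, curves and classes go up. -/
def SBx1 : Prop := AllE fun Z Z₁ => (Z.Pos → Z₁.Pos) ∧ (Z.CC → Z₁.CC) ∧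
  ∀ G G₁, Ovr G₁ G 1 → Z.Cu G → Z₁.Cu G₁ ∧ ∀ κ, Z.Cl G κ → Z₁.Cl G₁ κ

def OfBx1 : Prop := SRes → SBx1

/-- The conclusion of the two rows below: an extension in which `G` splits. -/
def Spl {L ι : Type} [Field L] [Algebra ℂ L] (Z : QD L ι) (t : L) (G : DV L) : Prop :=
  ∃ (L₁ : Type) (_ : Field L₁) (_ : Algebra ℂ L₁) (_ : Algebra L L₁) (_ : IsScalarTower ℂ L L₁)
    (_ : FiniteDimensional L L₁), (∃ G₁ G₂ : DV L₁, G₁ ≠ G₂ ∧ Ovr G₁ G 1 ∧ Ovr G₂ G 1) ∧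
    ∀ Γ₁, Hor (Kz (algebraMap L L₁ t)) Γ₁ → ∃ (Γ : DV L) (e : ℕ), Hor (Kz t) Γ ∧ Ovr Γ₁ Γ e ∧
      ((e = 1 ∧ (Γ = G ∨ (Exp Z.d Γ 1 ∧ Good Z.d Z.v Γ))) ∨
        (e = 2 ∧ Exp Z.d Γ ((1 / 2 : ℚ) : ℂ)))

/-- One horizontal curve of exponent zero, all the others are ordinary. -/
def SExB : Prop := AllZ fun {L _} _ _ Z => ∀ (t : L) (G : DV L), (∃ X : VF L, X t ≠ 0) →
  Hor (Kz t) G → Exp Z.d G 0 →
  (∀ Γ, Hor (Kz t) Γ → Γ ≠ G → Exp Z.d Γ 1 ∧ Good Z.d Z.v Γ) → Spl Z t G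

/-- One horizontal curve of exponent zero, and an orbifold curve. -/
def SExA : Prop := AllZ fun {L _} _ _ Z => ∀ (t : L) (G : DV L), (∃ X : VF L, X t ≠ 0) →
  Hor (Kz t) G → Exp Z.d G 0 →
  (∀ Γ, Hor (Kz t) Γ → Γ ≠ G → ∃ a : ℚ, Exp Z.d Γ a ∧ Hon Z.d Z.v Γ a) →
  (∃ Γ, ∃ r : ℕ, Hor (Kz t) Γ ∧ 2 ≤ r ∧ Exp Z.d Γ ((1 / r : ℚ) : ℂ)) → Spl Z t G

/-- With one horizontal curve of exponent zero the class vanishes. -/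
def SVx1 : Prop := AllZ fun {L _} _ _ Z => Z.Pos → Z.CC → ∀ (t : L) (G : DV L),
  (∃ X : VF L, X t ≠ 0) → (∀ s ∈ Z.S, s ∈ Kz t) → Hor (Kz t) G → Z.Cu G →
  (∀ Γ, Hor (Kz t) Γ → Γ ≠ G → ∃ a : ℚ, Exp Z.d Γ a ∧ Hon Z.d Z.v Γ a) →
  ∀ κ, Z.Cl G κ → κ = 0

def OfVx1 : Prop := SUni → SRul → SVxc → SBx0 → SRes → SBx1 → SExA → SExB → SVx1

/-! ### The vertex -/

/-- The datum `Z` belongs to the surface datum `D`. -/
structure Lk {L ι : Type} [Field L] [Algebra ℂ L] (D : SD L) (Z : QD L ι) : Prop where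
  d : Z.d = D.d
  v : Z.v = D.v
  S : ∀ s ∈ Z.S, s ≠ 0 → ∀ Γ, Cv D.x Γ → -(Z.m * D.α Γ) ≤ Γ.v s

/-- A complete core curve of exponent zero that is not contracted at time zero. -/
structure Cz {L : Type} [Field L] [Algebra ℂ L] (D : SD L) (Γ : DV L) (j : D.A) : Prop where
  cv : Cv D.x Γ
  core : D.Core j Γ
  al : D.al j = 0
  cpl : ∀ l, ¬NC Γ (D.x l)
  nn : ¬Null D.x D.S0 Γ

/-- The vertex of a divisor that is contracted. -/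
def SVx : Prop := AllZ fun {L _} _ _ Z => ∀ D : SD L, Q3.OK1 D → D.Small → D.t0 = 0 → Lk D Z →
  ((∀ l, D.x l ∈ Set.range (algebraMap ℂ L)) → Z.CC) → ∀ G j, Cz D G j → Z.Cu G →
  (0 < D.h j ∧ ∀ κ, Z.Cl G κ → κ = 0) ∨
    ∃ G₂ j₂, Cz D G₂ j₂ ∧ 0 < D.h j + D.h j₂ ∧ ∀ κ, Z.Cl G₂ κ → Z.Cl G (-κ)

def OfVx : Prop := SRul → SVxc → SVx1 → SVx

/-- The end of the argument. -/
def SEnd : Prop := ∀ (J F : Type) [Finite J] (θ N : J → ℚ) (o j : F → J) (Cl : F → ℂ → Prop)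
  (c : ℂ), c ≠ 0 → (∀ i, 0 < N i) → (∀ φ κ κ', Cl φ κ → Cl φ κ' → κ = κ') →
  (∀ φ, ∃ φ', o φ' = j φ ∧ j φ' = o φ ∧
    ∀ κ κ', (N (j φ) : ℂ) * κ + N (o φ) * κ' = c → (Cl φ κ ↔ Cl φ' κ')) →
  (∀ φ, Cl φ 0 ∨ (θ (o φ) < θ (j φ) ∧ ∀ κ, Cl φ κ → κ = 0) ∨ ∃ φ₂, o φ₂ = o φ ∧
    0 < N (j φ) * (θ (j φ) - θ (o φ)) + N (j φ₂) * (θ (j φ₂) - θ (o φ)) ∧
    ∀ κ, Cl φ₂ κ → Cl φ (-κ)) → IsEmpty F

end

end Pool.Agent.MP_ee8c61_ag.Q3IZ
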